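import Mathlib

set_option linter.unusedSectionVars false
set_option linter.style.haveILetI false

open MvPolynomial

namespace Pool.Agent.Bloch.Sep

section
variable {Ω : Type} [Field Ω] [IsAlgClosed Ω] {n : Type} [Fintype n]

/-- all maximal ideals have the same height -/
theorem height_origin_le (r : ℕ)
    (h : (vanishingIdeal Ω {(0 : n → Ω)} : Ideal (MvPolynomial n Ω)).height ≤ r) :
    Fintype.card n ≤ r := by
  have h1 : ringKrullDim (MvPolynomial n Ω) ≤ (r : WithBot ℕ∞) := by
    rw [ringKrullDim_le_iff_isMaximal_height_le]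
    intro m hm
    obtain ⟨x, rfl⟩ := (isMaximal_iff_eq_vanishingIdeal_singleton (K := Ω)).1 hm
    let e₁ : MvPolynomial n Ω →ₐ[Ω] MvPolynomial n Ω := aeval (fun s => X s + C (x s))
    let e₂ : MvPolynomial n Ω →ₐ[Ω] MvPolynomial n Ω := aeval (fun s => X s - C (x s))
    have h12 : e₁.comp e₂ = AlgHom.id Ω _ := by
      apply MvPolynomial.algHom_ext
      intro s
      simp [e₁, e₂, MvPolynomial.algebraMap_eq]
    have h21 : e₂.comp e₁ = AlgHom.id Ω _ := by
      apply MvPolynomial.algHom_ext
      intro s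
      simp [e₁, e₂, MvPolynomial.algebraMap_eq]
    let e : MvPolynomial n Ω ≃ₐ[Ω] MvPolynomial n Ω := AlgEquiv.ofAlgHom e₁ e₂ h12 h21
    have h2 : (vanishingIdeal Ω {(0 : n → Ω)} : Ideal (MvPolynomial n Ω)).comap e.toRingEquiv =
        vanishingIdeal Ω {x} := by
      ext f
      rw [Ideal.mem_comap, mem_vanishingIdeal_singleton_iff, mem_vanishingIdeal_singleton_iff]
      change aeval (0 : n → Ω) (e₁ f) = 0 ↔ _
      have : (aeval (0 : n → Ω)).comp e₁ = (aeval x : MvPolynomial n Ω →ₐ[Ω] Ω) := by
        apply MvPolynomial.algHom_ext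
        intro s
        simp [e₁]
      rw [← this]
      rfl
    rw [← h2, RingEquiv.height_comap]
    exact_mod_cast h
  rw [MvPolynomial.ringKrullDim_of_isNoetherianRing, ringKrullDim_eq_zero_of_field, zero_add,
    Nat.card_eq_fintype_card] at h1
  exact_mod_cast h1

/-- Fewer forms of positive degree than variables have a common nonzero zero. -/
theorem exists_common_zero {ι : Type} [Fintype ι] (hcard : Fintype.card ι < Fintype.card n)
    (p : ι → MvPolynomial n Ω) (e : ι → ℕ) (he : ∀ i, 0 < e i)
    (hp : ∀ i, (p i).IsHomogeneous (e i)) :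
    ∃ v : n → Ω, v ≠ 0 ∧ ∀ i, eval v (p i) = 0 := by
  by_contra hcon
  push Not at hcon
  set I : Ideal (MvPolynomial n Ω) := Ideal.span (Set.range p) with hI
  have h0 : ∀ i, eval (0 : n → Ω) (p i) = 0 := by
    intro i
    have h1 : eval (0 : n → Ω) (p i) = coeff 0 (p i) := by
      rw [← constantCoeff_eq, ← eval_zero']
      rfl
    rw [h1]
    by_contra h2
    have := hp i h2
    rw [map_zero] at this
    exact (he i).ne this
  have hz : zeroLocus Ω I = {(0 : n → Ω)} := by
    rw [hI, zeroLocus_span]
    ext v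
    rw [Set.mem_singleton_iff]
    constructor
    · intro hv
      by_contra hne
      obtain ⟨i, hi⟩ := hcon v hne
      exact hi (hv (p i) ⟨i, rfl⟩)
    · rintro rfl
      rintro _ ⟨i, rfl⟩
      exact h0 i
  have hrad : I.radical = vanishingIdeal Ω {(0 : n → Ω)} := by
    rw [← hz, vanishingIdeal_zeroLocus_eq_radical]
  have hmin : vanishingIdeal Ω {(0 : n → Ω)} ∈ I.minimalPrimes := by
    refine ⟨⟨inferInstance, ?_⟩, ?_⟩
    · rw [← hrad]; exact Ideal.le_radical
    · intro J hJ _
      rw [← hrad]
      exact (Ideal.IsPrime.radical_le_iff hJ.1).2 hJ.2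
  have hh := Ideal.height_le_card_of_mem_minimalPrimes_span (Set.finite_range p) hmin
  have h2 : (Set.range p).ncard ≤ Fintype.card ι := by
    rw [← Set.image_univ]
    refine (Set.ncard_image_le Set.finite_univ).trans ?_
    rw [Set.ncard_univ, Nat.card_eq_fintype_card]
  have h3 := height_origin_le (Fintype.card ι) (hh.trans (by exact_mod_cast h2))
  omega

end

end Pool.Agent.Bloch.Sep
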