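import Pool.Agent.H11.Sep.Good2
import Pool.Agent.H11.Sep.Zero

set_option linter.unusedSectionVars false
set_option linter.style.haveILetI false

open MvPolynomial

namespace Pool.Agent.Bloch.Sep

section contact
variable {κ : Type} [Field κ]

/-- the contact line of a polynomial of degree at most `n` -/
theorem exists_contact {Ω : Type} [Field Ω] [IsAlgClosed Ω] {τ₀ : Type} [Fintype τ₀]
    (f : κ →+* Ω) (x : τ₀ → Ω) (G : MvPolynomial τ₀ κ) (n : ℕ) (hn : 0 < n)
    (hG : G.totalDegree ≤ n) (hcard : n ≤ Fintype.card τ₀) :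
    ∃ v : τ₀ → Ω, v ≠ 0 ∧ ∃ c : Ω, eval₂ (Polynomial.C.comp f)
        (fun s => Polynomial.C (x s) + Polynomial.C (v s) * Polynomial.X) G =
        Polynomial.C (eval₂ f x G) + Polynomial.C c * Polynomial.X ^ n := by
  obtain ⟨v, hv, h⟩ := exists_common_zero (ι := Fin (n - 1)) (n := τ₀) (by
    rw [Fintype.card_fin]; omega) (fun j => (fam f x G).coeff (j + 1)) (fun j => j + 1)
    (fun j => Nat.succ_pos _) (fun j => fam_homog f x G _)
  refine ⟨v, hv, eval v ((fam f x G).coeff n), ?_⟩
  rw [← fam_eval]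
  ext m
  rw [Polynomial.coeff_map, Polynomial.coeff_add, Polynomial.coeff_C, Polynomial.coeff_C_mul,
    Polynomial.coeff_X_pow]
  by_cases h0 : m = 0
  · subst h0
    rw [if_pos rfl, if_neg hn.ne, fam_coeff_zero, eval_C, mul_zero, add_zero]
  · rw [if_neg h0, zero_add]
    split_ifs with h1
    · rw [h1, mul_one]
    · rw [mul_zero]
      rcases lt_or_gt_of_ne h1 with h2 | h2
      · have := h ⟨m - 1, by omega⟩
        simp only at this
        rwa [Nat.sub_add_cancel (Nat.pos_of_ne_zero h0)] at this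
      · have h3 := fam_degree f x G
        rw [Polynomial.coeff_eq_zero_of_natDegree_lt (by omega), map_zero]

theorem contact_deg {τ₀ : Type} [Fintype τ₀] (G : MvPolynomial τ₀ κ)
    (h2 : 2 ≤ Fintype.card τ₀) (hG : G.totalDegree ≤ Fintype.card τ₀) : Contact G := by
  intro Ω _ _ f x
  obtain ⟨v, hv, c, hc⟩ := exists_contact f x G (Fintype.card τ₀) (by omega) hG le_rfl
  exact ⟨v, hv, c, _, by omega, Or.inr h2, hc⟩

end contact

end Pool.Agent.Bloch.Sep
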