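import Pool.Agent.H11.Sep.RH
import Pool.Agent.H11.Sep.Contact

set_option linter.unusedSectionVars false
set_option linter.style.haveILetI false

open MvPolynomial

namespace Pool.Agent.Bloch.Sep

variable {K : Type} [Field K] (𝕜 : Type) [Field 𝕜] [CharZero 𝕜]

section point

theorem dl_zero_of_X {T : Type} [Finite T] (p : PrimeSpectrum (MvPolynomial T K))
    (h : ∀ t, X t ∈ p.asIdeal) : dl K p = 0 := by
  have hs : Function.Surjective (Algebra.ofId K (MvPolynomial T K ⧸ p.asIdeal)) := by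
    intro y
    obtain ⟨f, rfl⟩ := Ideal.Quotient.mk_surjective y
    induction f using MvPolynomial.induction_on with
    | C a => exact ⟨a, rfl⟩
    | add f g hf hg =>
      obtain ⟨a, ha⟩ := hf
      obtain ⟨b, hb⟩ := hg
      exact ⟨a + b, by rw [map_add, map_add, ha, hb]⟩
    | mul_X f t _ =>
      refine ⟨0, ?_⟩
      rw [map_zero, eq_comm, Ideal.Quotient.eq_zero_iff_mem]
      exact Ideal.mul_mem_left _ _ (h t)
  have h1 := _root_.trdeg_le_of_surjective (Algebra.ofId K (MvPolynomial T K ⧸ p.asIdeal)) hs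
  have h2 : Algebra.trdeg K K = 0 := _root_.trdeg_eq_zero_iff.2 inferInstance
  unfold dl td
  rw [h2] at h1
  rw [nonpos_iff_eq_zero.1 h1]
  exact map_zero _

/-- homogenisation -/
noncomputable def hz {T : Type} (t₀ : T) (N : ℕ) (h : MvPolynomial T K) : MvPolynomial T K :=
  ∑ k ∈ Finset.range (N + 1), homogeneousComponent k h * X t₀ ^ (N - k)

theorem hz_homog {T : Type} (t₀ : T) (N : ℕ) (h : MvPolynomial T K) :
    (hz t₀ N h).IsHomogeneous N := by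
  unfold hz
  apply IsHomogeneous.sum
  intro k hk
  have h1 := (homogeneousComponent_isHomogeneous k h).mul (isHomogeneous_X_pow (R := K) t₀ (N - k))
  rw [Finset.mem_range] at hk
  rwa [Nat.add_sub_cancel' (by omega)] at h1

theorem hz_map {T A : Type} [CommRing A] (f : MvPolynomial T K →+* A) (t₀ : T) (hf : f (X t₀) = 1)
    (N : ℕ) (h : MvPolynomial T K) (hN : h.totalDegree ≤ N) : f (hz t₀ N h) = f h := by
  unfold hz
  rw [map_sum]
  conv_rhs => rw [← sum_homogeneousComponent h, map_sum]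
  rw [Finset.sum_subset (s₁ := Finset.range (h.totalDegree + 1)) (s₂ := Finset.range (N + 1))]
  · apply Finset.sum_congr rfl
    intro k _
    rw [map_mul, map_pow, hf, one_pow, mul_one]
  · intro k hk
    rw [Finset.mem_range] at hk ⊢
    omega
  · intro k _ hk
    rw [Finset.mem_range, not_lt] at hk
    rw [homogeneousComponent_eq_zero _ _ (by omega), map_zero]

end point

section data
variable {ρ T : Type}

/-- the coordinates of the generic fibre -/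
noncomputable def xc (ρ : Type) {T : Type} (𝔠 : PrimeSpectrum (MvPolynomial T K)) :
    ρ ⊕ T → MvPolynomial ρ (Kap 𝔠) := Sum.elim X (fun s => C (toKap 𝔠 (X s)))

theorem aeval_tb (𝔠 : PrimeSpectrum (MvPolynomial T K)) (h : MvPolynomial T K) :
    aeval (fun s => toKap 𝔠 (X s)) h = toKap 𝔠 h := by
  have : (aeval (fun s => toKap 𝔠 (X s)) : MvPolynomial T K →ₐ[K] Kap 𝔠) = toKapA K 𝔠 := by
    apply MvPolynomial.algHom_ext
    intro s
    rw [aeval_X]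
    rfl
  rw [this]
  rfl

theorem xc_inr (𝔠 : PrimeSpectrum (MvPolynomial T K)) (h : MvPolynomial T K) :
    aeval (xc ρ 𝔠) (rename Sum.inr h) = C (toKap 𝔠 h) := by
  rw [aeval_rename, ← aeval_tb]
  have e1 : (aeval (xc ρ 𝔠 ∘ Sum.inr) : MvPolynomial T K →ₐ[K] MvPolynomial ρ (Kap 𝔠)) =
      ((Algebra.ofId (Kap 𝔠) (MvPolynomial ρ (Kap 𝔠))).restrictScalars K).comp
        (aeval (fun s => toKap 𝔠 (X s))) := by
    apply MvPolynomial.algHom_ext
    intro s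
    rw [aeval_X, AlgHom.comp_apply, aeval_X]
    rfl
  rw [e1]
  rfl

/-- the denominators -/
noncomputable def sb (ρ : Type) {T : Type} (𝔠 : PrimeSpectrum (MvPolynomial T K)) :
    Submonoid (MvPolynomial (ρ ⊕ T) K) where
  carrier := {u | ∃ (n : ℕ) (h : MvPolynomial T K), h.IsHomogeneous n ∧ h ∉ 𝔠.asIdeal ∧
        u = rename Sum.inr h}
  mul_mem' := by
    rintro u v ⟨n, h, hh, h', rfl⟩ ⟨m, g, hg, hg', rfl⟩
    exact ⟨n + m, h * g, hh.mul hg, fun h1 => (𝔠.2.mem_or_mem h1).elim h' hg',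
      (map_mul _ _ _).symm⟩
  one_mem' := ⟨0, 1, isHomogeneous_one _ _, fun h => 𝔠.2.ne_top ((Ideal.eq_top_iff_one _).2 h),
    (map_one _).symm⟩

theorem sb_hom (𝔠 : PrimeSpectrum (MvPolynomial T K)) :
    ∀ u ∈ sb ρ 𝔠, ∃ n, u.IsHomogeneous n := by
  rintro u ⟨n, h, hh, _, rfl⟩
  exact ⟨n, hh.rename_isHomogeneous⟩

theorem xc_frac0 (𝔠 : PrimeSpectrum (MvPolynomial T K)) (t₀ : T) (ht1 : toKap 𝔠 (X t₀) = 1) :
    Frac0 (xc ρ 𝔠) (sb ρ 𝔠) := by
  intro t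
  induction t using MvPolynomial.induction_on with
  | C y =>
    obtain ⟨u, a, h2, h3⟩ := toKap_frac 𝔠 y
    set N := max u.totalDegree a.totalDegree with hN
    have hu : toKap 𝔠 (hz t₀ N u) = toKap 𝔠 u := hz_map _ t₀ ht1 N u (le_max_left _ _)
    have ha : toKap 𝔠 (hz t₀ N a) = toKap 𝔠 a := hz_map _ t₀ ht1 N a (le_max_right _ _)
    refine ⟨N, rename Sum.inr (hz t₀ N u), ⟨N, hz t₀ N u, hz_homog _ _ _, ?_, rfl⟩,
      rename Sum.inr (hz t₀ N a), (hz_homog _ _ _).rename_isHomogeneous,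
      (hz_homog _ _ _).rename_isHomogeneous, ?_⟩
    · rw [← toKap_eq_zero, hu, toKap_eq_zero]; exact h3
    · rw [xc_inr, xc_inr, hu, ha, ← C_mul, h2]
  | add t t' ht ht' =>
    obtain ⟨n, u, hu, a, g1, g2, g3⟩ := ht
    obtain ⟨n', u', hu', a', g1', g2', g3'⟩ := ht'
    refine ⟨n + n', u * u', Submonoid.mul_mem _ hu hu', a * u' + a' * u, g1.mul g1', ?_, ?_⟩
    · refine (g2.mul g1').add ?_
      rw [add_comm]; exact g2'.mul g1
    · rw [map_mul, map_add, map_mul, map_mul, ← g3, ← g3']; ring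
  | mul_X t r ht =>
    obtain ⟨n, u, hu, a, g1, g2, g3⟩ := ht
    have hX : X (Sum.inr t₀) ∈ sb ρ 𝔠 := ⟨1, X t₀, isHomogeneous_X _ _, by
      rw [← toKap_eq_zero, ht1]; exact one_ne_zero, by rw [rename_X]⟩
    refine ⟨n + 1, u * X (Sum.inr t₀), Submonoid.mul_mem _ hu hX, a * X (Sum.inl r),
      g1.mul (isHomogeneous_X _ _), g2.mul (isHomogeneous_X _ _), ?_⟩
    have e1 : aeval (xc ρ 𝔠) (X (Sum.inr t₀) : MvPolynomial (ρ ⊕ T) K) = 1 := by
      rw [aeval_X]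
      change C (toKap 𝔠 (X t₀)) = 1
      rw [ht1, C_1]
    have e2 : aeval (xc ρ 𝔠) (X (Sum.inl r) : MvPolynomial (ρ ⊕ T) K) = X r := by
      rw [aeval_X]; rfl
    rw [map_mul, map_mul, e1, e2, ← g3]; ring

/-- dehomogenisation at a point -/
theorem aeval_div (V : PrimeSpectrum (MvPolynomial (ρ ⊕ T) K)) (t₀ : ρ ⊕ T)
    (n : ℕ) (f : MvPolynomial (ρ ⊕ T) K) (hf : f.IsHomogeneous n) :
    aeval (fun s => toKap V (X s) / toKap V (X t₀)) f = (toKap V (X t₀))⁻¹ ^ n * toKap V f := by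
  rw [isHomogeneous_aeval hf (fun s => toKap V (X s) / toKap V (X t₀)) (fun s => toKap V (X s))
    (toKap V (X t₀))⁻¹ (fun s => by rw [div_eq_inv_mul]), aeval_tb]

/-- extension of a homomorphism to the residue field -/
theorem exists_kap_hom {A L : Type} [CommRing A] [Field L] (𝔠 : PrimeSpectrum A) (g : A →+* L)
    (hg : ∀ h, h ∈ 𝔠.asIdeal ↔ g h = 0) : ∃ j : Kap 𝔠 →+* L, ∀ h, j (toKap 𝔠 h) = g h := by
  have hψ₀ : Function.Injective (Ideal.Quotient.lift 𝔠.asIdeal g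
      (fun a ha => (hg a).1 ha)) := by
    rw [RingHom.injective_iff_ker_eq_bot, RingHom.ker_eq_bot_iff_eq_zero]
    intro y hy
    obtain ⟨f, rfl⟩ := Ideal.Quotient.mk_surjective y
    rw [Ideal.Quotient.lift_mk] at hy
    rw [Ideal.Quotient.eq_zero_iff_mem, hg]
    exact hy
  refine ⟨IsFractionRing.lift (K := Kap 𝔠) hψ₀, ?_⟩
  intro h
  have e : toKap 𝔠 h = algebraMap (A ⧸ 𝔠.asIdeal) (Kap 𝔠) (Ideal.Quotient.mk 𝔠.asIdeal h) := rfl
  rw [e, IsFractionRing.lift_algebraMap, Ideal.Quotient.lift_mk]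

theorem exists_base (V : PrimeSpectrum (MvPolynomial (ρ ⊕ T) K)) (t₀ : T) :
    ∃ (𝔠 : PrimeSpectrum (MvPolynomial T K)) (j : Kap 𝔠 →+* Kap V),
      (∀ h, j (toKap 𝔠 h) = aeval (fun s => toKap V (X s) / toKap V (X (Sum.inr t₀)))
        (rename Sum.inr h)) := by
  obtain ⟨𝔠, h𝔠⟩ : ∃ 𝔠 : PrimeSpectrum (MvPolynomial T K), ∀ h, h ∈ 𝔠.asIdeal ↔
      aeval (fun s => toKap V (X s) / toKap V (X (Sum.inr t₀))) (rename Sum.inr h) = 0 :=
    ⟨⟨RingHom.ker ((aeval (fun s => toKap V (X s) / toKap V (X (Sum.inr t₀))) :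
      MvPolynomial (ρ ⊕ T) K →ₐ[K] Kap V).comp (rename Sum.inr)), RingHom.ker_isPrime _⟩,
      fun _ => Iff.rfl⟩
  obtain ⟨j, hj⟩ := exists_kap_hom 𝔠 (((aeval (fun s => toKap V (X s) /
      toKap V (X (Sum.inr t₀))) : MvPolynomial (ρ ⊕ T) K →ₐ[K] Kap V).comp
      (rename Sum.inr) : MvPolynomial T K →ₐ[K] Kap V) : MvPolynomial T K →+* Kap V) h𝔠
  exact ⟨𝔠, j, hj⟩

theorem xc_point (V : PrimeSpectrum (MvPolynomial (ρ ⊕ T) K)) (t₀ : T)
    (𝔠 : PrimeSpectrum (MvPolynomial T K)) (j : Kap 𝔠 →+* Kap V)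
    (hj : ∀ h, j (toKap 𝔠 h) = aeval (fun s => toKap V (X s) / toKap V (X (Sum.inr t₀)))
        (rename Sum.inr h)) (f : MvPolynomial (ρ ⊕ T) K) :
    eval₂Hom j (fun r => toKap V (X (Sum.inl r)) / toKap V (X (Sum.inr t₀))) (aeval (xc ρ 𝔠) f) =
      aeval (fun s => toKap V (X s) / toKap V (X (Sum.inr t₀))) f := by
  induction f using MvPolynomial.induction_on with
  | C r =>
    have h1 : aeval (xc ρ 𝔠) (C r : MvPolynomial (ρ ⊕ T) K) = C (toKap 𝔠 (C r)) := by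
      rw [← xc_inr, rename_C]
    rw [h1, eval₂Hom_C, hj, rename_C]
  | add f g hf hg => rw [map_add, map_add, hf, hg, map_add]
  | mul_X f s hf =>
    rw [map_mul, map_mul, hf, map_mul, aeval_X, aeval_X]
    congr 1
    rcases s with r | t
    · exact eval₂Hom_X' _ _ _
    · change eval₂Hom j _ (C (toKap 𝔠 (X t))) = _
      rw [eval₂Hom_C, hj, rename_X, aeval_X]

theorem base_homog (V : PrimeSpectrum (MvPolynomial (ρ ⊕ T) K)) (t₀ : T)
    (ht₀ : X (Sum.inr t₀) ∉ V.asIdeal)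
    (𝔠 : PrimeSpectrum (MvPolynomial T K)) (j : Kap 𝔠 →+* Kap V)
    (hj : ∀ h, j (toKap 𝔠 h) = aeval (fun s => toKap V (X s) / toKap V (X (Sum.inr t₀)))
        (rename Sum.inr h)) (n : ℕ) (h : MvPolynomial T K) (hh : h.IsHomogeneous n) :
    h ∈ 𝔠.asIdeal ↔ rename Sum.inr h ∈ V.asIdeal := by
  have hξ : toKap V (X (Sum.inr t₀)) ≠ 0 := fun h => ht₀ ((toKap_eq_zero V _).1 h)
  rw [← toKap_eq_zero, ← map_eq_zero_iff j j.injective, hj,
    aeval_div V _ n _ hh.rename_isHomogeneous, mul_eq_zero,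
    or_iff_right (pow_ne_zero _ (inv_ne_zero hξ)), toKap_eq_zero]

theorem base_one (V : PrimeSpectrum (MvPolynomial (ρ ⊕ T) K)) (t₀ : T)
    (ht₀ : X (Sum.inr t₀) ∉ V.asIdeal)
    (𝔠 : PrimeSpectrum (MvPolynomial T K)) (j : Kap 𝔠 →+* Kap V)
    (hj : ∀ h, j (toKap 𝔠 h) = aeval (fun s => toKap V (X s) / toKap V (X (Sum.inr t₀)))
        (rename Sum.inr h)) : toKap 𝔠 (X t₀) = 1 := by
  have hξ : toKap V (X (Sum.inr t₀)) ≠ 0 := fun h => ht₀ ((toKap_eq_zero V _).1 h)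
  apply j.injective
  rw [hj, rename_X, aeval_X, div_self hξ, map_one]

theorem base_cone [Finite ρ] [Finite T] (V : PrimeSpectrum (MvPolynomial (ρ ⊕ T) K)) (hV : HomP V)
    (t₀ : T) (ht₀ : X (Sum.inr t₀) ∉ V.asIdeal)
    (𝔠 : PrimeSpectrum (MvPolynomial T K)) (j : Kap 𝔠 →+* Kap V)
    (hj : ∀ h, j (toKap 𝔠 h) = aeval (fun s => toKap V (X s) / toKap V (X (Sum.inr t₀)))
        (rename Sum.inr h)) :
    ∃ Q₀ : PrimeSpectrum (MvPolynomial ρ (Kap 𝔠)), V = cone (xc ρ 𝔠) Q₀ := by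
  have hξ : toKap V (X (Sum.inr t₀)) ≠ 0 := fun h => ht₀ ((toKap_eq_zero V _).1 h)
  obtain ⟨Q₀, hQ₀⟩ : ∃ Q₀ : PrimeSpectrum (MvPolynomial ρ (Kap 𝔠)), ∀ g, g ∈ Q₀.asIdeal ↔
      eval₂Hom j (fun r => toKap V (X (Sum.inl r)) / toKap V (X (Sum.inr t₀))) g = 0 :=
    ⟨⟨RingHom.ker (eval₂Hom j (fun r => toKap V (X (Sum.inl r)) / toKap V (X (Sum.inr t₀)))),
      RingHom.ker_isPrime _⟩, fun _ => Iff.rfl⟩
  refine ⟨Q₀, ?_⟩
  have hQ₀hom : ∀ (n : ℕ) (f : MvPolynomial (ρ ⊕ T) K), f.IsHomogeneous n →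
      (aeval (xc ρ 𝔠) f ∈ Q₀.asIdeal ↔ f ∈ V.asIdeal) := by
    intro n f hf
    rw [hQ₀, xc_point V t₀ 𝔠 j hj, aeval_div V _ n f hf, mul_eq_zero,
      or_iff_right (pow_ne_zero _ (inv_ne_zero hξ)), toKap_eq_zero]
  apply PrimeSpectrum.ext
  ext f
  rw [mem_cone]
  constructor
  · intro h n
    exact (hQ₀hom n _ (homogeneousComponent_isHomogeneous n f)).2 (hV f h n)
  · intro h
    rw [← sum_homogeneousComponent f]
    apply Ideal.sum_mem
    intro n _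
    exact (hQ₀hom n _ (homogeneousComponent_isHomogeneous n f)).1 (h n)

theorem td_kap' {A : Type} [CommRing A] [Algebra K A] [Algebra.EssFiniteType K A]
    [IsNoetherianRing A] (p : PrimeSpectrum A) : td K (Kap p) = dl K p := by
  have h1 : dl K (⟨⊥, Ideal.isPrime_bot⟩ : PrimeSpectrum (Kap p)) = dl K p := dl_kap K p _
  rw [← h1]
  unfold dl
  apply td_congr
  exact (AlgEquiv.quotientBot K (Kap p)).symm

theorem base_dl [Finite ρ] [Finite T] (𝔭 : PrimeSpectrum (MvPolynomial T K))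
    (𝔠 : PrimeSpectrum (MvPolynomial T K))
    (h : ∀ (n : ℕ) (h : MvPolynomial T K), h.IsHomogeneous n →
      (h ∈ 𝔠.asIdeal ↔ h ∈ 𝔭.asIdeal)) : dl K 𝔭 ≤ td K (Kap 𝔠) + 1 := by
  have g1 : cone (fun s => toKap 𝔠 (X s))
      (⟨⊥, Ideal.isPrime_bot⟩ : PrimeSpectrum (Kap 𝔠)) ≤ 𝔭 := by
    intro f hf
    have hf' : f ∈ (cone (fun s => toKap 𝔠 (X s))
      (⟨⊥, Ideal.isPrime_bot⟩ : PrimeSpectrum (Kap 𝔠))).asIdeal := hf
    rw [mem_cone] at hf'
    rw [← sum_homogeneousComponent f]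
    apply Ideal.sum_mem
    intro n _
    apply (h n _ (homogeneousComponent_isHomogeneous n f)).1
    rw [← toKap_eq_zero, ← aeval_tb]
    exact hf' n
  refine (dl_le K g1).trans ?_
  refine (dl_ctr_le K _ _).trans ?_
  rw [dl_ext, dl_kap, td_kap']

end data

section ac
variable {ρ T : Type} [Finite ρ] [Finite T]

theorem bs_gr : Gr (bs K K ρ T) := by
  intro s
  rw [bs_apply, rename_X]
  exact isHomogeneous_X _ _

/-- Reduction of the dimension of the image in the base. -/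
theorem ac_step {i d : ℕ} (F : MvPolynomial (ρ ⊕ T) K) (hF : F.IsHomogeneous d)
    (V : PrimeSpectrum (MvPolynomial (ρ ⊕ T) K)) (hV : HomP V) (hFV : F ∈ V.asIdeal)
    (hdV : dl K V = i + 1) (h1 : 1 ≤ dl K (ctr K (bs K K ρ T) V))
    (hG : ∀ (κ : Type) [Field κ] [Algebra K κ] [Algebra.EssFiniteType K κ] (t : T → κ),
      dl K (ctr K (bs K K ρ T) V) ≤ td K κ + 1 →
      Van K 𝕜 i {Q : PrimeSpectrum (MvPolynomial ρ κ) |
        aeval (Sum.elim X (fun s => C (t s))) F ∈ Q.asIdeal}) :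
    Finsupp.single V 1 ∈ RH 𝕜 (i + 1) {Q : PrimeSpectrum (MvPolynomial (ρ ⊕ T) K) |
      F ∈ Q.asIdeal} ⊔ Submodule.span 𝕜 {w : PrimeSpectrum (MvPolynomial (ρ ⊕ T) K) →₀ 𝕜 | ∃ p ∈
        {p : PrimeSpectrum (MvPolynomial (ρ ⊕ T) K) | F ∈ p.asIdeal ∧ HomP p ∧ dl K p = i + 1 ∧
          dl K (ctr K (bs K K ρ T) p) < dl K (ctr K (bs K K ρ T) V)},
        w = Finsupp.single p 1} := by
  classical
  set Z : Set (PrimeSpectrum (MvPolynomial (ρ ⊕ T) K)) := {Q | F ∈ Q.asIdeal} with hZ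
  have h𝔭h : HomP (ctr K (bs K K ρ T) V) := bs_gr.homP hV
  obtain ⟨t₀, ht₀⟩ : ∃ t₀ : T, X (Sum.inr t₀) ∉ V.asIdeal := by
    by_contra hcon
    push Not at hcon
    have : dl K (ctr K (bs K K ρ T) V) = 0 := dl_zero_of_X _ (fun t => by
      rw [mem_ctr, bs_apply, rename_X]
      exact hcon t)
    omega
  obtain ⟨𝔠, j, hj⟩ := exists_base V t₀
  have h𝔠 := base_homog V t₀ ht₀ 𝔠 j hj
  have ht1 := base_one V t₀ ht₀ 𝔠 j hj
  obtain ⟨Q₀, hcone⟩ := base_cone V hV t₀ ht₀ 𝔠 j hj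
  have hvan := hG (Kap 𝔠) (fun s => toKap 𝔠 (X s)) (base_dl (ρ := ρ) _ 𝔠 h𝔠)
  have hav : ∀ u ∈ sb ρ 𝔠, aeval (xc ρ 𝔠) u ∉ Q₀.asIdeal := by
    rintro u ⟨n, h, hh, hc, rfl⟩ h2
    apply hc
    rw [h𝔠 n h hh, hcone, mem_cone_homog _ _ hh.rename_isHomogeneous]
    exact h2
  have hFQ : F ∈ (cone (xc ρ 𝔠) Q₀).asIdeal := by rw [← hcone]; exact hFV
  have hx1 : aeval (xc ρ 𝔠) (X (Sum.inr t₀) : MvPolynomial (ρ ⊕ T) K) = 1 := by
    rw [aeval_X]
    change C (toKap 𝔠 (X t₀)) = 1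
    rw [ht1, C_1]
  have hflat : ((AlgHom.id K (MvPolynomial ρ (Kap 𝔠)) : MvPolynomial ρ (Kap 𝔠) →ₐ[K]
      MvPolynomial ρ (Kap 𝔠)) : MvPolynomial ρ (Kap 𝔠) →+* MvPolynomial ρ (Kap 𝔠)).Flat :=
    RingHom.Flat.id _
  have key := chart' 𝕜 (AlgHom.id K (MvPolynomial ρ (Kap 𝔠))) hflat (sb_hom 𝔠)
    (xc_frac0 𝔠 t₀ ht1) (isHomogeneous_X K (Sum.inr t₀)) hx1 (fun Q => rfl) (Z := Z)
    (ZL := {Q | aeval (Sum.elim X (fun s => C (toKap 𝔠 (X s)))) F ∈ Q.asIdeal}) (by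
      intro Q hQ
      change F ∈ (cone (xc ρ 𝔠) Q).asIdeal
      rw [mem_cone_homog _ Q hF]
      exact hQ) hvan (RelH 𝕜 Z (i + 1)) le_rfl ⟨V, hV, hFV, hdV⟩ Q₀ hcone hav (by
      rw [mem_cone_homog _ _ hF] at hFQ
      exact hFQ) (by
      intro Q hQ V' hV'
      have hQ' : Q = Q₀ := hQ
      have : V' = ⟨V, hV, hFV, hdV⟩ := by
        apply Subtype.ext
        rw [hV', hQ']
        exact hcone.symm
      rw [this, sub_self]
      exact Submodule.zero_mem _)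
  have key2 := Submodule.mem_map_of_mem (f := inc 𝕜 Z (i + 1)) key
  rw [inc_single, Submodule.map_sup] at key2
  have hA : Submodule.map (inc 𝕜 Z (i + 1)) (RelH 𝕜 Z (i + 1)) ≤ RH 𝕜 (i + 1) Z := by
    rintro _ ⟨z, hz, rfl⟩
    exact inc_relH 𝕜 (fun p hp q hpq => hpq hp) hz
  refine sup_le_sup hA ?_ key2
  rw [Submodule.map_span]
  apply Submodule.span_mono
  rintro _ ⟨_, ⟨V', ⟨⟨Q, hQ⟩, v, hv, hvV⟩, rfl⟩, rfl⟩
  rw [inc_single]
  refine ⟨V'.1, ⟨V'.2.2.1, V'.2.1, V'.2.2.2, ?_⟩, rfl⟩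
  obtain ⟨n, h, hh, hc, rfl⟩ := hv
  have hle : ctr K (bs K K ρ T) V ≤ ctr K (bs K K ρ T) V'.1 := by
    intro f hf
    apply hQ
    change bs K K ρ T f ∈ (cone (xc ρ 𝔠) Q).asIdeal
    rw [mem_cone]
    intro m
    rw [bs_gr.component, bs_apply, xc_inr]
    have : homogeneousComponent m f ∈ 𝔠.asIdeal :=
      (h𝔠 m _ (homogeneousComponent_isHomogeneous m f)).2 (h𝔭h f hf m)
    rw [(toKap_eq_zero 𝔠 _).2 this, C_0]
    exact Ideal.zero_mem _
  apply dl_lt K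
  refine lt_of_le_of_ne hle ?_
  intro heq
  apply hc
  rw [h𝔠 n h hh]
  change h ∈ (ctr K (bs K K ρ T) V).asIdeal
  rw [heq]
  exact hvV

end ac

end Pool.Agent.Bloch.Sep
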