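import Pool.Agent.H11.Sep.Ind

set_option linter.unusedSectionVars false
set_option linter.unusedSimpArgs false
set_option linter.unusedVariables false
set_option linter.style.haveILetI false

open MvPolynomial

namespace Pool.Agent.Bloch.Sep

variable {K : Type} [Field K] [CharZero K] [IsAlgClosed K] (𝕜 : Type) [Field 𝕜] [CharZero 𝕜]

theorem single_indep {σ : Type} [DecidableEq σ] (P : σ → Prop) [Fintype {s // P s}] :
    LinearIndependent K (fun r : {s : σ // P s} => (Pi.single r.1 (1 : K) : σ → K)) := by
  rw [Fintype.linearIndependent_iff]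
  intro c hc r
  have := congrFun hc r.1
  rw [Finset.sum_apply, Finset.sum_eq_single r] at this
  · simpa using this
  · intro r' _ hr'
    rw [Pi.smul_apply, Pi.single_eq_of_ne (fun h => hr' (Subtype.ext h.symm)), smul_zero]
  · intro h; exact absurd (Finset.mem_univ _) h

theorem totalDegree_aeval_le' {σ ρ κ : Type} [Field κ] [Algebra K κ] (y : σ → MvPolynomial ρ κ)
    (A : Finset σ) (h1 : ∀ s ∈ A, (y s).totalDegree ≤ 1) (h0 : ∀ s, s ∉ A → (y s).totalDegree = 0)
    (f : MvPolynomial σ K) (N : ℕ) (hN : ∀ μ ∈ f.support, ∑ s ∈ A, μ s ≤ N) :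
    (aeval y f).totalDegree ≤ N := by
  classical
  conv_lhs => rw [f.as_sum, map_sum]
  refine (totalDegree_finsetSum _ _).trans (Finset.sup_le (fun m hm => ?_))
  rw [aeval_monomial]
  refine (totalDegree_mul _ _).trans ?_
  have h2 : (algebraMap K (MvPolynomial ρ κ) (coeff m f)).totalDegree = 0 := by
    rw [IsScalarTower.algebraMap_apply K κ, MvPolynomial.algebraMap_eq, totalDegree_C]
  rw [h2, zero_add]
  refine (totalDegree_finsetProd _ _).trans ?_
  refine le_trans ?_ (hN m hm)
  have h3 : ∑ s ∈ m.support, (y s ^ m s).totalDegree ≤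
      ∑ s ∈ m.support, if s ∈ A then m s else 0 := by
    apply Finset.sum_le_sum
    intro s _
    refine (totalDegree_pow _ _).trans ?_
    split_ifs with h
    · calc m s * _ ≤ m s * 1 := Nat.mul_le_mul_left _ (h1 s h)
        _ = m s := mul_one _
    · rw [h0 s h, mul_zero]
  refine h3.trans ?_
  rw [← Finset.sum_filter]
  apply Finset.sum_le_sum_of_subset
  intro s hs
  exact (Finset.mem_filter.1 hs).2

/-- degree of the restriction to a fibre -/
theorem degree_fibre {σ : Type} [Fintype σ] [DecidableEq σ] (P Q : σ → Prop) [DecidablePred P]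
    [DecidablePred Q] (hPQ : ∀ s, P s → ¬ Q s)
    (f : MvPolynomial σ K) (N : ℕ)
    (hN : ∀ μ ∈ f.support, ∑ s ∈ Finset.univ.filter P, μ s ≤ N) (κ : Type) [Field κ] [Algebra K κ]
    (t : {s // Q s} → κ) :
    (aeval (Sum.elim X (fun s => C (t s)))
      (th (Sum.elim (fun r : {s // P s} => (Pi.single r.1 (1 : K) : σ → K))
        (fun r : {s // Q s} => Pi.single r.1 1)) f) :
      MvPolynomial {s // P s} κ).totalDegree ≤ N := by
  let y : σ → MvPolynomial {s // P s} κ := fun s =>
    if h : P s then X ⟨s, h⟩ else if h' : Q s then C (t ⟨s, h'⟩) else 0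
  have h1 : ((aeval (Sum.elim X (fun s => C (t s))) : MvPolynomial ({s // P s} ⊕ {s // Q s}) K →ₐ[K]
      MvPolynomial {s // P s} κ).comp
      (th (Sum.elim (fun r : {s // P s} => (Pi.single r.1 (1 : K) : σ → K))
        (fun r : {s // Q s} => Pi.single r.1 1)))) = aeval y := by
    apply MvPolynomial.algHom_ext
    intro s
    rw [AlgHom.comp_apply, th_X, aeval_X]
    unfold lf
    rw [Fintype.sum_sum_type]
    simp only [Sum.elim_inl, Sum.elim_inr]
    by_cases h : P s
    · rw [Finset.sum_eq_single (⟨s, h⟩ : {s // P s}), Finset.sum_eq_zero, add_zero]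
      · simp [y, h]
      · intro r _
        rw [Pi.single_eq_of_ne, C_0, zero_mul]
        rintro h'
        exact hPQ s h (by rw [h']; exact r.2)
      · intro r _ hr
        rw [Pi.single_eq_of_ne, C_0, zero_mul]
        rintro h'
        exact hr (Subtype.ext h'.symm)
      · intro h'; exact absurd (Finset.mem_univ _) h'
    · by_cases h' : Q s
      · rw [Finset.sum_eq_zero, zero_add, Finset.sum_eq_single (⟨s, h'⟩ : {s // Q s})]
        · simp [y, h, h']
        · intro r _ hr
          rw [Pi.single_eq_of_ne, C_0, zero_mul]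
          rintro h'
          exact hr (Subtype.ext h'.symm)
        · intro h'; exact absurd (Finset.mem_univ _) h'
        · intro r _
          rw [Pi.single_eq_of_ne, C_0, zero_mul]
          rintro h'
          exact h (by rw [h']; exact r.2)
      · rw [Finset.sum_eq_zero, zero_add, Finset.sum_eq_zero]
        · simp [y, h, h']
        · intro r _
          rw [Pi.single_eq_of_ne, C_0, zero_mul]
          rintro h''
          exact h' (by rw [h'']; exact r.2)
        · intro r _
          rw [Pi.single_eq_of_ne, C_0, zero_mul]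
          rintro h'
          exact h (by rw [h']; exact r.2)
  have h2 := DFunLike.congr_fun h1 f
  rw [AlgHom.comp_apply] at h2
  rw [h2]
  apply totalDegree_aeval_le' y (Finset.univ.filter P) _ _ f N hN
  · intro s hs
    have h3 : P s := (Finset.mem_filter.1 hs).2
    simp only [y, dif_pos h3]
    exact (totalDegree_X _).le
  · intro s hs
    have h3 : ¬ P s := fun h => hs (Finset.mem_filter.2 ⟨Finset.mem_univ _, h⟩)
    simp only [y, dif_neg h3]
    split_ifs
    · exact totalDegree_C _
    · exact totalDegree_zero

theorem eval_zero_of_degree {σ : Type} [Fintype σ] (P : σ → Prop) [DecidablePred P]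
    {f : MvPolynomial σ K} {d : ℕ} (hf : f.IsHomogeneous d)
    (hN : ∀ μ ∈ f.support, ∑ s ∈ Finset.univ.filter P, μ s < d) (x : σ → K)
    (hx : ∀ s, ¬ P s → x s = 0) : eval x f = 0 := by
  classical
  rw [eval_eq]
  apply Finset.sum_eq_zero
  intro μ hμ
  have h1 : ∑ s, μ s = d := by
    have h2 := hf (mem_support_iff.1 hμ)
    rw [Finsupp.weight_apply, Finsupp.sum] at h2
    rw [← h2, ← Finset.sum_subset (Finset.subset_univ μ.support)]
    · apply Finset.sum_congr rfl
      intro s _
      rw [Pi.one_apply, smul_eq_mul, mul_one]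
    · intro s _ hs
      exact Finsupp.notMem_support_iff.1 hs
  obtain ⟨s, hs1, hs2⟩ : ∃ s, ¬ P s ∧ μ s ≠ 0 := by
    by_contra hcon
    push Not at hcon
    have h2 := hN μ hμ
    rw [Finset.sum_filter] at h2
    have h3 : ∑ s, μ s = ∑ s, if P s then μ s else 0 := by
      apply Finset.sum_congr rfl
      intro s _
      split_ifs with h
      · rfl
      · exact hcon s h
    omega
  rw [Finset.prod_eq_zero (Finsupp.mem_support_iff.2 hs2), mul_zero]
  rw [hx s hs1, zero_pow hs2]

/-- all cycles, modulo the key lemmas -/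
theorem all_cycles {σ : Type} [Fintype σ] {i d : ℕ} (hd : 2 ≤ d)
    (g : σ → Option (Fin (i + 1))) (f : Fin (i + 1) → MvPolynomial σ K)
    (hf : ∀ l, (f l).IsHomogeneous d)
    (hvars : ∀ l, ∀ s ∈ (f l).vars, g s = some l ∨ g s = none)
    (hblock : ∀ l, 2 ≤ (Finset.univ.filter (fun s => g s = some l)).card)
    (hdeg : ∀ l, ∀ μ ∈ (f l).support, ∑ s ∈ Finset.univ.filter (fun s => g s = some l), μ s ≤
      (Finset.univ.filter (fun s => g s = some l)).card)
    (hcard : (i + 1) * d < Fintype.card σ)
    (F : MvPolynomial σ K) (hF : F = ∑ l, f l)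
    (M : Submodule 𝕜 (PrimeSpectrum (MvPolynomial σ K) →₀ 𝕜))
    (hRM : RH 𝕜 (i + 1) {Q | F ∈ Q.asIdeal} ≤ M)
    (hcone : ∀ (o ζ : σ → K) (W : PrimeSpectrum (MvPolynomial σ K)), eval o F ≠ 0 →
      ∑ s, ζ s * o s = 1 → HomP W → dl K W = i + 1 → lf ζ ∈ W.asIdeal →
      divCyc K 𝕜 (i + 1) (Cn o W) F ∈ M)
    (hlin : ∀ (c : Fin (i + 1) → σ → K) (v : σ → K),
      LinearIndependent K (Fin.cons v c : Fin (i + 2) → σ → K) →
      (∀ x ∈ Submodule.span K (Set.range (Fin.cons v c : Fin (i + 2) → σ → K)), eval x F = 0) →
      Finsupp.single (Lin c) 1 ∈ M)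
    (W : PrimeSpectrum (MvPolynomial σ K)) (hW : HomP W) (hFW : F ∈ W.asIdeal)
    (hdW : dl K W = i + 1) : Finsupp.single W 1 ∈ M := by
  classical
  have hFh : F.IsHomogeneous d := by
    rw [hF]; exact IsHomogeneous.sum _ _ _ (fun l _ => hf l)
  let b : (Σ l : Fin (i + 1), {s : σ // g s = some l}) ⊕ {s : σ // g s = none} → σ → K :=
    Sum.elim (fun x => Pi.single x.2.1 1) (fun t => Pi.single t.1 1)
  have hbe : ∀ (s t : σ), (Pi.single s (1 : K) : σ → K) t ≠ 0 → t = s := fun s t h => by
    by_contra h'
    exact h (Pi.single_eq_of_ne h' _)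
  have hb0 : ∀ (s t : σ), t ≠ s → (Pi.single s (1 : K) : σ → K) t = 0 := fun s t h =>
    Pi.single_eq_of_ne h _
  have key := lemRA 𝕜 (i := i) (d := d) (s := i + 1)
    (ρ := fun l => {s : σ // g s = some l}) (T := {s : σ // g s = none}) rfl b
    (indep_blocks g (fun l => some l) (Option.some_injective _) none (fun l => by simp) b
      (fun l => single_indep (fun s => g s = some l)) (single_indep (fun s => g s = none))
      (fun l r t h => by rw [hbe _ _ h]; exact r.2)
      (fun t' t h => by rw [hbe _ _ h]; exact t'.2))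
    F 0 f hFh (by rw [hF, zero_add]) (by
      intro l t ht l' hl' r
      apply hb0
      intro h
      have h1 := r.2
      rw [← h] at h1
      rcases hvars _ t ht with h2 | h2
      · rw [h2] at h1
        exact hl' (Option.some.inj h1).symm
      · rw [h2] at h1; cases h1) (by
      intro t ht
      simp at ht) (by
      intro l
      left
      have h1 := hblock l
      rw [← Fintype.card_subtype] at h1
      refine ⟨h1, fun κ _ _ t => ?_⟩
      have h2 := degree_fibre (fun s => g s = some l) (fun s => g s = none) (by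
        intro s h1 h2
        rw [h1] at h2
        cases h2) (f l) _ (hdeg l) κ t
      rw [← Fintype.card_subtype] at h2
      have h3 : (fun j : {s : σ // g s = some l} ⊕ {s : σ // g s = none} =>
          b (Sum.map (Sigma.mk l) id j)) =
          Sum.elim (fun r : {s // g s = some l} => (Pi.single r.1 (1 : K) : σ → K))
            (fun r : {s // g s = none} => Pi.single r.1 1) := by
        funext j
        rcases j with r | t'
        · rfl
        · rfl
      rw [h3]
      exact h2) W hW hFW hdW (by
      have : Submodule.span K (Set.range b) = ⊤ := by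
        rw [eq_top_iff]
        intro v _
        have h4 : v = ∑ s, v s • (Pi.single s (1 : K) : σ → K) := by
          funext s
          rw [Finset.sum_apply, Finset.sum_eq_single s]
          · simp
          · intro s' _ h; simp [Pi.single_eq_of_ne h.symm]
          · intro h; exact absurd (Finset.mem_univ _) h
        rw [h4]
        apply Submodule.sum_mem
        intro s _
        apply Submodule.smul_mem
        apply Submodule.subset_span
        cases hs : g s with
        | none => exact ⟨Sum.inr ⟨s, hs⟩, rfl⟩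
        | some l => exact ⟨Sum.inl ⟨l, ⟨s, hs⟩⟩, rfl⟩
      rw [this]
      exact In_top W)
  obtain ⟨z, hz1, z', hz2, hzz⟩ := Submodule.mem_sup.1 key
  rw [← hzz]
  apply M.add_mem (hRM hz1)
  refine Submodule.span_le.2 ?_ hz2
  rintro _ ⟨W', hFW', hW', hdW', hIn, rfl⟩
  have hUs : ∀ l, ∀ x ∈ Submodule.span K (Set.range (fun r : {s : σ // g s = some l} =>
      (Pi.single r.1 (1 : K) : σ → K))), ∀ s, x s ≠ 0 → g s = some l := by
    intro l x hx
    induction hx using Submodule.span_induction with
    | mem x hx =>
      obtain ⟨r, rfl⟩ := hx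
      intro s hs
      rw [hbe _ _ hs]
      exact r.2
    | zero => intro s hs; exact absurd rfl hs
    | add x y _ _ hx hy =>
      intro s hs
      by_cases h : x s = 0
      · apply hy
        intro h'
        apply hs
        rw [Pi.add_apply, h, h', add_zero]
      · exact hx s h
    | smul t x _ hx =>
      intro s hs
      apply hx
      intro h
      apply hs
      rw [Pi.smul_apply, h, smul_zero]
  refine blocks 𝕜 hd g f hf hvars hcard F hF M hRM hcone hlin _
    (fun l => Submodule.span K (Set.range (fun r : {s : σ // g s = some l} =>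
      (Pi.single r.1 (1 : K) : σ → K)))) le_rfl hUs ?_ W' hW' hFW' hdW' (In.mono ?_ le_rfl hIn)
  · intro l
    rw [finrank_span_eq_card (single_indep (fun s => g s = some l)), Fintype.card_subtype]
    by_cases hdc : d ≤ (Finset.univ.filter (fun s => g s = some l)).card
    · exact Or.inl hdc
    · right
      have h1 := hblock l
      refine ⟨by omega, ?_⟩
      intro x hx
      apply eval_zero_of_degree (fun s => g s = some l) (hf l) (fun μ hμ => by
        have := hdeg l μ hμ
        omega)
      intro s hs
      by_contra h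
      exact hs (hUs l x hx s h)
  · rw [Submodule.span_le]
    rintro _ ⟨⟨l, r⟩, rfl⟩
    exact (le_iSup (fun l : Fin (i + 1) => Submodule.span K (Set.range
      (fun r : {s : σ // g s = some l} => (Pi.single r.1 (1 : K) : σ → K)))) l)
      (Submodule.subset_span ⟨r, rfl⟩)

end Pool.Agent.Bloch.Sep
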