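import Pool.Agent.H11.Sep.Dir

set_option linter.unusedSectionVars false
set_option linter.unusedSimpArgs false
set_option linter.style.haveILetI false

open MvPolynomial

namespace Pool.Agent.Bloch.Sep

variable {K : Type} [Field K]

theorem eval_congr' {σ : Type} (f : MvPolynomial σ K) (x y : σ → K)
    (h : ∀ s ∈ f.vars, x s = y s) : eval x f = eval y f := by
  apply hom_congr_vars (f₁ := eval x) (f₂ := eval y) (p₁ := f) (p₂ := f)
  · ext r
    simp
  · intro s hs _
    rw [eval_X, eval_X, h s hs]
  · rfl

theorem eval_smul' {σ : Type} {f : MvPolynomial σ K} {d : ℕ} (hf : f.IsHomogeneous d) (t : K)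
    (x : σ → K) : eval (t • x) f = t ^ d * eval x f := by
  have h := isHomogeneous_aeval hf (fun s => (t • x) s) x t (fun s => rfl)
  have e : ∀ y : σ → K, (aeval y : MvPolynomial σ K →ₐ[K] K) f = eval y f := fun y => by
    rw [aeval_eq_eval]
  rw [e, e] at h
  exact h

/-- independence of families supported on disjoint sets of variables -/
theorem indep_blocks {σ Λ : Type} (g : σ → Λ) {s : ℕ} {ρ : Fin s → Type}
    [∀ l, Fintype (ρ l)] {T : Type} [Fintype T] (col : Fin s → Λ) (hcol : Function.Injective col)
    (colT : Λ) (hT : ∀ l, col l ≠ colT) (b : (Σ l, ρ l) ⊕ T → σ → K)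
    (h1 : ∀ l, LinearIndependent K (fun r => b (Sum.inl ⟨l, r⟩)))
    (h2 : LinearIndependent K (fun t => b (Sum.inr t)))
    (h3 : ∀ l r t, b (Sum.inl ⟨l, r⟩) t ≠ 0 → g t = col l)
    (h4 : ∀ t' t, b (Sum.inr t') t ≠ 0 → g t = colT) : LinearIndependent K b := by
  classical
  rw [Fintype.linearIndependent_iff]
  intro c hc
  have hc' : ∀ t, (∑ l, ∑ r, c (Sum.inl ⟨l, r⟩) * b (Sum.inl ⟨l, r⟩) t) +
      ∑ t', c (Sum.inr t') * b (Sum.inr t') t = 0 := by
    intro t
    have := congrFun hc t
    rw [Finset.sum_apply, Fintype.sum_sum_type, Fintype.sum_sigma] at this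
    exact this
  have hz1 : ∀ l r t, g t ≠ col l → b (Sum.inl ⟨l, r⟩) t = 0 := fun l r t h => by
    by_contra h'; exact h (h3 l r t h')
  have hz2 : ∀ t' t, g t ≠ colT → b (Sum.inr t') t = 0 := fun t' t h => by
    by_contra h'; exact h (h4 t' t h')
  rintro (⟨l, r⟩ | t')
  · have e1 : ∑ r, c (Sum.inl ⟨l, r⟩) • b (Sum.inl ⟨l, r⟩) = 0 := by
      funext t
      rw [Finset.sum_apply, Pi.zero_apply]
      by_cases hg : g t = col l
      · rw [← hc' t, Finset.sum_eq_single l, Finset.sum_eq_zero (s := Finset.univ)
          (f := fun t' => c (Sum.inr t') * b (Sum.inr t') t), add_zero]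
        · rfl
        · intro t' _
          rw [hz2 t' t (by rw [hg]; exact hT l), mul_zero]
        · intro l' _ hl'
          apply Finset.sum_eq_zero
          intro r _
          rw [hz1 l' r t (by rw [hg]; exact fun h => hl' (hcol h).symm), mul_zero]
        · intro h; exact absurd (Finset.mem_univ _) h
      · apply Finset.sum_eq_zero
        intro r _
        rw [Pi.smul_apply, hz1 l r t hg, smul_zero]
    exact Fintype.linearIndependent_iff.1 (h1 l) (fun r => c (Sum.inl ⟨l, r⟩)) e1 r
  · have e1 : ∑ t', c (Sum.inr t') • b (Sum.inr t') = 0 := by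
      funext t
      rw [Finset.sum_apply, Pi.zero_apply]
      by_cases hg : g t = colT
      · rw [← hc' t, Finset.sum_eq_zero (s := Finset.univ)
          (f := fun l => ∑ r, c (Sum.inl ⟨l, r⟩) * b (Sum.inl ⟨l, r⟩) t), zero_add]
        · rfl
        · intro l _
          apply Finset.sum_eq_zero
          intro r _
          rw [hz1 l r t (by rw [hg]; exact (hT l).symm), mul_zero]
      · apply Finset.sum_eq_zero
        intro r _
        rw [Pi.smul_apply, hz2 r t hg, smul_zero]
    exact Fintype.linearIndependent_iff.1 h2 (fun t' => c (Sum.inr t')) e1 t'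

/-- a contact direction inside a subspace -/
theorem contact_dir [IsAlgClosed K] [CharZero K] {σ : Type} [Fintype σ] {d : ℕ} (hd : 2 ≤ d)
    (f : MvPolynomial σ K) (hf : f.IsHomogeneous d) (U : Submodule K (σ → K))
    (hU : d ≤ Module.finrank K U) (p : σ → K) (hp : p ∈ U) (hfp : eval p f ≠ 0) :
    ∃ u ∈ U, u ∉ Submodule.span K {p} ∧ ∃ c : K, ∀ t z : K,
      eval (t • p + z • u) f = t ^ d * eval p f + c * z ^ d := by
  classical
  obtain ⟨b, hb, hspan⟩ := exists_basis U rfl
  obtain ⟨x, hx⟩ := (Submodule.mem_span_range_iff_exists_fun K).1 (hspan.symm.le hp)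
  obtain ⟨v, hv, c, hc⟩ := exists_contact (RingHom.id K) x (th b f) d (by omega)
    ((th_gr b).map_homog hf).totalDegree_le (by rw [Fintype.card_fin]; exact hU)
  have hc' : ∀ z : K, eval (p + z • ∑ j, v j • b j) f = eval p f + c * z ^ d := by
    intro z
    have h1 := congrArg (Polynomial.eval z) hc
    rw [Polynomial.eval_add, Polynomial.eval_mul, Polynomial.eval_C, Polynomial.eval_C,
      Polynomial.eval_pow, Polynomial.eval_X] at h1
    have h2 : eval₂ (RingHom.id K) x (th b f) = eval p f := by
      change eval x (th b f) = _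
      rw [eval_th, sum_fun, hx]
    rw [h2] at h1
    rw [← h1]
    have h3 : Polynomial.eval z (eval₂ (Polynomial.C.comp (RingHom.id K))
        (fun s => Polynomial.C (x s) + Polynomial.C (v s) * Polynomial.X) (th b f)) =
        eval (fun j => x j + z * v j) (th b f) := by
      have h4 : (Polynomial.evalRingHom z).comp (eval₂Hom (Polynomial.C.comp (RingHom.id K))
        (fun s => Polynomial.C (x s) + Polynomial.C (v s) * Polynomial.X)) =
        eval (fun j => x j + z * v j) := by
        apply MvPolynomial.ringHom_ext
        · intro r; simp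
        · intro s; simp; ring
      exact RingHom.congr_fun h4 _
    rw [h3, eval_th, sum_fun]
    congr 1
    rw [← hx, Finset.smul_sum, ← Finset.sum_add_distrib]
    congr 1
    apply Finset.sum_congr rfl
    intro j _
    rw [add_smul, mul_smul]
  set u := ∑ j, v j • b j with hu
  have hu0 : u ≠ 0 := by
    intro h
    apply hv
    funext j
    exact Fintype.linearIndependent_iff.1 hb v h j
  refine ⟨u, hspan.le ((Submodule.mem_span_range_iff_exists_fun K).2 ⟨v, rfl⟩), ?_, c, ?_⟩
  · intro h
    obtain ⟨a, ha⟩ := Submodule.mem_span_singleton.1 h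
    have ha0 : a ≠ 0 := by
      rintro rfl
      rw [zero_smul] at ha
      exact hu0 ha.symm
    -- `f (p + z u) = (1 + a z) ^ d f(p)`
    have h1 : ∀ z : K, (1 + z * a) ^ d * eval p f = eval p f + c * z ^ d := by
      intro z
      rw [← hc' z, ← ha, ← eval_smul' hf, smul_smul, add_smul, one_smul]
    have h2 : (Polynomial.C 1 + Polynomial.C a * Polynomial.X) ^ d * Polynomial.C (eval p f) =
        Polynomial.C (eval p f) + Polynomial.C c * Polynomial.X ^ d := by
      apply Polynomial.funext
      intro z
      simp only [Polynomial.eval_mul, Polynomial.eval_pow, Polynomial.eval_add,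
        Polynomial.eval_C, Polynomial.eval_X]
      rw [← h1 z]; ring
    have h3 := congrArg (fun q => Polynomial.eval 0 (Polynomial.derivative q)) h2
    simp only [Polynomial.derivative_mul, Polynomial.derivative_pow, Polynomial.derivative_add,
      Polynomial.derivative_C, Polynomial.derivative_X, Polynomial.eval_mul, Polynomial.eval_add,
      Polynomial.eval_pow, Polynomial.eval_C, Polynomial.eval_X, Polynomial.eval_zero,
      Polynomial.eval_one, zero_mul, mul_zero, add_zero, zero_add, mul_one, one_pow] at h3
    rw [zero_pow (by omega), mul_zero, mul_zero] at h3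
    have h4 : (d : K) ≠ 0 := Nat.cast_ne_zero.2 (by omega)
    exact (mul_ne_zero (mul_ne_zero h4 ha0) hfp) h3
  · intro t z
    by_cases ht : t = 0
    · subst ht
      rw [zero_smul, zero_add, zero_pow (by omega), zero_mul, zero_add, eval_smul' hf]
      -- comparison of the leading coefficients
      have h1 : ∀ y : K, y ≠ 0 → eval (y • p + u) f = y ^ d * eval p f + c := by
        intro y hy
        have h2 := hc' y⁻¹
        have h3 : y • p + u = y • (p + y⁻¹ • u) := by
          rw [smul_add, smul_smul, mul_inv_cancel₀ hy, one_smul]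
        rw [h3, eval_smul' hf, h2, mul_add, inv_pow]
        have : y ^ d ≠ 0 := pow_ne_zero _ hy
        field_simp
      have h2 : Polynomial.X * ((tr p f).map (eval u) -
          (Polynomial.C (eval p f) * Polynomial.X ^ d + Polynomial.C c)) = 0 := by
        apply Polynomial.funext
        intro y
        rw [Polynomial.eval_mul, Polynomial.eval_X, Polynomial.eval_sub, tr_eval]
        by_cases hy : y = 0
        · rw [hy, zero_mul, Polynomial.eval_zero]
        · have h3 : (fun s => u s + y * p s) = y • p + u := by
            funext s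
            rw [Pi.add_apply, Pi.smul_apply, smul_eq_mul, add_comm]
          rw [h3, h1 y hy]
          simp
          right; ring
      have h3 := congrArg (Polynomial.eval 0) ((mul_eq_zero.1 h2).resolve_left Polynomial.X_ne_zero)
      rw [Polynomial.eval_sub, tr_eval] at h3
      have h4 : (fun s => u s + 0 * p s) = u := by
        funext s
        rw [zero_mul, add_zero]
      rw [h4] at h3
      simp only [Polynomial.eval_add, Polynomial.eval_mul, Polynomial.eval_C,
        Polynomial.eval_pow, Polynomial.eval_X, Polynomial.eval_zero] at h3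
      rw [zero_pow (by omega), mul_zero, zero_add, sub_eq_zero] at h3
      rw [h3]; ring
    · have h2 := hc' (t⁻¹ * z)
      have h3 : t • p + z • u = t • (p + (t⁻¹ * z) • u) := by
        rw [smul_add, smul_smul, ← mul_assoc, mul_inv_cancel₀ ht, one_mul]
      rw [h3, eval_smul' hf, h2, mul_add, mul_pow, inv_pow]
      have : t ^ d ≠ 0 := pow_ne_zero _ ht
      field_simp

end Pool.Agent.Bloch.Sep
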