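import Pool.Agent.H11.Sep.Core

set_option linter.unusedSectionVars false
set_option linter.style.haveILetI false

open MvPolynomial

namespace Pool.Agent.Bloch.Sep

variable (K : Type) [Field K] (𝕜 : Type) [Field 𝕜] [CharZero 𝕜]

section surj
variable {F : Type} [CommRing F] {R A : Type} [CommRing R] [CommRing A] [Algebra F R] [Algebra F A]

theorem poly_surj (θ : R →ₐ[F] Polynomial A) (h1 : ∀ a : A, Polynomial.C a ∈ θ.range)
    (h2 : Polynomial.X ∈ θ.range) : Function.Surjective θ := by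
  intro f
  change f ∈ θ.range
  induction f using Polynomial.induction_on' with
  | add p q hp hq => exact Subalgebra.add_mem _ hp hq
  | monomial n a =>
    rw [← Polynomial.C_mul_X_pow_eq_monomial]
    exact Subalgebra.mul_mem _ (h1 a) (Subalgebra.pow_mem _ h2 n)

end surj

section closed
variable {L L' : Type} [Field L] [Field L'] [Algebra K L] [Algebra K L'] [Algebra L L']
    [IsScalarTower K L L'] [Algebra.EssFiniteType K L] [Algebra.EssFiniteType K L']
variable {τ' τ₀ : Type} [Finite τ'] [Fintype τ₀]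

/-- specialisation of the second group of variables -/
noncomputable def spc (τ' : Type) {τ₀ L' : Type} [Field L'] (x : τ₀ → L') :
    MvPolynomial (τ' ⊕ τ₀) L' →ₐ[L'] MvPolynomial τ' L' :=
  aeval (Sum.elim X (fun s => C (x s)))

/-- a line through a point -/
noncomputable def lin1 (τ' : Type) {τ₀ L' : Type} [Field L'] (x v : τ₀ → L') :
    MvPolynomial (τ' ⊕ τ₀) L' →ₐ[L'] Polynomial (MvPolynomial τ' L') :=
  aeval (Sum.elim (fun t => Polynomial.C (X t)) (fun s => Polynomial.C (C (x s)) +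
    Polynomial.C (C (v s)) * Polynomial.X))

/-- a plane through a point -/
noncomputable def lin2 (τ' : Type) {τ₀ L' : Type} [Field L'] (x v v' : τ₀ → L') :
    MvPolynomial (τ' ⊕ τ₀) L' →ₐ[L'] Polynomial (Polynomial (MvPolynomial τ' L')) :=
  aeval (Sum.elim (fun t => Polynomial.C (Polynomial.C (X t))) (fun s =>
    Polynomial.C (Polynomial.C (C (x s)) + Polynomial.C (C (v s)) * Polynomial.X) +
    Polynomial.C (Polynomial.C (C (v' s))) * Polynomial.X))

theorem lin1_coeff (x v : τ₀ → L') (f : MvPolynomial (τ' ⊕ τ₀) L') :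
    spc τ' x f = (lin1 τ' x v f).coeff 0 := by
  have h : (Polynomial.constantCoeff : Polynomial (MvPolynomial τ' L') →+* _).comp
      (lin1 τ' x v : MvPolynomial (τ' ⊕ τ₀) L' →+* _) = (spc τ' x : _ →+* _) := by
    apply MvPolynomial.ringHom_ext
    · intro r
      simp [lin1, spc]
    · intro s
      rcases s with t | s
      · simp [lin1, spc]
      · simp [lin1, spc]
  exact (RingHom.congr_fun h f).symm

theorem lin2_coeff (x v v' : τ₀ → L') (f : MvPolynomial (τ' ⊕ τ₀) L') :
    lin1 τ' x v f = (lin2 τ' x v v' f).coeff 0 := by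
  have h : (Polynomial.constantCoeff : Polynomial (Polynomial (MvPolynomial τ' L')) →+* _).comp
      (lin2 τ' x v v' : MvPolynomial (τ' ⊕ τ₀) L' →+* _) = (lin1 τ' x v : _ →+* _) := by
    apply MvPolynomial.ringHom_ext
    · intro r
      simp [lin1, lin2]
    · intro s
      rcases s with t | s
      · simp [lin1, lin2]
      · simp [lin1, lin2]
  exact (RingHom.congr_fun h f).symm

theorem mv_range {F A : Type} [Field F] [CommRing A] [Algebra F A] {τ : Type}
    (S : Subalgebra F A) (θ : MvPolynomial τ F →ₐ[F] A) (h : ∀ t, θ (X t) ∈ S)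
    (f : MvPolynomial τ F) : θ f ∈ S := by
  have h1 : θ.range ≤ S := by
    rw [MvPolynomial.aeval_unique θ, ← Algebra.adjoin_range_eq_range_aeval, Algebra.adjoin_le_iff]
    rintro _ ⟨t, rfl⟩
    exact h t
  exact h1 ⟨f, rfl⟩

theorem lin1_X (x v : τ₀ → L') {s₀ : τ₀} (h : v s₀ ≠ 0) :
    lin1 τ' x v (C (v s₀)⁻¹ * (X (Sum.inr s₀) - C (x s₀))) = Polynomial.X := by
  have h1 : (C (v s₀)⁻¹ * C (v s₀) : MvPolynomial τ' L') = 1 := by
    rw [← C_mul, inv_mul_cancel₀ h, C_1]
  simp only [lin1, map_mul, map_sub, aeval_X, Sum.elim_inr, algHom_C,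
    Polynomial.algebraMap_apply, MvPolynomial.algebraMap_eq]
  rw [add_sub_cancel_left, ← mul_assoc, ← Polynomial.C_mul, h1, Polynomial.C_1, one_mul]

theorem lin1_surj (x v : τ₀ → L') {s₀ : τ₀} (h : v s₀ ≠ 0) :
    Function.Surjective (lin1 τ' x v) := by
  apply poly_surj
  · intro a
    have := mv_range (lin1 τ' x v).range (Algebra.ofId (MvPolynomial τ' L')
      (Polynomial (MvPolynomial τ' L')) |>.restrictScalars L') (by
        intro t
        exact ⟨X (Sum.inl t), by simp [lin1]⟩) a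
    exact this
  · exact ⟨_, lin1_X x v h⟩

theorem spc_surj (x : τ₀ → L') : Function.Surjective (spc τ' x) := by
  intro f
  change f ∈ (spc τ' x).range
  have := mv_range (spc τ' x).range (AlgHom.id L' (MvPolynomial τ' L')) (by
        intro t
        exact ⟨X (Sum.inl t), by simp [spc]⟩) f
  exact this

theorem lin2_z (x v : τ₀ → L') {s₀ s₁ : τ₀} (h : v s₀ ≠ 0) (hne : s₁ ≠ s₀) [DecidableEq τ₀] :
    lin2 τ' x v (Pi.single s₁ 1) (C (v s₀)⁻¹ * (X (Sum.inr s₀) - C (x s₀))) =
      Polynomial.C Polynomial.X := by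
  have h1 : (C (v s₀)⁻¹ * C (v s₀) : MvPolynomial τ' L') = 1 := by
    rw [← C_mul, inv_mul_cancel₀ h, C_1]
  have h2 : (Pi.single s₁ (1 : L') : τ₀ → L') s₀ = 0 := Pi.single_eq_of_ne hne.symm _
  simp only [lin2, map_mul, map_sub, aeval_X, Sum.elim_inr, algHom_C,
    Polynomial.algebraMap_apply, MvPolynomial.algebraMap_eq, h2, C_0, Polynomial.C_0, zero_mul,
    add_zero]
  rw [← Polynomial.C_sub, add_sub_cancel_left, ← Polynomial.C_mul, ← mul_assoc,
    ← Polynomial.C_mul, h1, Polynomial.C_1, one_mul]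

theorem lin2_w (x v : τ₀ → L') {s₀ s₁ : τ₀} (h : v s₀ ≠ 0) (hne : s₁ ≠ s₀) [DecidableEq τ₀] :
    lin2 τ' x v (Pi.single s₁ 1) ((X (Sum.inr s₁) - C (x s₁)) -
      C (v s₁) * (C (v s₀)⁻¹ * (X (Sum.inr s₀) - C (x s₀)))) = Polynomial.X := by
  rw [map_sub, map_mul, lin2_z x v h hne]
  simp only [lin2, map_sub, aeval_X, Sum.elim_inr, algHom_C,
    Polynomial.algebraMap_apply, MvPolynomial.algebraMap_eq, Pi.single_eq_same, C_1, Polynomial.C_1]
  rw [Polynomial.C_add, Polynomial.C_mul]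
  ring

theorem lin2_surj (x v : τ₀ → L') {s₀ s₁ : τ₀} (h : v s₀ ≠ 0) (hne : s₁ ≠ s₀)
    [DecidableEq τ₀] : Function.Surjective (lin2 τ' x v (Pi.single s₁ 1)) := by
  have hz : (Polynomial.C Polynomial.X : Polynomial (Polynomial (MvPolynomial τ' L'))) ∈
    (lin2 τ' x v (Pi.single s₁ 1)).range := ⟨_, lin2_z x v h hne⟩
  apply poly_surj
  · intro a
    induction a using Polynomial.induction_on' with
    | add p q hp hq => rw [Polynomial.C_add]; exact Subalgebra.add_mem _ hp hq
    | monomial n a =>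
      rw [← Polynomial.C_mul_X_pow_eq_monomial, Polynomial.C_mul, Polynomial.C_pow]
      refine Subalgebra.mul_mem _ ?_ (Subalgebra.pow_mem _ hz n)
      have := mv_range (A := Polynomial (Polynomial (MvPolynomial τ' L')))
        (lin2 τ' x v (Pi.single s₁ 1)).range ((Polynomial.CAlgHom (R := L')).comp
          (Polynomial.CAlgHom (R := L'))) (by
          intro t
          exact ⟨X (Sum.inl t), by simp [lin2]⟩) a
      exact this
  · exact ⟨_, lin2_w x v h hne⟩

/-- the case of a closed point of the base, over a field containing its coordinates -/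
theorem closed_point {k : ℕ} (x v : τ₀ → L') (hv : v ≠ 0) (c : L') (n : ℕ) (hn : 0 < n)
    (hc : c = 0 ∨ 2 ≤ Fintype.card τ₀) (W : PrimeSpectrum (MvPolynomial τ' L'))
    (hd : dl K W = k) (H : MvPolynomial (τ' ⊕ τ₀) L') (h : MvPolynomial τ' L') (hh : h ∈ W.asIdeal)
    (hH : lin1 τ' x v H = Polynomial.C h + Polynomial.C (C c) * Polynomial.X ^ n) :
    Finsupp.single (ctr K ((spc τ' x).restrictScalars K) W) 1 ∈
      Rel K 𝕜 k {Q : PrimeSpectrum (MvPolynomial (τ' ⊕ τ₀) L') | H ∈ Q.asIdeal} := by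
  classical
  obtain ⟨s₀, hs₀⟩ : ∃ s₀, v s₀ ≠ 0 := by
    by_contra hcon
    push Not at hcon
    exact hv (funext hcon)
  set O := ctr K ((spc τ' x).restrictScalars K) W with hO
  set T := ctr K ((lin1 τ' x v).restrictScalars K) (ext W) with hT
  have hOT : O.asIdeal = T.asIdeal ⊔ Ideal.span {C (v s₀)⁻¹ * (X (Sum.inr s₀) - C (x s₀))} :=
    ctr_sup K ((lin1 τ' x v).restrictScalars K) (lin1_surj x v hs₀)
      ((spc τ' x).restrictScalars K) (lin1_coeff x v) W _ (lin1_X x v hs₀)
  have hdO : dl K O = k := by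
    rw [hO, dl_ctr_surj K _ (spc_surj x), hd]
  have hdT : dl K T = k + 1 := by
    rw [hT, dl_ctr_surj K _ (lin1_surj x v hs₀), dl_ext, hd]
  by_cases hc0 : c = 0
  · have hHT : H ∈ T.asIdeal := by
      rw [hT, mem_ctr, mem_ext]
      intro m
      change (lin1 τ' x v H).coeff m ∈ _
      rw [hH, hc0, C_0, Polynomial.C_0, zero_mul, add_zero, Polynomial.coeff_C]
      split_ifs
      · exact hh
      · exact Ideal.zero_mem _
    exact core0 K 𝕜 (Z := {Q : PrimeSpectrum (MvPolynomial (τ' ⊕ τ₀) L') | H ∈ Q.asIdeal})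
      T O _ hOT hHT hdT hdO
  · have hcard := hc.resolve_left hc0
    obtain ⟨s₁, hs₁⟩ : ∃ s₁, s₁ ≠ s₀ := by
      by_contra hcon
      push Not at hcon
      have : Fintype.card τ₀ ≤ 1 := Fintype.card_le_one_iff.2 (fun a b => by
        rw [hcon a, hcon b])
      omega
    set Ω := ctr K ((lin2 τ' x v (Pi.single s₁ 1)).restrictScalars K) (ext (ext W)) with hΩ
    have hTΩ : T.asIdeal = Ω.asIdeal ⊔ Ideal.span {(X (Sum.inr s₁) - C (x s₁)) -
      C (v s₁) * (C (v s₀)⁻¹ * (X (Sum.inr s₀) - C (x s₀)))} :=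
      ctr_sup K ((lin2 τ' x v (Pi.single s₁ 1)).restrictScalars K) (lin2_surj x v hs₀ hs₁)
        ((lin1 τ' x v).restrictScalars K) (lin2_coeff x v _) (ext W) _ (lin2_w x v hs₀ hs₁)
    have hdΩ : dl K Ω = k + 2 := by
      rw [hΩ, dl_ctr_surj K _ (lin2_surj x v hs₀ hs₁), dl_ext, dl_ext, hd]
    refine core2 K 𝕜 Ω T O _ _ (C c) H n hTΩ hOT hdΩ hdT hdO ?_ hn ?_
    · exact (isUnit_iff_ne_zero.2 hc0).map C
    · rw [hT, mem_ctr, mem_ext]
      intro m
      change (lin1 τ' x v (H - C c * (C (v s₀)⁻¹ * (X (Sum.inr s₀) - C (x s₀))) ^ n)).coeff m ∈ _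
      rw [map_sub, map_mul, map_pow, lin1_X x v hs₀, hH]
      have : lin1 τ' x v (C c) = Polynomial.C (C c) := by
        simp [lin1, MvPolynomial.algebraMap_eq]
      rw [this, add_sub_cancel_right, Polynomial.coeff_C]
      split_ifs
      · exact hh
      · exact Ideal.zero_mem _

end closed

end Pool.Agent.Bloch.Sep
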