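import Pool.Agent.H11.Sep.Theta
import Pool.Agent.H11.Sep.Closed

set_option linter.unusedSectionVars false
set_option linter.style.haveILetI false

open MvPolynomial

namespace Pool.Agent.Bloch.Sep

variable {K : Type} [Field K]

section cn
variable {σ : Type} [Fintype σ]

/-- translation in the direction `o` -/
noncomputable def tr (o : σ → K) : MvPolynomial σ K →ₐ[K] Polynomial (MvPolynomial σ K) :=
  aeval (fun s => Polynomial.C (X s) + Polynomial.C (C (o s)) * Polynomial.X)

theorem tr_X (o : σ → K) (s : σ) :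
    tr o (X s) = Polynomial.C (X s) + Polynomial.C (C (o s)) * Polynomial.X := aeval_X _ _

theorem tr_C (o : σ → K) (a : K) : tr o (C a) = Polynomial.C (C a) := by
  unfold tr
  rw [algHom_C]
  rfl

theorem tr_coeff_zero (o : σ → K) (f : MvPolynomial σ K) : (tr o f).coeff 0 = f := by
  have h : (Polynomial.constantCoeff : Polynomial (MvPolynomial σ K) →+* _).comp
      (tr o : MvPolynomial σ K →+* _) = RingHom.id _ := by
    apply MvPolynomial.ringHom_ext
    · intro r
      rw [RingHom.comp_apply]
      change Polynomial.constantCoeff (tr o (C r)) = _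
      rw [tr_C]
      simp
    · intro s
      rw [RingHom.comp_apply]
      change Polynomial.constantCoeff (tr o (X s)) = _
      rw [tr_X]
      simp
  exact RingHom.congr_fun h f

theorem tr_lf (o w : σ → K) : tr o (lf w) =
    Polynomial.C (lf w) + Polynomial.C (C (∑ s, w s * o s)) * Polynomial.X := by
  unfold lf
  simp only [map_sum, map_mul, tr_X, tr_C, Finset.sum_mul]
  rw [← Finset.sum_add_distrib]
  apply Finset.sum_congr rfl
  intro s _
  ring

theorem tr_eval (o v : σ → K) (z : K) (f : MvPolynomial σ K) :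
    ((tr o f).map (eval v)).eval z = eval (fun s => v s + z * o s) f := by
  have h : ((Polynomial.evalRingHom z).comp (Polynomial.mapRingHom (eval v))).comp
      (tr o : MvPolynomial σ K →+* _) = eval (fun s => v s + z * o s) := by
    apply MvPolynomial.ringHom_ext
    · intro r
      rw [RingHom.comp_apply]
      change _ = eval (fun s => v s + z * o s) (C r)
      rw [eval_C]
      change (Polynomial.map (eval v) (tr o (C r))).eval z = r
      rw [tr_C]
      simp
    · intro s
      rw [RingHom.comp_apply, eval_X]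
      change (Polynomial.map (eval v) (tr o (X s))).eval z = _
      rw [tr_X]
      simp
      ring
  exact RingHom.congr_fun h f

/-- the cone with vertex `o` -/
noncomputable def Cn (o : σ → K) (W : PrimeSpectrum (MvPolynomial σ K)) :
    PrimeSpectrum (MvPolynomial σ K) := ctr K (tr o) (ext W)

theorem mem_Cn (o : σ → K) (W : PrimeSpectrum (MvPolynomial σ K)) (f : MvPolynomial σ K) :
    f ∈ (Cn o W).asIdeal ↔ ∀ n, (tr o f).coeff n ∈ W.asIdeal := by
  unfold Cn
  rw [mem_ctr, mem_ext]

theorem Cn_le (o : σ → K) (W : PrimeSpectrum (MvPolynomial σ K)) : Cn o W ≤ W := by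
  intro f hf
  have := (mem_Cn o W f).1 hf 0
  rwa [tr_coeff_zero] at this

theorem lf_mem_Cn (o w : σ → K) (W : PrimeSpectrum (MvPolynomial σ K)) (h : lf w ∈ W.asIdeal)
    (h0 : ∑ s, w s * o s = 0) : lf w ∈ (Cn o W).asIdeal := by
  rw [mem_Cn, tr_lf, h0]
  intro n
  rw [C_0, Polynomial.C_0, zero_mul, add_zero, Polynomial.coeff_C]
  split_ifs
  · exact h
  · exact Ideal.zero_mem _

theorem homogeneousComponent_mul_X_succ (f : MvPolynomial σ K) (s : σ) (m : ℕ) :
    homogeneousComponent (m + 1) (f * X s) = homogeneousComponent m f * X s := by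
  conv_lhs => rw [← sum_homogeneousComponent f, Finset.sum_mul, map_sum]
  have h : ∀ i, homogeneousComponent (m + 1) (homogeneousComponent i f * X s) =
      if m = i then homogeneousComponent i f * X s else 0 := by
    intro i
    rw [homogeneousComponent_of_mem ((homogeneousComponent_isHomogeneous i f).mul
      (isHomogeneous_X K s))]
    simp only [add_left_inj]
  simp only [h]
  rw [Finset.sum_ite_eq]
  split_ifs with h1
  · rfl
  · rw [Finset.mem_range, not_lt] at h1
    rw [homogeneousComponent_eq_zero _ _ (by omega), zero_mul]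

theorem homogeneousComponent_mul_X_zero (f : MvPolynomial σ K) (s : σ) :
    homogeneousComponent 0 (f * X s) = 0 := by
  rw [← sum_homogeneousComponent f, Finset.sum_mul, map_sum]
  apply Finset.sum_eq_zero
  intro i _
  rw [homogeneousComponent_of_mem ((homogeneousComponent_isHomogeneous i f).mul
      (isHomogeneous_X K s)), if_neg (by omega)]

theorem homogeneousComponent_mul_C (f : MvPolynomial σ K) (c : K) (m : ℕ) :
    homogeneousComponent m (f * C c) = homogeneousComponent m f * C c := by
  rw [mul_comm, mul_comm _ (C c), ← smul_eq_C_mul, ← smul_eq_C_mul, map_smul]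

theorem tr_degree (o : σ → K) (f : MvPolynomial σ K) : (tr o f).natDegree ≤ f.totalDegree := by
  conv_lhs => rw [f.as_sum, map_sum]
  refine Polynomial.natDegree_sum_le_of_forall_le _ _ (fun m hm => ?_)
  unfold tr
  rw [aeval_monomial]
  refine (Polynomial.natDegree_mul_le).trans ?_
  have h1 : (algebraMap K (Polynomial (MvPolynomial σ K)) (coeff m f)).natDegree = 0 :=
    Polynomial.natDegree_C (C (coeff m f) : MvPolynomial σ K)
  rw [h1, zero_add]
  refine (Polynomial.natDegree_prod_le _ _).trans ?_
  refine (Finset.sum_le_sum (g := fun s => m s) (fun s _ => ?_)).trans (le_totalDegree hm)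
  refine (Polynomial.natDegree_pow_le).trans ?_
  have : (Polynomial.C (X s) + Polynomial.C (C (o s)) * Polynomial.X :
      Polynomial (MvPolynomial σ K)).natDegree ≤ 1 := by
    refine (Polynomial.natDegree_add_le _ _).trans (max_le ?_ ?_)
    · rw [Polynomial.natDegree_C]; exact Nat.zero_le _
    · refine (Polynomial.natDegree_mul_le).trans ?_
      rw [Polynomial.natDegree_C, zero_add]
      exact Polynomial.natDegree_X_le
  calc m s * _ ≤ m s * 1 := Nat.mul_le_mul_left _ this
    _ = m s := mul_one _

theorem tr_coeff_of_lt (o : σ → K) (f : MvPolynomial σ K) {d n : ℕ} (h : d < n) :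
    (tr o (homogeneousComponent d f)).coeff n = 0 := by
  apply Polynomial.coeff_eq_zero_of_natDegree_lt
  refine lt_of_le_of_lt (tr_degree o _) (lt_of_le_of_lt ?_ h)
  exact (homogeneousComponent_isHomogeneous d f).totalDegree_le

/-- translation and homogeneous components -/
theorem tr_component (o : σ → K) (f : MvPolynomial σ K) : ∀ m n,
    homogeneousComponent m ((tr o f).coeff n) =
      (tr o (homogeneousComponent (m + n) f)).coeff n := by
  induction f using MvPolynomial.induction_on with
  | C a =>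
    intro m n
    rw [tr_C, Polynomial.coeff_C, homogeneousComponent_of_mem (isHomogeneous_C σ a)]
    by_cases hn : n = 0
    · subst hn
      rw [if_pos rfl, add_zero, homogeneousComponent_of_mem (isHomogeneous_C σ a)]
      split_ifs
      · rw [tr_C, Polynomial.coeff_C_zero]
      · rw [map_zero, Polynomial.coeff_zero]
    · rw [if_neg hn, if_neg (by omega), map_zero, map_zero, Polynomial.coeff_zero]
  | add p q hp hq =>
    intro m n
    rw [map_add, Polynomial.coeff_add, map_add, hp, hq, map_add, map_add, Polynomial.coeff_add]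
  | mul_X f s hf =>
    have key : ∀ (g : MvPolynomial σ K) (n : ℕ), (tr o (g * X s)).coeff n =
        (tr o g).coeff n * X s + (if n = 0 then 0 else (tr o g).coeff (n - 1) * C (o s)) := by
      intro g n
      rw [map_mul, tr_X, mul_add, Polynomial.coeff_add, Polynomial.coeff_mul_C, ← mul_assoc]
      congr 1
      rcases n with _ | n
      · rw [if_pos rfl, Polynomial.mul_coeff_zero, Polynomial.coeff_X_zero, mul_zero]
      · rw [if_neg (Nat.succ_ne_zero n), Polynomial.coeff_mul_X, Polynomial.coeff_mul_C]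
        rfl
    intro m n
    rw [key, map_add]
    rcases n with _ | n
    · rw [if_pos rfl, map_zero, add_zero, add_zero, tr_coeff_zero, tr_coeff_zero]
    · rw [if_neg (Nat.succ_ne_zero n), homogeneousComponent_mul_C, Nat.add_sub_cancel, hf,
        ← add_assoc, homogeneousComponent_mul_X_succ, key, if_neg (Nat.succ_ne_zero n),
        Nat.add_sub_cancel]
      congr 1
      rcases m with _ | m
      · rw [homogeneousComponent_mul_X_zero]
        rw [zero_add, tr_coeff_of_lt o f (Nat.lt_succ_self n), zero_mul]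
      · have h3 : m + (n + 1) = m + 1 + n := by omega
        rw [homogeneousComponent_mul_X_succ, hf, h3]

theorem homP_Cn (o : σ → K) {W : PrimeSpectrum (MvPolynomial σ K)} (hW : HomP W) :
    HomP (Cn o W) := by
  intro f hf d
  rw [mem_Cn] at hf ⊢
  intro n
  by_cases h : n ≤ d
  · obtain ⟨m, rfl⟩ := Nat.exists_eq_add_of_le' h
    rw [← tr_component]
    exact hW _ (hf n) m
  · rw [tr_coeff_of_lt o f (not_le.1 h)]
    exact Ideal.zero_mem _

/-- translation modulo `W` -/
noncomputable def trW (o : σ → K) (W : PrimeSpectrum (MvPolynomial σ K)) :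
    MvPolynomial σ K →ₐ[K] Polynomial (MvPolynomial σ K ⧸ W.asIdeal) :=
  (Polynomial.mapAlgHom (Ideal.Quotient.mkₐ K W.asIdeal)).comp (tr o)

theorem trW_apply (o : σ → K) (W : PrimeSpectrum (MvPolynomial σ K)) (f : MvPolynomial σ K) :
    trW o W f = (tr o f).map (Ideal.Quotient.mk W.asIdeal) := rfl

theorem trW_lf {o ζ : σ → K} {W : PrimeSpectrum (MvPolynomial σ K)} (hζ : lf ζ ∈ W.asIdeal)
    (h1 : ∑ s, ζ s * o s = 1) : trW o W (lf ζ) = Polynomial.X := by
  rw [trW_apply, tr_lf, h1, C_1, Polynomial.C_1, one_mul, Polynomial.map_add, Polynomial.map_X,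
    Polynomial.map_C, Ideal.Quotient.eq_zero_iff_mem.2 hζ, Polynomial.C_0, zero_add]

theorem trW_surj {o ζ : σ → K} {W : PrimeSpectrum (MvPolynomial σ K)} (hζ : lf ζ ∈ W.asIdeal)
    (h1 : ∑ s, ζ s * o s = 1) : Function.Surjective (trW o W) := by
  have hX : Polynomial.X ∈ (trW o W).range := ⟨_, trW_lf hζ h1⟩
  apply poly_surj
  · intro a
    obtain ⟨f, rfl⟩ := Ideal.Quotient.mk_surjective a
    have := mv_range (A := Polynomial (MvPolynomial σ K ⧸ W.asIdeal)) (trW o W).range
      ((Polynomial.CAlgHom (R := K)).comp (Ideal.Quotient.mkₐ K W.asIdeal)) (by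
        intro s
        refine ⟨X s - C (o s) * lf ζ, ?_⟩
        change trW o W (X s - C (o s) * lf ζ) = _
        have e1 : trW o W (C (o s)) = Polynomial.C (Ideal.Quotient.mk W.asIdeal (C (o s))) := by
          rw [trW_apply, tr_C, Polynomial.map_C]
        rw [map_sub, map_mul, trW_lf hζ h1, trW_apply, tr_X, Polynomial.map_add,
          Polynomial.map_mul, Polynomial.map_X, Polynomial.map_C, Polynomial.map_C, e1,
          add_sub_cancel_right]
        rfl) f
    exact this
  · exact hX

theorem Cn_eq (o : σ → K) (W : PrimeSpectrum (MvPolynomial σ K)) :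
    Cn o W = ctr K (trW o W) (ext ⟨⊥, Ideal.isPrime_bot⟩) := by
  apply PrimeSpectrum.ext
  ext f
  rw [mem_Cn, mem_ctr, mem_ext]
  refine forall_congr' (fun n => ?_)
  rw [trW_apply, Polynomial.coeff_map, Ideal.mem_bot, Ideal.Quotient.eq_zero_iff_mem]

theorem dl_Cn {o ζ : σ → K} {W : PrimeSpectrum (MvPolynomial σ K)} (hζ : lf ζ ∈ W.asIdeal)
    (h1 : ∑ s, ζ s * o s = 1) : dl K (Cn o W) = dl K W + 1 := by
  rw [Cn_eq, dl_ctr_surj K _ (trW_surj hζ h1), dl_ext]
  congr 1
  unfold dl
  exact td_congr K (AlgEquiv.quotientBot K (MvPolynomial σ K ⧸ W.asIdeal))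

theorem Cn_sup {o ζ : σ → K} {W : PrimeSpectrum (MvPolynomial σ K)} (hζ : lf ζ ∈ W.asIdeal)
    (h1 : ∑ s, ζ s * o s = 1) :
    W.asIdeal = (Cn o W).asIdeal ⊔ Ideal.span {lf ζ} := by
  have h2 := ctr_sup K (trW o W) (trW_surj hζ h1) (Ideal.Quotient.mkₐ K W.asIdeal) (by
    intro f
    rw [trW_apply, Polynomial.coeff_map, tr_coeff_zero]
    rfl) ⟨⊥, Ideal.isPrime_bot⟩ (lf ζ) (trW_lf hζ h1)
  rw [← Cn_eq] at h2
  rw [← h2]
  ext f
  rw [mem_ctr, Ideal.mem_bot]
  exact Ideal.Quotient.eq_zero_iff_mem.symm

/-- contact in terms of the cone -/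
theorem contact_mem_Cn {o ζ : σ → K} {W : PrimeSpectrum (MvPolynomial σ K)}
    (hζ : lf ζ ∈ W.asIdeal) (h1 : ∑ s, ζ s * o s = 1) {F : MvPolynomial σ K} {c : K} {d : ℕ}
    (h : ∀ n, (tr o F - Polynomial.C (C c) * Polynomial.X ^ d).coeff n ∈ W.asIdeal) :
    F - C c * lf ζ ^ d ∈ (Cn o W).asIdeal := by
  rw [Cn_eq, mem_ctr, mem_ext]
  intro n
  rw [map_sub, map_mul, map_pow, trW_lf hζ h1]
  have e1 : trW o W (C c) = Polynomial.C (Ideal.Quotient.mk W.asIdeal (C c)) := by
    rw [trW_apply, tr_C, Polynomial.map_C]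
  have e2 : trW o W F - trW o W (C c) * Polynomial.X ^ d =
      (tr o F - Polynomial.C (C c) * Polynomial.X ^ d).map (Ideal.Quotient.mk W.asIdeal) := by
    rw [Polynomial.map_sub, Polynomial.map_mul, Polynomial.map_pow, Polynomial.map_X,
      Polynomial.map_C, e1, trW_apply]
  rw [e2, Polynomial.coeff_map, Ideal.mem_bot, Ideal.Quotient.eq_zero_iff_mem]
  exact h n

end cn

end Pool.Agent.Bloch.Sep
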