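import Pool.Agent.H11.Sep.Core

set_option linter.unusedSectionVars false
set_option linter.style.haveILetI false

open MvPolynomial

namespace Pool.Agent.Bloch.Sep

variable (K : Type) [Field K] (𝕜 : Type) [Field 𝕜] [CharZero 𝕜]

section
variable {R : Type} [CommRing R] [Algebra K R] [Algebra.EssFiniteType K R] [IsNoetherianRing R]

/-- one of the two sides of the commutation of divisors -/
theorem dcyc_half (k : ℕ) (Ω : PrimeSpectrum R) (a G : R) (hG : G ∉ Ω.asIdeal)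
    (hd : dl K Ω = k + 2)
    (hreg : ∀ x, a * x ∈ Ω.asIdeal ⊔ Ideal.span {G} → x ∈ Ω.asIdeal ⊔ Ideal.span {G})
    (hdim : ∀ q : PrimeSpectrum R, Ω ≤ q → a ∈ q.asIdeal → G ∈ q.asIdeal → dl K q ≤ k) :
    dcyc K 𝕜 k a (divCyc K 𝕜 (k + 1) Ω G) =
      cyc K 𝕜 (R := R) k (R ⧸ (Ω.asIdeal ⊔ Ideal.span {G} ⊔ Ideal.span {a})) := by
  set M := R ⧸ (Ω.asIdeal ⊔ Ideal.span {G}) with hM
  have hsup : ∀ q : PrimeSpectrum R, q ∈ Module.support R M ↔ Ω ≤ q ∧ G ∈ q.asIdeal :=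
    fun q => support_div Ω G q
  have key := cyc_ck_kr_exact K 𝕜 k a (Module.support R M)
    (fun q hq => (bd_div K (k := k + 1) (by omega) hG).2 q hq) (by
      intro q hq hdq haq
      rw [hsup] at hq
      have := hdim q hq.1 haq hq.2
      omega) (inferInstance : Module.Finite R M) subset_rfl
  have hk : cyc K 𝕜 (R := R) k (Kr a M) = 0 := by
    apply cyc_eq_zero
    intro p hp
    have hinj : ∀ x : M, a • x = 0 → x = 0 := by
      intro x hx
      obtain ⟨x, rfl⟩ := Ideal.Quotient.mk_surjective x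
      have h3 : Ideal.Quotient.mk (Ω.asIdeal ⊔ Ideal.span {G}) (a * x) = 0 := hx
      rw [Ideal.Quotient.eq_zero_iff_mem] at h3
      exact Ideal.Quotient.eq_zero_iff_mem.2 (hreg x h3)
    have : Subsingleton (Kr a M) := by
      constructor
      rintro ⟨x, hx⟩ ⟨y, hy⟩
      rw [Subtype.mk.injEq, hinj x hx, hinj y hy]
    rw [Module.support_eq_empty] at hp
    exact absurd hp (Set.notMem_empty _)
  rw [hk, sub_zero] at key
  have e1 : divCyc K 𝕜 (k + 1) Ω G = cyc K 𝕜 (R := R) (k + 1) M := rfl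
  rw [e1, ← key]
  exact cyc_congr K 𝕜 (ckQuot _ a)

/-- regular sequences in a domain can be permuted -/
theorem reg_swap (Ω : PrimeSpectrum R) (a G : R) (ha : a ∉ Ω.asIdeal)
    (hreg : ∀ x, G * x ∈ Ω.asIdeal ⊔ Ideal.span {a} → x ∈ Ω.asIdeal ⊔ Ideal.span {a}) :
    ∀ x, a * x ∈ Ω.asIdeal ⊔ Ideal.span {G} → x ∈ Ω.asIdeal ⊔ Ideal.span {G} := by
  intro x h3
  obtain ⟨ω, hω, g, hg, h4⟩ := Submodule.mem_sup.1 h3
  obtain ⟨b, rfl⟩ := Ideal.mem_span_singleton'.1 hg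
  have h5 : G * b ∈ Ω.asIdeal ⊔ Ideal.span {a} := by
    have : G * b = a * x - ω := by rw [← h4]; ring
    rw [this]
    exact Ideal.sub_mem _ (Ideal.mul_mem_right _ _
      (Ideal.mem_sup_right (Ideal.mem_span_singleton_self a))) (Ideal.mem_sup_left hω)
  have h6 := hreg b h5
  obtain ⟨ω', hω', g', hg', h7⟩ := Submodule.mem_sup.1 h6
  obtain ⟨b', rfl⟩ := Ideal.mem_span_singleton'.1 hg'
  have h8 : a * (x - G * b') ∈ Ω.asIdeal := by
    have : a * (x - G * b') = ω + ω' * G := by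
      rw [← h7] at h4
      linear_combination (-1 : R) * h4
    rw [this]
    exact Ideal.add_mem _ hω (Ideal.mul_mem_right _ _ hω')
  have h9 : x - G * b' ∈ Ω.asIdeal := (Ω.2.mem_or_mem h8).resolve_left ha
  have : x = (x - G * b') + G * b' := by ring
  rw [this]
  exact Ideal.add_mem _ (Ideal.mem_sup_left h9) (Ideal.mem_sup_right
    (Ideal.mul_mem_right _ _ (Ideal.mem_span_singleton_self G)))

/-- Two divisors on a variety commute. -/
theorem dcyc_comm (k : ℕ) (Ω : PrimeSpectrum R) (a G : R)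
    (ha : a ∉ Ω.asIdeal) (hG : G ∉ Ω.asIdeal) (hd : dl K Ω = k + 2)
    (hreg : ∀ x, G * x ∈ Ω.asIdeal ⊔ Ideal.span {a} → x ∈ Ω.asIdeal ⊔ Ideal.span {a})
    (hdim : ∀ q : PrimeSpectrum R, Ω ≤ q → a ∈ q.asIdeal → G ∈ q.asIdeal → dl K q ≤ k) :
    dcyc K 𝕜 k a (divCyc K 𝕜 (k + 1) Ω G) = dcyc K 𝕜 k G (divCyc K 𝕜 (k + 1) Ω a) := by
  rw [dcyc_half K 𝕜 k Ω a G hG hd (reg_swap Ω a G ha hreg) hdim,
    dcyc_half K 𝕜 k Ω G a ha hd hreg (fun q h1 h2 h3 => hdim q h1 h3 h2), sup_right_comm]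

end

end Pool.Agent.Bloch.Sep
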