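import Pool.Agent.H11.Sep.Gal2

set_option linter.unusedSectionVars false
set_option linter.style.haveILetI false

open MvPolynomial

namespace Pool.Agent.Bloch.Sep

variable (K : Type) [Field K] (𝕜 : Type) [Field 𝕜] [CharZero 𝕜]

section
variable {R : Type} [CommRing R] [Algebra K R] [Algebra.EssFiniteType K R] [IsNoetherianRing R]

theorem dcyc_mem_span (k : ℕ) (a : R) (z : PrimeSpectrum R →₀ 𝕜)
    (W : Submodule 𝕜 (PrimeSpectrum R →₀ 𝕜))
    (h : ∀ q, z q ≠ 0 → divCyc K 𝕜 k q a ∈ W) : dcyc K 𝕜 k a z ∈ W := by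
  unfold dcyc
  rw [Finsupp.linearCombination_apply, Finsupp.sum]
  apply Submodule.sum_mem
  intro q hq
  exact Submodule.smul_mem _ _ (h q (Finsupp.mem_support_iff.1 hq))

/-- Two divisors on a variety commute. -/
theorem dcyc_divCyc (k : ℕ) (Ω T : PrimeSpectrum R) (a G : R)
    (hT : T.asIdeal = Ω.asIdeal ⊔ Ideal.span {a}) (ha : a ∉ Ω.asIdeal) (hG : G ∉ T.asIdeal)
    (hd : dl K Ω = k + 2) :
    dcyc K 𝕜 k a (divCyc K 𝕜 (k + 1) Ω G) = divCyc K 𝕜 k T G := by
  have hle : Ω ≤ T := by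
    change Ω.asIdeal ≤ T.asIdeal
    rw [hT]; exact le_sup_left
  have haT : a ∈ T.asIdeal := by
    rw [hT]; exact Ideal.mem_sup_right (Ideal.mem_span_singleton_self a)
  have hlt : Ω < T := lt_of_le_of_ne hle (fun h => ha (by rw [h]; exact haT))
  have hdT : dl K T < k + 2 := by rw [← hd]; exact dl_lt K hlt
  have hGΩ : G ∉ Ω.asIdeal := fun h => hG (hle h)
  set M := R ⧸ (Ω.asIdeal ⊔ Ideal.span {G}) with hM
  have hsup : ∀ q : PrimeSpectrum R, q ∈ Module.support R M ↔ Ω ≤ q ∧ G ∈ q.asIdeal :=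
    fun q => support_div Ω G q
  have key := cyc_ck_kr_exact K 𝕜 k a (Module.support R M)
    (fun q hq => (bd_div K (k := k + 1) (by omega) hGΩ).2 q hq) (by
      intro q hq hdq haq
      rw [hsup] at hq
      have h1 : T ≤ q := by
        change T.asIdeal ≤ q.asIdeal
        rw [hT, sup_le_iff, Ideal.span_singleton_le_iff_mem]
        exact ⟨hq.1, haq⟩
      have h2 : T ≠ q := fun h => hG (by rw [h]; exact hq.2)
      have := dl_lt K (lt_of_le_of_ne h1 h2)
      omega) (inferInstance : Module.Finite R M) subset_rfl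
  have hk : cyc K 𝕜 (R := R) k (Kr a M) = 0 := by
    apply cyc_eq_zero
    intro p hp
    have hinj : ∀ x : M, a • x = 0 → x = 0 := by
      intro x hx
      obtain ⟨x, rfl⟩ := Ideal.Quotient.mk_surjective x
      have h3 : Ideal.Quotient.mk (Ω.asIdeal ⊔ Ideal.span {G}) (a * x) = 0 := hx
      rw [Ideal.Quotient.eq_zero_iff_mem] at h3 ⊢
      obtain ⟨ω, hω, g, hg, h4⟩ := Submodule.mem_sup.1 h3
      obtain ⟨b, rfl⟩ := Ideal.mem_span_singleton'.1 hg
      have h5 : b * G ∈ T.asIdeal := by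
        have : b * G = a * x - ω := by rw [← h4]; ring
        rw [this]
        exact Ideal.sub_mem _ (Ideal.mul_mem_right _ _ haT) (hle hω)
      have h6 : b ∈ T.asIdeal := (T.2.mem_or_mem h5).resolve_right hG
      rw [hT] at h6
      obtain ⟨ω', hω', g', hg', h7⟩ := Submodule.mem_sup.1 h6
      obtain ⟨b', rfl⟩ := Ideal.mem_span_singleton'.1 hg'
      have h8 : a * (x - G * b') ∈ Ω.asIdeal := by
        have : a * (x - G * b') = ω + ω' * G := by
          rw [← h7] at h4
          linear_combination (-1 : R) * h4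
        rw [this]
        exact Ideal.add_mem _ hω (Ideal.mul_mem_right _ _ hω')
      have h9 : x - G * b' ∈ Ω.asIdeal := (Ω.2.mem_or_mem h8).resolve_left ha
      have : x = (x - G * b') + G * b' := by ring
      rw [this]
      exact Ideal.add_mem _ (Ideal.mem_sup_left h9) (Ideal.mem_sup_right
        (Ideal.mul_mem_right _ _ (Ideal.mem_span_singleton_self G)))
    have : Subsingleton (Kr a M) := by
      constructor
      rintro ⟨x, hx⟩ ⟨y, hy⟩
      rw [Subtype.mk.injEq, hinj x hx, hinj y hy]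
    rw [Module.support_eq_empty] at hp
    exact absurd hp (Set.notMem_empty _)
  rw [hk, sub_zero] at key
  have e1 : divCyc K 𝕜 (k + 1) Ω G = cyc K 𝕜 (R := R) (k + 1) M := rfl
  rw [e1, ← key]
  unfold divCyc
  refine (cyc_congr K 𝕜 (ckQuot _ a)).trans ?_
  have : Ω.asIdeal ⊔ Ideal.span {G} ⊔ Ideal.span {a} = T.asIdeal ⊔ Ideal.span {G} := by
    rw [hT, sup_right_comm]
  rw [this]

/-- The first core computation. -/
theorem core0 {k : ℕ} {Z : Set (PrimeSpectrum R)} (T O : PrimeSpectrum R) (z : R)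
    (hO : O.asIdeal = T.asIdeal ⊔ Ideal.span {z}) (hT : T ∈ Z) (hdT : dl K T = k + 1)
    (hdO : dl K O = k) : Finsupp.single O 1 ∈ Rel K 𝕜 k Z := by
  have hz : z ∉ T.asIdeal := by
    intro h
    have : O = T := by
      apply PrimeSpectrum.ext
      rw [hO]
      exact sup_eq_left.2 (by rwa [Ideal.span_singleton_le_iff_mem])
    rw [this] at hdO
    omega
  rw [← divCyc_prime K 𝕜 k T O z hO hdO]
  exact divCyc_mem_rel K 𝕜 hT hdT hz

theorem divCyc_cpow {k : ℕ} (T O : PrimeSpectrum R) (z c G : R) (n : ℕ)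
    (hO : O.asIdeal = T.asIdeal ⊔ Ideal.span {z}) (hdT : dl K T = k + 1)
    (hdO : dl K O = k) (hc : IsUnit c) (hG : G - c * z ^ n ∈ T.asIdeal) :
    divCyc K 𝕜 k T G = (n : 𝕜) • Finsupp.single O 1 := by
  have hz : z ∉ T.asIdeal := by
    intro h
    have : O = T := by
      apply PrimeSpectrum.ext
      rw [hO]
      exact sup_eq_left.2 (by rwa [Ideal.span_singleton_le_iff_mem])
    rw [this] at hdO
    omega
  have hcT : c ∉ T.asIdeal := fun h => T.2.ne_top (Ideal.eq_top_of_isUnit_mem _ h hc)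
  rw [divCyc_congr K 𝕜 k T G _ hG, divCyc_mul K 𝕜 k T hdT _ _ hcT
    (fun h => hz (T.2.mem_of_pow_mem n h)), divCyc_one K 𝕜 k T c hc, zero_add,
    divCyc_pow K 𝕜 k T hdT z hz, divCyc_prime K 𝕜 k T O z hO hdO]

/-- The second core computation. -/
theorem core2 {k : ℕ} (Ω T O : PrimeSpectrum R) (w z c G : R) (n : ℕ)
    (hT : T.asIdeal = Ω.asIdeal ⊔ Ideal.span {w})
    (hO : O.asIdeal = T.asIdeal ⊔ Ideal.span {z}) (hdΩ : dl K Ω = k + 2) (hdT : dl K T = k + 1)
    (hdO : dl K O = k) (hc : IsUnit c) (hn : 0 < n) (hG : G - c * z ^ n ∈ T.asIdeal) :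
    Finsupp.single O 1 ∈ Rel K 𝕜 k {Q | G ∈ Q.asIdeal} := by
  have hw : w ∉ Ω.asIdeal := by
    intro h
    have : T = Ω := by
      apply PrimeSpectrum.ext
      rw [hT]
      exact sup_eq_left.2 (by rwa [Ideal.span_singleton_le_iff_mem])
    rw [this] at hdT
    omega
  have hz : z ∉ T.asIdeal := by
    intro h
    have : O = T := by
      apply PrimeSpectrum.ext
      rw [hO]
      exact sup_eq_left.2 (by rwa [Ideal.span_singleton_le_iff_mem])
    rw [this] at hdO
    omega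
  have hGT : G ∉ T.asIdeal := by
    intro h
    have h1 : c * z ^ n ∈ T.asIdeal := by
      have : c * z ^ n = G - (G - c * z ^ n) := by ring
      rw [this]; exact Ideal.sub_mem _ h hG
    rcases T.2.mem_or_mem h1 with h1 | h1
    · exact T.2.ne_top (Ideal.eq_top_of_isUnit_mem _ h1 hc)
    · exact hz (T.2.mem_of_pow_mem n h1)
  have hle : Ω ≤ T := by
    change Ω.asIdeal ≤ T.asIdeal
    rw [hT]; exact le_sup_left
  have h1 := dcyc_divCyc K 𝕜 k Ω T w G hT hw hGT hdΩ
  rw [divCyc_cpow K 𝕜 T O z c G n hO hdT hdO hc hG] at h1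
  have h2 : (n : 𝕜) • Finsupp.single O (1 : 𝕜) ∈ Rel K 𝕜 k {Q | G ∈ Q.asIdeal} := by
    rw [← h1]
    apply dcyc_mem_span
    intro q hq
    rw [divCyc_ne_zero_iff K 𝕜 hdΩ (fun h => hGT (hle h))] at hq
    obtain ⟨h3, h4, h5⟩ := hq
    refine divCyc_mem_rel K 𝕜 h5 h3 ?_
    intro h6
    have h7 : T ≤ q := by
      change T.asIdeal ≤ q.asIdeal
      rw [hT, sup_le_iff, Ideal.span_singleton_le_iff_mem]
      exact ⟨h4, h6⟩
    have h8 : T ≠ q := fun h => hGT (by rw [h]; exact h5)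
    have := dl_lt K (lt_of_le_of_ne h7 h8)
    omega
  have hn' : (n : 𝕜) ≠ 0 := Nat.cast_ne_zero.2 hn.ne'
  have h3 := Submodule.smul_mem _ (n : 𝕜)⁻¹ h2
  rwa [smul_smul, inv_mul_cancel₀ hn', one_smul] at h3

end

section sup
variable {R : Type} [CommRing R] [Algebra K R]
variable {A : Type} [CommRing A] [Algebra K A]

/-- the hyperplane section of a cylinder -/
theorem ctr_sup (θ : R →ₐ[K] Polynomial A) (hθ : Function.Surjective θ) (θ₀ : R →ₐ[K] A)
    (h0 : ∀ f, θ₀ f = (θ f).coeff 0) (p : PrimeSpectrum A) (w : R) (hw : θ w = Polynomial.X) :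
    (ctr K θ₀ p).asIdeal = (ctr K θ (ext p)).asIdeal ⊔ Ideal.span {w} := by
  apply le_antisymm
  · intro f hf
    rw [mem_ctr, h0] at hf
    obtain ⟨g, hg⟩ := hθ (θ f).divX
    have h1 : f - w * g ∈ (ctr K θ (ext p)).asIdeal := by
      rw [mem_ctr, map_sub, map_mul, hw, hg]
      have h2 := Polynomial.X_mul_divX_add (θ f)
      have h3 : θ f - Polynomial.X * (θ f).divX = Polynomial.C ((θ f).coeff 0) := by
        linear_combination (-1 : Polynomial A) * h2
      rw [h3, mem_ext]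
      intro n
      rw [Polynomial.coeff_C]
      split_ifs
      · exact hf
      · exact Ideal.zero_mem _
    have : f = (f - w * g) + w * g := by ring
    rw [this]
    exact Ideal.add_mem _ (Ideal.mem_sup_left h1) (Ideal.mem_sup_right
      (Ideal.mul_mem_right _ _ (Ideal.mem_span_singleton_self w)))
  · rw [sup_le_iff, Ideal.span_singleton_le_iff_mem]
    constructor
    · intro f hf
      rw [mem_ctr, mem_ext] at hf
      rw [mem_ctr, h0]
      exact hf 0
    · rw [mem_ctr, h0, hw, Polynomial.coeff_X_zero]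
      exact Ideal.zero_mem _

end sup

end Pool.Agent.Bloch.Sep
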