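import Pool.Agent.H11.Sep.PN

set_option linter.unusedSectionVars false
set_option linter.style.haveILetI false

open MvPolynomial

namespace Pool.Agent.Bloch.Sep

variable {K : Type} [Field K]

/-- a linear form separating a vector from a subspace -/
theorem exists_form {σ : Type} [Fintype σ] (U : Submodule K (σ → K)) (x : σ → K) (hx : x ∉ U) :
    ∃ w : σ → K, ∑ s, w s * x s = 1 ∧ ∀ v ∈ U, ∑ s, w s * v s = 0 := by
  classical
  obtain ⟨f, hf1, hf2⟩ := Submodule.exists_le_ker_of_notMem hx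
  have h3 : ∀ v : σ → K, ∑ s, ((f x)⁻¹ * f (Pi.single s 1)) * v s = (f x)⁻¹ * f v := by
    intro v
    have h4 : v = ∑ s, v s • (Pi.single s (1 : K) : σ → K) := by
      funext s
      rw [Finset.sum_apply, Finset.sum_eq_single s]
      · simp
      · intro s' _ h; simp [Pi.single_eq_of_ne h.symm]
      · intro h; exact absurd (Finset.mem_univ _) h
    conv_rhs => rw [h4, map_sum, Finset.mul_sum]
    apply Finset.sum_congr rfl
    intro s _
    rw [map_smul, smul_eq_mul]; ring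
  refine ⟨fun s => (f x)⁻¹ * f (Pi.single s 1), ?_, ?_⟩
  · rw [h3, inv_mul_cancel₀ hf1]
  · intro v hv
    rw [h3, LinearMap.mem_ker.1 (hf2 hv), mul_zero]

theorem exists_basis {σ : Type} [Fintype σ] (U : Submodule K (σ → K)) {n : ℕ}
    (hn : Module.finrank K U = n) : ∃ b : Fin n → σ → K, LinearIndependent K b ∧
      Submodule.span K (Set.range b) = U := by
  subst hn
  let b := Module.finBasis K U
  refine ⟨fun t => ((b t : U) : σ → K),
    b.linearIndependent.map' U.subtype (Submodule.ker_subtype U), ?_⟩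
  have h1 := congrArg (Submodule.map U.subtype) b.span_eq
  rw [Submodule.map_span, Submodule.map_subtype_top, ← Set.range_comp] at h1
  exact h1

/-- a polynomial vanishing on the supporting subspace -/
theorem In.mem_of_vanish [Infinite K] {σ : Type} [Fintype σ] {U : Submodule K (σ → K)}
    {W : PrimeSpectrum (MvPolynomial σ K)} (h : In U W) (f : MvPolynomial σ K)
    (hf : ∀ v ∈ U, eval v f = 0) : f ∈ W.asIdeal := by
  obtain ⟨b, hb, hspan⟩ := exists_basis U rfl
  apply ker_th_le hb (by rw [hspan]; exact h)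
  apply MvPolynomial.funext
  intro c
  rw [eval_th, map_zero, sum_fun]
  apply hf
  exact hspan.le ((Submodule.mem_span_range_iff_exists_fun K).2 ⟨c, rfl⟩)

/-- a direction in which `F` moves like `z ^ d` -/
theorem dir_mem [Infinite K] {σ : Type} [Fintype σ] {U : Submodule K (σ → K)}
    {W : PrimeSpectrum (MvPolynomial σ K)} (h : In U W) (F : MvPolynomial σ K)
    (hF : F ∈ W.asIdeal) (u : σ → K) (c : K) (d : ℕ)
    (hc : ∀ v ∈ U, ∀ z : K, eval (v + z • u) F = eval v F + c * z ^ d) (n : ℕ) :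
    (tr u F - Polynomial.C (C c) * Polynomial.X ^ d).coeff n ∈ W.asIdeal := by
  have h1 : (tr u F - Polynomial.C (C c) * Polynomial.X ^ d - Polynomial.C F).coeff n ∈
      W.asIdeal := by
    apply h.mem_of_vanish
    intro v hv
    have h2 : (tr u F - Polynomial.C (C c) * Polynomial.X ^ d - Polynomial.C F).map (eval v) =
        0 := by
      apply Polynomial.funext
      intro z
      rw [Polynomial.map_sub, Polynomial.map_sub, Polynomial.eval_sub, Polynomial.eval_sub,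
        tr_eval]
      have h3 : (fun s => v s + z * u s) = v + z • u := rfl
      rw [h3, hc v hv z]
      simp
    rw [← Polynomial.coeff_map, h2, Polynomial.coeff_zero]
  have h4 : (tr u F - Polynomial.C (C c) * Polynomial.X ^ d).coeff n =
      (tr u F - Polynomial.C (C c) * Polynomial.X ^ d - Polynomial.C F).coeff n +
      (Polynomial.C F).coeff n := by
    rw [← Polynomial.coeff_add, sub_add_cancel]
  rw [h4]
  apply Ideal.add_mem _ h1
  rw [Polynomial.coeff_C]
  split_ifs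
  · exact hF
  · exact Ideal.zero_mem _

variable [CharZero K] (𝕜 : Type) [Field 𝕜] [CharZero 𝕜]

theorem lf_not_mem_Cn {σ : Type} [Fintype σ] {o ζ : σ → K}
    {W : PrimeSpectrum (MvPolynomial σ K)} (hζ : lf ζ ∈ W.asIdeal)
    (h1 : ∑ s, ζ s * o s = 1) : lf ζ ∉ (Cn o W).asIdeal := by
  intro h
  have h2 := Cn_sup hζ h1
  have h3 : (Cn o W).asIdeal ⊔ Ideal.span {lf ζ} = (Cn o W).asIdeal := by
    apply le_antisymm _ le_sup_left
    rw [sup_le_iff, Ideal.span_singleton_le_iff_mem]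
    exact ⟨le_rfl, h⟩
  rw [h3] at h2
  have h4 : W = Cn o W := PrimeSpectrum.ext h2
  have h5 := dl_Cn hζ h1
  rw [← h4] at h5
  omega

/-- D1 -/
theorem D1 {σ : Type} [Fintype σ] {i d : ℕ} (hd : 0 < d) (F : MvPolynomial σ K)
    (M : Submodule 𝕜 (PrimeSpectrum (MvPolynomial σ K) →₀ 𝕜))
    (U : Submodule K (σ → K)) (u : σ → K) (hu : u ∉ U) (c : K) (hc0 : c ≠ 0)
    (hc : ∀ v ∈ U, ∀ z : K, eval (v + z • u) F = eval v F + c * z ^ d)
    (W : PrimeSpectrum (MvPolynomial σ K)) (hF : F ∈ W.asIdeal)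
    (hdW : dl K W = i + 1) (hIn : In U W)
    (hM : ∀ ζ : σ → K, lf ζ ∈ W.asIdeal → ∑ s, ζ s * u s = 1 →
      divCyc K 𝕜 (i + 1) (Cn u W) F ∈ M) : Finsupp.single W 1 ∈ M := by
  obtain ⟨ζ, h1, h2⟩ := exists_form U u hu
  have hζ : lf ζ ∈ W.asIdeal := hIn ζ h2
  have h3 := contact_mem_Cn hζ h1 (dir_mem hIn F hF u c d hc)
  have h4 := hM ζ hζ h1
  have hn := lf_not_mem_Cn hζ h1
  have hC : (C c : MvPolynomial σ K) ∉ (Cn u W).asIdeal := by
    intro h
    exact (Cn u W).2.ne_top (Ideal.eq_top_of_isUnit_mem _ h ((isUnit_iff_ne_zero.2 hc0).map C))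
  have hdC : dl K (Cn u W) = (i + 1) + 1 := by rw [dl_Cn hζ h1, hdW]
  rw [divCyc_congr K 𝕜 _ _ _ _ h3, divCyc_mul K 𝕜 _ _ hdC _ _ hC
    (fun h => hn ((Cn u W).2.mem_of_pow_mem _ h)),
    divCyc_one K 𝕜 _ _ _ ((isUnit_iff_ne_zero.2 hc0).map C), zero_add,
    divCyc_pow K 𝕜 _ _ hdC _ hn,
    divCyc_prime K 𝕜 _ _ W _ (Cn_sup hζ h1) hdW] at h4
  have h5 := M.smul_mem ((d : 𝕜)⁻¹) h4
  rwa [smul_smul, inv_mul_cancel₀ (Nat.cast_ne_zero.2 hd.ne'), one_smul] at h5

/-- D2 -/
theorem D2 {σ : Type} [Fintype σ] {i : ℕ} (F : MvPolynomial σ K)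
    (M : Submodule 𝕜 (PrimeSpectrum (MvPolynomial σ K) →₀ 𝕜))
    (hRM : RH 𝕜 (i + 1) {Q | F ∈ Q.asIdeal} ≤ M)
    (U : Submodule K (σ → K)) (p u : σ → K) (hu : u ∉ U ⊔ Submodule.span K {p})
    (hp : p ∉ U ⊔ Submodule.span K {u})
    (hc : ∀ v ∈ U ⊔ Submodule.span K {p}, ∀ z : K, eval (v + z • u) F = eval v F)
    (hM : ∀ W : PrimeSpectrum (MvPolynomial σ K), HomP W → F ∈ W.asIdeal → dl K W = i + 1 →
      In (U ⊔ Submodule.span K {u}) W → Finsupp.single W 1 ∈ M)
    (W : PrimeSpectrum (MvPolynomial σ K)) (hW : HomP W) (hF : F ∈ W.asIdeal)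
    (hdW : dl K W = i + 1) (hIn : In (U ⊔ Submodule.span K {p}) W) : Finsupp.single W 1 ∈ M := by
  obtain ⟨ζ, h1, h2⟩ := exists_form _ u hu
  obtain ⟨w, hw1, hw2⟩ := exists_form _ p hp
  have hζ : lf ζ ∈ W.asIdeal := hIn ζ h2
  have h3 : F ∈ (Cn u W).asIdeal := by
    have h4 := contact_mem_Cn (c := 0) (d := 1) hζ h1 (dir_mem hIn F hF u 0 1 (by
      intro v hv z
      rw [hc v hv z]; ring))
    rwa [C_0, zero_mul, sub_zero] at h4
  have hdC : dl K (Cn u W) = (i + 1) + 1 := by rw [dl_Cn hζ h1, hdW]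
  have hcW := homP_Cn u hW
  -- primes containing `Cn u W` and `lf w`
  have key : ∀ Q : PrimeSpectrum (MvPolynomial σ K), Cn u W ≤ Q → lf w ∈ Q.asIdeal →
      In (U ⊔ Submodule.span K {u}) Q := by
    intro Q hQ1 hQ2 μ hμ
    have e1 : μ = (μ - (∑ s, μ s * p s) • w) + (∑ s, μ s * p s) • w := by
      rw [sub_add_cancel]
    rw [e1, lf_add, lf_smul]
    apply Ideal.add_mem _ _ (Ideal.mul_mem_left _ _ hQ2)
    apply hQ1
    change lf _ ∈ (Cn u W).asIdeal
    have e2 : ∀ v : σ → K, ∑ s, (μ - (∑ s, μ s * p s) • w) s * v s =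
        ∑ s, μ s * v s - (∑ s, μ s * p s) * ∑ s, w s * v s := by
      intro v
      simp only [Pi.sub_apply, Pi.smul_apply, smul_eq_mul, sub_mul, Finset.sum_sub_distrib,
        mul_assoc]
      rw [← Finset.mul_sum]
    apply lf_mem_Cn
    · apply hIn
      intro v hv
      obtain ⟨a, ha, b, hb, rfl⟩ := Submodule.mem_sup.1 hv
      obtain ⟨t, rfl⟩ := Submodule.mem_span_singleton.1 hb
      have e3 : ∀ ν : σ → K, ∑ s, ν s * (a + t • p) s = ∑ s, ν s * a s + t * ∑ s, ν s * p s := by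
        intro ν
        rw [Finset.mul_sum, ← Finset.sum_add_distrib]
        apply Finset.sum_congr rfl
        intro s _
        rw [Pi.add_apply, Pi.smul_apply, smul_eq_mul]; ring
      rw [e2, e3, e3, hμ a (Submodule.mem_sup_left ha), hw2 a (Submodule.mem_sup_left ha), hw1]
      ring
    · rw [e2, hμ u (Submodule.mem_sup_right (Submodule.mem_span_singleton_self u)),
        hw2 u (Submodule.mem_sup_right (Submodule.mem_span_singleton_self u))]
      ring
  by_cases hwW : lf w ∈ W.asIdeal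
  · exact hM W hW hF hdW (key W (Cn_le u W) hwW)
  · have hn := lf_not_mem_Cn hζ h1
    have hwC : lf w ∉ (Cn u W).asIdeal := fun h => hwW (Cn_le u W h)
    have h5 := mem_RH 𝕜 (Z := {Q : PrimeSpectrum (MvPolynomial σ K) | F ∈ Q.asIdeal}) h3 hcW hdC
      (lf_homog ζ) (lf_homog w) hn hwC
    rw [divCyc_prime K 𝕜 _ _ W _ (Cn_sup hζ h1) hdW] at h5
    have h6 : divCyc K 𝕜 (i + 1) (Cn u W) (lf w) ∈ M := by
      rw [← Finsupp.sum_single (divCyc K 𝕜 (i + 1) (Cn u W) (lf w))]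
      apply Submodule.sum_mem
      intro Q hQ
      rw [Finsupp.mem_support_iff] at hQ
      have h7 := (divCyc_ne_zero_iff K 𝕜 hdC hwC Q).1 hQ
      have h8 := homP_div 𝕜 hcW hdC (lf_homog w) hwC hQ
      rw [← mul_one (divCyc K 𝕜 (i + 1) (Cn u W) (lf w) Q), ← smul_eq_mul,
        ← Finsupp.smul_single]
      apply M.smul_mem
      exact hM Q h8 (h7.2.1 h3) h7.1 (key Q h7.2.1 h7.2.2)
    have h9 := M.add_mem (hRM h5) h6
    rwa [sub_add_cancel] at h9

end Pool.Agent.Bloch.Sep
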