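import Pool.Agent.Bloch.Gen

set_option linter.unusedSectionVars false

open MvPolynomial

namespace Pool.Agent.Bloch.Sep

variable (K : Type) [Field K] (𝕜 : Type) [Field 𝕜] [CharZero 𝕜]

section
variable {R : Type} [CommRing R] [Algebra K R] [Algebra.EssFiniteType K R] [IsNoetherianRing R]

/-- the divisor of `a` on a cycle -/
noncomputable def dcyc (k : ℕ) (a : R) : (PrimeSpectrum R →₀ 𝕜) →ₗ[𝕜] (PrimeSpectrum R →₀ 𝕜) :=
  Finsupp.linearCombination 𝕜 (fun q : PrimeSpectrum R => divCyc K 𝕜 k q a)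

theorem dcyc_single (k : ℕ) (a : R) (q : PrimeSpectrum R) (c : 𝕜) :
    dcyc K 𝕜 k a (Finsupp.single q c) = c • divCyc K 𝕜 k q a := by
  unfold dcyc
  rw [Finsupp.linearCombination_single]

variable {M : Type} [AddCommGroup M] [Module R M]

/-- The divisor of `a` on a module is the divisor of `a` on its cycle. -/
theorem cyc_ck_kr_exact (k : ℕ) (a : R) (Z : Set (PrimeSpectrum R))
    (hZ : ∀ q ∈ Z, dl K q ≤ k + 1) (ha : ∀ q ∈ Z, dl K q = k + 1 → a ∉ q.asIdeal)
    (hM : Module.Finite R M) (hsup : Module.support R M ⊆ Z) :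
    cyc K 𝕜 k (Ck a M) - cyc K 𝕜 k (Kr a M) = dcyc K 𝕜 k a (cyc K 𝕜 (k + 1) M) := by
  revert hsup
  induction hM using IsNoetherianRing.induction_on_isQuotientEquivQuotientPrime R with
  | subsingleton N =>
    intro _
    have h0 : ∀ (j : ℕ) (Q : Type) [AddCommGroup Q] [Module R Q] [Subsingleton Q],
        cyc K 𝕜 (R := R) j Q = 0 := by
      intro j Q _ _ _
      apply cyc_eq_zero
      intro p hp
      rw [Module.support_eq_empty] at hp
      exact absurd hp (Set.notMem_empty _)
    rw [h0, h0, h0, map_zero, sub_zero]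
  | quotient N q e =>
    intro hsup
    have hq : q ∈ Z := by
      apply hsup
      rw [e.support_eq, support_quot]
      exact le_refl q.asIdeal
    have hN : cyc K 𝕜 (R := R) (k + 1) N = cyc K 𝕜 (k + 1) (R ⧸ q.asIdeal) := cyc_congr K 𝕜 e
    by_cases hd : dl K q = k + 1
    · have haq := ha q hq hd
      have h1 : cyc K 𝕜 (R := R) k (Kr a N) = 0 := by
        apply cyc_eq_zero
        intro p hp
        have : Subsingleton (Kr a N) := by
          constructor
          rintro ⟨x, hx⟩ ⟨y, hy⟩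
          have hz : ∀ x : N, a • x = 0 → x = 0 := by
            intro x hx
            have h2 : a • e x = 0 := by rw [← map_smul, hx, map_zero]
            obtain ⟨b, hb⟩ := Ideal.Quotient.mk_surjective (e x)
            rw [← hb] at h2
            have h3 : Ideal.Quotient.mk q.asIdeal (a * b) = 0 := h2
            rw [Ideal.Quotient.eq_zero_iff_mem] at h3
            have h4 := (q.2.mem_or_mem h3).resolve_left haq
            rw [← Ideal.Quotient.eq_zero_iff_mem, hb] at h4
            exact (LinearEquiv.map_eq_zero_iff e).1 h4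
          rw [Subtype.mk.injEq, hz x hx, hz y hy]
        rw [Module.support_eq_empty] at hp
        exact absurd hp (Set.notMem_empty _)
      rw [h1, sub_zero, hN, cyc_quot_self K 𝕜 q hd, dcyc_single, one_smul]
      unfold divCyc
      refine Eq.trans (cyc_congr K 𝕜 ?_) (cyc_congr K 𝕜 (ckQuot q.asIdeal a))
      refine Submodule.Quotient.equiv _ _ e ?_
      apply le_antisymm
      · rintro _ ⟨_, ⟨x, rfl⟩, rfl⟩
        refine ⟨e x, ?_⟩
        rw [mul_apply, mul_apply]
        exact (map_smul e a x).symm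
      · rintro _ ⟨x, rfl⟩
        refine ⟨a • e.symm x, ⟨e.symm x, rfl⟩, ?_⟩
        rw [mul_apply]
        change e (a • e.symm x) = _
        rw [map_smul, e.apply_symm_apply]
    · have hd' : dl K q ≤ k := by have := hZ q hq; omega
      have hB : Bd K (R := R) k N :=
        bd_of_injective K (bd_quot K q hd') (e : N →ₗ[R] R ⧸ q.asIdeal) e.injective
      rw [cyc_congr_len K 𝕜 (M := Ck a N) (N := Kr a N) (fun p hp =>
        (len_kr_ck a (bd_len K hB p hp)).symm), sub_self]
      have h0 : cyc K 𝕜 (R := R) (k + 1) N = 0 := by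
        apply cyc_eq_zero
        intro p hp h1
        have := hB.2 p hp
        omega
      rw [h0, map_zero]
  | exact N₁ N₂ N₃ f g hf hg hfg h₁ h₃ =>
    intro hsup
    rw [Module.support_of_exact hfg hf hg] at hsup
    have hs1 := Set.subset_union_left.trans hsup
    have hs3 := Set.subset_union_right.trans hsup
    have f1 : Module.Finite R N₁ := Module.Finite.of_injective f hf
    have f3 : Module.Finite R N₃ := Module.Finite.of_surjective g hg
    have hs2 : Module.support R N₂ ⊆ Z := by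
      rw [Module.support_of_exact hfg hf hg]; exact hsup
    have key : cyc K 𝕜 k (Ck a N₂) - cyc K 𝕜 k (Kr a N₂) =
        (cyc K 𝕜 k (Ck a N₁) - cyc K 𝕜 k (Kr a N₁)) +
        (cyc K 𝕜 k (Ck a N₃) - cyc K 𝕜 (R := R) k (Kr a N₃)) := by
      have b1 := bd_ck K f1 hs1 hZ ha
      have b2 := bd_ck K ‹Module.Finite R N₂› hs2 hZ ha
      have b3 := bd_ck K f3 hs3 hZ ha
      have c1 := bd_kr K f1 hs1 hZ ha
      have c2 := bd_kr K ‹Module.Finite R N₂› hs2 hZ ha
      have c3 := bd_kr K f3 hs3 hZ ha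
      ext p
      simp only [Finsupp.add_apply, Finsupp.sub_apply]
      rw [cyc_apply K 𝕜 b1, cyc_apply K 𝕜 b2, cyc_apply K 𝕜 b3, cyc_apply K 𝕜 c1,
        cyc_apply K 𝕜 c2, cyc_apply K 𝕜 c3]
      split_ifs with hp
      · have h := congrArg ENat.toNat (len_herbrand p a f g hf hg hfg)
        have t1 := bd_len K b1 p hp
        have t2 := bd_len K b2 p hp
        have t3 := bd_len K b3 p hp
        have u1 := bd_len K c1 p hp
        have u2 := bd_len K c2 p hp
        have u3 := bd_len K c3 p hp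
        rw [ENat.toNat_add (by simp [t2, u1]) u3, ENat.toNat_add t2 u1,
          ENat.toNat_add (by simp [u2, t1]) t3, ENat.toNat_add u2 t1] at h
        have h' := congrArg (fun n : ℕ => (n : 𝕜)) h
        simp only [Nat.cast_add] at h'
        linear_combination h'
      · simp
    have hb : Bd K (R := R) (k + 1) N₂ := ⟨‹_›, fun p hp => hZ p (hs2 hp)⟩
    rw [key, h₁ hs1, h₃ hs3, cyc_exact K 𝕜 hb f g hf hg hfg, map_add]

/-- The divisor depends only on the class modulo the prime. -/
theorem divCyc_congr (k : ℕ) (q : PrimeSpectrum R) (a b : R) (h : a - b ∈ q.asIdeal) :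
    divCyc K 𝕜 k q a = divCyc K 𝕜 k q b := by
  have : q.asIdeal ⊔ Ideal.span {a} = q.asIdeal ⊔ Ideal.span {b} := by
    apply le_antisymm
    · rw [sup_le_iff, Ideal.span_singleton_le_iff_mem]
      refine ⟨le_sup_left, ?_⟩
      have : a = (a - b) + b := by ring
      rw [this]
      exact Ideal.add_mem _ (Ideal.mem_sup_left h)
        (Ideal.mem_sup_right (Ideal.mem_span_singleton_self b))
    · rw [sup_le_iff, Ideal.span_singleton_le_iff_mem]
      refine ⟨le_sup_left, ?_⟩
      have : b = a - (a - b) := by ring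
      rw [this]
      exact Ideal.sub_mem _ (Ideal.mem_sup_right (Ideal.mem_span_singleton_self a))
        (Ideal.mem_sup_left h)
  unfold divCyc
  rw [this]

/-- Additivity of the divisor. -/
theorem divCyc_mul (k : ℕ) (q : PrimeSpectrum R) (hq : dl K q = k + 1) (a b : R)
    (ha : a ∉ q.asIdeal) (hb : b ∉ q.asIdeal) :
    divCyc K 𝕜 k q (a * b) = divCyc K 𝕜 k q a + divCyc K 𝕜 k q b := by
  have hab : a * b ∉ q.asIdeal := fun h => (q.2.mem_or_mem h).elim ha hb
  -- the map `R/(q + b) → R/(q + a b)`, multiplication by `a`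
  let I := q.asIdeal ⊔ Ideal.span {b}
  let J := q.asIdeal ⊔ Ideal.span {a * b}
  let L := q.asIdeal ⊔ Ideal.span {a}
  let f : (R ⧸ I) →ₗ[R] (R ⧸ J) := Submodule.mapQ I J (LinearMap.lsmul R R a) (by
    refine sup_le ?_ ?_
    · intro x hx
      exact Ideal.mem_sup_left (Ideal.mul_mem_left _ _ hx)
    · rw [Ideal.span_le]
      rintro x rfl
      exact Ideal.mem_sup_right (Ideal.mem_span_singleton_self (a * x)))
  have hJL : J ≤ L := sup_le le_sup_left (by
    rw [Ideal.span_singleton_le_iff_mem]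
    exact Ideal.mem_sup_right (Ideal.mul_mem_right _ _ (Ideal.mem_span_singleton_self a)))
  let g : (R ⧸ J) →ₗ[R] (R ⧸ L) := Submodule.factor hJL
  have hf : Function.Injective f := by
    rw [injective_iff_map_eq_zero]
    intro x hx
    obtain ⟨x, rfl⟩ := Ideal.Quotient.mk_surjective x
    have h1 : a * x ∈ J := (Submodule.Quotient.mk_eq_zero J).1 hx
    obtain ⟨y, hy, z, hz, hyz⟩ := Submodule.mem_sup.1 h1
    obtain ⟨w, rfl⟩ := Ideal.mem_span_singleton'.1 hz
    have h2 : a * (x - w * b) ∈ q.asIdeal := by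
      have : a * (x - w * b) = y := by rw [← sub_eq_zero]; linear_combination (-1 : R) * hyz
      rw [this]; exact hy
    have h3 := (q.2.mem_or_mem h2).resolve_left ha
    rw [Ideal.Quotient.eq_zero_iff_mem]
    have : x = (x - w * b) + w * b := by ring
    rw [this]
    exact Ideal.add_mem _ (Ideal.mem_sup_left h3)
      (Ideal.mem_sup_right (Ideal.mul_mem_left _ _ (Ideal.mem_span_singleton_self b)))
  have hg : Function.Surjective g := Submodule.factor_surjective hJL
  have hfg : Function.Exact f g := by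
    intro y
    obtain ⟨y, rfl⟩ := Ideal.Quotient.mk_surjective y
    constructor
    · intro h
      have h1 : y ∈ L := (Submodule.Quotient.mk_eq_zero L).1 h
      obtain ⟨u, hu, z, hz, huz⟩ := Submodule.mem_sup.1 h1
      obtain ⟨w, rfl⟩ := Ideal.mem_span_singleton'.1 hz
      refine ⟨Ideal.Quotient.mk I w, ?_⟩
      change Ideal.Quotient.mk J (a * w) = Ideal.Quotient.mk J y
      rw [Ideal.Quotient.mk_eq_mk_iff_sub_mem]
      have : a * w - y = -u := by rw [← huz]; ring
      rw [this]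
      exact Ideal.mem_sup_left (neg_mem hu)
    · rintro ⟨x, hx⟩
      obtain ⟨x, rfl⟩ := Ideal.Quotient.mk_surjective x
      rw [← hx]
      change Ideal.Quotient.mk L (a * x) = 0
      rw [Ideal.Quotient.eq_zero_iff_mem]
      exact Ideal.mem_sup_right (Ideal.mul_mem_right _ _ (Ideal.mem_span_singleton_self a))
  have h1 := cyc_exact K 𝕜 (bd_div K hq hab) f g hf hg hfg
  rw [add_comm] at h1
  exact h1

theorem divCyc_one (k : ℕ) (q : PrimeSpectrum R) (a : R)
    (ha : IsUnit a) : divCyc K 𝕜 k q a = 0 := by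
  unfold divCyc
  apply cyc_eq_zero
  intro p hp _
  rw [support_div] at hp
  exact p.2.ne_top (Ideal.eq_top_of_isUnit_mem _ hp.2 ha)

theorem divCyc_pow (k : ℕ) (q : PrimeSpectrum R) (hq : dl K q = k + 1) (a : R)
    (ha : a ∉ q.asIdeal) (n : ℕ) : divCyc K 𝕜 k q (a ^ n) = (n : 𝕜) • divCyc K 𝕜 k q a := by
  induction n with
  | zero =>
    rw [pow_zero, divCyc_one K 𝕜 k q 1 isUnit_one]; simp
  | succ n ih =>
    rw [pow_succ, divCyc_mul K 𝕜 k q hq _ _ (fun h => ha (q.2.mem_of_pow_mem n h)) ha, ih]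
    push_cast
    rw [add_smul, one_smul]

/-- The divisor of an element generating a prime modulo `q`. -/
theorem divCyc_prime (k : ℕ) (q p : PrimeSpectrum R) (a : R)
    (h : p.asIdeal = q.asIdeal ⊔ Ideal.span {a}) (hp : dl K p = k) :
    divCyc K 𝕜 k q a = Finsupp.single p 1 := by
  unfold divCyc
  rw [← h, cyc_quot_self K 𝕜 p hp]

end

section surj
variable {P T : Type} [CommRing P] [Algebra K P] [CommRing T] [Algebra K T]
variable [Algebra.EssFiniteType K P] [IsNoetherianRing P] [Algebra.EssFiniteType K T]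
  [IsNoetherianRing T]

theorem frac_of_surj (θ : P →ₐ[K] T) (hθ : Function.Surjective θ) :
    Frac K θ (⊥ : Submonoid P) := by
  intro t
  obtain ⟨a, rfl⟩ := hθ t
  exact ⟨1, Submonoid.one_mem _, a, by simp⟩

theorem mem_uset_bot (θ : P →ₐ[K] T) (Q : PrimeSpectrum T) : Q ∈ Uset K θ (⊥ : Submonoid P) := by
  intro u hu h1
  rw [Submonoid.mem_bot] at hu
  rw [hu, map_one] at h1
  exact Q.2.ne_top ((Ideal.eq_top_iff_one _).2 h1)

theorem dl_ctr_surj (θ : P →ₐ[K] T) (hθ : Function.Surjective θ) (Q : PrimeSpectrum T) :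
    dl K (ctr K θ Q) = dl K Q :=
  dl_uset (frac_of_surj K θ hθ) (mem_uset_bot K θ Q)

/-- the push-forward along a closed immersion -/
noncomputable def push0 (θ : P →ₐ[K] T) : (PrimeSpectrum T →₀ 𝕜) →ₗ[𝕜] (PrimeSpectrum P →₀ 𝕜) :=
  push K 𝕜 θ (⊥ : Submonoid P)

theorem push0_single (θ : P →ₐ[K] T) (Q : PrimeSpectrum T) (c : 𝕜) :
    push0 K 𝕜 θ (Finsupp.single Q c) = Finsupp.single (ctr K θ Q) c :=
  push_single K 𝕜 θ ⊥ (mem_uset_bot K θ Q) c

/-- Divisors are compatible with closed immersions. -/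
theorem push0_divCyc (θ : P →ₐ[K] T) (hθ : Function.Surjective θ) {k : ℕ}
    (Q : PrimeSpectrum T) (hd : dl K Q = k + 1) (a : P) (ha : θ a ∉ Q.asIdeal) :
    push0 K 𝕜 θ (divCyc K 𝕜 k Q (θ a)) = divCyc K 𝕜 k (ctr K θ Q) a := by
  have h := transfer_div K 𝕜 (frac_of_surj K θ hθ) (mem_uset_bot K θ Q) hd ha
    (Submonoid.one_mem (⊥ : Submonoid P)) (a := a) (by rw [map_one, mul_one])
  have h0 : {w : PrimeSpectrum P →₀ 𝕜 | ∃ p ∈ {p : PrimeSpectrum P |
        dl K p = k ∧ ctr K θ Q ≤ p ∧ a ∈ p.asIdeal ∧ ∃ v ∈ (⊥ : Submonoid P), v ∈ p.asIdeal},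
          w = Finsupp.single p 1} = ∅ := by
    rw [Set.eq_empty_iff_forall_notMem]
    rintro w ⟨p, ⟨_, _, _, v, hv, hvp⟩, _⟩
    rw [Submonoid.mem_bot] at hv
    rw [hv] at hvp
    exact p.2.ne_top ((Ideal.eq_top_iff_one _).2 hvp)
  rw [h0, Submodule.span_empty, Submodule.mem_bot, sub_eq_zero] at h
  exact h

/-- Rational equivalence is compatible with closed immersions. -/
theorem push0_rel (θ : P →ₐ[K] T) (hθ : Function.Surjective θ) {k : ℕ}
    {Z : Set (PrimeSpectrum T)} {Z' : Set (PrimeSpectrum P)}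
    (hZ : ∀ Q ∈ Z, ctr K θ Q ∈ Z') {z : PrimeSpectrum T →₀ 𝕜} (hz : z ∈ Rel K 𝕜 k Z) :
    push0 K 𝕜 θ z ∈ Rel K 𝕜 k Z' := by
  unfold Rel at hz
  induction hz using Submodule.span_induction with
  | mem z hz =>
    obtain ⟨q, hq, t, h1, h2, rfl⟩ := hz
    obtain ⟨a, rfl⟩ := hθ t
    rw [push0_divCyc K 𝕜 θ hθ q h1 a h2]
    exact divCyc_mem_rel K 𝕜 (hZ q hq) (by rw [dl_ctr_surj K θ hθ, h1]) h2
  | zero => rw [map_zero]; exact Submodule.zero_mem _
  | add x y _ _ hx hy => rw [map_add]; exact Submodule.add_mem _ hx hy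
  | smul c x _ hx => rw [map_smul]; exact Submodule.smul_mem _ _ hx

end surj

end Pool.Agent.Bloch.Sep
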