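import Pool.Agent.H11.Sep.Blocks

set_option linter.unusedSectionVars false
set_option linter.unusedSimpArgs false
set_option linter.unusedVariables false
set_option linter.style.haveILetI false

open MvPolynomial

namespace Pool.Agent.Bloch.Sep

variable {K : Type} [Field K]

/-- the hyperplane of a linear form -/
def Hk {σ : Type} [Fintype σ] (ζ : σ → K) : Submodule K (σ → K) where
  carrier := {x | ∑ s, ζ s * x s = 0}
  add_mem' := by
    intro a b ha hb
    simp only [Set.mem_ofPred_eq] at *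
    simp only [Pi.add_apply, mul_add, Finset.sum_add_distrib, ha, hb, add_zero]
  zero_mem' := by simp
  smul_mem' := by
    intro c a ha
    simp only [Set.mem_ofPred_eq] at *
    have : ∀ s, ζ s * (c • a) s = c * (ζ s * a s) := fun s => by
      rw [Pi.smul_apply, smul_eq_mul]; ring
    simp only [this]
    rw [← Finset.mul_sum, ha, mul_zero]

theorem mem_Hk {σ : Type} [Fintype σ] (ζ x : σ → K) : x ∈ Hk ζ ↔ ∑ s, ζ s * x s = 0 := Iff.rfl

theorem sum_add_smul {σ : Type} [Fintype σ] (ζ x y : σ → K) (t : K) :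
    ∑ s, ζ s * (x + t • y) s = ∑ s, ζ s * x s + t * ∑ s, ζ s * y s := by
  rw [Finset.mul_sum, ← Finset.sum_add_distrib]
  apply Finset.sum_congr rfl
  intro s _
  rw [Pi.add_apply, Pi.smul_apply, smul_eq_mul]; ring

/-- the hyperplane section of a linear space through `o` -/
theorem exists_cnl {σ : Type} [Fintype σ] {n : ℕ} (P : Submodule K (σ → K))
    (hP : Module.finrank K P = n + 1) (o ζ : σ → K) (ho : o ∈ P) (h1 : ∑ s, ζ s * o s = 1) :
    ∃ c : Fin n → σ → K, LinearIndependent K c ∧ (∀ l, ∑ s, ζ s * c l s = 0) ∧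
      ∀ b : Fin (n + 1) → σ → K, LinearIndependent K b → Submodule.span K (Set.range b) = P →
        Cn o (Lin c) = Lin b := by
  have hsup : (P ⊓ Hk ζ) ⊔ Submodule.span K {o} = P := by
    apply le_antisymm
    · rw [sup_le_iff, Submodule.span_singleton_le_iff_mem]
      exact ⟨inf_le_left, ho⟩
    · intro x hx
      have e1 : x = (x + (-∑ s, ζ s * x s) • o) + (∑ s, ζ s * x s) • o := by
        rw [neg_smul, neg_add_cancel_right]
      rw [e1]
      apply Submodule.add_mem_sup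
      · refine ⟨P.add_mem hx (P.smul_mem _ ho), ?_⟩
        change _ ∈ Hk ζ
        rw [mem_Hk, sum_add_smul, h1]; ring
      · exact Submodule.smul_mem _ _ (Submodule.mem_span_singleton_self o)
  have hinf : (P ⊓ Hk ζ) ⊓ Submodule.span K {o} = ⊥ := by
    rw [eq_bot_iff]
    rintro x ⟨⟨_, hx2⟩, hx3⟩
    obtain ⟨t, rfl⟩ := Submodule.mem_span_singleton.1 hx3
    have h2 : (t • o) ∈ Hk ζ := hx2
    rw [mem_Hk] at h2
    have h3 := sum_add_smul ζ 0 o t
    rw [zero_add, h2, h1] at h3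
    simp only [Pi.zero_apply, mul_zero, Finset.sum_const_zero, zero_add, mul_one] at h3
    rw [← h3, zero_smul]
    exact Submodule.zero_mem _
  have ho0 : o ≠ 0 := by
    rintro rfl
    simp at h1
  have hfr := Submodule.finrank_sup_add_finrank_inf_eq (P ⊓ Hk ζ) (Submodule.span K {o})
  rw [hsup, hinf, finrank_bot, finrank_span_singleton ho0, hP] at hfr
  obtain ⟨c, hc, hcs⟩ := exists_basis (P ⊓ Hk ζ) (n := n) (by omega)
  have hcm : ∀ l, c l ∈ P ⊓ Hk ζ := fun l => hcs.le (Submodule.subset_span ⟨l, rfl⟩)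
  refine ⟨c, hc, fun l => (hcm l).2, ?_⟩
  intro b hb hbs
  have hζ : lf ζ ∈ (Lin c).asIdeal := In_Lin c ζ (fun v hv => (hcs.le hv).2)
  apply eq_Lin hb
  · intro w hw
    apply lf_mem_Cn
    · exact In_Lin c w (fun v hv => hw v (by rw [hbs]; exact (hcs.le hv).1))
    · exact hw o (by rw [hbs]; exact ho)
  · rw [dl_Cn hζ h1, dl_Lin hc, Fintype.card_fin, Fintype.card_fin]

theorem exists_subspace {σ : Type} [Fintype σ] (n : ℕ) (hn : n ≤ Fintype.card σ) :
    ∀ (k : ℕ) (S : Submodule K (σ → K)), Module.finrank K S + k = n →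
      ∃ P : Submodule K (σ → K), S ≤ P ∧ Module.finrank K P = n := by
  intro k
  induction k with
  | zero => intro S hS; exact ⟨S, le_rfl, hS⟩
  | succ k ih =>
    intro S hS
    have hne : S ≠ ⊤ := by
      rintro rfl
      rw [finrank_top, Module.finrank_pi] at hS
      omega
    obtain ⟨v, hv⟩ : ∃ v, v ∉ S := by
      by_contra hcon
      push Not at hcon
      exact hne (eq_top_iff.2 (fun v _ => hcon v))
    obtain ⟨P, hP1, hP2⟩ := ih (S ⊔ Submodule.span K {v}) (by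
      rw [Submodule.finrank_sup_span_singleton hv]; omega)
    exact ⟨P, le_sup_left.trans hP1, hP2⟩

variable [CharZero K] (𝕜 : Type) [Field 𝕜] [CharZero 𝕜]

/-- K2 : all cone classes are proportional -/
theorem K2 {σ : Type} [Fintype σ] {i d : ℕ} (hd : 0 < d) (hi : i + 2 ≤ Fintype.card σ)
    (F : MvPolynomial σ K) (hF : F.IsHomogeneous d) (hF0 : F ≠ 0)
    (R : Submodule 𝕜 (PrimeSpectrum (MvPolynomial σ K) →₀ 𝕜))
    (hK1 : ∀ (o ζ : σ → K), eval o F ≠ 0 → ∑ s, ζ s * o s = 1 →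
      ∀ W : PrimeSpectrum (MvPolynomial σ K), HomP W → dl K W = i + 1 → lf ζ ∈ W.asIdeal →
      ∀ c : Fin (i + 1) → σ → K, LinearIndependent K c → (∀ l, ∑ s, ζ s * c l s = 0) →
      divCyc K 𝕜 (i + 1) (Cn o W) F ∈ R ⊔
        Submodule.span 𝕜 {divCyc K 𝕜 (i + 1) (Cn o (Lin c)) F}) :
    ∃ D : PrimeSpectrum (MvPolynomial σ K) →₀ 𝕜,
      ∀ (o ζ : σ → K) (W : PrimeSpectrum (MvPolynomial σ K)), eval o F ≠ 0 →
      ∑ s, ζ s * o s = 1 → HomP W → dl K W = i + 1 → lf ζ ∈ W.asIdeal →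
      divCyc K 𝕜 (i + 1) (Cn o W) F ∈ R ⊔ Submodule.span 𝕜 {D} := by
  classical
  obtain ⟨o₀, ho₀⟩ : ∃ o₀, eval o₀ F ≠ 0 := by
    by_contra hcon
    push Not at hcon
    exact hF0 (MvPolynomial.funext (fun x => by rw [hcon x, map_zero]))
  have hne : ∀ o : σ → K, eval o F ≠ 0 → o ≠ 0 := by
    rintro o ho rfl
    apply ho
    have h := eval_smul' hF (0 : K) (0 : σ → K)
    rwa [zero_smul, zero_pow hd.ne', zero_mul] at h
  obtain ⟨ζ₀, hζ₀, -⟩ := exists_form (⊥ : Submodule K (σ → K)) o₀ (by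
    rw [Submodule.mem_bot]; exact hne o₀ ho₀)
  obtain ⟨P₀, hP₀, hP₀'⟩ := exists_subspace (i + 2) hi (i + 1) (Submodule.span K {o₀}) (by
    rw [finrank_span_singleton (hne o₀ ho₀)]; omega)
  obtain ⟨c₀, hc₀, hc₀ζ, hc₀b⟩ := exists_cnl P₀ hP₀' o₀ ζ₀
    (hP₀ (Submodule.mem_span_singleton_self _)) hζ₀
  refine ⟨divCyc K 𝕜 (i + 1) (Cn o₀ (Lin c₀)) F, ?_⟩
  intro o ζ W ho hζ hW hdW hζW
  -- a linear space through both vertices
  have hS : Module.finrank K (Submodule.span K {o₀} ⊔ Submodule.span K {o} :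
      Submodule K (σ → K)) ≤ 2 := by
    refine (Submodule.finrank_add_le_finrank_add_finrank _ _).trans ?_
    rw [finrank_span_singleton (hne o₀ ho₀), finrank_span_singleton (hne o ho)]
  obtain ⟨P, hP, hP'⟩ := exists_subspace (i + 2) hi (i + 2 - Module.finrank K
    (Submodule.span K {o₀} ⊔ Submodule.span K {o} : Submodule K (σ → K)))
    (Submodule.span K {o₀} ⊔ Submodule.span K {o}) (by omega)
  obtain ⟨c, hc, hcζ, hcb⟩ := exists_cnl P hP' o ζ
    (hP (Submodule.mem_sup_right (Submodule.mem_span_singleton_self _))) hζ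
  obtain ⟨c', hc', hc'ζ, hc'b⟩ := exists_cnl P hP' o₀ ζ₀
    (hP (Submodule.mem_sup_left (Submodule.mem_span_singleton_self _))) hζ₀
  obtain ⟨b, hb, hbs⟩ := exists_basis P hP'
  have h1 := hK1 o ζ ho hζ W hW hdW hζW c hc hcζ
  have h2 := hK1 o₀ ζ₀ ho₀ hζ₀ (Lin c') (homP_Lin c') (by rw [dl_Lin hc', Fintype.card_fin])
    (In_Lin c' ζ₀ (by
      intro v hv
      induction hv using Submodule.span_induction with
      | mem v hv => obtain ⟨l, rfl⟩ := hv; exact hc'ζ l
      | zero => simp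
      | add x y _ _ hx hy => exact (Hk ζ₀).add_mem hx hy
      | smul t x _ hx => exact (Hk ζ₀).smul_mem t hx)) c₀ hc₀ hc₀ζ
  rw [hcb b hb hbs] at h1
  rw [hc'b b hb hbs] at h2
  refine (sup_le le_sup_left ?_ : R ⊔ Submodule.span 𝕜 {divCyc K 𝕜 (i + 1) (Lin b) F} ≤ _) h1
  rw [Submodule.span_singleton_le_iff_mem]
  exact h2

end Pool.Agent.Bloch.Sep
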