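import Pool.Agent.H11.Sep.All
import Pool.Agent.H11.Sep.K2

set_option linter.unusedSectionVars false
set_option linter.unusedSimpArgs false
set_option linter.unusedVariables false
set_option linter.style.haveILetI false

open MvPolynomial

namespace Pool.Agent.Bloch.Sep

section
variable {K : Type} [Field K] [CharZero K] [IsAlgClosed K] (𝕜 : Type) [Field 𝕜] [CharZero 𝕜]

/-- the statement of K1 -/
def K1St (K : Type) [Field K] [CharZero K] (𝕜 : Type) [Field 𝕜] [CharZero 𝕜] : Prop :=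
  ∀ {σ : Type} [Fintype σ] {i d : ℕ}, 0 < d →
    (∀ (τ : Type) [Fintype τ] (V : PrimeSpectrum (MvPolynomial τ K)), HomP V →
      dl K V = i + 1 → ∀ c : Fin (i + 1) → τ → K, LinearIndependent K c →
      Finsupp.single V (1 : 𝕜) ∈ RH 𝕜 (i + 1) (Set.univ : Set (PrimeSpectrum (MvPolynomial τ K))) ⊔
        Submodule.span 𝕜 {Finsupp.single (Lin c) 1}) →
    ∀ (F : MvPolynomial σ K), F.IsHomogeneous d → ∀ (o ζ : σ → K), eval o F ≠ 0 →
    ∑ s, ζ s * o s = 1 →
    ∀ (W : PrimeSpectrum (MvPolynomial σ K)), HomP W → dl K W = i + 1 →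
    lf ζ ∈ W.asIdeal →
    ∀ (c : Fin (i + 1) → σ → K), LinearIndependent K c → (∀ l, ∑ s, ζ s * c l s = 0) →
    divCyc K 𝕜 (i + 1) (Cn o W) F ∈ RH 𝕜 (i + 1) {Q | F ∈ Q.asIdeal} ⊔
      Submodule.span 𝕜 {divCyc K 𝕜 (i + 1) (Cn o (Lin c)) F}

/-- the statement of `lin_mem` -/
def LMSt (K : Type) [Field K] [CharZero K] (𝕜 : Type) [Field 𝕜] [CharZero 𝕜] : Prop :=
  ∀ {σ : Type} [Fintype σ] {i d : ℕ} (F : MvPolynomial σ K), F.IsHomogeneous d →
    ∀ (o : σ → K), eval o F ≠ 0 → ∀ (c : Fin (i + 1) → σ → K) (v : σ → K),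
    LinearIndependent K (Fin.cons v c : Fin (i + 2) → σ → K) →
    (∀ x ∈ Submodule.span K (Set.range (Fin.cons v c : Fin (i + 2) → σ → K)), eval x F = 0) →
    ∀ (M : Submodule 𝕜 (PrimeSpectrum (MvPolynomial σ K) →₀ 𝕜)),
    RH 𝕜 (i + 1) {Q | F ∈ Q.asIdeal} ≤ M →
    (∀ ζ : σ → K, (∀ l, ∑ s, ζ s * c l s = 0) → ∑ s, ζ s * o s = 1 →
      divCyc K 𝕜 (i + 1) (Cn o (Lin c)) F ∈ M) →
    Finsupp.single (Lin c) 1 ∈ M

/-- all cycles are proportional -/
theorem sep_cycles (hK1 : K1St K 𝕜) (hLM : LMSt K 𝕜)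
    {σ : Type} [Fintype σ] {i d : ℕ} (hd : 2 ≤ d)
    (g : σ → Option (Fin (i + 1))) (f : Fin (i + 1) → MvPolynomial σ K)
    (hf : ∀ l, (f l).IsHomogeneous d)
    (hvars : ∀ l, ∀ s ∈ (f l).vars, g s = some l ∨ g s = none)
    (hblock : ∀ l, 2 ≤ (Finset.univ.filter (fun s => g s = some l)).card)
    (hdeg : ∀ l, ∀ μ ∈ (f l).support, ∑ s ∈ Finset.univ.filter (fun s => g s = some l), μ s ≤
      (Finset.univ.filter (fun s => g s = some l)).card)
    (hcard : (i + 1) * d < Fintype.card σ)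
    (F : MvPolynomial σ K) (hF : F = ∑ l, f l) :
    ∃ D : PrimeSpectrum (MvPolynomial σ K) →₀ 𝕜,
      ∀ W : PrimeSpectrum (MvPolynomial σ K), HomP W → F ∈ W.asIdeal → dl K W = i + 1 →
        Finsupp.single W 1 ∈ RH 𝕜 (i + 1) {Q | F ∈ Q.asIdeal} ⊔ Submodule.span 𝕜 {D} := by
  classical
  have hFh : F.IsHomogeneous d := by
    rw [hF]; exact IsHomogeneous.sum _ _ _ (fun l _ => hf l)
  have hi : i + 2 ≤ Fintype.card σ := by nlinarith
  by_cases hF0 : F = 0
  · obtain ⟨P, -, hP⟩ := exists_subspace (K := K) (σ := σ) (i + 1) (by omega) (i + 1) ⊥ (by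
      rw [finrank_bot]; omega)
    obtain ⟨c, hc, -⟩ := exists_basis P hP
    refine ⟨Finsupp.single (Lin c) 1, ?_⟩
    intro W hW _ hdW
    have h1 := hPN 𝕜 σ W hW hdW c hc
    refine SetLike.le_def.1 (sup_le_sup (RH_mono 𝕜 ?_) le_rfl) h1
    intro Q _
    change F ∈ Q.asIdeal
    rw [hF0]
    exact Ideal.zero_mem _
  · obtain ⟨D, hD⟩ := K2 𝕜 (i := i) (d := d) (by omega) hi F hFh hF0
      (RH 𝕜 (i + 1) {Q | F ∈ Q.asIdeal}) (by
      intro o ζ ho hζ W hW hdW hζW c hc hcζ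
      exact hK1 (by omega) (fun τ _ V hV hdV c hc => hPN 𝕜 τ V hV hdV c hc) F hFh o ζ ho hζ W
        hW hdW hζW c hc hcζ)
    refine ⟨D, ?_⟩
    intro W hW hFW hdW
    refine all_cycles 𝕜 hd g f hf hvars hblock hdeg hcard F hF _ le_sup_left hD ?_ W hW hFW hdW
    intro c v hcv hX
    obtain ⟨o₀, ho₀⟩ : ∃ o₀, eval o₀ F ≠ 0 := by
      by_contra hcon
      push Not at hcon
      exact hF0 (MvPolynomial.funext (fun x => by rw [hcon x, map_zero]))
    have hc : LinearIndependent K c := (linearIndependent_finCons.1 hcv).1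
    refine hLM F hFh o₀ ho₀ c v hcv hX _ le_sup_left ?_
    intro ζ hζc hζo
    refine hD o₀ ζ (Lin c) ho₀ hζo (homP_Lin c) (by rw [dl_Lin hc, Fintype.card_fin]) ?_
    apply In_Lin c ζ
    intro v hv
    induction hv using Submodule.span_induction with
    | mem v hv => obtain ⟨l, rfl⟩ := hv; exact hζc l
    | zero => simp
    | add x y _ _ hx hy => exact (Hk ζ).add_mem hx hy
    | smul t x _ hx => exact (Hk ζ).smul_mem t hx

/-- the reduction to `i + 1` groups -/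
theorem sep_cycles' (hK1 : K1St K 𝕜) (hLM : LMSt K 𝕜)
    {σ : Type} [Fintype σ] {m i d : ℕ} (hd : 2 ≤ d) (hi : i < m)
    (F : MvPolynomial σ K) (hF : F.IsHomogeneous d) (V : Fin m → Finset σ)
    (hV : ∀ l l', l ≠ l' → Disjoint (V l) (V l')) (hV2 : ∀ l, 2 ≤ (V l).card)
    (hsep : ∀ μ ∈ F.support, ∀ l l', l ≠ l' → ∀ s ∈ V l, ∀ s' ∈ V l', μ s = 0 ∨ μ s' = 0)
    (hdeg : ∀ μ ∈ F.support, ∀ l, ∑ s ∈ V l, μ s ≤ (V l).card)
    (hcard : m * d < Fintype.card σ) :
    ∃ D : PrimeSpectrum (MvPolynomial σ K) →₀ 𝕜,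
      ∀ W : PrimeSpectrum (MvPolynomial σ K), HomP W → F ∈ W.asIdeal → dl K W = i + 1 →
        Finsupp.single W 1 ∈ RH 𝕜 (i + 1) {Q | F ∈ Q.asIdeal} ⊔ Submodule.span 𝕜 {D} := by
  classical
  -- the first `i + 1` groups
  let V' : Fin (i + 1) → Finset σ := fun l => V (Fin.castLE hi l)
  have hV' : ∀ l l', l ≠ l' → Disjoint (V' l) (V' l') := fun l l' h =>
    hV _ _ (fun h' => h (Fin.castLE_injective hi h'))
  have hsep' : ∀ μ ∈ F.support, ∀ l l', l ≠ l' → ∀ s ∈ V' l, ∀ s' ∈ V' l', μ s = 0 ∨ μ s' = 0 :=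
    fun μ hμ l l' h => hsep μ hμ _ _ (fun h' => h (Fin.castLE_injective hi h'))
  let g : σ → Option (Fin (i + 1)) := fun s =>
    if h : ∃ l, s ∈ V' l then some h.choose else none
  have hg : ∀ s l, g s = some l ↔ s ∈ V' l := by
    intro s l
    constructor
    · intro h
      by_cases h' : ∃ l, s ∈ V' l
      · have h1 : g s = some h'.choose := dif_pos h'
        rw [h1] at h
        rw [← Option.some.inj h]
        exact h'.choose_spec
      · have h1 : g s = none := dif_neg h'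
        rw [h1] at h
        cases h
    · intro h
      have h' : ∃ l, s ∈ V' l := ⟨l, h⟩
      have h1 : g s = some h'.choose := dif_pos h'
      rw [h1]
      congr 1
      by_contra h2
      exact (Finset.disjoint_left.1 (hV' _ _ h2)) h'.choose_spec h
  have hgn : ∀ s, (∀ l, s ∉ V' l) → g s = none := fun s h => dif_neg (fun ⟨l, hl⟩ => h l hl)
  have hfilter : ∀ l, Finset.univ.filter (fun s => g s = some l) = V' l := by
    intro l
    ext s
    rw [Finset.mem_filter, hg]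
    exact ⟨fun h => h.2, fun h => ⟨Finset.mem_univ _, h⟩⟩
  -- the group of a monomial
  let a : (σ →₀ ℕ) → Fin (i + 1) := fun μ =>
    if h : ∃ l, ∃ s ∈ V' l, μ s ≠ 0 then h.choose else 0
  have ha : ∀ μ ∈ F.support, ∀ l, ∀ s ∈ V' l, μ s ≠ 0 → a μ = l := by
    intro μ hμ l s hs hμs
    have h : ∃ l, ∃ s ∈ V' l, μ s ≠ 0 := ⟨l, s, hs, hμs⟩
    have h1 : a μ = h.choose := dif_pos h
    obtain ⟨s', hs', hμs'⟩ := h.choose_spec
    rw [h1]
    by_contra h2
    rcases hsep' μ hμ _ _ h2 s' hs' s hs with h3 | h3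
    · exact hμs' h3
    · exact hμs h3
  let f : Fin (i + 1) → MvPolynomial σ K := fun l =>
    ∑ μ ∈ F.support.filter (fun μ => a μ = l), monomial μ (coeff μ F)
  have hfs : ∀ l, ∀ μ ∈ (f l).support, μ ∈ F.support ∧ a μ = l := by
    intro l μ hμ
    have h1 := support_sum hμ
    rw [Finset.mem_biUnion] at h1
    obtain ⟨ν, hν, h2⟩ := h1
    have h3 := support_monomial_subset h2
    rw [Finset.mem_singleton] at h3
    rw [h3]
    exact Finset.mem_filter.1 hν
  refine sep_cycles 𝕜 hK1 hLM hd g f ?_ ?_ ?_ ?_ ?_ F ?_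
  · intro l
    apply IsHomogeneous.sum
    intro μ hμ
    have h1 : μ ∈ F.support := (Finset.mem_filter.1 hμ).1
    have h2 := hF (mem_support_iff.1 h1)
    apply isHomogeneous_monomial
    rw [Finsupp.degree_eq_weight_one]
    exact h2
  · intro l s hs
    rw [mem_vars_iff_mem_support] at hs
    obtain ⟨μ, hμ, hsμ⟩ := hs
    obtain ⟨h1, h2⟩ := hfs l μ hμ
    by_cases h3 : ∃ l', s ∈ V' l'
    · obtain ⟨l', hl'⟩ := h3
      left
      rw [hg, ← h2, ha μ h1 l' s hl' (Finsupp.mem_support_iff.1 hsμ)]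
      exact hl'
    · right
      push Not at h3
      exact hgn s h3
  · intro l
    rw [hfilter]
    exact hV2 _
  · intro l μ hμ
    rw [hfilter]
    exact hdeg μ (hfs l μ hμ).1 _
  · calc (i + 1) * d ≤ m * d := Nat.mul_le_mul_right _ hi
      _ < _ := hcard
  · conv_lhs => rw [F.as_sum]
    exact (Finset.sum_fiberwise F.support a (fun μ => monomial μ (coeff μ F))).symm

end

end Pool.Agent.Bloch.Sep
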