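import Pool.Agent.H11.Sep.Fin0

set_option linter.unusedSectionVars false
set_option linter.unusedSimpArgs false
set_option linter.unusedVariables false
set_option linter.style.haveILetI false

open MvPolynomial

namespace Pool.Agent.Bloch.Sep

theorem relH_le_Q {σ : Type} [Fintype σ] (Z : Set (PrimeSpectrum (MvPolynomial σ ℂ))) (k : ℕ) :
    RelH ℚ Z k ≤ Submodule.span ℚ (pdiv Z k) := by
  unfold RelH
  rw [Submodule.span_le]
  rintro z ⟨W, n, f, g, hf, hg, hfW, hgW, rfl⟩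
  apply Submodule.subset_span
  refine ⟨W, n, f, g, hf, hg, hfW, hgW, ?_⟩
  intro V
  rw [res_apply, Finsupp.sub_apply, divCyc_apply ℂ ℚ W.2.2.2 hfW V.1 V.2.2.2,
    divCyc_apply ℂ ℚ W.2.2.2 hgW V.1 V.2.2.2]

theorem rank_le_one_of {ι : Type} (S : Set (ι →₀ ℚ)) (α : ι →₀ ℚ)
    (h : ∀ V : ι, Finsupp.single V (1 : ℚ) ∈ Submodule.span ℚ S ⊔ Submodule.span ℚ {α}) :
    Module.rank ℚ ((ι →₀ ℚ) ⧸ Submodule.span ℚ S) ≤ 1 := by
  rw [rank_le_one_iff]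
  refine ⟨Submodule.Quotient.mk α, ?_⟩
  intro v
  obtain ⟨z, rfl⟩ := Submodule.Quotient.mk_surjective _ v
  have h1 : z ∈ Submodule.span ℚ S ⊔ Submodule.span ℚ {α} := by
    induction z using Finsupp.induction_linear with
    | zero => exact Submodule.zero_mem _
    | add x y hx hy => exact Submodule.add_mem _ hx hy
    | single V c =>
      have := Submodule.smul_mem _ c (h V)
      rwa [Finsupp.smul_single, smul_eq_mul, mul_one] at this
  obtain ⟨a, ha, b, hb, rfl⟩ := Submodule.mem_sup.1 h1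
  obtain ⟨r, rfl⟩ := Submodule.mem_span_singleton.1 hb
  refine ⟨r, ?_⟩
  rw [Submodule.Quotient.mk_add, (Submodule.Quotient.mk_eq_zero _).2 ha, zero_add,
    Submodule.Quotient.mk_smul]

theorem sep_rank (hK1 : K1St ℂ ℚ) (hLM : LMSt ℂ ℚ)
    {σ : Type} [Fintype σ] {m i d : ℕ} (hd : 2 ≤ d) (hi : i < m)
    (F : MvPolynomial σ ℂ) (hF : F.IsHomogeneous d) (V : Fin m → Finset σ)
    (hV : ∀ l l', l ≠ l' → Disjoint (V l) (V l')) (hV2 : ∀ l, 2 ≤ (V l).card)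
    (hsep : ∀ μ ∈ F.support, ∀ l l', l ≠ l' → ∀ s ∈ V l, ∀ s' ∈ V l', μ s = 0 ∨ μ s' = 0)
    (hdeg : ∀ μ ∈ F.support, ∀ l, ∑ s ∈ V l, μ s ≤ (V l).card)
    (hcard : m * d < Fintype.card σ) :
    Module.rank ℚ ((VH {Q : PrimeSpectrum (MvPolynomial σ ℂ) |
      Ideal.span {F} ≤ Q.asIdeal} (i + 1) →₀ ℚ) ⧸
      Submodule.span ℚ (pdiv {Q : PrimeSpectrum (MvPolynomial σ ℂ) |
        Ideal.span {F} ≤ Q.asIdeal} (i + 1))) ≤ 1 := by
  obtain ⟨D, hD⟩ := sep_cycles' (K := ℂ) ℚ hK1 hLM hd hi F hF V hV hV2 hsep hdeg hcard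
  have hZ : {Q : PrimeSpectrum (MvPolynomial σ ℂ) | F ∈ Q.asIdeal} =
      {Q : PrimeSpectrum (MvPolynomial σ ℂ) | Ideal.span {F} ≤ Q.asIdeal} := by
    ext Q
    exact (Ideal.span_singleton_le_iff_mem _).symm
  rw [hZ] at hD
  apply rank_le_one_of _ (res ℚ _ (i + 1) D)
  intro V
  have h1 := hD V.1 V.2.1 ((Ideal.span_singleton_le_iff_mem _).1 V.2.2.1) V.2.2.2
  obtain ⟨a, ha, b, hb, hab⟩ := Submodule.mem_sup.1 h1
  obtain ⟨r, rfl⟩ := Submodule.mem_span_singleton.1 hb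
  rw [← res_single ℚ _ (i + 1) V 1, ← hab, map_add, map_smul]
  exact Submodule.add_mem_sup (relH_le_Q _ _ (res_RH ℚ ha))
    (Submodule.smul_mem _ _ (Submodule.mem_span_singleton_self _))

end Pool.Agent.Bloch.Sep
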