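import Pool.Agent.H11.Sep.Pull

set_option linter.unusedSectionVars false

open MvPolynomial TensorProduct

namespace Pool.Agent.Bloch.Sep

variable (K : Type) [Field K] (𝕜 : Type) [Field 𝕜] [CharZero 𝕜]

section gal
variable {A : Type} [CommRing A] [Algebra K A] [Algebra.EssFiniteType K A] [IsNoetherianRing A]
variable {B : Type} [CommRing B] [Algebra K B] [Algebra.EssFiniteType K B] [IsNoetherianRing B]
variable [Algebra A B] [IsScalarTower K A B]
variable (Γ : Type) [Group Γ] [Fintype Γ] [MulSemiringAction Γ B] [SMulCommClass Γ A B]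
  [SMulCommClass Γ K B] [Algebra.IsInvariant A B Γ]

variable {Γ}

/-- the automorphism attached to a group element -/
noncomputable abbrev gh (B : Type) [CommRing B] [Algebra K B] [MulSemiringAction Γ B]
    [SMulCommClass Γ K B] (γ : Γ) : B →ₐ[K] B := MulSemiringAction.toAlgHom K B γ

theorem gh_surj (γ : Γ) : Function.Surjective (gh K B γ) := fun b =>
  ⟨γ⁻¹ • b, smul_inv_smul γ b⟩

theorem gh_apply (γ : Γ) (b : B) : gh K B γ b = γ • b := rfl

theorem gh_base (γ : Γ) (a : A) : γ • (algebraMap A B a) = algebraMap A B a :=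
  smul_algebraMap γ a

theorem ctr_ctr_gh (γ δ : Γ) (Q : PrimeSpectrum B) :
    ctr K (gh K B γ) (ctr K (gh K B δ) Q) = ctr K (gh K B (δ * γ)) Q := by
  apply PrimeSpectrum.ext
  ext b
  rw [mem_ctr, mem_ctr, mem_ctr, gh_apply, gh_apply, gh_apply, smul_smul]

theorem ctr_one_gh (Q : PrimeSpectrum B) : ctr K (gh K B (1 : Γ)) Q = Q := by
  apply PrimeSpectrum.ext
  ext b
  rw [mem_ctr, gh_apply, one_smul]

theorem dl_gh (γ : Γ) (Q : PrimeSpectrum B) : dl K (ctr K (gh K B γ) Q) = dl K Q :=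
  dl_ctr_surj K _ (gh_surj K γ) Q

theorem ct_gh (γ : Γ) (Q : PrimeSpectrum B) :
    ct K (A := A) (ctr K (gh K B γ) Q) = ct K Q := by
  apply PrimeSpectrum.ext
  ext a
  change γ • (algebraMap A B a) ∈ Q.asIdeal ↔ algebraMap A B a ∈ Q.asIdeal
  rw [gh_base]

/-- the action on cycles -/
noncomputable def pg (γ : Γ) : (PrimeSpectrum B →₀ 𝕜) →ₗ[𝕜] (PrimeSpectrum B →₀ 𝕜) :=
  push0 K 𝕜 (gh K B γ)

theorem pg_single (γ : Γ) (Q : PrimeSpectrum B) (c : 𝕜) :
    pg K 𝕜 γ (Finsupp.single Q c) = Finsupp.single (ctr K (gh K B γ) Q) c :=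
  push0_single K 𝕜 _ Q c

theorem pg_pg (γ δ : Γ) (z : PrimeSpectrum B →₀ 𝕜) :
    pg K 𝕜 γ (pg K 𝕜 δ z) = pg K 𝕜 (δ * γ) z := by
  induction z using Finsupp.induction_linear with
  | zero => simp
  | add x y hx hy => simp only [map_add, hx, hy]
  | single Q c => rw [pg_single, pg_single, pg_single, ctr_ctr_gh]

/-- the trace on cycles -/
noncomputable def Eg (Γ : Type) [Group Γ] [Fintype Γ] [MulSemiringAction Γ B]
    [SMulCommClass Γ K B] : (PrimeSpectrum B →₀ 𝕜) →ₗ[𝕜] (PrimeSpectrum B →₀ 𝕜) :=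
  ∑ γ : Γ, pg K 𝕜 γ

theorem Eg_apply (z : PrimeSpectrum B →₀ 𝕜) : Eg K 𝕜 Γ z = ∑ γ : Γ, pg K 𝕜 γ z := by
  unfold Eg
  rw [LinearMap.sum_apply]

theorem Eg_pg (δ : Γ) (z : PrimeSpectrum B →₀ 𝕜) : Eg K 𝕜 Γ (pg K 𝕜 δ z) = Eg K 𝕜 Γ z := by
  rw [Eg_apply, Eg_apply]
  simp only [pg_pg]
  exact Fintype.sum_equiv (Equiv.mulLeft δ) _ _ (fun γ => rfl)

theorem pg_divCyc (γ : Γ) {k : ℕ} (Q : PrimeSpectrum B) (hd : dl K Q = k + 1) (a : B)
    (ha : γ • a ∉ Q.asIdeal) :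
    pg K 𝕜 γ (divCyc K 𝕜 k Q (γ • a)) = divCyc K 𝕜 k (ctr K (gh K B γ) Q) a :=
  push0_divCyc K 𝕜 (gh K B γ) (gh_surj K γ) Q hd a ha

theorem exists_gh (Q Q' : PrimeSpectrum B) (h : ct K (A := A) Q = ct K Q') :
    ∃ γ : Γ, Q' = ctr K (gh K B γ) Q := by
  have h' : Q.asIdeal.under A = Q'.asIdeal.under A := congrArg PrimeSpectrum.asIdeal h
  obtain ⟨g, hg⟩ := Algebra.IsInvariant.exists_smul_of_under_eq A B Γ Q.asIdeal Q'.asIdeal h'
  refine ⟨g⁻¹, ?_⟩
  apply PrimeSpectrum.ext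
  ext b
  rw [hg, mem_ctr, gh_apply, Ideal.mem_pointwise_smul_iff_inv_smul_mem]

/-- the pull-back of a point is invariant -/
theorem pg_pull (γ : Γ) (q : PrimeSpectrum A) :
    pg K 𝕜 γ (pull K 𝕜 B 0 (Finsupp.single q 1)) = pull K 𝕜 B 0 (Finsupp.single q 1) := by
  rw [pull_single, one_smul, add_zero]
  set J : Ideal B := q.asIdeal.map (algebraMap A B) with hJ
  have hsub : ∀ γ : Γ, ∀ x ∈ J, γ • x ∈ J := by
    intro γ x hx
    have : J ≤ J.comap (gh K B γ : B →+* B) := by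
      rw [hJ, Ideal.map_le_iff_le_comap]
      intro a ha
      have h0 : γ • (algebraMap A B a) ∈ J := by
        rw [gh_base]
        exact Ideal.mem_map_of_mem _ ha
      exact h0
    exact this hx
  have hcomap : J.comap (gh K B γ : B →+* B) = J := by
    ext x
    constructor
    · intro h
      have := hsub γ⁻¹ _ h
      change γ⁻¹ • (γ • x) ∈ J at this
      rwa [inv_smul_smul] at this
    · intro h
      exact hsub γ x h
  have hlen : ∀ R : PrimeSpectrum B, len R (B ⧸ J) = len (ctr K (gh K B γ) R) (B ⧸ J) := by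
    intro R
    rw [len_uset (frac_of_surj K (gh K B γ) (gh_surj K γ)) (mem_uset_bot K (gh K B γ) R) J, hcomap]
  have hval : ∀ R : PrimeSpectrum B, cyc K 𝕜 (dl K q) (B ⧸ J) R =
      cyc K 𝕜 (dl K q) (B ⧸ J) (ctr K (gh K B γ) R) := by
    intro R
    unfold cyc
    split_ifs with h
    · rw [Finsupp.ofSupportFinite_coe]
      unfold cycFun
      rw [dl_gh, hlen]
    · rfl
  ext R
  have hR : R = ctr K (gh K B γ) (ctr K (gh K B γ⁻¹) R) := by
    rw [ctr_ctr_gh, inv_mul_cancel, ctr_one_gh]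
  rw [hR]
  change push K 𝕜 _ _ _ _ = _
  rw [push_apply K 𝕜 (frac_of_surj K (gh K B γ) (gh_surj K γ)) (mem_uset_bot K (gh K B γ) _), ← hval]

variable (hint : ∀ Q : PrimeSpectrum B, dl K (ct K (A := A) Q) = dl K Q)

include hint in
theorem pull_apply_point (q : PrimeSpectrum A) (R : PrimeSpectrum B)
    (h : pull K 𝕜 B 0 (Finsupp.single q (1 : 𝕜)) R ≠ 0) : ct K R = q := by
  rw [pull_single, one_smul, add_zero] at h
  have hbd : Bd K (R := B) (dl K q) (B ⧸ q.asIdeal.map (algebraMap A B)) := by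
    refine ⟨inferInstance, fun Q hQ => ?_⟩
    rw [support_quot] at hQ
    have h1 : q ≤ ct K (A := A) Q := Ideal.map_le_iff_le_comap.1 hQ
    have := dl_le K h1
    rw [hint] at this
    exact this
  rw [cyc_apply K 𝕜 hbd] at h
  split_ifs at h with hd
  · have hs : R ∈ Module.support B (B ⧸ q.asIdeal.map (algebraMap A B)) := by
      rw [← len_pos_iff, pos_iff_ne_zero]
      intro h0
      apply h
      rw [h0]; simp
    rw [support_quot] at hs
    have h1 : q ≤ ct K (A := A) R := Ideal.map_le_iff_le_comap.1 hs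
    exact (eq_of_le_of_dl K h1 (by rw [hint, hd])).symm
  · exact absurd rfl h

include hint in
theorem pull_apply_self (R : PrimeSpectrum B) :
    ∃ n : ℕ, n ≠ 0 ∧ pull K 𝕜 B 0 (Finsupp.single (ct K (A := A) R) (1 : 𝕜)) R = n := by
  rw [pull_single, one_smul, add_zero]
  set q := ct K (A := A) R with hq
  have hbd : Bd K (R := B) (dl K q) (B ⧸ q.asIdeal.map (algebraMap A B)) := by
    refine ⟨inferInstance, fun Q hQ => ?_⟩
    rw [support_quot] at hQ
    have h1 : q ≤ ct K (A := A) Q := Ideal.map_le_iff_le_comap.1 hQ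
    have := dl_le K h1
    rw [hint] at this
    exact this
  have hd : dl K R = dl K q := by rw [hq, hint]
  refine ⟨(len R (B ⧸ q.asIdeal.map (algebraMap A B))).toNat, ?_, ?_⟩
  · have h5 := bd_len K hbd R hd
    have h6 : 0 < len R (B ⧸ q.asIdeal.map (algebraMap A B)) := by
      rw [len_pos_iff, support_quot]
      exact Ideal.map_le_iff_le_comap.2 le_rfl
    intro h7
    rw [ENat.toNat_eq_zero] at h7
    rcases h7 with h7 | h7
    · rw [h7] at h6; exact lt_irrefl _ h6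
    · exact h5 h7
  · rw [cyc_apply K 𝕜 hbd, if_pos hd]

include hint in
/-- the values of a pull-back -/
theorem pull_apply (z : PrimeSpectrum A →₀ 𝕜) (R : PrimeSpectrum B) :
    pull K 𝕜 B 0 z R = z (ct K R) * pull K 𝕜 B 0 (Finsupp.single (ct K (A := A) R) 1) R := by
  classical
  induction z using Finsupp.induction_linear with
  | zero => simp
  | add x y hx hy => rw [map_add, Finsupp.add_apply, hx, hy, Finsupp.add_apply, add_mul]
  | single q c =>
    by_cases hq : q = ct K R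
    · rw [hq, Finsupp.single_eq_same, ← mul_one c, ← smul_eq_mul, ← Finsupp.smul_single, map_smul,
        Finsupp.smul_apply, smul_eq_mul, smul_eq_mul, mul_one]
    · rw [Finsupp.single_eq_of_ne' hq, zero_mul, ← mul_one c, ← smul_eq_mul, ← Finsupp.smul_single,
        map_smul, Finsupp.smul_apply]
      have : pull K 𝕜 B 0 (Finsupp.single q (1 : 𝕜)) R = 0 := by
        by_contra h
        exact hq (pull_apply_point K 𝕜 hint q R h).symm
      rw [this, smul_zero]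

include hint in
theorem pull_injective (hlo : ∀ p : PrimeSpectrum A, ∃ Q : PrimeSpectrum B, ct K Q = p)
    (z : PrimeSpectrum A →₀ 𝕜) (h : pull K 𝕜 B 0 z = 0) : z = 0 := by
  ext p
  obtain ⟨Q, rfl⟩ := hlo p
  have h1 := pull_apply K 𝕜 hint z Q
  obtain ⟨n, hn, h2⟩ := pull_apply_self K 𝕜 hint (A := A) Q
  rw [h, h2, Finsupp.zero_apply] at h1
  rw [Finsupp.zero_apply]
  exact (mul_eq_zero.1 h1.symm).resolve_right (Nat.cast_ne_zero.2 hn)

include hint in
/-- the trace of a point is proportional to the pull-back of its image -/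
theorem Eg_single (Q : PrimeSpectrum B) : ∃ c : 𝕜, c ≠ 0 ∧
    Eg K 𝕜 Γ (Finsupp.single Q 1) = c • pull K 𝕜 B 0 (Finsupp.single (ct K (A := A) Q) 1) := by
  classical
  set w := pull K 𝕜 B 0 (Finsupp.single (ct K (A := A) Q) (1 : 𝕜)) with hw
  have h1 : Eg K 𝕜 Γ w = (Fintype.card Γ : 𝕜) • w := by
    rw [Eg_apply]
    simp only [hw, pg_pull]
    rw [Finset.sum_const, Finset.card_univ, Nat.cast_smul_eq_nsmul]
  have hval : ∀ R, ∃ n : ℕ, w R = n := by
    intro R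
    by_cases hR : w R = 0
    · exact ⟨0, by rw [hR]; simp⟩
    · have h2 := pull_apply_point K 𝕜 hint _ R hR
      obtain ⟨n, _, h3⟩ := pull_apply_self K 𝕜 hint (A := A) R
      rw [h2] at h3
      exact ⟨n, h3⟩
  choose nn hnn using hval
  have h2 : Eg K 𝕜 Γ w = ((∑ R ∈ w.support, nn R : ℕ) : 𝕜) • Eg K 𝕜 Γ (Finsupp.single Q 1) := by
    conv_lhs => rw [← Finsupp.sum_single w]
    rw [Finsupp.sum, map_sum, Nat.cast_sum, Finset.sum_smul]
    apply Finset.sum_congr rfl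
    intro R hR
    rw [Finsupp.mem_support_iff] at hR
    have h3 := pull_apply_point K 𝕜 hint _ R hR
    obtain ⟨γ, hγ⟩ := exists_gh (Γ := Γ) K Q R h3.symm
    rw [hnn, hγ, ← mul_one ((nn _ : ℕ) : 𝕜), ← smul_eq_mul, ← Finsupp.smul_single, map_smul,
      ← pg_single, Eg_pg, smul_eq_mul, mul_one]
  have hs : (∑ R ∈ w.support, nn R : ℕ) ≠ 0 := by
    obtain ⟨n, hn, h3⟩ := pull_apply_self K 𝕜 hint (A := A) Q
    have hQ : Q ∈ w.support := by
      rw [Finsupp.mem_support_iff, hw, h3]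
      exact Nat.cast_ne_zero.2 hn
    have hQ2 : nn Q ≠ 0 := by
      intro h4
      rw [Finsupp.mem_support_iff, hnn, h4] at hQ
      exact hQ (by simp)
    have : 0 < ∑ R ∈ w.support, nn R :=
      Finset.sum_pos' (fun _ _ => Nat.zero_le _) ⟨Q, hQ, Nat.pos_of_ne_zero hQ2⟩
    omega
  have hs' : ((∑ R ∈ w.support, nn R : ℕ) : 𝕜) ≠ 0 := Nat.cast_ne_zero.2 hs
  have hc : (Fintype.card Γ : 𝕜) ≠ 0 := Nat.cast_ne_zero.2 Fintype.card_ne_zero
  refine ⟨((∑ R ∈ w.support, nn R : ℕ) : 𝕜)⁻¹ * (Fintype.card Γ : 𝕜),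
    mul_ne_zero (inv_ne_zero hs') hc, ?_⟩
  rw [mul_smul, ← h1, h2, smul_smul, inv_mul_cancel₀ hs', one_smul]

theorem divCyc_prod {ι : Type} (s : Finset ι) (f : ι → B) {k : ℕ} (Q : PrimeSpectrum B)
    (hd : dl K Q = k + 1) (h : ∀ i ∈ s, f i ∉ Q.asIdeal) :
    divCyc K 𝕜 k Q (∏ i ∈ s, f i) = ∑ i ∈ s, divCyc K 𝕜 k Q (f i) := by
  classical
  induction s using Finset.induction_on with
  | empty => rw [Finset.prod_empty, Finset.sum_empty, divCyc_one K 𝕜 k Q 1 isUnit_one]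
  | insert i s hi ih =>
    rw [Finset.prod_insert hi, Finset.sum_insert hi, divCyc_mul K 𝕜 k Q hd, ih]
    · exact fun j hj => h j (Finset.mem_insert_of_mem hj)
    · exact h i (Finset.mem_insert_self _ _)
    · intro h1
      obtain ⟨j, hj, hj'⟩ := (Ideal.IsPrime.prod_mem_iff (hp := Q.2)).1 h1
      exact h j (Finset.mem_insert_of_mem hj) hj'

variable [Module.Flat A B]

include hint in
/-- the trace of a divisor of an element of the base -/
theorem Eg_div_base {k : ℕ} (Q : PrimeSpectrum B) (hd : dl K Q = k + 1) (c : A)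
    (hc : c ∉ (ct K (A := A) Q).asIdeal) {Z : Set (PrimeSpectrum A)} (hQ : ct K Q ∈ Z) :
    Eg K 𝕜 Γ (divCyc K 𝕜 k Q (algebraMap A B c)) ∈ (Rel K 𝕜 k Z).map (pull K 𝕜 B 0) := by
  have hρ : ∀ P : PrimeSpectrum B, dl K P ≤ dl K (ct K (A := A) P) + 0 := fun P => by
    rw [hint]; omega
  have hdq : dl K (ct K (A := A) Q) = k + 1 := by rw [hint, hd]
  have h1 : Eg K 𝕜 Γ (divCyc K 𝕜 k Q (algebraMap A B c)) =
      dcyc K 𝕜 k (algebraMap A B c) (Eg K 𝕜 Γ (Finsupp.single Q 1)) := by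
    rw [Eg_apply, Eg_apply, map_sum]
    apply Finset.sum_congr rfl
    intro γ _
    rw [pg_single, dcyc_single, one_smul, ← pg_divCyc K 𝕜 γ Q hd _ (by rw [gh_base]; exact hc),
      gh_base]
  obtain ⟨e, he, h2⟩ := Eg_single (Γ := Γ) K 𝕜 hint (A := A) Q
  have h3 := pull_divCyc_exact K 𝕜 B hρ (ct K (A := A) Q) hdq c hc
  rw [add_zero] at h3
  rw [h1, h2, map_smul, ← h3]
  exact Submodule.smul_mem _ _ (Submodule.mem_map_of_mem (divCyc_mem_rel K 𝕜 hQ hdq hc))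

include hint in
/-- the trace of a divisor -/
theorem Eg_div {k : ℕ} (Q : PrimeSpectrum B) (hd : dl K Q = k + 1) (a : B)
    (ha : a ∉ Q.asIdeal) {Z : Set (PrimeSpectrum A)} (hQ : ct K Q ∈ Z) :
    Eg K 𝕜 Γ (divCyc K 𝕜 k Q a) ∈ (Rel K 𝕜 k Z).map (pull K 𝕜 B 0) := by
  classical
  set O : Finset (PrimeSpectrum B) := Finset.univ.image (fun γ : Γ => ctr K (gh K B γ) Q) with hO
  set O' := O.erase Q with hO'
  have hOdl : ∀ R ∈ O', dl K R = dl K Q ∧ R ≠ Q := by
    intro R hR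
    rw [hO', Finset.mem_erase, hO, Finset.mem_image] at hR
    obtain ⟨hR1, γ, _, rfl⟩ := hR
    exact ⟨dl_gh K γ Q, hR1⟩
  have hle1 : ∀ R ∈ O', ¬ R.asIdeal ≤ Q.asIdeal := by
    intro R hR h
    obtain ⟨h1, h2⟩ := hOdl R hR
    exact h2 (eq_of_le_of_dl K h (by rw [h1]))
  have hle2 : ∀ R ∈ O', ¬ Q.asIdeal ≤ R.asIdeal := by
    intro R hR h
    obtain ⟨h1, h2⟩ := hOdl R hR
    exact h2 (eq_of_le_of_dl K h (by rw [h1])).symm
  obtain ⟨ε, hε1, hε2⟩ : ∃ ε, (∀ R ∈ O', ε ∈ R.asIdeal) ∧ ε ∉ Q.asIdeal := by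
    have h1 : ¬ O'.inf (fun R => R.asIdeal) ≤ Q.asIdeal := by
      rw [Ideal.IsPrime.inf_le' Q.2]
      rintro ⟨R, hR, h⟩
      exact hle1 R hR h
    obtain ⟨ε, h2, h3⟩ := SetLike.not_le_iff_exists.1 h1
    refine ⟨ε, fun R hR => ?_, h3⟩
    exact (Finset.inf_le hR : O'.inf (fun R => R.asIdeal) ≤ R.asIdeal) h2
  obtain ⟨ε', hε'1, hε'2⟩ : ∃ ε' ∈ Q.asIdeal, ∀ R ∈ O', ε' ∉ R.asIdeal := by
    have h1 : ¬ ((Q.asIdeal : Set B) ⊆ ⋃ R ∈ (O' : Set (PrimeSpectrum B)), R.asIdeal) := by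
      intro h
      rw [Ideal.subset_union_prime (f := fun R : PrimeSpectrum B => R.asIdeal) Q Q
        (fun R _ _ _ => R.2)] at h
      obtain ⟨R, hR, h⟩ := h
      exact hle2 R hR h
    rw [Set.not_subset] at h1
    obtain ⟨x, hx1, hx2⟩ := h1
    refine ⟨x, hx1, fun R hR hxR => hx2 ?_⟩
    rw [Set.mem_iUnion₂]
    exact ⟨R, hR, hxR⟩
  have hmemO : ∀ γ : Γ, ctr K (gh K B γ) Q ≠ Q → ctr K (gh K B γ) Q ∈ O' := by
    intro γ hγ
    rw [hO', Finset.mem_erase]
    exact ⟨hγ, Finset.mem_image_of_mem _ (Finset.mem_univ γ)⟩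
  -- general elements
  have hnot : ∀ b : B, b ∉ Q.asIdeal → ∀ γ : Γ, b * ε + ε' ∉ (ctr K (gh K B γ) Q).asIdeal := by
    intro b hb γ h
    by_cases hγ : ctr K (gh K B γ) Q = Q
    · rw [hγ] at h
      have h1 : b * ε ∈ Q.asIdeal := by
        have : b * ε = (b * ε + ε') - ε' := by ring
        rw [this]; exact Ideal.sub_mem _ h hε'1
      exact (Q.2.mem_or_mem h1).elim hb hε2
    · have hR := hmemO γ hγ
      apply hε'2 _ hR
      have : ε' = (b * ε + ε') - b * ε := by ring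
      rw [this]
      exact Ideal.sub_mem _ h (Ideal.mul_mem_left _ _ (hε1 _ hR))
  have hnorm : ∀ b : B, b ∉ Q.asIdeal →
      Eg K 𝕜 Γ (∑ γ : Γ, divCyc K 𝕜 k Q (γ • (b * ε + ε'))) ∈
        (Rel K 𝕜 k Z).map (pull K 𝕜 B 0) := by
    intro b hb
    have hn := hnot b hb
    obtain ⟨c, hc⟩ := Algebra.IsInvariant.isInvariant (A := A) (G := Γ)
      (∏ γ : Γ, γ • (b * ε + ε')) (by
        intro δ
        rw [Finset.smul_prod']
        simp only [smul_smul]
        exact Fintype.prod_equiv (Equiv.mulLeft δ) _ _ (fun γ => rfl))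
    have hcQ : c ∉ (ct K (A := A) Q).asIdeal := by
      intro h
      have h1 : algebraMap A B c ∈ Q.asIdeal := h
      rw [hc] at h1
      obtain ⟨γ, _, h2⟩ := (Ideal.IsPrime.prod_mem_iff (hp := Q.2)).1 h1
      exact hn γ h2
    have h1 := Eg_div_base (Γ := Γ) K 𝕜 hint Q hd c hcQ hQ
    rw [hc, divCyc_prod K 𝕜 Finset.univ (fun γ : Γ => γ • (b * ε + ε')) Q hd
      (fun γ _ => hn γ)] at h1
    exact h1
  have h1 := hnorm a ha
  have h2 := hnorm 1 (fun h => Q.2.ne_top ((Ideal.eq_top_iff_one _).2 h))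
  have h3 := Submodule.sub_mem _ h1 h2
  rw [← map_sub, ← Finset.sum_sub_distrib, map_sum] at h3
  have h4 : ∀ γ : Γ, Eg K 𝕜 Γ (divCyc K 𝕜 k Q (γ • (a * ε + ε')) -
      divCyc K 𝕜 k Q (γ • (1 * ε + ε'))) =
      if ctr K (gh K B γ) Q = Q then Eg K 𝕜 Γ (divCyc K 𝕜 k Q a) else 0 := by
    intro γ
    split_ifs with hγ
    · have e1 : ∀ b : B, divCyc K 𝕜 k Q (γ • (b * ε + ε')) = divCyc K 𝕜 k Q (γ • (b * ε)) := by
        intro b
        apply divCyc_congr
        rw [smul_add, add_sub_cancel_left]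
        change ε' ∈ (ctr K (gh K B γ) Q).asIdeal
        rw [hγ]; exact hε'1
      have ha' : γ • a ∉ Q.asIdeal := by
        change a ∉ (ctr K (gh K B γ) Q).asIdeal
        rw [hγ]; exact ha
      have hε' : γ • ε ∉ Q.asIdeal := by
        change ε ∉ (ctr K (gh K B γ) Q).asIdeal
        rw [hγ]; exact hε2
      rw [e1, e1, one_mul, smul_mul', divCyc_mul K 𝕜 k Q hd _ _ ha' hε', add_sub_cancel_right,
        ← Eg_pg K 𝕜 γ, pg_divCyc K 𝕜 γ Q hd a ha', hγ]
    · have e1 : divCyc K 𝕜 k Q (γ • (a * ε + ε')) = divCyc K 𝕜 k Q (γ • (1 * ε + ε')) := by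
        apply divCyc_congr
        rw [← smul_sub]
        change (a * ε + ε') - (1 * ε + ε') ∈ (ctr K (gh K B γ) Q).asIdeal
        have : (a * ε + ε') - (1 * ε + ε') = (a - 1) * ε := by ring
        rw [this]
        exact Ideal.mul_mem_left _ _ (hε1 _ (hmemO γ hγ))
      rw [e1, sub_self, map_zero]
  simp only [h4] at h3
  rw [← Finset.sum_filter, Finset.sum_const, ← Nat.cast_smul_eq_nsmul 𝕜] at h3
  have hn : ((Finset.univ.filter (fun γ : Γ => ctr K (gh K B γ) Q = Q)).card : 𝕜) ≠ 0 := by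
    rw [Nat.cast_ne_zero]
    apply Finset.card_ne_zero_of_mem (a := (1 : Γ))
    rw [Finset.mem_filter]
    exact ⟨Finset.mem_univ _, ctr_one_gh K Q⟩
  have h5 := Submodule.smul_mem _
    ((Finset.univ.filter (fun γ : Γ => ctr K (gh K B γ) Q = Q)).card : 𝕜)⁻¹ h3
  rwa [smul_smul, inv_mul_cancel₀ hn, one_smul] at h5

variable (Γ)

include Γ hint in
/-- Rational equivalence descends along quotients by finite groups. -/
theorem gal_transfer (hlo : ∀ p : PrimeSpectrum A, ∃ Q : PrimeSpectrum B, ct K Q = p)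
    {k : ℕ} {Z : Set (PrimeSpectrum A)} (P : PrimeSpectrum B)
    (h : Finsupp.single P 1 ∈ Rel K 𝕜 k {Q : PrimeSpectrum B | ct K Q ∈ Z}) :
    Finsupp.single (ct K (A := A) P) 1 ∈ Rel K 𝕜 k Z := by
  have h1 : ∀ z ∈ Rel K 𝕜 k {Q : PrimeSpectrum B | ct K Q ∈ Z},
      Eg K 𝕜 Γ z ∈ (Rel K 𝕜 k Z).map (pull K 𝕜 B 0) := by
    intro z hz
    unfold Bloch.Rel at hz
    induction hz using Submodule.span_induction with
    | mem z hz =>
      obtain ⟨Q, hQ, a, hd, ha, rfl⟩ := hz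
      exact Eg_div (Γ := Γ) K 𝕜 hint Q hd a ha hQ
    | zero => rw [map_zero]; exact Submodule.zero_mem _
    | add x y _ _ hx hy => rw [map_add]; exact Submodule.add_mem _ hx hy
    | smul c x _ hx => rw [map_smul]; exact Submodule.smul_mem _ _ hx
  obtain ⟨c, hc, h2⟩ := Eg_single (Γ := Γ) K 𝕜 hint (A := A) P
  have h3 := h1 _ h
  rw [h2] at h3
  have h4 := Submodule.smul_mem _ c⁻¹ h3
  rw [smul_smul, inv_mul_cancel₀ hc, one_smul] at h4
  obtain ⟨ζ, hζ, h5⟩ := h4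
  have h6 := pull_injective K 𝕜 hint hlo (Finsupp.single (ct K (A := A) P) 1 - ζ) (by
    rw [map_sub, h5, sub_self])
  rw [sub_eq_zero] at h6
  rw [h6]; exact hζ

end gal

end Pool.Agent.Bloch.Sep
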