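import Pool.Agent.H11.Sep.Gal
import Pool.Agent.Bloch.MainQ

set_option linter.unusedSectionVars false
set_option linter.style.haveILetI false

open MvPolynomial

namespace Pool.Agent.Bloch.Sep

variable (K : Type) [Field K] (𝕜 : Type) [Field 𝕜] [CharZero 𝕜]

/-- extension of scalars of polynomials -/
noncomputable def mpK {L L' : Type} [Field L] [Field L'] [Algebra K L] [Algebra K L']
    (φ : L →ₐ[K] L') (τ : Type) : MvPolynomial τ L →ₐ[K] MvPolynomial τ L' :=
  mapAlgHom φ

theorem mpK_apply {L L' : Type} [Field L] [Field L'] [Algebra K L] [Algebra K L']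
    (φ : L →ₐ[K] L') (τ : Type) (f : MvPolynomial τ L) : mpK K φ τ f = map (φ : L →+* L') f := rfl

/-- the Galois group, as a new type -/
def GalG (L L' : Type) [Field L] [Field L'] [Algebra L L'] : Type := L' ≃ₐ[L] L'

instance (L L' : Type) [Field L] [Field L'] [Algebra L L'] : Group (GalG L L') :=
  inferInstanceAs (Group (L' ≃ₐ[L] L'))

noncomputable instance (L L' : Type) [Field L] [Field L'] [Algebra L L']
    [FiniteDimensional L L'] : Fintype (GalG L L') :=
  inferInstanceAs (Fintype (L' ≃ₐ[L] L'))

/-- the homomorphism attached to an element of the Galois group -/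
noncomputable def GalG.hom {L L' : Type} [Field L] [Field L'] [Algebra L L'] (γ : GalG L L') :
    L' →+* L' := ((show L' ≃ₐ[L] L' from γ : L' →ₐ[L] L') : L' →+* L')

attribute [local instance] algebraMvPolynomial in
/-- Rational equivalence descends along finite Galois extensions of the ground field. -/
theorem gal_mv {L L' : Type} [Field L] [Field L'] [Algebra K L] [Algebra K L'] [Algebra L L']
    [IsScalarTower K L L'] [Algebra.EssFiniteType K L] [Algebra.EssFiniteType K L']
    [FiniteDimensional L L'] [IsGalois L L'] {τ : Type} [Finite τ] {k : ℕ}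
    {Z : Set (PrimeSpectrum (MvPolynomial τ L))} (P : PrimeSpectrum (MvPolynomial τ L'))
    (h : Finsupp.single P 1 ∈ Rel K 𝕜 k
      {Q : PrimeSpectrum (MvPolynomial τ L') | ctr K (mpK K (IsScalarTower.toAlgHom K L L') τ) Q ∈ Z}) :
    Finsupp.single (ctr K (mpK K (IsScalarTower.toAlgHom K L L') τ) P) 1 ∈ Rel K 𝕜 k Z := by
  classical
  letI act : MulSemiringAction (GalG L L') (MvPolynomial τ L') :=
    { smul := fun γ f => map γ.hom f
      one_smul := fun f => map_id f
      mul_smul := fun γ δ f => by
        change map _ f = map _ (map _ f)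
        rw [map_map]
        rfl
      smul_zero := fun γ => map_zero _
      smul_add := fun γ f g => map_add _ f g
      smul_one := fun γ => map_one _
      smul_mul := fun γ f g => map_mul _ f g }
  have hsm : ∀ (γ : GalG L L') (f : MvPolynomial τ L'), γ • f = map γ.hom f := fun _ _ => rfl
  have hst : IsScalarTower K (MvPolynomial τ L) (MvPolynomial τ L') :=
    IsScalarTower.of_algebraMap_eq (fun x => by
      rw [algebraMap_def]
      change C (algebraMap K L' x) = map _ (C (algebraMap K L x))
      rw [map_C, ← IsScalarTower.algebraMap_apply])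
  have hcomm : ∀ (γ : GalG L L') (a : MvPolynomial τ L),
      map γ.hom (map (algebraMap L L') a) = map (algebraMap L L') a := by
    intro γ a
    rw [map_map]
    have : γ.hom.comp (algebraMap L L') = algebraMap L L' :=
      RingHom.ext (fun x => (show L' ≃ₐ[L] L' from γ).commutes x)
    rw [this]
  have : SMulCommClass (GalG L L') (MvPolynomial τ L) (MvPolynomial τ L') := ⟨fun γ a b => by
    rw [Algebra.smul_def, hsm, hsm, map_mul, Algebra.smul_def]
    congr 1
    exact hcomm γ a⟩
  have : SMulCommClass (GalG L L') K (MvPolynomial τ L') := ⟨fun γ a b => by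
    rw [Algebra.smul_def, hsm, hsm, map_mul, Algebra.smul_def]
    congr 1
    change map _ (C (algebraMap K L' a)) = C (algebraMap K L' a)
    rw [map_C, IsScalarTower.algebraMap_apply K L L']
    congr 1
    exact (show L' ≃ₐ[L] L' from γ).commutes _⟩
  have : Algebra.IsInvariant (MvPolynomial τ L) (MvPolynomial τ L') (GalG L L') := ⟨by
    intro b hb
    have h1 : ∀ m, ∃ a : L, algebraMap L L' a = coeff m b := by
      intro m
      have h2 : ∀ γ : L' ≃ₐ[L] L', γ (coeff m b) = coeff m b := by
        intro γ
        have := congrArg (coeff m) (hb γ)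
        rw [hsm, coeff_map] at this
        exact this
      exact (IsGalois.mem_range_algebraMap_iff_fixed _).2 h2
    choose a ha using h1
    refine ⟨∑ m ∈ b.support, monomial m (a m), ?_⟩
    rw [algebraMap_def, map_sum]
    simp only [map_monomial, ha]
    exact b.as_sum.symm⟩
  have : Module.Flat (MvPolynomial τ L) (MvPolynomial τ L') :=
    Module.Flat.isBaseChange L (MvPolynomial τ L) L' (MvPolynomial τ L')
      (inferInstance : Algebra.IsPushout L (MvPolynomial τ L) L' (MvPolynomial τ L')).out
  have hfin : Algebra.IsIntegral (MvPolynomial τ L) (MvPolynomial τ L') :=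
    Algebra.IsInvariant.isIntegral _ _ (GalG L L')
  have hct : ∀ Q : PrimeSpectrum (MvPolynomial τ L'), ct K (A := MvPolynomial τ L) Q =
      ctr K (mpK K (IsScalarTower.toAlgHom K L L') τ) Q := fun Q => rfl
  rw [← hct]
  apply gal_transfer K 𝕜 (GalG L L')
  · intro Q
    apply dl_ctr_eq_of_integral K
    intro x
    exact (hfin.isIntegral x : IsIntegral (MvPolynomial τ L) x)
  · intro p
    have hinj : Function.Injective (algebraMap (MvPolynomial τ L) (MvPolynomial τ L')) := by
      rw [algebraMap_def]
      exact map_injective _ (algebraMap L L').injective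
    obtain ⟨Q, hQ1, hQ2⟩ := Ideal.exists_ideal_over_prime_of_isIntegral_of_isDomain
      (S := MvPolynomial τ L') p.asIdeal (by
        rw [(RingHom.injective_iff_ker_eq_bot _).1 hinj]
        exact bot_le)
    exact ⟨⟨Q, hQ1⟩, PrimeSpectrum.ext hQ2⟩
  · exact h

end Pool.Agent.Bloch.Sep
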