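import Pool.Agent.H11.Sep.Join

set_option linter.unusedSectionVars false
set_option linter.style.haveILetI false

open MvPolynomial

namespace Pool.Agent.Bloch.Sep

variable (K : Type) [Field K] (𝕜 : Type) [Field 𝕜] [CharZero 𝕜]

/-- Vanishing of the cycles of low dimension on the affine scheme `G + b = 0`, over all fields. -/
def Good {κ : Type} [Field κ] [Algebra K κ] {ρ : Type} [Finite ρ] (s : ℕ)
    (G : MvPolynomial ρ κ) : Prop :=
  ∀ (L : Type) [Field L] [Algebra K L] [Algebra.EssFiniteType K L] (φ : κ →ₐ[K] L) (b : L)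
    (j : ℕ), j < s → Van K 𝕜 (j + td K L)
      {Q : PrimeSpectrum (MvPolynomial ρ L) | map (φ : κ →+* L) G + C b ∈ Q.asIdeal}

section fibre
variable {L : Type} [Field L] [Algebra K L] [Algebra.EssFiniteType K L]
variable {τ' τ₀ : Type} [Finite τ'] [Finite τ₀]

/-- the inclusion of the base -/
noncomputable def bs (L τ' τ₀ : Type) [Field L] [Algebra K L] :
    MvPolynomial τ₀ L →ₐ[K] MvPolynomial (τ' ⊕ τ₀) L :=
  (rename Sum.inr : MvPolynomial τ₀ L →ₐ[L] MvPolynomial (τ' ⊕ τ₀) L).restrictScalars K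

theorem bs_apply (h : MvPolynomial τ₀ L) : bs K L τ' τ₀ h = rename Sum.inr h := rfl

/-- the restriction to the generic fibre -/
noncomputable def gf (L τ' : Type) {τ₀ : Type} [Field L] [Algebra K L]
    (𝔠 : PrimeSpectrum (MvPolynomial τ₀ L)) :
    MvPolynomial (τ' ⊕ τ₀) L →ₐ[K] MvPolynomial τ' (Kap 𝔠) :=
  ((spc τ' (fun s => toKap 𝔠 (X s))).restrictScalars K).comp
    (mpK K (IsScalarTower.toAlgHom K L (Kap 𝔠)) (τ' ⊕ τ₀))

theorem gf_apply (𝔠 : PrimeSpectrum (MvPolynomial τ₀ L)) (f : MvPolynomial (τ' ⊕ τ₀) L) :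
    gf K L τ' 𝔠 f = eval₂ ((C : Kap 𝔠 →+* MvPolynomial τ' (Kap 𝔠)).comp (algebraMap L (Kap 𝔠)))
        (Sum.elim X (fun s => C (toKap 𝔠 (X s)))) f := by
  change spc τ' (fun s => toKap 𝔠 (X s)) (map (algebraMap L (Kap 𝔠)) f) = _
  unfold spc
  rw [aeval_def, eval₂_map]
  rfl

theorem toKap_eval₂ (𝔠 : PrimeSpectrum (MvPolynomial τ₀ L)) (h : MvPolynomial τ₀ L) :
    eval₂ (algebraMap L (Kap 𝔠)) (fun s => toKap 𝔠 (X s)) h = toKap 𝔠 h := by
  have h2 : toKap 𝔠 = eval₂Hom (algebraMap L (Kap 𝔠)) (fun s => toKap 𝔠 (X s)) := by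
    apply MvPolynomial.ringHom_ext
    · intro r
      rw [eval₂Hom_C]
      rfl
    · intro s
      rw [eval₂Hom_X']
  exact (RingHom.congr_fun h2 h).symm

theorem gf_inr (𝔠 : PrimeSpectrum (MvPolynomial τ₀ L)) (h : MvPolynomial τ₀ L) :
    gf K L τ' 𝔠 (rename Sum.inr h) = C (toKap 𝔠 h) := by
  rw [gf_apply, eval₂_rename]
  have : ((Sum.elim X fun s => C (toKap 𝔠 (X s))) ∘ Sum.inr : τ₀ → MvPolynomial τ' (Kap 𝔠)) =
      C ∘ (fun s => toKap 𝔠 (X s)) := rfl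
  rw [this, ← toKap_eval₂, ← eval₂_comp_left]

theorem gf_inl (𝔠 : PrimeSpectrum (MvPolynomial τ₀ L)) (g : MvPolynomial τ' L) :
    gf K L τ' 𝔠 (rename Sum.inl g) = map (algebraMap L (Kap 𝔠)) g := by
  rw [gf_apply, eval₂_rename]
  have : eval₂Hom ((C : Kap 𝔠 →+* MvPolynomial τ' (Kap 𝔠)).comp (algebraMap L (Kap 𝔠)))
      ((Sum.elim X (fun s => C (toKap 𝔠 (X s)))) ∘ Sum.inl) = map (algebraMap L (Kap 𝔠)) := by
    apply MvPolynomial.ringHom_ext
    · intro r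
      simp
    · intro t
      simp
  exact RingHom.congr_fun this g

/-- Descent to the generic fibre. -/
theorem fibre_step {i : ℕ} (H : MvPolynomial (τ' ⊕ τ₀) L)
    (P : PrimeSpectrum (MvPolynomial (τ' ⊕ τ₀) L)) (hP : H ∈ P.asIdeal) (hd : dl K P = i)
    (hvan : Van K 𝕜 i {Q : PrimeSpectrum (MvPolynomial τ' (Kap (ctr K (bs K L τ' τ₀) P))) |
      gf K L τ' (ctr K (bs K L τ' τ₀) P) H ∈ Q.asIdeal}) :
    Finsupp.single P 1 ∈ Rel K 𝕜 i {P : PrimeSpectrum (MvPolynomial (τ' ⊕ τ₀) L) |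
        H ∈ P.asIdeal} ⊔
      Submodule.span 𝕜 {w : PrimeSpectrum (MvPolynomial (τ' ⊕ τ₀) L) →₀ 𝕜 | ∃ p ∈
        {p : PrimeSpectrum (MvPolynomial (τ' ⊕ τ₀) L) |
          p ∈ {P : PrimeSpectrum (MvPolynomial (τ' ⊕ τ₀) L) | H ∈ P.asIdeal} ∧ dl K p = i ∧
          dl K (ctr K (bs K L τ' τ₀) p) < dl K (ctr K (bs K L τ' τ₀) P)},
            w = Finsupp.single p 1} := by
  set 𝔠 := ctr K (bs K L τ' τ₀) P with h𝔠
  set S : Submonoid (MvPolynomial (τ' ⊕ τ₀) L) := 𝔠.asIdeal.primeCompl.map (bs K L τ' τ₀) with hS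
  have hF : Frac K (gf K L τ' 𝔠) S := by
    intro t
    induction t using MvPolynomial.induction_on with
    | C y =>
      obtain ⟨u, a, h1, h2⟩ := toKap_frac 𝔠 y
      refine ⟨bs K L τ' τ₀ u, Submonoid.mem_map_of_mem _ h2, rename Sum.inr a, ?_⟩
      rw [bs_apply, gf_inr, gf_inr, ← C_mul, h1]
    | add x y hx hy =>
      obtain ⟨u, hu, a, h⟩ := hx
      obtain ⟨v, hv, b, h'⟩ := hy
      refine ⟨u * v, S.mul_mem hu hv, a * v + b * u, ?_⟩
      rw [map_mul, map_add, map_mul, map_mul, ← h, ← h']; ring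
    | mul_X x l hx =>
      obtain ⟨u, hu, a, h⟩ := hx
      refine ⟨u, hu, a * rename Sum.inl (X l), ?_⟩
      rw [map_mul, ← h, gf_inl, map_X]; ring
  obtain ⟨P', hP', hP'c⟩ := exists_uset hF P (by
      intro f hf
      apply mem_of_spec (algebraMap L (Kap 𝔠)) (fun s => toKap 𝔠 (X s)) P.asIdeal
      · intro h hh
        rw [toKap_eval₂, toKap_eq_zero] at hh
        exact hh
      · rw [← gf_apply K]; exact hf) (by
    rintro _ ⟨u, hu, rfl⟩ h1
    exact hu h1)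
  have hd' : dl K P' = i := by rw [← dl_uset hF hP', hP'c, hd]
  have h1 := hvan P' (by
    change gf K L τ' 𝔠 H ∈ P'.asIdeal
    rw [← hP'c] at hP
    exact hP) hd'
  have h2 := transfer_rel K 𝕜 hF (Z' := {P : PrimeSpectrum (MvPolynomial (τ' ⊕ τ₀) L) |
        H ∈ P.asIdeal}) (fun Q hQ _ => hQ) h1
  rw [push_single K 𝕜 _ S hP', hP'c] at h2
  refine (sup_le_sup le_rfl (Submodule.span_mono ?_) : _ ⊔ _ ≤ Rel K 𝕜 i _ ⊔ _) h2
  rintro w ⟨p, ⟨h3, ⟨Q₀, hQ₀, h4, h5⟩, v, hv, hvp⟩, rfl⟩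
  refine ⟨p, ⟨h4 h5, h3, ?_⟩, rfl⟩
  have hle : 𝔠 ≤ ctr K (bs K L τ' τ₀) p := by
    intro a ha
    apply h4
    change gf K L τ' 𝔠 (rename Sum.inr a) ∈ Q₀.asIdeal
    rw [gf_inr, (toKap_eq_zero 𝔠 a).2 ha, map_zero]
    exact Ideal.zero_mem _
  apply dl_lt K
  refine lt_of_le_of_ne hle ?_
  intro heq
  obtain ⟨u, hu, rfl⟩ := hv
  apply hu
  rw [heq]
  exact hvp

end fibre

section join
variable {κ : Type} [Field κ] [Algebra K κ] {τ' τ₀ : Type} [Finite τ'] [Fintype τ₀] [CharZero K]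

/-- The join lemma. -/
theorem join {G₀ : MvPolynomial τ₀ κ} (hG₀ : Contact G₀) {s : ℕ} {G' : MvPolynomial τ' κ}
    (hG' : Good K 𝕜 s G') :
    Good K 𝕜 (s + 1) (rename Sum.inl G' + rename Sum.inr G₀ : MvPolynomial (τ' ⊕ τ₀) κ) := by
  intro L _ _ _ φ b j hj
  have hH : map (φ : κ →+* L) (rename Sum.inl G' + rename Sum.inr G₀ : MvPolynomial (τ' ⊕ τ₀) κ) +
      C b = rename Sum.inl (map (φ : κ →+* L) G') +
        rename Sum.inr (map (φ : κ →+* L) G₀ + C b) := by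
    rw [map_add, map_rename, map_rename, map_add (rename Sum.inr), rename_C]
    ring
  rw [hH]
  apply van_of_step K 𝕜 (bs K L τ' τ₀)
  intro P hP hd
  by_cases hc : dl K (ctr K (bs K L τ' τ₀) P) = td K L ∧ j = s
  · apply Submodule.mem_sup_left
    have := join_closed K 𝕜 _ (hG₀.map (φ : κ →+* L) b) (map (φ : κ →+* L) G') P hP hc.1
    rw [hd] at this
    exact this
  · apply fibre_step K 𝕜 _ P hP hd
    set 𝔠 := ctr K (bs K L τ' τ₀) P with h𝔠
    have h1 : dl K 𝔠 ≤ j + td K L := by rw [← hd]; exact dl_ctr_le K _ P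
    have h2 : td K L ≤ dl K 𝔠 := by
      apply td_le_of_injective K (IsScalarTower.toAlgHom K L (MvPolynomial τ₀ L ⧸ 𝔠.asIdeal))
      exact RingHom.injective _
    obtain ⟨j', hj'⟩ := Nat.exists_eq_add_of_le h1
    have h3 : j' < s := by
      by_contra hcon
      apply hc
      constructor <;> omega
    have key := hG' (Kap 𝔠) ((IsScalarTower.toAlgHom K L (Kap 𝔠)).comp φ)
      (toKap 𝔠 (map (φ : κ →+* L) G₀ + C b)) j' h3
    rw [td_kap, add_comm, ← hj'] at key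
    have hset : {Q : PrimeSpectrum (MvPolynomial τ' (Kap 𝔠)) | gf K L τ' 𝔠
        (rename Sum.inl (map (φ : κ →+* L) G') +
        rename Sum.inr (map (φ : κ →+* L) G₀ + C b)) ∈ Q.asIdeal} =
        {Q : PrimeSpectrum (MvPolynomial τ' (Kap 𝔠)) |
          map ((IsScalarTower.toAlgHom K L (Kap 𝔠)).comp φ : κ →+* Kap 𝔠) G' +
            C (toKap 𝔠 (map (φ : κ →+* L) G₀ + C b)) ∈ Q.asIdeal} := by
      ext Q
      rw [Set.mem_ofPred_eq, Set.mem_ofPred_eq, map_add (gf K L τ' 𝔠), gf_inl, gf_inr, map_map]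
      rfl
    rw [hset]
    exact key

end join

end Pool.Agent.Bloch.Sep
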