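import Pool.Agent.H11.Sep.Good

set_option linter.unusedSectionVars false
set_option linter.style.haveILetI false

open MvPolynomial

namespace Pool.Agent.Bloch.Sep

variable (K : Type) [Field K] (𝕜 : Type) [Field 𝕜] [CharZero 𝕜]

section equiv
variable {κ : Type} [Field κ] [Algebra K κ]

theorem good_equiv {ρ ρ' : Type} [Finite ρ] [Finite ρ'] (e : ρ ≃ ρ') {s : ℕ}
    {G : MvPolynomial ρ κ} (h : Good K 𝕜 s G) : Good K 𝕜 s (rename e G) := by
  intro L _ _ _ φ b j hj
  have h1 := h L φ b j hj
  refine van_of_surj K 𝕜 ((renameEquiv L e.symm).toAlgHom.restrictScalars K)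
    (renameEquiv L e.symm).surjective ?_ ?_ h1
  · intro Q
    change map (φ : κ →+* L) G + C b ∈ Q.asIdeal ↔
      rename e.symm (map (φ : κ →+* L) (rename e G) + C b) ∈ Q.asIdeal
    rw [map_rename, map_add, rename_rename, rename_C, Equiv.symm_comp_self, rename_id_apply]
  · intro p _ x hx
    have : x = 0 := (map_eq_zero_iff _ (renameEquiv L e.symm).injective).1 hx
    rw [this]; exact Ideal.zero_mem _

theorem good_sigma [CharZero K] : ∀ {s : ℕ} (ρ : Fin s → Type) [∀ l, Fintype (ρ l)]
    (H : ∀ l, MvPolynomial (ρ l) κ), (∀ l, Contact (H l)) →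
    Good K 𝕜 s (∑ l, rename (Sigma.mk l) (H l) : MvPolynomial (Σ l, ρ l) κ) := by
  intro s
  induction s with
  | zero =>
    intro ρ _ H _ L _ _ _ φ b j hj
    exact absurd hj (Nat.not_lt_zero j)
  | succ s ih =>
    intro ρ _ H hH
    have h1 := join K 𝕜 (hH 0) (ih (fun l => ρ l.succ) (fun l => H l.succ) (fun l => hH l.succ))
    let f : ((Σ l : Fin s, ρ l.succ) ⊕ ρ 0) → (Σ l, ρ l) :=
      Sum.elim (fun a => ⟨a.1.succ, a.2⟩) (fun r => ⟨0, r⟩)
    have hf : Function.Bijective f := by
      constructor
      · rintro (⟨l, r⟩ | r) (⟨l', r'⟩ | r') h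
        · simp only [f, Sum.elim_inl, Sigma.mk.injEq] at h
          obtain ⟨h1, h2⟩ := h
          have h3 := Fin.succ_injective _ h1
          subst h3
          rw [heq_eq_eq] at h2
          rw [h2]
        · simp only [f, Sum.elim_inl, Sum.elim_inr, Sigma.mk.injEq] at h
          exact absurd h.1 (Fin.succ_ne_zero l)
        · simp only [f, Sum.elim_inl, Sum.elim_inr, Sigma.mk.injEq] at h
          exact absurd h.1.symm (Fin.succ_ne_zero l')
        · simp only [f, Sum.elim_inr, Sigma.mk.injEq, heq_eq_eq, true_and] at h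
          rw [h]
      · rintro ⟨l, r⟩
        revert r
        refine Fin.cases ?_ (fun l => ?_) l
        · intro r; exact ⟨Sum.inr r, rfl⟩
        · intro r; exact ⟨Sum.inl ⟨l, r⟩, rfl⟩
    have h2 := good_equiv K 𝕜 (Equiv.ofBijective f hf) h1
    have h3 : rename (Equiv.ofBijective f hf) (rename Sum.inl (∑ l : Fin s,
        rename (Sigma.mk l) (H l.succ)) + rename Sum.inr (H 0)) =
        (∑ l, rename (Sigma.mk l) (H l) : MvPolynomial (Σ l, ρ l) κ) := by
      rw [Fin.sum_univ_succ, map_add, map_sum, map_sum, rename_rename]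
      refine (add_comm _ _).trans (congrArg₂ (· + ·) rfl ?_)
      apply Finset.sum_congr rfl
      intro l _
      rw [rename_rename, rename_rename]
      rfl
    rw [h3] at h2
    exact h2

end equiv

section contact
variable {κ : Type} [Field κ]

theorem contact_zero {τ₀ : Type} [Fintype τ₀] [Nonempty τ₀] :
    Contact (0 : MvPolynomial τ₀ κ) := by
  classical
  intro Ω _ _ f x
  refine ⟨fun _ => 1, ?_, 0, 1, one_pos, Or.inl rfl, ?_⟩
  · intro h
    have := congrFun h (Classical.arbitrary τ₀)
    exact one_ne_zero this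
  · rw [eval₂_zero, eval₂_zero, map_zero, zero_mul, add_zero]

/-- the family of lines through a point -/
noncomputable def fam {Ω : Type} [Field Ω] {τ₀ : Type} (f : κ →+* Ω) (x : τ₀ → Ω) :
    MvPolynomial τ₀ κ →+* Polynomial (MvPolynomial τ₀ Ω) :=
  eval₂Hom (Polynomial.C.comp (C.comp f))
    (fun s => Polynomial.C (C (x s)) + Polynomial.C (X s) * Polynomial.X)

theorem fam_homog {Ω : Type} [Field Ω] {τ₀ : Type} (f : κ →+* Ω) (x : τ₀ → Ω)
    (G : MvPolynomial τ₀ κ) : ∀ j, ((fam f x G).coeff j).IsHomogeneous j := by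
  induction G using MvPolynomial.induction_on with
  | C a =>
    intro j
    unfold fam
    rw [eval₂Hom_C, RingHom.comp_apply, Polynomial.coeff_C]
    split_ifs with h
    · rw [h]; exact isHomogeneous_C _ _
    · exact isHomogeneous_zero _ _ _
  | add p q hp hq =>
    intro j
    rw [map_add, Polynomial.coeff_add]
    exact (hp j).add (hq j)
  | mul_X p s hp =>
    intro j
    rw [map_mul]
    have h1 : fam f x (X s) = Polynomial.C (C (x s)) + Polynomial.C (X s) * Polynomial.X :=
      eval₂Hom_X' _ _ _
    rw [h1, mul_add, Polynomial.coeff_add, Polynomial.coeff_mul_C, ← mul_assoc]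
    refine IsHomogeneous.add ?_ ?_
    · have := (hp j).mul (isHomogeneous_C τ₀ (x s))
      rwa [add_zero] at this
    · rcases j with _ | j
      · rw [Polynomial.mul_coeff_zero, Polynomial.coeff_X_zero, mul_zero]
        exact isHomogeneous_zero _ _ _
      · rw [Polynomial.coeff_mul_X, Polynomial.coeff_mul_C]
        exact (hp j).mul (isHomogeneous_X _ s)

theorem fam_degree {Ω : Type} [Field Ω] {τ₀ : Type} (f : κ →+* Ω) (x : τ₀ → Ω)
    (G : MvPolynomial τ₀ κ) : (fam f x G).natDegree ≤ G.totalDegree := by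
  rw [G.as_sum, map_sum]
  refine Polynomial.natDegree_sum_le_of_forall_le _ _ (fun m hm => ?_)
  rw [← G.as_sum]
  unfold fam
  rw [coe_eval₂Hom, eval₂_monomial]
  refine (Polynomial.natDegree_mul_le).trans ?_
  rw [RingHom.comp_apply, Polynomial.natDegree_C, zero_add]
  refine (Polynomial.natDegree_prod_le _ _).trans ?_
  refine (Finset.sum_le_sum (g := fun s => m s) (fun s _ => ?_)).trans ?_
  · refine (Polynomial.natDegree_pow_le).trans ?_
    have : (Polynomial.C (C (x s)) + Polynomial.C (X s) * Polynomial.X :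
        Polynomial (MvPolynomial τ₀ Ω)).natDegree ≤ 1 := by
      refine (Polynomial.natDegree_add_le _ _).trans (max_le ?_ ?_)
      · rw [Polynomial.natDegree_C]; exact Nat.zero_le _
      · refine (Polynomial.natDegree_mul_le).trans ?_
        rw [Polynomial.natDegree_C, zero_add]
        exact Polynomial.natDegree_X_le
    calc m s * _ ≤ m s * 1 := Nat.mul_le_mul_left _ this
      _ = m s := mul_one _
  · exact le_totalDegree hm

theorem fam_eval {Ω : Type} [Field Ω] {τ₀ : Type} (f : κ →+* Ω) (x v : τ₀ → Ω)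
    (G : MvPolynomial τ₀ κ) : (fam f x G).map (eval v) =
      eval₂ (Polynomial.C.comp f)
        (fun s => Polynomial.C (x s) + Polynomial.C (v s) * Polynomial.X) G := by
  have h : (Polynomial.mapRingHom (eval v)).comp (fam f x) = eval₂Hom (Polynomial.C.comp f)
        (fun s => Polynomial.C (x s) + Polynomial.C (v s) * Polynomial.X) := by
    unfold fam
    apply MvPolynomial.ringHom_ext
    · intro r
      simp
    · intro s
      simp
  exact RingHom.congr_fun h G

theorem fam_coeff_zero {Ω : Type} [Field Ω] {τ₀ : Type} (f : κ →+* Ω) (x : τ₀ → Ω)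
    (G : MvPolynomial τ₀ κ) : (fam f x G).coeff 0 = C (eval₂ f x G) := by
  have h : (Polynomial.constantCoeff : Polynomial (MvPolynomial τ₀ Ω) →+* _).comp (fam f x) =
      C.comp (eval₂Hom f x) := by
    unfold fam
    apply MvPolynomial.ringHom_ext
    · intro r
      simp
    · intro s
      simp
  exact RingHom.congr_fun h G

end contact

end Pool.Agent.Bloch.Sep
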