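import Pool.Agent.H11.Sep.Term

set_option linter.unusedSectionVars false
set_option linter.unusedSimpArgs false
set_option linter.unusedVariables false
set_option linter.style.haveILetI false

open MvPolynomial

namespace Pool.Agent.Bloch.Sep

variable {K : Type} [Field K] [CharZero K] [IsAlgClosed K] (𝕜 : Type) [Field 𝕜] [CharZero 𝕜]

/-- induction on the blocks -/
theorem blocks {σ : Type} [Fintype σ] {i d : ℕ} (hd : 2 ≤ d)
    (g : σ → Option (Fin (i + 1))) (f : Fin (i + 1) → MvPolynomial σ K)
    (hf : ∀ l, (f l).IsHomogeneous d)
    (hvars : ∀ l, ∀ s ∈ (f l).vars, g s = some l ∨ g s = none)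
    (hcard : (i + 1) * d < Fintype.card σ)
    (F : MvPolynomial σ K) (hF : F = ∑ l, f l)
    (M : Submodule 𝕜 (PrimeSpectrum (MvPolynomial σ K) →₀ 𝕜))
    (hRM : RH 𝕜 (i + 1) {Q | F ∈ Q.asIdeal} ≤ M)
    (hcone : ∀ (o ζ : σ → K) (W : PrimeSpectrum (MvPolynomial σ K)), eval o F ≠ 0 →
      ∑ s, ζ s * o s = 1 → HomP W → dl K W = i + 1 → lf ζ ∈ W.asIdeal →
      divCyc K 𝕜 (i + 1) (Cn o W) F ∈ M)
    (hlin : ∀ (c : Fin (i + 1) → σ → K) (v : σ → K),
      LinearIndependent K (Fin.cons v c : Fin (i + 2) → σ → K) →
      (∀ x ∈ Submodule.span K (Set.range (Fin.cons v c : Fin (i + 2) → σ → K)), eval x F = 0) →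
      Finsupp.single (Lin c) 1 ∈ M) :
    ∀ (n : ℕ) (U : Fin (i + 1) → Submodule K (σ → K)),
      ∑ l, Module.finrank K (U l) ≤ n →
      (∀ l, ∀ x ∈ U l, ∀ s, x s ≠ 0 → g s = some l) →
      (∀ l, d ≤ Module.finrank K (U l) ∨
        (0 < Module.finrank K (U l) ∧ ∀ x ∈ U l, eval x (f l) = 0)) →
      ∀ W : PrimeSpectrum (MvPolynomial σ K), HomP W → F ∈ W.asIdeal → dl K W = i + 1 →
        In (⨆ l, U l) W → Finsupp.single W 1 ∈ M := by
  classical
  have hFh : F.IsHomogeneous d := by
    rw [hF]; exact IsHomogeneous.sum _ _ _ (fun l _ => hf l)
  -- evaluation of `f l`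
  have hev : ∀ l, ∀ x y : σ → K, (∀ s, g s = some l ∨ g s = none → x s = y s) →
      eval x (f l) = eval y (f l) := fun l x y h =>
    eval_congr' _ _ _ (fun s hs => h s (hvars l s hs))
  intro n
  induction n with
  | zero =>
    intro U hn hsupp hU
    exfalso
    rcases hU 0 with h | h
    · have := Finset.single_le_sum (f := fun l => Module.finrank K (U l))
        (fun _ _ => Nat.zero_le _) (Finset.mem_univ (0 : Fin (i + 1)))
      omega
    · have := Finset.single_le_sum (f := fun l => Module.finrank K (U l))
        (fun _ _ => Nat.zero_le _) (Finset.mem_univ (0 : Fin (i + 1)))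
      omega
  | succ n ih =>
    intro U hn hsupp hU W hW hFW hdW hIn
    by_cases hall : ∀ l, Module.finrank K (U l) = 1 ∧ ∀ x ∈ U l, eval x (f l) = 0
    · -- the terminal case
      have h1 : ∀ l, ∃ u : σ → K, u ≠ 0 ∧ Submodule.span K {u} = U l := by
        intro l
        obtain ⟨b, hb, hspan⟩ := exists_basis (U l) (hall l).1
        refine ⟨b 0, hb.ne_zero 0, ?_⟩
        rw [← hspan]
        congr 1
        ext x
        simp only [Set.mem_singleton_iff, Set.mem_range]
        constructor
        · rintro rfl; exact ⟨0, rfl⟩
        · rintro ⟨y, rfl⟩; rw [Subsingleton.elim y 0]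
      choose u hu0 huU using h1
      have huU' : ∀ l, u l ∈ U l := fun l => by
        rw [← huU l]; exact Submodule.mem_span_singleton_self _
      have hspan : (⨆ l, U l) = Submodule.span K (Set.range u) := by
        rw [Submodule.span_range_eq_iSup]
        exact iSup_congr (fun l => (huU l).symm)
      have hsu : ∀ l s, u l s ≠ 0 → g s = some l := fun l => hsupp l _ (huU' l)
      have hind : LinearIndependent K u := by
        have h2 := indep_blocks (K := K) g (s := i + 1) (ρ := fun _ => Unit) (T := Empty)
          (fun l => some l) (Option.some_injective _) none (fun l => by simp)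
          (Sum.elim (fun x => u x.1) (fun e => e.elim)) (by
            intro l
            rw [Fintype.linearIndependent_iff]
            intro c hc r
            simp only [Sum.elim_inl, Finset.univ_unique, Finset.sum_singleton] at hc
            exact (smul_eq_zero.1 hc).resolve_right (hu0 l))
          (linearIndependent_empty_type) (by
            intro l r t h
            exact hsu l t h) (by
            intro e; exact e.elim)
        exact h2.comp (fun l : Fin (i + 1) => Sum.inl ⟨l, ()⟩) (by
          intro x y hxy
          simpa using hxy)
      have hWL : W = Lin u := by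
        apply eq_Lin hind
        · rw [← hspan]; exact hIn
        · rw [hdW, Fintype.card_fin]
      obtain ⟨v, hv, hv2⟩ := term_dir (by omega) g f hf hvars u hu0 hsu
        (fun l => (hall l).2 _ (huU' l)) hcard
      rw [← hF] at hv2
      by_cases hc : eval v F = 0
      · rw [hWL]
        apply hlin u v
        · rw [linearIndependent_finCons]
          exact ⟨hind, hv⟩
        · intro x hx
          rw [Fin.range_cons, Submodule.span_insert] at hx
          obtain ⟨a, ha, b, hb, rfl⟩ := Submodule.mem_sup.1 hx
          obtain ⟨t, rfl⟩ := Submodule.mem_span_singleton.1 ha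
          rw [add_comm, hv2 b hb t, hc, mul_zero]
      · apply D1 𝕜 (d := d) (by omega) F M _ v hv (eval v F) hc (by
          intro x hx z
          rw [hv2 x hx z]
          have := hv2 x hx 0
          rw [zero_smul, add_zero, zero_pow (by omega), zero_mul] at this
          rw [this, zero_add, mul_comm]) W hFW hdW (by rw [← hspan]; exact hIn)
        intro ζ h1 h2
        exact hcone v ζ W hc h2 hW hdW h1
    · -- the inductive step
      push Not at hall
      obtain ⟨l₀, hl₀⟩ := hall
      have hdl1 : 1 < Module.finrank K (U l₀) := by
        rcases hU l₀ with h | ⟨h1, h2⟩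
        · omega
        · by_contra h3
          obtain ⟨x, hx1, hx2⟩ := hl₀ (by omega)
          exact absurd (h2 x hx1) hx2
      -- replacing a block
      have hupd : ∀ x : σ → K, x ∈ U l₀ → x ≠ 0 → eval x (f l₀) = 0 →
          ∀ W : PrimeSpectrum (MvPolynomial σ K), HomP W → F ∈ W.asIdeal → dl K W = i + 1 →
          In ((⨆ l : Fin i, U (l₀.succAbove l)) ⊔ Submodule.span K {x}) W →
          Finsupp.single W 1 ∈ M := by
        intro x hxU hx0 hfx W hW hFW hdW hIn
        have hfr : Module.finrank K (Submodule.span K {x}) = 1 := finrank_span_singleton hx0
        refine ih (Function.update U l₀ (Submodule.span K {x})) ?_ ?_ ?_ W hW hFW hdW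
          (In.mono ?_ le_rfl hIn)
        · have e1 : ∑ l, Module.finrank K (Function.update U l₀ (Submodule.span K {x}) l) <
              ∑ l, Module.finrank K (U l) := by
            apply Finset.sum_lt_sum
            · intro l _
              by_cases h : l = l₀
              · subst h
                rw [Function.update_self, hfr]
                omega
              · rw [Function.update_of_ne h]
            · refine ⟨l₀, Finset.mem_univ _, ?_⟩
              rw [Function.update_self, hfr]
              omega
          omega
        · intro l y hy s hs
          by_cases h : l = l₀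
          · subst h
            rw [Function.update_self] at hy
            obtain ⟨t, rfl⟩ := Submodule.mem_span_singleton.1 hy
            exact hsupp l x hxU s (fun h => hs (by rw [Pi.smul_apply, h, smul_zero]))
          · rw [Function.update_of_ne h] at hy
            exact hsupp l y hy s hs
        · intro l
          by_cases h : l = l₀
          · subst h
            rw [Function.update_self]
            refine Or.inr ⟨by rw [hfr]; exact Nat.one_pos, ?_⟩
            intro y hy
            obtain ⟨t, rfl⟩ := Submodule.mem_span_singleton.1 hy
            rw [eval_smul' (hf l), hfx, mul_zero]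
          · rw [Function.update_of_ne h]
            exact hU l
        · apply sup_le
          · apply iSup_le
            intro l
            refine le_trans ?_ (le_iSup _ (l₀.succAbove l))
            rw [Function.update_of_ne (Fin.succAbove_ne l₀ l)]
          · refine le_trans ?_ (le_iSup _ l₀)
            rw [Function.update_self]
      -- bases
      have hbase : ∀ l, ∃ b : Fin (Module.finrank K (U l)) → σ → K, LinearIndependent K b ∧
          Submodule.span K (Set.range b) = U l := fun l => exists_basis (U l) rfl
      choose b hb hbs using hbase
      have hbU : ∀ l r, b l r ∈ U l := fun l r => (hbs l).le (Submodule.subset_span ⟨r, rfl⟩)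
      haveI : Nonempty (Fin (Module.finrank K (U l₀))) := ⟨⟨0, by omega⟩⟩
      have hz : ∀ l, ∀ x ∈ U l, ∀ s, g s ≠ some l → x s = 0 := fun l x hx s h => by
        by_contra h'; exact h (hsupp l x hx s h')
      have key := lemRB 𝕜 (i := i) (d := d) (s := i)
        (ρ := fun l => Fin (Module.finrank K (U (l₀.succAbove l))))
        (T := Fin (Module.finrank K (U l₀))) rfl
        (Sum.elim (fun x => b (l₀.succAbove x.1) x.2) (b l₀))
        (indep_blocks g (fun l => some (l₀.succAbove l))
          (fun x y h => Fin.succAbove_right_injective (Option.some.inj h)) (some l₀)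
          (fun l h => Fin.succAbove_ne l₀ l (Option.some.inj h)) _
          (fun l => hb _) (hb _) (fun l r t h => hsupp _ _ (hbU _ _) t h)
          (fun t' t h => hsupp _ _ (hbU _ _) t h))
        F (f l₀) (fun l => f (l₀.succAbove l)) hFh (by
          rw [hF, Fin.sum_univ_succAbove _ l₀]) (by
          intro l t ht l' hl' r
          apply hz _ _ (hbU _ _)
          intro h
          rcases hvars _ t ht with h2 | h2
          · rw [h2] at h
            exact hl' (Fin.succAbove_right_injective (Option.some.inj h)).symm
          · rw [h2] at h; cases h) (by
          intro t ht r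
          apply hz _ _ (hbU _ _)
          intro h
          rcases hvars _ t ht with h2 | h2
          · rw [h2] at h
            exact Fin.succAbove_ne l₀ _ (Option.some.inj h).symm
          · rw [h2] at h; cases h) (by
          intro l
          rcases hU (l₀.succAbove l) with h | ⟨h1, h2⟩
          · left
            rw [Fintype.card_fin]
            refine ⟨by omega, fun κ _ _ t => ?_⟩
            refine (totalDegree_sub_le t _).trans ((totalDegree_th_le _ _).trans ?_)
            exact ((hf _).totalDegree_le).trans h
          · right
            refine ⟨?_, ⟨⟨0, by omega⟩⟩⟩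
            apply MvPolynomial.funext
            intro c
            rw [eval_th, map_zero, sum_fun, Fintype.sum_sum_type]
            rw [← h2 (∑ r, c (Sum.inl r) • b (l₀.succAbove l) r)
              (Submodule.sum_mem _ (fun r _ => Submodule.smul_mem _ _ (hbU _ _)))]
            apply hev
            intro s hs
            rw [Pi.add_apply]
            have h3 : (∑ t, c (Sum.inr t) • b l₀ t) s = 0 := by
              apply hz l₀ _ (Submodule.sum_mem _ (fun r _ => Submodule.smul_mem _ _ (hbU _ _)))
              intro h4
              rcases hs with h5 | h5
              · rw [h5] at h4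
                exact Fin.succAbove_ne l₀ _ (Option.some.inj h4)
              · rw [h5] at h4; cases h4
            have h6 : (∑ t, c (Sum.inr t) • (Sum.elim (fun x : (Σ l : Fin i,
                Fin (Module.finrank K (U (l₀.succAbove l)))) => b (l₀.succAbove x.1) x.2) (b l₀)
                (Sum.map (Sigma.mk l) id (Sum.inr t))) : σ → K) s = 0 := h3
            rw [h6, add_zero]
            rfl) W hW hFW hdW (by
          refine In.mono ?_ le_rfl hIn
          apply iSup_le
          intro l
          rw [← hbs l, Submodule.span_le]
          rintro _ ⟨r, rfl⟩
          by_cases h : l = l₀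
          · subst h
            exact Submodule.subset_span ⟨Sum.inr r, rfl⟩
          · obtain ⟨l', rfl⟩ := Fin.exists_succAbove_eq h
            exact Submodule.subset_span ⟨Sum.inl ⟨l', r⟩, rfl⟩)
      obtain ⟨z, hz1, z', hz2, hzz⟩ := Submodule.mem_sup.1 key
      rw [← hzz]
      apply M.add_mem (hRM hz1)
      refine Submodule.span_le.2 ?_ hz2
      rintro _ ⟨W', hFW', hW', hdW', ⟨q, hq0, hInq⟩, rfl⟩
      set p : σ → K := ∑ t, q t • b l₀ t with hp
      have hpU : p ∈ U l₀ := Submodule.sum_mem _ (fun r _ => Submodule.smul_mem _ _ (hbU _ _))
      have hp0 : p ≠ 0 := by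
        intro h
        apply hq0
        funext t
        exact Fintype.linearIndependent_iff.1 (hb l₀) q h t
      have hInp : In ((⨆ l : Fin i, U (l₀.succAbove l)) ⊔ Submodule.span K {p}) W' := by
        refine In.mono ?_ le_rfl hInq
        apply sup_le
        · refine le_trans ?_ le_sup_left
          rw [Submodule.span_le]
          rintro _ ⟨⟨l, r⟩, rfl⟩
          exact (le_iSup (fun l : Fin i => U (l₀.succAbove l)) l) (hbU _ r)
        · exact le_sup_right
      by_cases hfp : eval p (f l₀) = 0
      · exact hupd p hpU hp0 hfp W' hW' hFW' hdW' hInp
      · have hdl : d ≤ Module.finrank K (U l₀) := by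
          rcases hU l₀ with h | ⟨h1, h2⟩
          · exact h
          · exact absurd (h2 p hpU) hfp
        obtain ⟨u, huU, hup, c, hc⟩ := contact_dir hd (f l₀) (hf l₀) (U l₀) hdl p hpU hfp
        have hu0 : u ≠ 0 := by
          rintro rfl
          exact hup (Submodule.zero_mem _)
        -- separation of the blocks
        have hsep : ∀ a ∈ (⨆ l : Fin i, U (l₀.succAbove l)), ∀ s, g s = some l₀ ∨ g s = none →
            a s = 0 := by
          intro a ha
          refine Submodule.iSup_induction (fun l : Fin i => U (l₀.succAbove l))
            (motive := fun a => ∀ s, g s = some l₀ ∨ g s = none → a s = 0) ha ?_ ?_ ?_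
          · intro l x hx s hs
            apply hz _ x hx
            intro h
            rcases hs with h5 | h5
            · rw [h5] at h
              exact Fin.succAbove_ne l₀ _ (Option.some.inj h).symm
            · rw [h5] at h; cases h
          · intro s _; rfl
          · intro x y hx hy s hs
            rw [Pi.add_apply, hx s hs, hy s hs, add_zero]
        have hnot : ∀ x y : σ → K, x ∈ U l₀ → y ∈ U l₀ → x ∉ Submodule.span K {y} →
            x ∉ (⨆ l : Fin i, U (l₀.succAbove l)) ⊔ Submodule.span K {y} := by
          intro x y hx hy hxy h
          obtain ⟨a, ha, t, ht, hat⟩ := Submodule.mem_sup.1 h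
          obtain ⟨t, rfl⟩ := Submodule.mem_span_singleton.1 ht
          apply hxy
          refine Submodule.mem_span_singleton.2 ⟨t, ?_⟩
          funext s
          rw [← hat, Pi.add_apply]
          by_cases hs : g s = some l₀
          · rw [hsep a ha s (Or.inl hs), zero_add]
          · have h1 := hz l₀ x hx s hs
            rw [← hat, Pi.add_apply] at h1
            have h2 := hz l₀ _ ((U l₀).smul_mem t hy) s hs
            rw [h2] at h1 ⊢
            rw [h1]
        have hup' : p ∉ Submodule.span K {u} := by
          intro h
          obtain ⟨t, ht⟩ := Submodule.mem_span_singleton.1 h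
          apply hup
          have ht0 : t ≠ 0 := by
            rintro rfl
            rw [zero_smul] at ht
            exact hp0 ht.symm
          refine Submodule.mem_span_singleton.2 ⟨t⁻¹, ?_⟩
          rw [← ht, smul_smul, inv_mul_cancel₀ ht0, one_smul]
        have hmain : ∀ v ∈ (⨆ l : Fin i, U (l₀.succAbove l)) ⊔ Submodule.span K {p}, ∀ z : K,
            eval (v + z • u) F = eval v F + c * z ^ d := by
          intro v hv z
          obtain ⟨a, ha, t, ht, rfl⟩ := Submodule.mem_sup.1 hv
          obtain ⟨t, rfl⟩ := Submodule.mem_span_singleton.1 ht
          rw [hF, Fin.sum_univ_succAbove _ l₀, map_add, map_add, map_sum, map_sum]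
          have e1 : eval (a + t • p + z • u) (f l₀) = t ^ d * eval p (f l₀) + c * z ^ d := by
            rw [← hc t z]
            apply hev
            intro s hs
            rw [add_assoc, Pi.add_apply, hsep a ha s hs, zero_add]
          have e2 : eval (a + t • p) (f l₀) = t ^ d * eval p (f l₀) := by
            rw [← eval_smul' (hf l₀)]
            apply hev
            intro s hs
            rw [Pi.add_apply, hsep a ha s hs, zero_add]
          have e3 : ∀ l : Fin i, eval (a + t • p + z • u) (f (l₀.succAbove l)) =
              eval (a + t • p) (f (l₀.succAbove l)) := by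
            intro l
            apply hev
            intro s hs
            rw [Pi.add_apply (a + t • p), hz l₀ _ ((U l₀).smul_mem z huU) s, add_zero]
            intro h
            rcases hs with h5 | h5
            · rw [h5] at h
              exact Fin.succAbove_ne l₀ _ (Option.some.inj h)
            · rw [h5] at h; cases h
          rw [e1, e2, Finset.sum_congr rfl (fun l _ => e3 l)]
          ring
        by_cases hc0 : c = 0
        · apply D2 𝕜 F M hRM _ p u (hnot u p huU hpU hup) (hnot p u hpU huU hup') (by
            intro v hv z
            rw [hmain v hv z, hc0, zero_mul, add_zero]) (by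
            intro W hW hFW hdW hIn
            apply hupd u huU hu0 _ W hW hFW hdW hIn
            have := hc 0 1
            rw [zero_smul, zero_add, one_smul, hc0, zero_mul, zero_pow (by omega), zero_mul,
              add_zero] at this
            exact this) W' hW' hFW' hdW' hInp
        · apply D1 𝕜 (d := d) (by omega) F M _ u (hnot u p huU hpU hup) c hc0 hmain W' hFW' hdW'
            hInp
          intro ζ h1 h2
          refine hcone u ζ W' ?_ h2 hW' hdW' h1
          have := hmain 0 (Submodule.zero_mem _) 1
          have h3 : eval (0 : σ → K) F = 0 := by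
            have := eval_smul' hFh (0 : K) (0 : σ → K)
            rw [zero_smul, zero_pow (by omega), zero_mul] at this
            exact this
          rw [zero_add, one_smul, h3, one_pow, mul_one, zero_add] at this
          rw [this]
          exact hc0

end Pool.Agent.Bloch.Sep
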