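import Pool.Agent.H11.Sep.Closed

set_option linter.unusedSectionVars false
set_option linter.style.haveILetI false

open MvPolynomial

namespace Pool.Agent.Bloch.Sep

section iter
variable {L : Type} [CommRing L] {τ' τ₀ : Type}

/-- polynomials whose coefficients are polynomials -/
noncomputable def itS (L τ' τ₀ : Type) [CommRing L] :
    MvPolynomial τ' (MvPolynomial τ₀ L) →+* MvPolynomial (τ' ⊕ τ₀) L :=
  eval₂Hom ((rename Sum.inr : MvPolynomial τ₀ L →ₐ[L] MvPolynomial (τ' ⊕ τ₀) L) :
    MvPolynomial τ₀ L →+* MvPolynomial (τ' ⊕ τ₀) L) (fun t => X (Sum.inl t))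

theorem itS_C (h : MvPolynomial τ₀ L) : itS L τ' τ₀ (C h) = rename Sum.inr h :=
  eval₂Hom_C _ _ _

theorem itS_X (t : τ') : itS L τ' τ₀ (X t) = X (Sum.inl t) := eval₂Hom_X' _ _ _

theorem itS_surj (f : MvPolynomial (τ' ⊕ τ₀) L) : ∃ g, itS L τ' τ₀ g = f := by
  induction f using MvPolynomial.induction_on with
  | C a => exact ⟨C (C a), by rw [itS_C, rename_C]⟩
  | add p q hp hq =>
    obtain ⟨g, rfl⟩ := hp
    obtain ⟨h, rfl⟩ := hq
    exact ⟨g + h, map_add _ _ _⟩
  | mul_X p s hp =>
    obtain ⟨g, rfl⟩ := hp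
    rcases s with t | s
    · exact ⟨g * X t, by rw [map_mul, itS_X]⟩
    · exact ⟨g * C (X s), by rw [map_mul, itS_C, rename_X]⟩

theorem itS_eval {κ : Type} [CommRing κ] (φ : L →+* κ) (x : τ₀ → κ)
    (g : MvPolynomial τ' (MvPolynomial τ₀ L)) :
    eval₂ ((C : κ →+* MvPolynomial τ' κ).comp φ) (Sum.elim X (fun s => C (x s)))
      (itS L τ' τ₀ g) = map (eval₂Hom φ x) g := by
  have h : (eval₂Hom ((C : κ →+* MvPolynomial τ' κ).comp φ)
      (Sum.elim X (fun s => C (x s)))).comp (itS L τ' τ₀) = map (eval₂Hom φ x) := by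
    apply MvPolynomial.ringHom_ext
    · intro h
      rw [RingHom.comp_apply, itS_C, map_C]
      induction h using MvPolynomial.induction_on with
      | C a => simp
      | add p q hp hq => simp only [map_add, hp, hq]
      | mul_X p s hp => rw [map_mul, map_mul, hp, rename_X]; simp
    · intro t
      rw [RingHom.comp_apply, itS_X, map_X]
      simp
  exact RingHom.congr_fun h g

theorem itS_mem (P : Ideal (MvPolynomial (τ' ⊕ τ₀) L)) (g : MvPolynomial τ' (MvPolynomial τ₀ L))
    (h : ∀ m, rename Sum.inr (coeff m g) ∈ P) : itS L τ' τ₀ g ∈ P := by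
  rw [g.as_sum, map_sum]
  apply Ideal.sum_mem
  intro m _
  have : (monomial m (coeff m g)) = C (coeff m g) * monomial m 1 := by
    rw [C_mul_monomial, mul_one]
  rw [this, map_mul, itS_C]
  exact Ideal.mul_mem_right _ _ (h m)

/-- A polynomial vanishing on a fibre belongs to all primes over it. -/
theorem mem_of_spec {κ : Type} [CommRing κ] (φ : L →+* κ) (x : τ₀ → κ)
    (P : Ideal (MvPolynomial (τ' ⊕ τ₀) L))
    (hP : ∀ h : MvPolynomial τ₀ L, eval₂ φ x h = 0 → rename Sum.inr h ∈ P)
    (f : MvPolynomial (τ' ⊕ τ₀) L)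
    (hf : eval₂ ((C : κ →+* MvPolynomial τ' κ).comp φ) (Sum.elim X (fun s => C (x s))) f = 0) :
    f ∈ P := by
  obtain ⟨g, rfl⟩ := itS_surj f
  rw [itS_eval] at hf
  apply itS_mem
  intro m
  apply hP
  have := congrArg (coeff m) hf
  rw [coeff_map, coeff_zero] at this
  exact this

end iter

section integral

theorem lying_over {R S : Type} [CommRing R] [CommRing S] (f : R →+* S) (hf : f.IsIntegral)
    (P : PrimeSpectrum R) (hk : RingHom.ker f ≤ P.asIdeal) :
    ∃ Q : PrimeSpectrum S, PrimeSpectrum.comap f Q = P := by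
  letI : Algebra R S := f.toAlgebra
  haveI : Algebra.IsIntegral R S := ⟨hf⟩
  obtain ⟨Q, _, hQ1, hQ2⟩ := Ideal.exists_ideal_over_prime_of_isIntegral
    (S := S) P.asIdeal ⊥ hk
  exact ⟨⟨Q, hQ1⟩, PrimeSpectrum.ext hQ2⟩

theorem map_integral {L L' : Type} [Field L] [Field L'] [Algebra L L'] [Algebra.IsAlgebraic L L']
    (τ : Type) : (map (algebraMap L L') : MvPolynomial τ L →+* MvPolynomial τ L').IsIntegral := by
  intro f
  induction f using MvPolynomial.induction_on with
  | C a =>
    obtain ⟨p, hp, h0⟩ := (Algebra.IsIntegral.isIntegral (R := L) a)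
    refine ⟨p.map C, hp.map _, ?_⟩
    rw [Polynomial.eval₂_map]
    have : (map (algebraMap L L') : MvPolynomial τ L →+* MvPolynomial τ L').comp C =
        (C : L' →+* MvPolynomial τ L').comp (algebraMap L L') := by
      ext x
      simp
    rw [this, ← Polynomial.hom_eval₂, h0, map_zero]
  | add p q hp hq => exact hp.add _ hq
  | mul_X p s hp =>
    refine hp.mul _ ?_
    have : (X s : MvPolynomial τ L') = map (algebraMap L L') (X s) := by rw [map_X]
    rw [this]
    exact RingHom.isIntegralElem_map _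

end integral

variable (K : Type) [Field K] (𝕜 : Type) [Field 𝕜] [CharZero 𝕜]

/-- Every point has a contact line. -/
def Contact {κ : Type} [Field κ] {τ₀ : Type} [Fintype τ₀] (G₀ : MvPolynomial τ₀ κ) : Prop :=
  ∀ (Ω : Type) [Field Ω] [IsAlgClosed Ω] (f : κ →+* Ω) (x : τ₀ → Ω), ∃ v : τ₀ → Ω, v ≠ 0 ∧
    ∃ (c : Ω) (n : ℕ), 0 < n ∧ (c = 0 ∨ 2 ≤ Fintype.card τ₀) ∧
      eval₂ (Polynomial.C.comp f)
        (fun s => Polynomial.C (x s) + Polynomial.C (v s) * Polynomial.X) G₀ =
        Polynomial.C (eval₂ f x G₀) + Polynomial.C c * Polynomial.X ^ n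

theorem Contact.map {κ L : Type} [Field κ] [Field L] {τ₀ : Type} [Fintype τ₀]
    {G₀ : MvPolynomial τ₀ κ} (h : Contact G₀) (φ : κ →+* L) (b : L) :
    Contact (MvPolynomial.map φ G₀ + C b) := by
  intro Ω _ _ f x
  obtain ⟨v, hv, c, n, hn, hc, h1⟩ := h Ω (f.comp φ) x
  refine ⟨v, hv, c, n, hn, hc, ?_⟩
  rw [eval₂_add, eval₂_add, eval₂_map, eval₂_map, RingHom.comp_assoc, h1, eval₂_C, eval₂_C,
    Polynomial.C_add]
  simp only [RingHom.comp_apply]
  ring

/-- mapping the contact identity -/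
theorem contact_map {L F Ω : Type} [Field L] [CommRing F] [CommRing Ω] {τ₀ : Type} (f : L →+* F)
    (j : F →+* Ω) (x v : τ₀ → F) (G₀ : MvPolynomial τ₀ L) :
    (eval₂ (Polynomial.C.comp f)
      (fun s => Polynomial.C (x s) + Polynomial.C (v s) * Polynomial.X) G₀).map j =
    eval₂ (Polynomial.C.comp (j.comp f))
      (fun s => Polynomial.C (j (x s)) + Polynomial.C (j (v s)) * Polynomial.X) G₀ := by
  have e1 : ∀ p : Polynomial F, p.map j = Polynomial.mapRingHom j p := fun p => rfl
  rw [e1, ← coe_eval₂Hom, ← coe_eval₂Hom, ← RingHom.comp_apply]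
  congr 1
  apply MvPolynomial.ringHom_ext
  · intro r
    simp
  · intro s
    simp

theorem contact_desc {L F Ω : Type} [Field L] [Field F] [Field Ω] {τ₀ : Type} (f : L →+* F)
    (j : F →+* Ω) (x v : τ₀ → F) (c : F) (n : ℕ) (G₀ : MvPolynomial τ₀ L)
    (h : eval₂ (Polynomial.C.comp (j.comp f))
      (fun s => Polynomial.C (j (x s)) + Polynomial.C (j (v s)) * Polynomial.X) G₀ =
        Polynomial.C (eval₂ (j.comp f) (fun s => j (x s)) G₀) +
          Polynomial.C (j c) * Polynomial.X ^ n) :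
    eval₂ (Polynomial.C.comp f)
      (fun s => Polynomial.C (x s) + Polynomial.C (v s) * Polynomial.X) G₀ =
        Polynomial.C (eval₂ f x G₀) + Polynomial.C c * Polynomial.X ^ n := by
  apply Polynomial.map_injective j j.injective
  rw [contact_map, h, Polynomial.map_add, Polynomial.map_mul, Polynomial.map_pow,
    Polynomial.map_X, Polynomial.map_C, Polynomial.map_C]
  congr 2
  rw [← coe_eval₂Hom, ← coe_eval₂Hom, ← RingHom.comp_apply]
  congr 1
  apply MvPolynomial.ringHom_ext
  · intro r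
    simp
  · intro s
    simp

section aux
variable {L L' : Type} [Field L] [Field L'] [Algebra K L] [Algebra K L'] [Algebra L L']
    [IsScalarTower K L L'] [Algebra.EssFiniteType K L] [Algebra.EssFiniteType K L']
    [FiniteDimensional L L'] [IsGalois L L']
variable {τ' τ₀ : Type} [Finite τ'] [Fintype τ₀]

theorem spc_eval₂ (x : τ₀ → L') (f : MvPolynomial (τ' ⊕ τ₀) L) :
    spc τ' x (map (algebraMap L L') f) =
      eval₂ ((C : L' →+* MvPolynomial τ' L').comp (algebraMap L L'))
        (Sum.elim X (fun s => C (x s))) f := by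
  unfold spc
  rw [aeval_def, eval₂_map]
  rfl

theorem lin1_inr (x v : τ₀ → L') (g : MvPolynomial τ₀ L) :
    lin1 τ' x v (map (algebraMap L L') (rename Sum.inr g)) =
      (eval₂ (Polynomial.C.comp (algebraMap L L'))
        (fun s => Polynomial.C (x s) + Polynomial.C (v s) * Polynomial.X) g).map C := by
  rw [contact_map]
  unfold lin1
  rw [map_rename, aeval_rename, aeval_def, eval₂_map]
  rfl

theorem lin1_inl (x v : τ₀ → L') (g : MvPolynomial τ' L) :
    lin1 τ' x v (map (algebraMap L L') (rename Sum.inl g)) =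
      Polynomial.C (map (algebraMap L L') g) := by
  rw [map_rename]
  set g' := map (algebraMap L L') g
  unfold lin1
  rw [aeval_rename]
  have : (aeval (Sum.elim (fun t => Polynomial.C (X t)) (fun s => Polynomial.C (C (x s)) +
      Polynomial.C (C (v s)) * Polynomial.X) ∘ Sum.inl) :
      MvPolynomial τ' L' →ₐ[L'] Polynomial (MvPolynomial τ' L')) = Polynomial.CAlgHom := by
    apply MvPolynomial.algHom_ext
    intro t
    simp
  rw [this]
  rfl

theorem join_aux (G₀ : MvPolynomial τ₀ L) (G' : MvPolynomial τ' L)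
    (P : PrimeSpectrum (MvPolynomial (τ' ⊕ τ₀) L))
    (hP : rename Sum.inl G' + rename Sum.inr G₀ ∈ P.asIdeal)
    (x v : τ₀ → L') (hv : v ≠ 0) (c : L') (n : ℕ) (hn : 0 < n)
    (hc : c = 0 ∨ 2 ≤ Fintype.card τ₀)
    (hcont : eval₂ (Polynomial.C.comp (algebraMap L L'))
      (fun s => Polynomial.C (x s) + Polynomial.C (v s) * Polynomial.X) G₀ =
        Polynomial.C (eval₂ (algebraMap L L') x G₀) + Polynomial.C c * Polynomial.X ^ n)
    (hx : ∀ h : MvPolynomial τ₀ L, eval₂ (algebraMap L L') x h = 0 →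
      rename Sum.inr h ∈ P.asIdeal) :
    Finsupp.single P 1 ∈ Rel K 𝕜 (dl K P) {Q : PrimeSpectrum (MvPolynomial (τ' ⊕ τ₀) L) |
      rename Sum.inl G' + rename Sum.inr G₀ ∈ Q.asIdeal} := by
  set H := rename Sum.inl G' + rename Sum.inr G₀ with hH
  have hint1 : ((mpK K (IsScalarTower.toAlgHom K L L') (τ' ⊕ τ₀) :
      MvPolynomial (τ' ⊕ τ₀) L →ₐ[K] MvPolynomial (τ' ⊕ τ₀) L') :
      MvPolynomial (τ' ⊕ τ₀) L →+* MvPolynomial (τ' ⊕ τ₀) L').IsIntegral :=
    map_integral (τ' ⊕ τ₀)
  have hint2 : (((spc τ' x).toRingHom).comp (map (algebraMap L L')) :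
      MvPolynomial (τ' ⊕ τ₀) L →+* MvPolynomial τ' L').IsIntegral :=
    RingHom.IsIntegral.trans _ _ (map_integral (τ' ⊕ τ₀))
      (RingHom.isIntegral_of_surjective _ (spc_surj x))
  have hker : RingHom.ker (((spc τ' x).toRingHom).comp (map (algebraMap L L')) :
      MvPolynomial (τ' ⊕ τ₀) L →+* MvPolynomial τ' L') ≤ P.asIdeal := by
    intro f hf
    apply mem_of_spec (algebraMap L L') x P.asIdeal hx
    rw [← spc_eval₂]
    exact hf
  obtain ⟨W, hW⟩ := lying_over _ hint2 P hker
  set P' := ctr K ((spc τ' x).restrictScalars K) W with hP'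
  have hPP : ctr K (mpK K (IsScalarTower.toAlgHom K L L') (τ' ⊕ τ₀)) P' = P := hW
  have hd1 : dl K P' = dl K P := by
    rw [← hPP]
    exact (dl_ctr_eq_of_integral K _ hint1 P').symm
  have hd2 : dl K W = dl K P := by
    rw [← hd1, hP']
    exact (dl_ctr_surj K _ (spc_surj x) W).symm
  have hHW : spc τ' x (map (algebraMap L L') H) ∈ W.asIdeal := by
    have h1 : H ∈ P.asIdeal := hP
    rw [← hW] at h1
    exact h1
  have hlin : lin1 τ' x v (map (algebraMap L L') H) =
      Polynomial.C (map (algebraMap L L') G' + C (eval₂ (algebraMap L L') x G₀)) +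
        Polynomial.C (C c) * Polynomial.X ^ n := by
    rw [hH, map_add, map_add, lin1_inl, lin1_inr, hcont, Polynomial.map_add, Polynomial.map_mul,
      Polynomial.map_pow, Polynomial.map_X, Polynomial.map_C, Polynomial.map_C, Polynomial.C_add,
      add_assoc]
  have hspc : spc τ' x (map (algebraMap L L') H) =
      map (algebraMap L L') G' + C (eval₂ (algebraMap L L') x G₀) := by
    rw [lin1_coeff x v, hlin, Polynomial.coeff_add, Polynomial.coeff_C_zero,
      Polynomial.mul_coeff_zero, Polynomial.coeff_X_pow, if_neg hn.ne, mul_zero, add_zero]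
  have key := closed_point K 𝕜 x v hv c n hn hc W hd2 (map (algebraMap L L') H)
    (spc τ' x (map (algebraMap L L') H)) hHW (by rw [hlin, hspc])
  have key2 := gal_mv K 𝕜 (L := L) (L' := L')
    (Z := {Q : PrimeSpectrum (MvPolynomial (τ' ⊕ τ₀) L) | H ∈ Q.asIdeal}) P' key
  rw [hPP] at key2
  exact key2

end aux

section main
variable {L : Type} [Field L] [Algebra K L] [Algebra.EssFiniteType K L] [CharZero K]
variable {τ' τ₀ : Type} [Finite τ'] [Fintype τ₀]

theorem td_kap {A : Type} [CommRing A] [Algebra K A] [Algebra.EssFiniteType K A]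
    [IsNoetherianRing A] (p : PrimeSpectrum A) : td K (Kap p) = dl K p := by
  have h1 : dl K (⟨⊥, Ideal.isPrime_bot⟩ : PrimeSpectrum (Kap p)) = dl K p := dl_kap K p _
  rw [← h1]
  unfold dl
  apply td_congr
  exact (AlgEquiv.quotientBot K (Kap p)).symm

/-- the case of a closed point of the base -/
theorem join_closed (G₀ : MvPolynomial τ₀ L) (hG₀ : Contact G₀) (G' : MvPolynomial τ' L)
    (P : PrimeSpectrum (MvPolynomial (τ' ⊕ τ₀) L))
    (hP : rename Sum.inl G' + rename Sum.inr G₀ ∈ P.asIdeal)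
    (hc : dl K (ctr K ((rename Sum.inr : MvPolynomial τ₀ L →ₐ[L]
      MvPolynomial (τ' ⊕ τ₀) L).restrictScalars K) P) = td K L) :
    Finsupp.single P 1 ∈ Rel K 𝕜 (dl K P) {Q : PrimeSpectrum (MvPolynomial (τ' ⊕ τ₀) L) |
      rename Sum.inl G' + rename Sum.inr G₀ ∈ Q.asIdeal} := by
  set 𝔠 := ctr K ((rename Sum.inr : MvPolynomial τ₀ L →ₐ[L]
      MvPolynomial (τ' ⊕ τ₀) L).restrictScalars K) P with h𝔠
  -- the residue field is algebraic over `L`
  have halg : Algebra.IsAlgebraic L (Kap 𝔠) := by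
    rw [← _root_.trdeg_eq_zero_iff]
    have h1 := _root_.trdeg_add_eq K L (A := Kap 𝔠)
    rw [← coe_td K L, ← coe_td K (Kap 𝔠), td_kap, hc] at h1
    have h2 : Algebra.trdeg L (Kap 𝔠) < Cardinal.aleph0 := by
      refine lt_of_le_of_lt ?_ (Cardinal.natCast_lt_aleph0 (n := td K L))
      rw [← h1]
      exact self_le_add_left _ _
    obtain ⟨n, hn⟩ := Cardinal.lt_aleph0.1 h2
    rw [hn] at h1 ⊢
    norm_cast at h1 ⊢
    omega
  let ι : Kap 𝔠 →ₐ[L] AlgebraicClosure L := IsAlgClosed.lift
  let xΩ : τ₀ → AlgebraicClosure L := fun s => ι (toKap 𝔠 (X s))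
  obtain ⟨vΩ, hvΩ, cΩ, n, hn, hcn, hcont⟩ := hG₀ (AlgebraicClosure L)
    (algebraMap L (AlgebraicClosure L)) xΩ
  -- the Galois extension
  let S : Set (AlgebraicClosure L) := Set.range xΩ ∪ Set.range vΩ ∪ {cΩ}
  have hSf : S.Finite := ((Set.finite_range _).union (Set.finite_range _)).union
    (Set.finite_singleton _)
  haveI : Finite S := hSf
  let F₁ : IntermediateField L (AlgebraicClosure L) := IntermediateField.adjoin L S
  haveI : FiniteDimensional L F₁ := IntermediateField.finiteDimensional_adjoin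
    (fun x _ => Algebra.IsIntegral.isIntegral x)
  let F : IntermediateField L (AlgebraicClosure L) := IntermediateField.normalClosure L F₁ _
  haveI : FiniteDimensional L F := normalClosure.is_finiteDimensional L F₁ _
  haveI : Normal L F := normalClosure.normal L F₁ _
  haveI : CharZero L := charZero_of_injective_algebraMap (algebraMap K L).injective
  haveI : IsGalois L F := ⟨⟩
  have hSF : ∀ y ∈ S, y ∈ F := by
    intro y hy
    exact IntermediateField.le_normalClosure F₁ (IntermediateField.subset_adjoin L S hy)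
  haveI : IsScalarTower K L F := inferInstance
  haveI : Algebra.EssFiniteType L F := inferInstance
  haveI : Algebra.EssFiniteType K F := Algebra.EssFiniteType.comp K L F
  let x : τ₀ → F := fun s => ⟨xΩ s, hSF _ (Or.inl (Or.inl ⟨s, rfl⟩))⟩
  let v : τ₀ → F := fun s => ⟨vΩ s, hSF _ (Or.inl (Or.inr ⟨s, rfl⟩))⟩
  let c : F := ⟨cΩ, hSF _ (Or.inr rfl)⟩
  have hv : v ≠ 0 := by
    intro h
    apply hvΩ
    funext s
    exact congrArg Subtype.val (congrFun h s)
  have hcF : c = 0 ∨ 2 ≤ Fintype.card τ₀ := hcn.imp (fun h => Subtype.ext h) id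
  -- contact over `F`
  have hcontF : eval₂ (Polynomial.C.comp (algebraMap L F))
      (fun s => Polynomial.C (x s) + Polynomial.C (v s) * Polynomial.X) G₀ =
        Polynomial.C (eval₂ (algebraMap L F) x G₀) + Polynomial.C c * Polynomial.X ^ n :=
    contact_desc (algebraMap L F) (algebraMap F (AlgebraicClosure L)) x v c n G₀ hcont
  apply join_aux K 𝕜 (L' := F) G₀ G' P hP x v hv c n hn hcF hcontF
  intro h hh
  change h ∈ 𝔠.asIdeal
  rw [← toKap_eq_zero]
  have h1 : ι (toKap 𝔠 h) = algebraMap F (AlgebraicClosure L) (eval₂ (algebraMap L F) x h) := by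
    have h2 : (ι : Kap 𝔠 →+* AlgebraicClosure L).comp (toKap 𝔠) =
        (algebraMap F (AlgebraicClosure L)).comp (eval₂Hom (algebraMap L F) x) := by
      apply MvPolynomial.ringHom_ext
      · intro r
        rw [RingHom.comp_apply, RingHom.comp_apply, eval₂Hom_C]
        change ι (algebraMap L (Kap 𝔠) r) = algebraMap L (AlgebraicClosure L) r
        exact ι.commutes r
      · intro s
        rw [RingHom.comp_apply, RingHom.comp_apply, eval₂Hom_X']
        rfl
    exact RingHom.congr_fun h2 h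
  rw [hh, map_zero] at h1
  exact (map_eq_zero_iff ι (RingHom.injective _)).1 h1

end main

end Pool.Agent.Bloch.Sep
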