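import Pool.Agent.H11.Sep.Blocks

set_option linter.unusedSectionVars false
set_option linter.unusedSimpArgs false
set_option linter.unusedVariables false
set_option linter.style.haveILetI false

open MvPolynomial

namespace Pool.Agent.Bloch.Sep

variable {K : Type} [Field K]

theorem tr_coeff_homog {σ : Type} [Fintype σ] {f : MvPolynomial σ K} {d : ℕ}
    (hf : f.IsHomogeneous d) (o : σ → K) (n m : ℕ) (h : m + n = d) :
    ((tr o f).coeff n).IsHomogeneous m := by
  rw [← sum_homogeneousComponent ((tr o f).coeff n)]
  apply IsHomogeneous.sum
  intro k _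
  by_cases hk : k = m
  · rw [hk]; exact homogeneousComponent_isHomogeneous _ _
  · rw [tr_component, homogeneousComponent_of_mem hf, if_neg (by omega), map_zero,
      Polynomial.coeff_zero]
    exact isHomogeneous_zero _ _ _

/-- polynomials with only the extreme terms in a pencil -/
theorem pencil [Infinite K] {σ : Type} [Fintype σ] {f : MvPolynomial σ K} {d : ℕ} (hd : 0 < d)
    (hf : f.IsHomogeneous d) (u v : σ → K) (hu : eval u f = 0)
    (h : ∀ j, 1 ≤ j → j < d → eval v ((tr u f).coeff j) = 0) (x z : K) :
    eval (x • u + z • v) f = z ^ d * eval v f := by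
  have h1 : (tr u f).map (eval (z • v)) = Polynomial.C (z ^ d * eval v f) := by
    ext j
    rw [Polynomial.coeff_map, Polynomial.coeff_C]
    split_ifs with hj
    · rw [hj, tr_coeff_zero, eval_smul' hf]
    · by_cases hjd : j < d
      · rw [eval_smul' (tr_coeff_homog hf u j (d - j) (by omega)), h j (by omega) hjd, mul_zero]
      · by_cases hjd' : j = d
        · have h2 : (tr u f).map (eval (0 : σ → K)) = 0 := by
            apply Polynomial.funext
            intro y
            rw [tr_eval]
            have : (fun s => (0 : σ → K) s + y * u s) = y • u := by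
              funext s
              simp
            rw [this, eval_smul' hf, hu, mul_zero, Polynomial.eval_zero]
          have h3 := congrArg (fun q => Polynomial.coeff q j) h2
          simp only [Polynomial.coeff_map, Polynomial.coeff_zero] at h3
          have h4 := tr_coeff_homog hf u j 0 (by omega)
          have h5 := eval_smul' h4 (0 : K) v
          rw [zero_smul, h3, pow_zero, one_mul] at h5
          rw [eval_smul' h4, ← h5, mul_zero]
        · have h2 : (tr u f).natDegree < j := by
            refine lt_of_le_of_lt (tr_degree u f) (lt_of_le_of_lt hf.totalDegree_le (by omega))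
          rw [Polynomial.coeff_eq_zero_of_natDegree_lt h2, map_zero]
  have h2 := tr_eval u (z • v) x f
  have h3 : (fun s => (z • v) s + x * u s) = x • u + z • v := by
    funext s
    rw [Pi.add_apply, Pi.smul_apply, Pi.smul_apply, smul_eq_mul, smul_eq_mul, add_comm]
  rw [h3] at h2
  rw [← h2, h1, Polynomial.eval_C]

/-- the terminal direction -/
theorem term_dir [IsAlgClosed K] {σ : Type} [Fintype σ] {m d : ℕ} (hd : 0 < d)
    (g : σ → Option (Fin m)) (f : Fin m → MvPolynomial σ K) (hf : ∀ l, (f l).IsHomogeneous d)
    (hvars : ∀ l, ∀ s ∈ (f l).vars, g s = some l ∨ g s = none)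
    (u : Fin m → σ → K) (hu : ∀ l, u l ≠ 0) (hsupp : ∀ l s, u l s ≠ 0 → g s = some l)
    (hfu : ∀ l, eval (u l) (f l) = 0) (hcard : m * d < Fintype.card σ) :
    ∃ v : σ → K, v ∉ Submodule.span K (Set.range u) ∧
      ∀ x ∈ Submodule.span K (Set.range u), ∀ z : K,
        eval (x + z • v) (∑ l, f l) = z ^ d * eval v (∑ l, f l) := by
  classical
  have h1 : ∀ l, ∃ s, u l s ≠ 0 := fun l => by
    by_contra hcon
    push Not at hcon
    exact hu l (funext hcon)
  choose piv hpiv using h1
  have hgp : ∀ l, g (piv l) = some l := fun l => hsupp l _ (hpiv l)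
  have hinj : Function.Injective piv := fun l l' h => by
    have := hgp l
    rw [h, hgp l'] at this
    exact (Option.some.inj this).symm
  have hup : ∀ l l', l' ≠ l → u l' (piv l) = 0 := fun l l' h => by
    by_contra hcon
    have := hsupp l' _ hcon
    rw [hgp l] at this
    exact h (Option.some.inj this).symm
  let n := {s : σ // s ∉ Set.range piv}
  have hn : Fintype.card n + m = Fintype.card σ := by
    have e1 := Fintype.card_subtype_compl (fun s : σ => s ∈ Set.range piv)
    have e2 : Fintype.card {s : σ // s ∈ Set.range piv} = m := by
      have := Set.card_range_of_injective hinj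
      rw [Fintype.card_fin] at this
      exact this
    have e3 : Fintype.card {s : σ // s ∈ Set.range piv} ≤ Fintype.card σ :=
      Fintype.card_subtype_le _
    have e4 : Fintype.card n = Fintype.card {s : σ // ¬ s ∈ Set.range piv} := rfl
    omega
  let b : n → σ → K := fun j => Pi.single j.1 1
  obtain ⟨c, hc0, hc⟩ := exists_common_zero (Ω := K) (n := n) (ι := Fin m × Fin (d - 1)) (by
      rw [Fintype.card_prod, Fintype.card_fin, Fintype.card_fin]
      have : m * (d - 1) + m = m * d := by
        rw [← Nat.mul_succ]
        congr 1
        omega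
      omega) (fun lk => th b ((tr (u lk.1) (f lk.1)).coeff (d - (lk.2 + 1))))
      (fun lk => lk.2 + 1) (fun _ => Nat.succ_pos _) (by
      intro lk
      apply (th_gr b).map_homog
      have := lk.2.2
      exact tr_coeff_homog (hf lk.1) _ _ _ (by omega))
  set v : σ → K := fun s => ∑ j, c j * b j s with hv
  have hvp : ∀ l, v (piv l) = 0 := by
    intro l
    apply Finset.sum_eq_zero
    intro j _
    have : (b j) (piv l) = 0 := Pi.single_eq_of_ne (fun h => j.2 ⟨l, h⟩) _
    rw [this, mul_zero]
  have hvn : ∀ j : n, v j.1 = c j := by
    intro j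
    change ∑ k, c k * b k j.1 = c j
    rw [Finset.sum_eq_single j]
    · simp [b]
    · intro k _ hk
      have : (b k) j.1 = 0 := Pi.single_eq_of_ne (fun h => hk (Subtype.ext h.symm)) _
      rw [this, mul_zero]
    · intro h; exact absurd (Finset.mem_univ _) h
  refine ⟨v, ?_, ?_⟩
  · intro h
    obtain ⟨x, hx⟩ := (Submodule.mem_span_range_iff_exists_fun K).1 h
    have hx0 : x = 0 := by
      funext l
      have h2 := congrFun hx (piv l)
      rw [hvp, Finset.sum_apply, Finset.sum_eq_single l] at h2
      · rw [Pi.smul_apply, smul_eq_mul] at h2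
        exact (mul_eq_zero.1 h2).resolve_right (hpiv l)
      · intro l' _ hl'
        rw [Pi.smul_apply, hup l l' hl', smul_zero]
      · intro h; exact absurd (Finset.mem_univ _) h
    apply hc0
    funext j
    rw [← hvn j, ← hx, hx0]
    simp
  · intro x hx z
    obtain ⟨x, rfl⟩ := (Submodule.mem_span_range_iff_exists_fun K).1 hx
    rw [map_sum, map_sum, Finset.mul_sum]
    apply Finset.sum_congr rfl
    intro l _
    rw [← pencil hd (hf l) (u l) v (hfu l) (by
      intro j hj1 hj2
      have := hc (l, ⟨d - j - 1, by omega⟩)
      simp only at this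
      rw [eval_th] at this
      have e1 : d - (d - j - 1 + 1) = j := by omega
      rw [e1] at this
      exact this) (x l) z]
    apply eval_congr'
    intro s hs
    rw [Pi.add_apply, Pi.add_apply, Finset.sum_apply]
    congr 1
    rw [Finset.sum_eq_single l]
    · intro l' _ hl'
      have : u l' s = 0 := by
        by_contra hcon
        have := hsupp l' s hcon
        rcases hvars l s hs with h | h
        · rw [h] at this
          exact hl' (Option.some.inj this).symm
        · rw [h] at this
          cases this
      rw [Pi.smul_apply, this, smul_zero]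
    · intro h; exact absurd (Finset.mem_univ _) h

end Pool.Agent.Bloch.Sep
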