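import Pool.Agent.H11.Sep.K2
import Pool.Agent.H11.Sep.Comm
import Pool.Agent.H11.Sep.Term

set_option linter.unusedSectionVars false
set_option linter.unusedSimpArgs false
set_option linter.unusedVariables false
set_option linter.style.haveILetI false

open MvPolynomial

namespace Pool.Agent.Bloch.Sep

variable {K : Type} [Field K]

section tb
variable {σ β : Type} [Fintype σ] [Fintype β]

/-- projection with centre `o` to the linear space parametrised by `b` -/
noncomputable def Tb (o : σ → K) (b : β → σ → K) :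
    MvPolynomial σ K →ₐ[K] Polynomial (MvPolynomial β K) :=
  (Polynomial.mapAlgHom (th b)).comp (tr o)

theorem Tb_apply (o : σ → K) (b : β → σ → K) (f : MvPolynomial σ K) :
    Tb o b f = (tr o f).map (th b : MvPolynomial σ K →+* MvPolynomial β K) := rfl

theorem ctr_Tb (o : σ → K) (b : β → σ → K) (q : PrimeSpectrum (MvPolynomial β K)) :
    ctr K (Tb o b) (ext q) = Cn o (ctr K (th b) q) := by
  apply PrimeSpectrum.ext
  ext f
  rw [mem_ctr, mem_ext, mem_Cn]
  refine forall_congr' (fun n => ?_)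
  rw [Tb_apply, Polynomial.coeff_map, mem_ctr]
  rfl

/-- linear substitution -/
noncomputable def io (w : β → σ → K) : MvPolynomial β K →ₐ[K] MvPolynomial σ K :=
  aeval (fun j => lf (w j))

theorem io_gr (w : β → σ → K) : Gr (io w) := fun j => by
  unfold io
  rw [aeval_X]
  exact lf_homog _

theorem Tb_lf (o : σ → K) (b : β → σ → K) (w : σ → K) : Tb o b (lf w) =
    Polynomial.C (lf (fun j => ∑ s, w s * b j s)) +
      Polynomial.C (C (∑ s, w s * o s)) * Polynomial.X := by
  rw [Tb_apply, tr_lf, Polynomial.map_add, Polynomial.map_mul, Polynomial.map_C,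
    Polynomial.map_C, Polynomial.map_X]
  change Polynomial.C (th b (lf w)) + Polynomial.C (th b (C _)) * _ = _
  rw [th_lf, algHom_C, MvPolynomial.algebraMap_eq]

theorem lf_zero' : lf (0 : σ → K) = 0 := by
  unfold lf
  simp

theorem Tb_io [DecidableEq β] (o : σ → K) (b w : β → σ → K)
    (hw : ∀ j k, ∑ s, w j s * b k s = if j = k then 1 else 0)
    (hwo : ∀ j, ∑ s, w j s * o s = 0) (a : MvPolynomial β K) :
    Tb o b (io w a) = Polynomial.C a := by
  have h : (Tb o b).comp (io w) = Polynomial.CAlgHom := by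
    apply MvPolynomial.algHom_ext
    intro j
    rw [AlgHom.comp_apply]
    unfold io
    rw [aeval_X, Tb_lf, hwo, C_0, Polynomial.C_0, zero_mul, add_zero]
    simp only [hw]
    rw [lf_single]
    rfl
  exact DFunLike.congr_fun h a

theorem Tb_ζ (o : σ → K) (b : β → σ → K) (ζ : σ → K) (h1 : ∑ s, ζ s * o s = 1)
    (h2 : ∀ j, ∑ s, ζ s * b j s = 0) : Tb o b (lf ζ) = Polynomial.X := by
  rw [Tb_lf, h1, C_1, Polynomial.C_1, one_mul]
  have : (fun j => ∑ s, ζ s * b j s) = 0 := funext h2
  rw [this, lf_zero', Polynomial.C_0, zero_add]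

theorem tr_top [Infinite K] {F : MvPolynomial σ K} {d : ℕ} (hF : F.IsHomogeneous d) (o : σ → K) :
    (tr o F).coeff d = C (eval o F) := by
  have h1 := tr_coeff_homog hF o d 0 (by omega)
  have h2 : ((tr o F).coeff d).totalDegree = 0 := Nat.le_zero.1 h1.totalDegree_le
  rw [totalDegree_eq_zero_iff_eq_C] at h2
  have h3 : (tr o F).map (eval (0 : σ → K)) = Polynomial.C (eval o F) * Polynomial.X ^ d := by
    apply Polynomial.funext
    intro z
    rw [tr_eval]
    have : (fun s => (0 : σ → K) s + z * o s) = z • o := by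
      funext s
      simp
    rw [this, eval_smul' hF, Polynomial.eval_mul, Polynomial.eval_C, Polynomial.eval_pow,
      Polynomial.eval_X, mul_comm]
  have h4 := congrArg (fun q => Polynomial.coeff q d) h3
  simp only [Polynomial.coeff_map, Polynomial.coeff_C_mul, Polynomial.coeff_X_pow, if_true,
    mul_one] at h4
  rw [h2, eval_C] at h4
  rw [h2, h4]

theorem Tb_top [Infinite K] {F : MvPolynomial σ K} {d : ℕ} (hF : F.IsHomogeneous d) (o : σ → K)
    (b : β → σ → K) : (Tb o b F).coeff d = C (eval o F) := by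
  rw [Tb_apply, Polynomial.coeff_map, tr_top hF o]
  change th b (C _) = _
  rw [algHom_C, MvPolynomial.algebraMap_eq]

theorem Tb_degree {F : MvPolynomial σ K} {d : ℕ} (hF : F.IsHomogeneous d) (o : σ → K)
    (b : β → σ → K) : (Tb o b F).natDegree ≤ d := by
  rw [Tb_apply]
  refine (Polynomial.natDegree_map_le).trans ?_
  exact (tr_degree o F).trans hF.totalDegree_le

theorem Tb_not_mem [Infinite K] {F : MvPolynomial σ K} {d : ℕ} (hF : F.IsHomogeneous d)
    (o : σ → K) (b : β → σ → K) (ho : eval o F ≠ 0) (q : PrimeSpectrum (MvPolynomial β K)) :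
    Tb o b F ∉ (ext q).asIdeal := by
  intro h
  rw [mem_ext] at h
  have := h d
  rw [Tb_top hF] at this
  exact q.2.ne_top (Ideal.eq_top_of_isUnit_mem _ this ((isUnit_iff_ne_zero.2 ho).map C))

/-- `F` is a nonzerodivisor modulo the extension of an ideal -/
theorem Tb_reg [Infinite K] {F : MvPolynomial σ K} {d : ℕ} (hF : F.IsHomogeneous d)
    (o : σ → K) (b : β → σ → K) (ho : eval o F ≠ 0) (J : Ideal (MvPolynomial β K))
    (g : Polynomial (MvPolynomial β K)) (h : ∀ n, (Tb o b F * g).coeff n ∈ J) (n : ℕ) :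
    g.coeff n ∈ J := by
  set φ := Ideal.Quotient.mk J with hφ
  have h1 : (Tb o b F).map φ * g.map φ = 0 := by
    rw [← Polynomial.map_mul]
    ext m
    rw [Polynomial.coeff_map, Polynomial.coeff_zero, Ideal.Quotient.eq_zero_iff_mem]
    exact h m
  have h2 : (Polynomial.C (φ (C (eval o F)⁻¹)) * (Tb o b F).map φ).Monic := by
    apply Polynomial.monic_of_natDegree_le_of_coeff_eq_one d
    · refine (Polynomial.natDegree_C_mul_le _ _).trans ?_
      exact (Polynomial.natDegree_map_le).trans (Tb_degree hF o b)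
    · rw [Polynomial.coeff_C_mul, Polynomial.coeff_map, Tb_top hF, ← map_mul, ← C_mul,
        inv_mul_cancel₀ ho, C_1, map_one]
  have h3 : (Polynomial.C (φ (C (eval o F)⁻¹)) * (Tb o b F).map φ) * g.map φ = 0 := by
    rw [mul_assoc, h1, mul_zero]
  rw [h2.mul_right_eq_zero_iff] at h3
  have h4 := congrArg (fun q => Polynomial.coeff q n) h3
  simp only [Polynomial.coeff_map, Polynomial.coeff_zero] at h4
  exact Ideal.Quotient.eq_zero_iff_mem.1 h4

variable [CharZero K] (𝕜 : Type) [Field 𝕜] [CharZero 𝕜]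

theorem mem_Tb_sup [DecidableEq β] {o : σ → K} {b w : β → σ → K}
    (hs : Function.Surjective (Tb o b)) (hio : ∀ a, Tb o b (io w a) = Polynomial.C a)
    (q : PrimeSpectrum (MvPolynomial β K)) (a : MvPolynomial β K) (x : MvPolynomial σ K) :
    x ∈ (ctr K (Tb o b) (ext q)).asIdeal ⊔ Ideal.span {io w a} ↔
      ∀ n, (Tb o b x).coeff n ∈ q.asIdeal ⊔ Ideal.span {a} := by
  constructor
  · intro h n
    obtain ⟨ω, hω, t, ht, rfl⟩ := Submodule.mem_sup.1 h
    obtain ⟨t, rfl⟩ := Ideal.mem_span_singleton'.1 ht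
    rw [mem_ctr, mem_ext] at hω
    rw [map_add, map_mul, hio, Polynomial.coeff_add, Polynomial.coeff_mul_C]
    exact Submodule.add_mem_sup (hω n) (Ideal.mul_mem_left _ _ (Ideal.mem_span_singleton_self a))
  · intro h
    have h1 : ∀ n, ∃ s, (Tb o b x).coeff n - s * a ∈ q.asIdeal := by
      intro n
      obtain ⟨ω, hω, t, ht, h2⟩ := Submodule.mem_sup.1 (h n)
      obtain ⟨t, rfl⟩ := Ideal.mem_span_singleton'.1 ht
      exact ⟨t, by rw [← h2, add_sub_cancel_right]; exact hω⟩
    choose s hs1 using h1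
    obtain ⟨y, hy⟩ := hs (∑ n ∈ Finset.range ((Tb o b x).natDegree + 1),
      Polynomial.C (s n) * Polynomial.X ^ n)
    have h2 : x - y * io w a ∈ (ctr K (Tb o b) (ext q)).asIdeal := by
      rw [mem_ctr, mem_ext]
      intro n
      rw [map_sub, map_mul, hio, Polynomial.coeff_sub, Polynomial.coeff_mul_C, hy,
        Polynomial.finsetSum_coeff]
      simp only [Polynomial.coeff_C_mul, Polynomial.coeff_X_pow, mul_ite, mul_one, mul_zero]
      rw [Finset.sum_ite_eq]
      split_ifs with h3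
      · exact hs1 n
      · rw [Finset.mem_range, not_lt] at h3
        rw [Polynomial.coeff_eq_zero_of_natDegree_lt (by omega), zero_mul, sub_zero]
        exact Ideal.zero_mem _
    have h3 : x = (x - y * io w a) + y * io w a := by ring
    rw [h3]
    exact Submodule.add_mem_sup h2 (Ideal.mul_mem_left _ _ (Ideal.mem_span_singleton_self _))

/-- the projecting cone, intersected with `F` -/
noncomputable def Psi (i : ℕ) (F : MvPolynomial σ K) (o : σ → K) (b : β → σ → K) :
    (PrimeSpectrum (MvPolynomial β K) →₀ 𝕜) →ₗ[𝕜] (PrimeSpectrum (MvPolynomial σ K) →₀ 𝕜) :=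
  (dcyc K 𝕜 (i + 1) F).comp ((push0 K 𝕜 (Tb o b)).comp
    (pull K 𝕜 (Polynomial (MvPolynomial β K)) 1))

theorem Psi_single (i : ℕ) (F : MvPolynomial σ K) (o : σ → K) (b : β → σ → K)
    (q : PrimeSpectrum (MvPolynomial β K)) : Psi 𝕜 i F o b (Finsupp.single q 1) =
      divCyc K 𝕜 (i + 1) (Cn o (ctr K (th b) q)) F := by
  unfold Psi
  rw [LinearMap.comp_apply, LinearMap.comp_apply, pull_poly, push0_single, dcyc_single, one_smul,
    ctr_Tb]

theorem Psi_divCyc [DecidableEq β] {i d : ℕ} {F : MvPolynomial σ K} (hF : F.IsHomogeneous d)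
    {o : σ → K} {b w : β → σ → K} (ho : eval o F ≠ 0)
    (hs : Function.Surjective (Tb o b)) (hio : ∀ a, Tb o b (io w a) = Polynomial.C a)
    (q : PrimeSpectrum (MvPolynomial β K)) (hq : dl K q = i + 2) (a : MvPolynomial β K)
    (ha : a ∉ q.asIdeal) :
    Psi 𝕜 i F o b (divCyc K 𝕜 (i + 1) q a) =
      dcyc K 𝕜 (i + 1) (io w a) (divCyc K 𝕜 (i + 2) (ctr K (Tb o b) (ext q)) F) ∧
    ∀ P : PrimeSpectrum (MvPolynomial σ K), ctr K (Tb o b) (ext q) ≤ P → io w a ∈ P.asIdeal →
      F ∈ P.asIdeal → dl K P ≤ i + 1 := by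
  have hdim : ∀ P : PrimeSpectrum (MvPolynomial σ K), ctr K (Tb o b) (ext q) ≤ P →
      io w a ∈ P.asIdeal → F ∈ P.asIdeal → dl K P ≤ i + 1 := by
    intro P hP1 hP2 hP3
    obtain ⟨Q, rfl⟩ := exists_lift (Tb o b) hs P (by
      intro f hf
      apply hP1
      change Tb o b f ∈ (ext q).asIdeal
      rw [hf]
      exact Ideal.zero_mem _)
    have h1 : q ≤ ctr K (polyC K (MvPolynomial β K)) Q := by
      intro g hg
      have h2 : io w g ∈ (ctr K (Tb o b) (ext q)).asIdeal := by
        rw [mem_ctr, hio, mem_ext]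
        intro n
        rw [Polynomial.coeff_C]
        split_ifs
        · exact hg
        · exact Ideal.zero_mem _
      have h3 : Tb o b (io w g) ∈ Q.asIdeal := hP1 h2
      rw [hio] at h3
      exact h3
    have h2 : a ∈ (ctr K (polyC K (MvPolynomial β K)) Q).asIdeal := by
      have h3 : Tb o b (io w a) ∈ Q.asIdeal := hP2
      rw [hio] at h3
      exact h3
    have h3 : dl K (ctr K (polyC K (MvPolynomial β K)) Q) < dl K q :=
      dl_lt K (lt_of_le_of_ne h1 (fun h => ha (by rw [h]; exact h2)))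
    have h4 : ext (ctr K (polyC K (MvPolynomial β K)) Q) ≤ Q := ext_ctr_le K Q
    have h5 : ext (ctr K (polyC K (MvPolynomial β K)) Q) ≠ Q := by
      intro h
      apply Tb_not_mem hF o b ho (ctr K (polyC K (MvPolynomial β K)) Q)
      rw [h]
      exact hP3
    have h6 := dl_lt K (lt_of_le_of_ne h4 h5)
    rw [dl_ext] at h6
    rw [dl_ctr_surj K _ hs]
    omega
  refine ⟨?_, hdim⟩
  have hdq : dl K (ext q) = (i + 2) + 1 := by rw [dl_ext, hq]
  have haq : Tb o b (io w a) ∉ (ext q).asIdeal := by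
    rw [hio, mem_ext]
    intro h
    apply ha
    have := h 0
    rwa [Polynomial.coeff_C_zero] at this
  have h1 : push0 K 𝕜 (Tb o b) (pull K 𝕜 (Polynomial (MvPolynomial β K)) 1
      (divCyc K 𝕜 (i + 1) q a)) =
      divCyc K 𝕜 (i + 2) (ctr K (Tb o b) (ext q)) (io w a) := by
    rw [pull_divCyc_exact K 𝕜 (Polynomial (MvPolynomial β K)) (rho_poly K) q hq a ha, pull_poly,
      dcyc_single, one_smul]
    have h2 := push0_divCyc K 𝕜 (Tb o b) hs (ext q) hdq (io w a) haq
    rw [hio] at h2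
    exact h2
  unfold Psi
  rw [LinearMap.comp_apply, LinearMap.comp_apply, h1]
  symm
  apply dcyc_comm K 𝕜 (i + 1) (ctr K (Tb o b) (ext q)) (io w a) F haq
    (Tb_not_mem hF o b ho q) (by rw [dl_ctr_surj K _ hs, hdq]) _ hdim
  intro x hx
  rw [mem_Tb_sup hs hio] at hx ⊢
  intro n
  apply Tb_reg hF o b ho _ _ _ n
  intro m
  rw [← map_mul]
  exact hx m

theorem Psi_RH [DecidableEq β] {i d : ℕ} {F : MvPolynomial σ K} (hF : F.IsHomogeneous d)
    {o : σ → K} {b w : β → σ → K} (ho : eval o F ≠ 0)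
    (hs : Function.Surjective (Tb o b)) (hio : ∀ a, Tb o b (io w a) = Polynomial.C a)
    {z : PrimeSpectrum (MvPolynomial β K) →₀ 𝕜} (hz : z ∈ RH 𝕜 (i + 1) Set.univ) :
    Psi 𝕜 i F o b z ∈ RH 𝕜 (i + 1) {Q | F ∈ Q.asIdeal} := by
  unfold RH at hz
  induction hz using Submodule.span_induction with
  | mem z hz =>
    obtain ⟨q, _, hq, hdq, n, f, g, hf, hg, hfq, hgq, rfl⟩ := hz
    obtain ⟨h1, h2⟩ := Psi_divCyc 𝕜 (w := w) hF ho hs hio q hdq f hfq
    obtain ⟨h3, h4⟩ := Psi_divCyc 𝕜 (w := w) hF ho hs hio q hdq g hgq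
    rw [map_sub, h1, h3]
    have hdΩ : dl K (ctr K (Tb o b) (ext q)) = (i + 2) + 1 := by
      rw [dl_ctr_surj K _ hs, dl_ext, hdq]
    have hΩ : HomP (ctr K (Tb o b) (ext q)) := by
      rw [ctr_Tb]
      exact homP_Cn o ((th_gr b).homP hq)
    have hFΩ : F ∉ (ctr K (Tb o b) (ext q)).asIdeal := Tb_not_mem hF o b ho q
    set D := divCyc K 𝕜 (i + 2) (ctr K (Tb o b) (ext q)) F with hD
    have h5 : dcyc K 𝕜 (i + 1) (io w f) D - dcyc K 𝕜 (i + 1) (io w g) D =
        ∑ P ∈ D.support, D P • (divCyc K 𝕜 (i + 1) P (io w f) - divCyc K 𝕜 (i + 1) P (io w g)) := by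
      unfold dcyc
      rw [Finsupp.linearCombination_apply, Finsupp.linearCombination_apply, Finsupp.sum,
        Finsupp.sum, ← Finset.sum_sub_distrib]
      apply Finset.sum_congr rfl
      intro P _
      rw [smul_sub]
    rw [h5]
    apply Submodule.sum_mem
    intro P hP
    rw [Finsupp.mem_support_iff] at hP
    have h6 := (divCyc_ne_zero_iff K 𝕜 hdΩ hFΩ P).1 hP
    have h7 := homP_div 𝕜 hΩ hdΩ hF hFΩ hP
    apply Submodule.smul_mem
    refine mem_RH 𝕜 (Z := {Q : PrimeSpectrum (MvPolynomial σ K) | F ∈ Q.asIdeal}) h6.2.2 h7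
      h6.1 ((io_gr w).map_homog hf) ((io_gr w).map_homog hg) ?_ ?_
    · intro h
      have := h2 P h6.2.1 h h6.2.2
      omega
    · intro h
      have := h4 P h6.2.1 h h6.2.2
      omega
  | zero => rw [map_zero]; exact Submodule.zero_mem _
  | add x y _ _ hx hy => rw [map_add]; exact Submodule.add_mem _ hx hy
  | smul c x _ hx => rw [map_smul]; exact Submodule.smul_mem _ _ hx

/-- K1 -/
theorem K1 {i d : ℕ} (hd : 0 < d)
    (hPN : ∀ (τ : Type) [Fintype τ] (V : PrimeSpectrum (MvPolynomial τ K)), HomP V →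
      dl K V = i + 1 → ∀ c : Fin (i + 1) → τ → K, LinearIndependent K c →
      Finsupp.single V (1 : 𝕜) ∈ RH 𝕜 (i + 1) (Set.univ : Set (PrimeSpectrum (MvPolynomial τ K))) ⊔
        Submodule.span 𝕜 {Finsupp.single (Lin c) 1})
    (F : MvPolynomial σ K) (hF : F.IsHomogeneous d) (o ζ : σ → K) (ho : eval o F ≠ 0)
    (hζo : ∑ s, ζ s * o s = 1)
    (W : PrimeSpectrum (MvPolynomial σ K)) (hW : HomP W) (hdW : dl K W = i + 1)
    (hζ : lf ζ ∈ W.asIdeal)
    (c : Fin (i + 1) → σ → K) (hc : LinearIndependent K c) (hcζ : ∀ l, ∑ s, ζ s * c l s = 0) :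
    divCyc K 𝕜 (i + 1) (Cn o W) F ∈ RH 𝕜 (i + 1) {Q | F ∈ Q.asIdeal} ⊔
      Submodule.span 𝕜 {divCyc K 𝕜 (i + 1) (Cn o (Lin c)) F} := by
  classical
  obtain ⟨b, hb, hbs⟩ := exists_basis (Hk ζ) rfl
  have hbζ : ∀ j, ∑ s, ζ s * b j s = 0 := fun j => hbs.le (Submodule.subset_span ⟨j, rfl⟩)
  -- dual linear forms
  obtain ⟨w', hw'⟩ := exists_dual hb
  let w : Fin (Module.finrank K (Hk ζ)) → σ → K := fun j => w' j - (∑ s, w' j s * o s) • ζ
  have hsub : ∀ j (x : σ → K), ∑ s, w j s * x s =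
      ∑ s, w' j s * x s - (∑ s, w' j s * o s) * ∑ s, ζ s * x s := by
    intro j x
    simp only [w, Pi.sub_apply, Pi.smul_apply, smul_eq_mul, sub_mul, Finset.sum_sub_distrib,
      mul_assoc]
    rw [← Finset.mul_sum]
  have hw : ∀ j k, ∑ s, w j s * b k s = if j = k then 1 else 0 := by
    intro j k
    rw [hsub, hbζ, mul_zero, sub_zero, hw']
  have hwo : ∀ j, ∑ s, w j s * o s = 0 := by
    intro j
    rw [hsub, hζo, mul_one, sub_self]
  have hio : ∀ a, Tb o b (io w a) = Polynomial.C a := Tb_io o b w hw hwo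
  have hs : Function.Surjective (Tb o b) := by
    apply poly_surj
    · exact fun a => ⟨io w a, hio a⟩
    · exact ⟨lf ζ, Tb_ζ o b ζ hζo hbζ⟩
  -- `W` lies in the hyperplane
  have hIn : In (Submodule.span K (Set.range b)) W := by
    rw [hbs]
    intro v hv
    have h1 : v = (∑ s, v s * o s) • ζ := by
      funext t
      have h2 := hv ((Pi.single t 1 : σ → K) + (-(ζ t)) • o) (by
        rw [mem_Hk, sum_add_smul, hζo, mul_one]
        rw [Finset.sum_eq_single t]
        · simp
        · intro s _ hs; rw [Pi.single_eq_of_ne hs, mul_zero]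
        · intro h; exact absurd (Finset.mem_univ _) h)
      rw [sum_add_smul, Finset.sum_eq_single t] at h2
      · rw [Pi.single_eq_same, mul_one] at h2
        rw [Pi.smul_apply, smul_eq_mul]
        linear_combination h2
      · intro s _ hs; rw [Pi.single_eq_of_ne hs, mul_zero]
      · intro h; exact absurd (Finset.mem_univ _) h
    rw [h1, lf_smul]
    exact Ideal.mul_mem_left _ _ hζ
  obtain ⟨W₁, rfl⟩ := hIn.exists_ctr hb
  have hW₁ : HomP W₁ := (th_gr b).homP_iff (th_surj hb) hW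
  have hdW₁ : dl K W₁ = i + 1 := by rw [← hdW, dl_ctr_surj K _ (th_surj hb)]
  -- `Lin c` lies in the hyperplane
  have h1 : ∀ l, ∃ x : Fin (Module.finrank K (Hk ζ)) → K, ∑ j, x j • b j = c l := by
    intro l
    exact (Submodule.mem_span_range_iff_exists_fun K).1 (hbs.symm.le (hcζ l))
  choose c' hc' using h1
  have hci : LinearIndependent K c' := by
    apply LinearIndependent.of_comp (Fintype.linearCombination K b)
    have : (Fintype.linearCombination K b : _ → _) ∘ c' = c := by
      funext l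
      rw [← hc' l]
      rfl
    rw [this]
    exact hc
  have hLin : ctr K (th b) (Lin c') = Lin c := by
    apply eq_Lin hc
    · intro v hv
      rw [mem_ctr, th_lf]
      apply In_Lin c'
      intro x hx
      induction hx using Submodule.span_induction with
      | mem x hx =>
        obtain ⟨l, rfl⟩ := hx
        rw [← hv (c l) (Submodule.subset_span ⟨l, rfl⟩), ← hc' l]
        simp only [Finset.sum_apply, Pi.smul_apply, smul_eq_mul, Finset.mul_sum, Finset.sum_mul]
        rw [Finset.sum_comm]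
        apply Finset.sum_congr rfl
        intro j _
        apply Finset.sum_congr rfl
        intro s _
        ring
      | zero => simp
      | add x y _ _ hx hy =>
        exact (Hk (fun j => ∑ s, v s * b j s)).add_mem hx hy
      | smul t x _ hx => exact (Hk (fun j => ∑ s, v s * b j s)).smul_mem t hx
    · rw [dl_ctr_surj K _ (th_surj hb), dl_Lin hci, Fintype.card_fin]
  have key := hPN _ W₁ hW₁ hdW₁ c' hci
  obtain ⟨z, hz, z', hz', hzz⟩ := Submodule.mem_sup.1 key
  obtain ⟨r, rfl⟩ := Submodule.mem_span_singleton.1 hz'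
  have h2 := Psi_RH 𝕜 (w := w) hF ho hs hio hz
  have h3 := congrArg (Psi 𝕜 i F o b) hzz
  rw [map_add, map_smul, Psi_single, Psi_single, hLin] at h3
  rw [← h3]
  exact Submodule.add_mem_sup h2 (Submodule.smul_mem _ _ (Submodule.mem_span_singleton_self _))

end tb

end Pool.Agent.Bloch.Sep
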