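import Mathlib

set_option autoImplicit false

namespace Pool.Agent.Bloch.Sep

open MvPolynomial

theorem aeval_smul_of_homogeneous {K : Type} [CommSemiring K] {S : Type} [CommSemiring S]
    [Algebra K S] {σ : Type} [Fintype σ] {n : ℕ} {H : MvPolynomial σ K} (hH : H.IsHomogeneous n)
    (a : S) (v : σ → S) :
    aeval (fun i => a * v i) H = a ^ n * aeval v H := by
  classical
  rw [aeval_def, aeval_def, eval₂_eq', eval₂_eq', Finset.mul_sum]
  refine Finset.sum_congr rfl fun d hd => ?_
  have hd' : ∑ i, d i = n := by
    have := hH (mem_support_iff.mp hd)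
    rw [← this, Finsupp.weight_apply]
    rw [Finsupp.sum_fintype]
    · simp
    · simp
  simp only [mul_pow, Finset.prod_mul_distrib, Finset.prod_pow_eq_pow_sum, hd']
  ring

/-- Over an algebraically closed field, if two elements `x, z` of a `K`-domain, `z ≠ 0`, satisfy a
nonzero homogeneous relation, then `x` is a scalar multiple of `z`. -/
theorem exists_scalar {K : Type} [Field K] [IsAlgClosed K] {R : Type} [CommRing R] [IsDomain R]
    [Algebra K R] (x z : R) (hz : z ≠ 0) (n : ℕ) (H : MvPolynomial (Fin 2) K)
    (hH : H.IsHomogeneous n) (hH0 : H ≠ 0) (hrel : aeval ![x, z] H = 0) :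
    ∃ c : K, x = algebraMap K R c * z := by
  classical
  let F := FractionRing R
  -- the dehomogenisation
  let g : Polynomial K := aeval ![Polynomial.X, 1] H
  have hinf : Infinite K := inferInstance
  have hg0 : g ≠ 0 := by
    intro h0
    apply hH0
    have hmul : H * X 1 = 0 := by
      apply MvPolynomial.funext
      intro v
      simp only [map_mul, map_zero, MvPolynomial.eval_X]
      by_cases hv : v 1 = 0
      · rw [hv, mul_zero]
      · have h1 : MvPolynomial.eval ![v 0 / v 1, 1] H = 0 := by
          have h2 : Polynomial.eval (v 0 / v 1) g = MvPolynomial.eval ![v 0 / v 1, 1] H := by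
            have : (Polynomial.evalRingHom (v 0 / v 1)).comp
                ((aeval ![Polynomial.X, 1] : MvPolynomial (Fin 2) K →ₐ[K] Polynomial K)).toRingHom
                = MvPolynomial.eval ![v 0 / v 1, 1] := by
              apply MvPolynomial.ringHom_ext
              · intro r; simp
              · intro i; fin_cases i <;> simp
            exact congrArg (fun f => f H) (congrArg DFunLike.coe this)
          rw [← h2, h0]; simp
        have h3 : MvPolynomial.eval v H = (v 1) ^ n * MvPolynomial.eval ![v 0 / v 1, 1] H := by
          have h4 : v = fun i => (v 1) * (![v 0 / v 1, 1] : Fin 2 → K) i := by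
            funext i
            fin_cases i
            · simp [mul_div_cancel₀, hv]
            · simp
          have h5 := aeval_smul_of_homogeneous hH (v 1) (![v 0 / v 1, 1] : Fin 2 → K)
          rw [← h4] at h5
          simpa [MvPolynomial.aeval_eq_eval] using h5
        rw [h3, h1, mul_zero, zero_mul]
    rcases mul_eq_zero.mp hmul with h | h
    · exact h
    · exact absurd h (MvPolynomial.X_ne_zero 1)
  have hzF : algebraMap R F z ≠ 0 := by
    intro h
    exact hz (IsFractionRing.injective R F (by rw [h, map_zero]))
  set y : F := algebraMap R F x / algebraMap R F z with hy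
  have hgy : Polynomial.aeval y g = 0 := by
    have h1 : Polynomial.aeval y g = aeval ![y, 1] H := by
      have : (Polynomial.aeval y).comp
          (aeval ![Polynomial.X, 1] : MvPolynomial (Fin 2) K →ₐ[K] Polynomial K)
          = aeval ![y, 1] := by
        apply MvPolynomial.algHom_ext
        intro i; fin_cases i <;> simp
      exact congrArg (fun f => f H) (congrArg DFunLike.coe this)
    have h2 : aeval ![algebraMap R F x, algebraMap R F z] H =
        (algebraMap R F z) ^ n * aeval ![y, 1] H := by
      rw [← aeval_smul_of_homogeneous hH]
      congr 2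
      funext i
      fin_cases i
      · simp [hy, mul_div_cancel₀, hzF]
      · simp
    have h3 : aeval ![algebraMap R F x, algebraMap R F z] H = 0 := by
      have : aeval ![algebraMap R F x, algebraMap R F z] H =
          algebraMap R F (aeval ![x, z] H) := by
        have h4 : (aeval ![algebraMap R F x, algebraMap R F z] :
            MvPolynomial (Fin 2) K →ₐ[K] F) =
            ((IsScalarTower.toAlgHom K R F)).comp (aeval ![x, z]) := by
          apply MvPolynomial.algHom_ext
          intro i; fin_cases i <;> simp
        rw [h4]; rfl
      rw [this, hrel, map_zero]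
    rw [h1]
    rw [h2] at h3
    rcases mul_eq_zero.mp h3 with h | h
    · exact absurd h (pow_ne_zero n hzF)
    · exact h
  have halg : IsAlgebraic K y := ⟨g, hg0, hgy⟩
  obtain ⟨c, hc⟩ : ∃ c : K, algebraMap K F c = y := by
    have hint : IsIntegral K y := halg.isIntegral
    have hdeg := IsAlgClosed.degree_eq_one_of_irreducible K (minpoly.irreducible hint)
    have h6 := minpoly.mem_range_of_degree_eq_one K y hdeg
    exact h6
  refine ⟨c, ?_⟩
  apply IsFractionRing.injective R F
  rw [map_mul, ← IsScalarTower.algebraMap_apply K R F, hc, hy, div_mul_cancel₀ _ hzF]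

/-- A homogeneous prime of transcendence degree at most one over an algebraically closed field
contains all linear forms vanishing at some nonzero point. -/
theorem exists_point {K : Type} [Field K] [IsAlgClosed K] {T : Type} [Fintype T] [Nonempty T]
    (P : Ideal (MvPolynomial T K)) [P.IsPrime]
    (hom : ∀ f ∈ P, ∀ n, MvPolynomial.homogeneousComponent n f ∈ P)
    (hd : Algebra.trdeg K (MvPolynomial T K ⧸ P) ≤ 1) :
    ∃ p : T → K, p ≠ 0 ∧ ∀ w : T → K, ∑ t, w t * p t = 0 →
      ∑ t, MvPolynomial.C (w t) * MvPolynomial.X t ∈ P := by
  classical
  by_cases hall : ∀ t, (X t : MvPolynomial T K) ∈ P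
  · refine ⟨fun _ => 1, ?_, fun w _ => ?_⟩
    · intro h
      obtain ⟨t⟩ := ‹Nonempty T›
      exact one_ne_zero (congrFun h t)
    · exact P.sum_mem fun t _ => P.mul_mem_left _ (hall t)
  · push Not at hall
    obtain ⟨t₀, ht₀⟩ := hall
    let R := MvPolynomial T K ⧸ P
    have key : ∀ t, ∃ c : K, (X t - C c * X t₀ : MvPolynomial T K) ∈ P := by
      intro t
      by_cases htt : t = t₀
      · exact ⟨1, by simp [htt]⟩
      let x : R := Ideal.Quotient.mk P (X t)
      let z : R := Ideal.Quotient.mk P (X t₀)
      have hz : z ≠ 0 := by
        intro h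
        exact ht₀ (Ideal.Quotient.eq_zero_iff_mem.mp h)
      have hdep : ¬ AlgebraicIndependent K ![x, z] := by
        intro hind
        have h1 := hind.cardinalMk_le_trdeg
        have h2 := h1.trans hd
        simp at h2
      rw [algebraicIndependent_iff] at hdep
      push Not at hdep
      obtain ⟨G, hG, hG0⟩ := hdep
      obtain ⟨n, hn⟩ : ∃ n, homogeneousComponent n G ≠ 0 := by
        by_contra hcon
        push Not at hcon
        apply hG0
        rw [← sum_homogeneousComponent G]
        exact Finset.sum_eq_zero fun i _ => hcon i
      have hinj : Function.Injective (![t, t₀] : Fin 2 → T) := by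
        intro i j hij
        fin_cases i <;> fin_cases j <;> simp_all
      have haev : ∀ Q : MvPolynomial (Fin 2) K,
          (aeval ![x, z] Q : R) = Ideal.Quotient.mk P (rename ![t, t₀] Q) := by
        intro Q
        have h4 : (aeval ![x, z] : MvPolynomial (Fin 2) K →ₐ[K] R) =
            (Ideal.Quotient.mkₐ K P).comp (rename ![t, t₀]) := by
          apply MvPolynomial.algHom_ext
          intro i; fin_cases i <;> simp [x, z]
        rw [h4]; rfl
      have hren : rename ![t, t₀] G ∈ P := by
        rw [haev] at hG
        exact Ideal.Quotient.eq_zero_iff_mem.mp hG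
      have hren2 : rename ![t, t₀] (homogeneousComponent n G) ∈ P := by
        rw [rename_homogeneousComponent]
        exact hom _ hren n
      have hrel : aeval ![x, z] (homogeneousComponent n G) = 0 := by
        rw [haev]
        exact Ideal.Quotient.eq_zero_iff_mem.mpr hren2
      obtain ⟨c, hc⟩ := exists_scalar x z hz n _ (homogeneousComponent_isHomogeneous n G) hn hrel
      refine ⟨c, ?_⟩
      rw [← Ideal.Quotient.eq_zero_iff_mem, map_sub, map_mul]
      have : (Ideal.Quotient.mk P) (C c) = algebraMap K R c := rfl
      rw [this]
      exact sub_eq_zero.mpr hc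
    choose c hc using key
    refine ⟨fun t => if t = t₀ then 1 else c t, ?_, fun w hw => ?_⟩
    · intro h
      have := congrFun h t₀
      simp at this
    · have hsum : ∑ t, C (w t) * (X t : MvPolynomial T K) =
          ∑ t, C (w t) * (X t - C (if t = t₀ then 1 else c t) * X t₀) := by
        have h1 : ∑ t, C (w t) * (C (if t = t₀ then 1 else c t) * (X t₀ : MvPolynomial T K)) = 0 := by
          have h2 : ∑ t, C (w t) * (C (if t = t₀ then 1 else c t) * (X t₀ : MvPolynomial T K)) =
              C (∑ t, w t * (if t = t₀ then 1 else c t)) * X t₀ := by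
            rw [map_sum, Finset.sum_mul]
            refine Finset.sum_congr rfl fun t _ => ?_
            rw [map_mul]; ring
          rw [h2, hw, map_zero, zero_mul]
        simp only [mul_sub, Finset.sum_sub_distrib, h1, sub_zero]
      rw [hsum]
      refine P.sum_mem fun t _ => P.mul_mem_left _ ?_
      by_cases ht : t = t₀
      · simp [ht]
      · simpa [ht] using hc t

end Pool.Agent.Bloch.Sep
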