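import Pool.Agent.H11.Sep.LemR
import Pool.Agent.H11.Sep.Cn
import Pool.Agent.H11.Sep.Point

set_option linter.unusedSectionVars false
set_option linter.style.haveILetI false

open MvPolynomial

namespace Pool.Agent.Bloch.Sep

variable {K : Type} [Field K]

/-- restriction along a subfamily -/
theorem th_rename {σ β β' : Type} [Fintype σ] [Fintype β] [Fintype β'] (b : β → σ → K)
    (e : β' → β) (he : Function.Injective e) (f : MvPolynomial σ K)
    (h : ∀ s ∈ f.vars, ∀ j, j ∉ Set.range e → b j s = 0) :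
    th b f = rename e (th (fun j => b (e j)) f) := by
  classical
  have h1 := hom_congr_vars (f₁ := (th b : MvPolynomial σ K →+* MvPolynomial β K))
    (f₂ := (((rename e).comp (th (fun j => b (e j))) :
      MvPolynomial σ K →ₐ[K] MvPolynomial β K) : MvPolynomial σ K →+* MvPolynomial β K))
    (p₁ := f) (p₂ := f) (by
      ext r
      rw [RingHom.comp_apply, RingHom.comp_apply]
      change coeff _ (th b (C r)) = coeff _ ((rename e).comp (th (fun j => b (e j))) (C r))
      rw [algHom_C, algHom_C]) (by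
      intro s hs _
      change th b (X s) = rename e (th (fun j => b (e j)) (X s))
      rw [th_X, th_X]
      unfold lf
      rw [map_sum]
      rw [← Finset.sum_subset (Finset.subset_univ (Finset.univ.image e))]
      · rw [Finset.sum_image (fun x _ y _ hxy => he hxy)]
        apply Finset.sum_congr rfl
        intro j _
        rw [map_mul, rename_C, rename_X]
      · intro j _ hj
        have h2 : b j s = 0 := h s hs j (by
          rintro ⟨j', rfl⟩
          exact hj (Finset.mem_image_of_mem _ (Finset.mem_univ _)))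
        simp only [h2, C_0, zero_mul]) rfl
  exact h1

theorem X_of_dl_zero {T : Type} [Finite T] (p : PrimeSpectrum (MvPolynomial T K)) (hp : HomP p)
    (h0 : dl K p = 0) (t : T) : X t ∈ p.asIdeal := by
  have h1 : p ≤ (⟨RingHom.ker (constantCoeff : MvPolynomial T K →+* K),
      RingHom.ker_isPrime _⟩ : PrimeSpectrum (MvPolynomial T K)) := by
    intro f hf
    change constantCoeff f = 0
    have h2 := hp f hf 0
    rw [homogeneousComponent_zero] at h2
    by_contra h3
    apply p.2.ne_top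
    apply Ideal.eq_top_of_isUnit_mem _ h2
    exact (isUnit_iff_ne_zero.2 (by rwa [← constantCoeff_eq])).map C
  have h2 := eq_of_le_of_dl K h1 (by rw [h0]; exact Nat.zero_le _)
  rw [h2]
  change constantCoeff (X t) = 0
  exact constantCoeff_X _ _

variable [CharZero K] (𝕜 : Type) [Field 𝕜] [CharZero 𝕜]

theorem totalDegree_th_le {σ β : Type} [Fintype σ] [Fintype β] (b : β → σ → K)
    (f : MvPolynomial σ K) : (th b f).totalDegree ≤ f.totalDegree := by
  unfold th
  apply totalDegree_aeval_le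
  intro s
  exact (lf_homog _).totalDegree_le

/-- a linear form on a linear subspace, if it vanishes on the blocks -/
theorem th_lf_inr {σ ρ T : Type} [Fintype σ] [Fintype ρ] [Fintype T]
    (b : ρ ⊕ T → σ → K) (w : σ → K) (h : ∀ r, ∑ s, w s * b (Sum.inl r) s = 0) :
    th b (lf w) = rename Sum.inr (lf (fun t => ∑ s, w s * b (Sum.inr t) s)) := by
  rw [th_lf]
  unfold lf
  rw [Fintype.sum_sum_type, map_sum]
  simp only [h, C_0, zero_mul, Finset.sum_const_zero, zero_add, map_mul, rename_C, rename_X]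

section
variable {σ : Type} [Fintype σ] {s : ℕ} {ρ : Fin s → Type} [∀ l, Fintype (ρ l)] {T : Type}
  [Fintype T]

/-- Reduction to cycles with small image in the base, in a basis. -/
theorem lemR' {i d : ℕ} (b : (Σ l, ρ l) ⊕ T → σ → K) (hb : LinearIndependent K b)
    (F f' : MvPolynomial σ K) (f : Fin s → MvPolynomial σ K) (hF : F.IsHomogeneous d)
    (hdec : F = f' + ∑ l, f l)
    (hf : ∀ l, ∀ t ∈ (f l).vars, ∀ l', l' ≠ l → ∀ r, b (Sum.inl ⟨l', r⟩) t = 0)
    (hf' : ∀ t ∈ f'.vars, ∀ r, b (Sum.inl r) t = 0)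
    (hh : ∀ l, (2 ≤ Fintype.card (ρ l) ∧ ∀ (κ : Type) [Field κ] [Algebra K κ] (t : T → κ),
        (aeval (Sum.elim X (fun s => C (t s)))
          (th (fun j : ρ l ⊕ T => b (Sum.map (Sigma.mk l) id j)) (f l)) :
          MvPolynomial (ρ l) κ).totalDegree ≤ Fintype.card (ρ l)) ∨
      (th (fun j : ρ l ⊕ T => b (Sum.map (Sigma.mk l) id j)) (f l) = 0 ∧ Nonempty (ρ l)))
    (V : PrimeSpectrum (MvPolynomial σ K)) (hV : HomP V) (hFV : F ∈ V.asIdeal)
    (hdV : dl K V = i + 1) (hIn : In (Submodule.span K (Set.range b)) V) :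
    Finsupp.single V 1 ∈ RH 𝕜 (i + 1) {Q : PrimeSpectrum (MvPolynomial σ K) |
      F ∈ Q.asIdeal} ⊔ Submodule.span 𝕜
        {w : PrimeSpectrum (MvPolynomial σ K) →₀ 𝕜 | ∃ p ∈ (ctr K (th b)) ''
        {p : PrimeSpectrum (MvPolynomial ((Σ l, ρ l) ⊕ T) K) |
          th b F ∈ p.asIdeal ∧ HomP p ∧ dl K p = i + 1 ∧
          (dl K (ctr K (bs K K (Σ l, ρ l) T) p) = 0 ∨
            dl K (ctr K (bs K K (Σ l, ρ l) T) p) + s ≤ i + 1)},
        w = Finsupp.single p 1} := by
  classical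
  obtain ⟨V', rfl⟩ := hIn.exists_ctr hb
  have hs := th_surj hb
  have h1 := lemR 𝕜 (i := i) (d := d) (th b F) ((th_gr b).map_homog hF)
    (th (fun t => b (Sum.inr t)) f')
    (fun l => th (fun j : ρ l ⊕ T => b (Sum.map (Sigma.mk l) id j)) (f l)) (by
      rw [hdec, map_add, map_sum]
      congr 1
      · apply th_rename b Sum.inr Sum.inr_injective
        intro t ht j hj
        rcases j with r | t'
        · exact hf' t ht r
        · exact absurd ⟨t', rfl⟩ hj
      · apply Finset.sum_congr rfl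
        intro l _
        apply th_rename b (Sum.map (Sigma.mk l) id)
          (Sum.map_injective.2 ⟨sigma_mk_injective, Function.injective_id⟩)
        intro t ht j hj
        rcases j with ⟨l', r⟩ | t'
        · by_cases hl : l' = l
          · subst hl
            exact absurd ⟨Sum.inl r, rfl⟩ hj
          · exact hf l t ht l' hl r
        · exact absurd ⟨Sum.inr t', rfl⟩ hj) (by
      intro l
      exact hh l) V' ((th_gr b).homP_iff hs hV) hFV (by
      rw [← hdV, dl_ctr_surj K _ hs])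
  obtain ⟨z, hz, z', hz', hzz⟩ := Submodule.mem_sup.1 h1
  rw [← push0_single K 𝕜 (th b), ← hzz, map_add]
  refine Submodule.add_mem_sup ?_ ?_
  · exact push0_RH 𝕜 (th b) (th_gr b) hs (fun Q hQ => hQ) hz
  · exact push0_span 𝕜 (th b) _ hz'

/-- the case of a full set of blocks -/
theorem lemRA {i d : ℕ} (hs : s = i + 1) (b : (Σ l, ρ l) ⊕ T → σ → K)
    (hb : LinearIndependent K b)
    (F f' : MvPolynomial σ K) (f : Fin s → MvPolynomial σ K) (hF : F.IsHomogeneous d)
    (hdec : F = f' + ∑ l, f l)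
    (hf : ∀ l, ∀ t ∈ (f l).vars, ∀ l', l' ≠ l → ∀ r, b (Sum.inl ⟨l', r⟩) t = 0)
    (hf' : ∀ t ∈ f'.vars, ∀ r, b (Sum.inl r) t = 0)
    (hh : ∀ l, (2 ≤ Fintype.card (ρ l) ∧ ∀ (κ : Type) [Field κ] [Algebra K κ] (t : T → κ),
        (aeval (Sum.elim X (fun s => C (t s)))
          (th (fun j : ρ l ⊕ T => b (Sum.map (Sigma.mk l) id j)) (f l)) :
          MvPolynomial (ρ l) κ).totalDegree ≤ Fintype.card (ρ l)) ∨
      (th (fun j : ρ l ⊕ T => b (Sum.map (Sigma.mk l) id j)) (f l) = 0 ∧ Nonempty (ρ l)))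
    (V : PrimeSpectrum (MvPolynomial σ K)) (hV : HomP V) (hFV : F ∈ V.asIdeal)
    (hdV : dl K V = i + 1) (hIn : In (Submodule.span K (Set.range b)) V) :
    Finsupp.single V 1 ∈ RH 𝕜 (i + 1) {Q : PrimeSpectrum (MvPolynomial σ K) |
      F ∈ Q.asIdeal} ⊔ Submodule.span 𝕜
        {w : PrimeSpectrum (MvPolynomial σ K) →₀ 𝕜 | ∃ W,
          F ∈ W.asIdeal ∧ HomP W ∧ dl K W = i + 1 ∧
          In (Submodule.span K (Set.range (fun r => b (Sum.inl r)))) W ∧
        w = Finsupp.single W 1} := by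
  classical
  refine SetLike.le_def.1 (sup_le_sup_left (Submodule.span_mono ?_) _)
    (lemR' 𝕜 b hb F f' f hF hdec hf hf' hh V hV hFV hdV hIn)
  rintro _ ⟨_, ⟨p, ⟨h1, h2, h3, h4⟩, rfl⟩, rfl⟩
  refine ⟨ctr K (th b) p, h1, (th_gr b).homP h2, by rw [dl_ctr_surj K _ (th_surj hb), h3], ?_, rfl⟩
  have h5 : dl K (ctr K (bs K K (Σ l, ρ l) T) p) = 0 := by omega
  intro w hw
  rw [mem_ctr, th_lf_inr b w (fun r => hw _ (Submodule.subset_span ⟨r, rfl⟩))]
  have h6 := X_of_dl_zero _ (bs_gr.homP h2) h5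
  unfold lf
  rw [map_sum]
  apply Ideal.sum_mem
  intro t _
  rw [map_mul]
  apply Ideal.mul_mem_left
  have := h6 t
  rwa [mem_ctr, bs_apply] at this

/-- the case of one missing block -/
theorem lemRB [IsAlgClosed K] [Nonempty T] {i d : ℕ} (hs : s = i) (b : (Σ l, ρ l) ⊕ T → σ → K)
    (hb : LinearIndependent K b)
    (F f' : MvPolynomial σ K) (f : Fin s → MvPolynomial σ K) (hF : F.IsHomogeneous d)
    (hdec : F = f' + ∑ l, f l)
    (hf : ∀ l, ∀ t ∈ (f l).vars, ∀ l', l' ≠ l → ∀ r, b (Sum.inl ⟨l', r⟩) t = 0)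
    (hf' : ∀ t ∈ f'.vars, ∀ r, b (Sum.inl r) t = 0)
    (hh : ∀ l, (2 ≤ Fintype.card (ρ l) ∧ ∀ (κ : Type) [Field κ] [Algebra K κ] (t : T → κ),
        (aeval (Sum.elim X (fun s => C (t s)))
          (th (fun j : ρ l ⊕ T => b (Sum.map (Sigma.mk l) id j)) (f l)) :
          MvPolynomial (ρ l) κ).totalDegree ≤ Fintype.card (ρ l)) ∨
      (th (fun j : ρ l ⊕ T => b (Sum.map (Sigma.mk l) id j)) (f l) = 0 ∧ Nonempty (ρ l)))
    (V : PrimeSpectrum (MvPolynomial σ K)) (hV : HomP V) (hFV : F ∈ V.asIdeal)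
    (hdV : dl K V = i + 1) (hIn : In (Submodule.span K (Set.range b)) V) :
    Finsupp.single V 1 ∈ RH 𝕜 (i + 1) {Q : PrimeSpectrum (MvPolynomial σ K) |
      F ∈ Q.asIdeal} ⊔ Submodule.span 𝕜
        {w : PrimeSpectrum (MvPolynomial σ K) →₀ 𝕜 | ∃ W,
          F ∈ W.asIdeal ∧ HomP W ∧ dl K W = i + 1 ∧
          (∃ q : T → K, q ≠ 0 ∧
            In (Submodule.span K (Set.range (fun r => b (Sum.inl r))) ⊔
              Submodule.span K {∑ t, q t • b (Sum.inr t)}) W) ∧
        w = Finsupp.single W 1} := by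
  classical
  refine SetLike.le_def.1 (sup_le_sup_left (Submodule.span_mono ?_) _)
    (lemR' 𝕜 b hb F f' f hF hdec hf hf' hh V hV hFV hdV hIn)
  rintro _ ⟨_, ⟨p, ⟨h1, h2, h3, h4⟩, rfl⟩, rfl⟩
  refine ⟨ctr K (th b) p, h1, (th_gr b).homP h2, by rw [dl_ctr_surj K _ (th_surj hb), h3], ?_, rfl⟩
  have h5 : dl K (ctr K (bs K K (Σ l, ρ l) T) p) ≤ 1 := by omega
  haveI := (ctr K (bs K K (Σ l, ρ l) T) p).2
  obtain ⟨q, hq, hq2⟩ := exists_point (ctr K (bs K K (Σ l, ρ l) T) p).asIdeal
    (bs_gr.homP h2) (by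
      unfold dl at h5
      rw [← coe_td K]
      exact_mod_cast h5)
  refine ⟨q, hq, ?_⟩
  intro w hw
  rw [mem_ctr, th_lf_inr b w (fun r => hw _ (Submodule.mem_sup_left
    (Submodule.subset_span ⟨r, rfl⟩)))]
  have h6 := hq2 (fun t => ∑ s, w s * b (Sum.inr t) s) (by
    have h7 := hw _ (Submodule.mem_sup_right (Submodule.mem_span_singleton_self _))
    rw [← h7]
    simp only [Finset.sum_apply, Pi.smul_apply, smul_eq_mul, Finset.mul_sum, Finset.sum_mul]
    rw [Finset.sum_comm]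
    apply Finset.sum_congr rfl
    intro t _
    apply Finset.sum_congr rfl
    intro x _
    ring)
  exact h6

end

end Pool.Agent.Bloch.Sep
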