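import Pool.Agent.H11.Sep.Ac

set_option linter.unusedSectionVars false
set_option linter.style.haveILetI false

open MvPolynomial

namespace Pool.Agent.Bloch.Sep

variable {K : Type} [Field K] [CharZero K] (𝕜 : Type) [Field 𝕜] [CharZero 𝕜]

theorem totalDegree_aeval_le {σ ρ κ : Type} [Field κ] [Algebra K κ] (x : σ → MvPolynomial ρ κ)
    (hx : ∀ s, (x s).totalDegree ≤ 1) (f : MvPolynomial σ K) :
    (aeval x f).totalDegree ≤ f.totalDegree := by
  conv_lhs => rw [f.as_sum, map_sum]
  refine (totalDegree_finsetSum _ _).trans (Finset.sup_le (fun m hm => ?_))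
  rw [aeval_monomial]
  refine (totalDegree_mul _ _).trans ?_
  have h1 : (algebraMap K (MvPolynomial ρ κ) (coeff m f)).totalDegree = 0 := by
    rw [IsScalarTower.algebraMap_apply K κ, MvPolynomial.algebraMap_eq, totalDegree_C]
  rw [h1, zero_add]
  refine (totalDegree_finsetProd _ _).trans ?_
  refine (Finset.sum_le_sum (g := fun s => m s) (fun s _ => ?_)).trans (le_totalDegree hm)
  refine (totalDegree_pow _ _).trans ?_
  calc m s * _ ≤ m s * 1 := Nat.mul_le_mul_left _ (hx s)
    _ = m s := mul_one _

theorem van_low {κ ρ : Type} [Finite ρ] [Field κ] [Algebra K κ] [Algebra.EssFiniteType K κ]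
    {i : ℕ} (h : i < td K κ) (Z : Set (PrimeSpectrum (MvPolynomial ρ κ))) : Van K 𝕜 i Z := by
  intro Q _ hd
  have h2 : td K κ ≤ dl K Q := by
    apply td_le_of_injective K (IsScalarTower.toAlgHom K κ (MvPolynomial ρ κ ⧸ Q.asIdeal))
    exact RingHom.injective _
  omega

theorem totalDegree_sub_le {ρ T κ : Type} [Field κ] [Algebra K κ] (t : T → κ)
    (h : MvPolynomial (ρ ⊕ T) K) :
    (aeval (Sum.elim X (fun s => C (t s))) h : MvPolynomial ρ κ).totalDegree ≤ h.totalDegree := by
  apply totalDegree_aeval_le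
  rintro (r | r)
  · exact (totalDegree_X _).le
  · rw [Sum.elim_inr, totalDegree_C]; exact Nat.zero_le _

section R
variable {s : ℕ} {ρ : Fin s → Type} [∀ l, Fintype (ρ l)] {T : Type} [Finite T]

/-- Reduction to cycles with small image in the base. -/
theorem lemR {i d : ℕ} (F : MvPolynomial ((Σ l, ρ l) ⊕ T) K) (hF : F.IsHomogeneous d)
    (hT : MvPolynomial T K) (h : ∀ l, MvPolynomial (ρ l ⊕ T) K)
    (hdec : F = rename Sum.inr hT + ∑ l, rename (Sum.map (Sigma.mk l) id) (h l))
    (hh : ∀ l, (2 ≤ Fintype.card (ρ l) ∧ ∀ (κ : Type) [Field κ] [Algebra K κ] (t : T → κ),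
        (aeval (Sum.elim X (fun s => C (t s))) (h l) :
          MvPolynomial (ρ l) κ).totalDegree ≤ Fintype.card (ρ l)) ∨
      (h l = 0 ∧ Nonempty (ρ l)))
    (V : PrimeSpectrum (MvPolynomial ((Σ l, ρ l) ⊕ T) K)) (hV : HomP V) (hFV : F ∈ V.asIdeal)
    (hdV : dl K V = i + 1) :
    Finsupp.single V 1 ∈ RH 𝕜 (i + 1) {Q : PrimeSpectrum (MvPolynomial ((Σ l, ρ l) ⊕ T) K) |
      F ∈ Q.asIdeal} ⊔ Submodule.span 𝕜
        {w : PrimeSpectrum (MvPolynomial ((Σ l, ρ l) ⊕ T) K) →₀ 𝕜 | ∃ p ∈
        {p : PrimeSpectrum (MvPolynomial ((Σ l, ρ l) ⊕ T) K) |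
          F ∈ p.asIdeal ∧ HomP p ∧ dl K p = i + 1 ∧
          (dl K (ctr K (bs K K (Σ l, ρ l) T) p) = 0 ∨
            dl K (ctr K (bs K K (Σ l, ρ l) T) p) + s ≤ i + 1)},
        w = Finsupp.single p 1} := by
  classical
  have key : ∀ n, ∀ V : PrimeSpectrum (MvPolynomial ((Σ l, ρ l) ⊕ T) K), HomP V →
      F ∈ V.asIdeal → dl K V = i + 1 → dl K (ctr K (bs K K (Σ l, ρ l) T) V) ≤ n →
      Finsupp.single V 1 ∈ RH 𝕜 (i + 1) {Q : PrimeSpectrum (MvPolynomial ((Σ l, ρ l) ⊕ T) K) |
      F ∈ Q.asIdeal} ⊔ Submodule.span 𝕜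
        {w : PrimeSpectrum (MvPolynomial ((Σ l, ρ l) ⊕ T) K) →₀ 𝕜 | ∃ p ∈
        {p : PrimeSpectrum (MvPolynomial ((Σ l, ρ l) ⊕ T) K) |
          F ∈ p.asIdeal ∧ HomP p ∧ dl K p = i + 1 ∧
          (dl K (ctr K (bs K K (Σ l, ρ l) T) p) = 0 ∨
            dl K (ctr K (bs K K (Σ l, ρ l) T) p) + s ≤ i + 1)},
        w = Finsupp.single p 1} := by
    intro n
    induction n with
    | zero =>
      intro V hV hFV hdV hn
      exact Submodule.mem_sup_right (Submodule.subset_span ⟨V, ⟨hFV, hV, hdV,
        Or.inl (Nat.le_zero.1 hn)⟩, rfl⟩)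
    | succ n ih =>
      intro V hV hFV hdV hn
      by_cases hterm : dl K (ctr K (bs K K (Σ l, ρ l) T) V) = 0 ∨
            dl K (ctr K (bs K K (Σ l, ρ l) T) V) + s ≤ i + 1
      · exact Submodule.mem_sup_right (Submodule.subset_span ⟨V, ⟨hFV, hV, hdV, hterm⟩, rfl⟩)
      · push Not at hterm
        obtain ⟨ht1, ht2⟩ := hterm
        have h1 := ac_step 𝕜 F hF V hV hFV hdV (Nat.one_le_iff_ne_zero.2 ht1) (by
          intro κ _ _ _ t hκ
          by_cases hi : i < td K κ
          · exact van_low 𝕜 hi _
          · push Not at hi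
            obtain ⟨j, hj⟩ := Nat.exists_eq_add_of_le hi
            let H : ∀ l, MvPolynomial (ρ l) κ := fun l =>
              aeval (Sum.elim X (fun s => C (t s))) (h l)
            have hH : ∀ l, Contact (H l) := by
              intro l
              rcases hh l with ⟨g1, g2⟩ | ⟨g1, g2⟩
              · exact contact_deg _ g1 (g2 κ t)
              · have : H l = 0 := by
                  change aeval _ (h l) = 0
                  rw [g1, map_zero]
                rw [this]
                haveI := g2
                exact contact_zero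
            have hgood := good_sigma K 𝕜 ρ H hH κ (AlgHom.id K κ) (aeval t hT) j (by omega)
            rw [add_comm, ← hj] at hgood
            have e1 : aeval (Sum.elim X (fun s => C (t s))) F =
                map ((AlgHom.id K κ : κ →ₐ[K] κ) : κ →+* κ)
                  (∑ l, rename (Sigma.mk l) (H l) : MvPolynomial (Σ l, ρ l) κ) +
                C (aeval t hT) := by
              have e2 : ((AlgHom.id K κ : κ →ₐ[K] κ) : κ →+* κ) = RingHom.id κ := rfl
              rw [e2, map_id, hdec, map_add, add_comm, map_sum]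
              congr 1
              · apply Finset.sum_congr rfl
                intro l _
                rw [aeval_rename]
                change _ = rename (Sigma.mk l) (aeval (Sum.elim X (fun s => C (t s))) (h l))
                have e3 : (rename (Sigma.mk l) : MvPolynomial (ρ l) κ →ₐ[κ] _).restrictScalars K
                    (aeval (Sum.elim X (fun s => C (t s))) (h l)) =
                    (((rename (Sigma.mk l) : MvPolynomial (ρ l) κ →ₐ[κ]
                    MvPolynomial (Σ l, ρ l) κ).restrictScalars K).comp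
                    (aeval (Sum.elim X (fun s => C (t s))))) (h l) := rfl
                change _ = (rename (Sigma.mk l) : MvPolynomial (ρ l) κ →ₐ[κ]
                  _).restrictScalars K (aeval (Sum.elim X (fun s => C (t s))) (h l))
                rw [e3]
                congr 1
                apply MvPolynomial.algHom_ext
                intro r
                rcases r with r | r
                · simp
                · simp
              · rw [aeval_rename]
                have e3 : (aeval ((Sum.elim X (fun s => C (t s))) ∘ Sum.inr) :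
                    MvPolynomial T K →ₐ[K] MvPolynomial (Σ l, ρ l) κ) =
                    ((Algebra.ofId κ (MvPolynomial (Σ l, ρ l) κ)).restrictScalars K).comp
                      (aeval t) := by
                  apply MvPolynomial.algHom_ext
                  intro r
                  rw [aeval_X, AlgHom.comp_apply, aeval_X]
                  rfl
                rw [e3]
                rfl
            rw [e1]
            exact hgood)
        have h2 : ∀ w ∈ Submodule.span 𝕜
            {w : PrimeSpectrum (MvPolynomial ((Σ l, ρ l) ⊕ T) K) →₀ 𝕜 | ∃ p ∈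
            {p : PrimeSpectrum (MvPolynomial ((Σ l, ρ l) ⊕ T) K) | F ∈ p.asIdeal ∧ HomP p ∧
              dl K p = i + 1 ∧ dl K (ctr K (bs K K (Σ l, ρ l) T) p) <
                dl K (ctr K (bs K K (Σ l, ρ l) T) V)}, w = Finsupp.single p 1}, w ∈
            RH 𝕜 (i + 1) {Q : PrimeSpectrum (MvPolynomial ((Σ l, ρ l) ⊕ T) K) |
            F ∈ Q.asIdeal} ⊔ Submodule.span 𝕜
              {w : PrimeSpectrum (MvPolynomial ((Σ l, ρ l) ⊕ T) K) →₀ 𝕜 | ∃ p ∈
              {p : PrimeSpectrum (MvPolynomial ((Σ l, ρ l) ⊕ T) K) |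
                F ∈ p.asIdeal ∧ HomP p ∧ dl K p = i + 1 ∧
                (dl K (ctr K (bs K K (Σ l, ρ l) T) p) = 0 ∨
                  dl K (ctr K (bs K K (Σ l, ρ l) T) p) + s ≤ i + 1)},
              w = Finsupp.single p 1} := by
          intro w hw
          refine Submodule.span_le.2 ?_ hw
          rintro _ ⟨p, ⟨g1, g2, g3, g4⟩, rfl⟩
          exact ih p g2 g1 g3 (by omega)
        obtain ⟨a, ha, b, hb, hab⟩ := Submodule.mem_sup.1 h1
        rw [← hab]
        exact Submodule.add_mem _ (Submodule.mem_sup_left ha) (h2 b hb)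
  exact key _ V hV hFV hdV le_rfl

end R

end Pool.Agent.Bloch.Sep
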