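import Pool.Agent.H11.Sep.K1

set_option linter.unusedSectionVars false
set_option linter.unusedSimpArgs false
set_option linter.unusedVariables false
set_option linter.style.haveILetI false

open MvPolynomial

namespace Pool.Agent.Bloch.Sep

variable {K : Type} [Field K]

section kp
variable {σ : Type} [Fintype σ]

/-- the projection along `o` to the hyperplane of `r` -/
noncomputable def kp (o r : σ → K) : MvPolynomial σ K →ₐ[K] MvPolynomial σ K :=
  aeval (fun s => X s - C (o s) * lf r)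

theorem kp_X (o r : σ → K) (s : σ) : kp o r (X s) = X s - C (o s) * lf r := aeval_X _ _

theorem kp_gr (o r : σ → K) : Gr (kp o r) := fun s => by
  rw [kp_X]
  refine (isHomogeneous_X K s).sub ?_
  have := (isHomogeneous_C σ (o s)).mul (lf_homog r)
  rwa [zero_add] at this

theorem tr_kp {o r : σ → K} (h : ∑ s, r s * o s = 1) (f : MvPolynomial σ K) :
    tr o (kp o r f) = Polynomial.C (kp o r f) := by
  have h1 : (tr o).comp (kp o r) = (Polynomial.CAlgHom (R := K)).comp (kp o r) := by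
    apply MvPolynomial.algHom_ext
    intro s
    rw [AlgHom.comp_apply, AlgHom.comp_apply, kp_X, map_sub, map_mul, tr_X, tr_C, tr_lf, h]
    change _ = Polynomial.C (X s - C (o s) * lf r)
    rw [C_1, Polynomial.C_1, Polynomial.C_sub, Polynomial.C_mul]
    ring
  exact DFunLike.congr_fun h1 f

theorem kp_sub_mem (o r : σ → K) (f : MvPolynomial σ K) : kp o r f - f ∈ Ideal.span {lf r} := by
  induction f using MvPolynomial.induction_on with
  | C a =>
    rw [algHom_C, MvPolynomial.algebraMap_eq, sub_self]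
    exact Ideal.zero_mem _
  | add f g hf hg =>
    rw [map_add]
    have : kp o r f + kp o r g - (f + g) = (kp o r f - f) + (kp o r g - g) := by ring
    rw [this]
    exact Ideal.add_mem _ hf hg
  | mul_X f s hf =>
    rw [map_mul, kp_X]
    have : kp o r f * (X s - C (o s) * lf r) - f * X s =
      (kp o r f - f) * X s - kp o r f * C (o s) * lf r := by ring
    rw [this]
    exact Ideal.sub_mem _ (Ideal.mul_mem_right _ _ hf)
      (Ideal.mul_mem_left _ _ (Ideal.mem_span_singleton_self _))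

/-- the Taylor formula -/
theorem taylor (o r : σ → K) (f : MvPolynomial σ K) (d : ℕ) (hd : (tr o f).natDegree ≤ d) :
    f = ∑ n ∈ Finset.range (d + 1), kp o r ((tr o f).coeff n) * lf r ^ n := by
  have h1 : ((Polynomial.eval₂RingHom ((kp o r : MvPolynomial σ K →ₐ[K] MvPolynomial σ K) :
      MvPolynomial σ K →+* MvPolynomial σ K) (lf r)).comp
      (tr o : MvPolynomial σ K →+* Polynomial (MvPolynomial σ K))) = RingHom.id _ := by
    apply MvPolynomial.ringHom_ext
    · intro a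
      rw [RingHom.comp_apply]
      change Polynomial.eval₂ _ _ (tr o (C a)) = C a
      rw [tr_C, Polynomial.eval₂_C]
      change kp o r (C a) = C a
      rw [algHom_C, MvPolynomial.algebraMap_eq]
    · intro s
      rw [RingHom.comp_apply]
      change Polynomial.eval₂ _ _ (tr o (X s)) = X s
      rw [tr_X, Polynomial.eval₂_add, Polynomial.eval₂_mul, Polynomial.eval₂_C,
        Polynomial.eval₂_C, Polynomial.eval₂_X]
      change kp o r (X s) + kp o r (C (o s)) * lf r = X s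
      rw [kp_X, algHom_C, MvPolynomial.algebraMap_eq, sub_add_cancel]
  have h2 := RingHom.congr_fun h1 f
  rw [RingHom.id_apply] at h2
  conv_lhs => rw [← h2]
  rw [RingHom.comp_apply]
  change Polynomial.eval₂ _ _ (tr o f) = _
  rw [Polynomial.eval₂_eq_sum_range' _ (Nat.lt_succ_of_le hd)]
  rfl

end kp

variable [CharZero K] (𝕜 : Type) [Field 𝕜] [CharZero 𝕜]

/-- a cone over a linear space -/
theorem Cn_Lin {σ : Type} [Fintype σ] {n : ℕ} (x : σ → K) (b : Fin n → σ → K)
    (h : LinearIndependent K (Fin.cons x b : Fin (n + 1) → σ → K)) :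
    Cn x (Lin b) = Lin (Fin.cons x b : Fin (n + 1) → σ → K) := by
  have hb : LinearIndependent K b := (linearIndependent_finCons.1 h).1
  have hx : x ∉ Submodule.span K (Set.range b) := (linearIndependent_finCons.1 h).2
  obtain ⟨ζ, h1, h2⟩ := exists_form _ x hx
  have hζ : lf ζ ∈ (Lin b).asIdeal := In_Lin b ζ h2
  apply eq_Lin h
  · intro w hw
    apply lf_mem_Cn
    · exact In_Lin b w (fun v hv => hw v (by
        rw [Fin.range_cons]
        exact Submodule.span_mono (Set.subset_insert _ _) hv))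
    · exact hw x (Submodule.subset_span ⟨0, rfl⟩)
  · rw [dl_Cn hζ h1, dl_Lin hb, Fintype.card_fin, Fintype.card_fin]

theorem dcyc_sub_mem {R : Type} [CommRing R] [Algebra K R] [Algebra.EssFiniteType K R]
    [IsNoetherianRing R] (k : ℕ) (a b : R) (z : PrimeSpectrum R →₀ 𝕜)
    (M : Submodule 𝕜 (PrimeSpectrum R →₀ 𝕜))
    (h : ∀ q, z q ≠ 0 → divCyc K 𝕜 k q a - divCyc K 𝕜 k q b ∈ M) :
    dcyc K 𝕜 k a z - dcyc K 𝕜 k b z ∈ M := by
  unfold dcyc
  rw [Finsupp.linearCombination_apply, Finsupp.linearCombination_apply, Finsupp.sum,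
    Finsupp.sum, ← Finset.sum_sub_distrib]
  apply Submodule.sum_mem
  intro q hq
  rw [← smul_sub]
  exact M.smul_mem _ (h q (Finsupp.mem_support_iff.1 hq))

/-- A linear space `L = span c` contained in `Π = span (v, c) ⊂ V(F)`, `F(o) ≠ 0`. -/
theorem lin_mem {σ : Type} [Fintype σ] {i d : ℕ} (F : MvPolynomial σ K) (hF : F.IsHomogeneous d)
    (o : σ → K) (ho : eval o F ≠ 0) (c : Fin (i + 1) → σ → K) (v : σ → K)
    (hcv : LinearIndependent K (Fin.cons v c : Fin (i + 2) → σ → K))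
    (hX : ∀ x ∈ Submodule.span K (Set.range (Fin.cons v c : Fin (i + 2) → σ → K)), eval x F = 0)
    (M : Submodule 𝕜 (PrimeSpectrum (MvPolynomial σ K) →₀ 𝕜))
    (hRM : RH 𝕜 (i + 1) {Q | F ∈ Q.asIdeal} ≤ M)
    (hM : ∀ ζ : σ → K, (∀ l, ∑ s, ζ s * c l s = 0) → ∑ s, ζ s * o s = 1 →
      divCyc K 𝕜 (i + 1) (Cn o (Lin c)) F ∈ M) :
    Finsupp.single (Lin c) 1 ∈ M := by
  classical
  have hc : LinearIndependent K c := (linearIndependent_finCons.1 hcv).1
  have hoP : o ∉ Submodule.span K (Set.range (Fin.cons v c : Fin (i + 2) → σ → K)) :=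
    fun h => ho (hX o h)
  have hovc : LinearIndependent K (Fin.cons o (Fin.cons v c : Fin (i + 2) → σ → K) :
      Fin (i + 3) → σ → K) := linearIndependent_finCons.2 ⟨hcv, hoP⟩
  have hoc : LinearIndependent K (Fin.cons o c : Fin (i + 2) → σ → K) := by
    rw [linearIndependent_finCons]
    refine ⟨hc, fun h => hoP ?_⟩
    rw [Fin.range_cons]
    exact Submodule.span_mono (Set.subset_insert _ _) h
  -- the linear forms
  obtain ⟨r, hr1, hr2⟩ := exists_form _ o hoP
  have hrv : ∑ s, r s * v s = 0 := hr2 v (Submodule.subset_span ⟨0, rfl⟩)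
  have hrc : ∀ l, ∑ s, r s * c l s = 0 := fun l =>
    hr2 (c l) (Submodule.subset_span ⟨l.succ, by rw [Fin.cons_succ]⟩)
  have hvoc : v ∉ Submodule.span K (Set.range (Fin.cons o c : Fin (i + 2) → σ → K)) := by
    intro h
    rw [Fin.range_cons, Submodule.span_insert] at h
    obtain ⟨a, ha, b, hb, hab⟩ := Submodule.mem_sup.1 h
    obtain ⟨t, rfl⟩ := Submodule.mem_span_singleton.1 ha
    have h1 : t = 0 := by
      have h2 : ∑ s, r s * b s = 0 := hr2 b (by
        rw [Fin.range_cons]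
        exact Submodule.span_mono (Set.subset_insert _ _) hb)
      have h3 := sum_add_smul r b o t
      rw [add_comm b, hab, hrv, h2, hr1, zero_add, mul_one] at h3
      exact h3.symm
    rw [h1, zero_smul, zero_add] at hab
    exact (linearIndependent_finCons.1 hcv).2 (by rw [← hab]; exact hb)
  obtain ⟨μ, hμ1, hμ2⟩ := exists_form _ v hvoc
  have hμo : ∑ s, μ s * o s = 0 := hμ2 o (Submodule.subset_span ⟨0, rfl⟩)
  have hμc : ∀ l, ∑ s, μ s * c l s = 0 := fun l =>
    hμ2 (c l) (Submodule.subset_span ⟨l.succ, by rw [Fin.cons_succ]⟩)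
  have hvoc' : LinearIndependent K (Fin.cons v (Fin.cons o c : Fin (i + 2) → σ → K) :
      Fin (i + 3) → σ → K) := linearIndependent_finCons.2 ⟨hoc, hvoc⟩
  -- the linear spaces
  have hLvan : ∀ ν : σ → K, (∀ l, ∑ s, ν s * c l s = 0) → lf ν ∈ (Lin c).asIdeal := by
    intro ν hν
    apply In_Lin c ν
    intro x hx
    have : Submodule.span K (Set.range c) ≤ Hk ν := by
      rw [Submodule.span_le]
      rintro _ ⟨l, rfl⟩
      exact hν l
    exact this hx
  obtain ⟨L, hL⟩ : ∃ L, L = Lin c := ⟨_, rfl⟩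
  rw [← hL] at hM ⊢
  have hLr : lf r ∈ L.asIdeal := by rw [hL]; exact hLvan r hrc
  have hLμ : lf μ ∈ L.asIdeal := by rw [hL]; exact hLvan μ hμc
  have hdL : dl K L = i + 1 := by rw [hL, dl_Lin hc, Fintype.card_fin]
  have hhL : HomP L := by rw [hL]; exact homP_Lin c
  obtain ⟨T, hT⟩ : ∃ T, T = Cn o L := ⟨_, rfl⟩
  obtain ⟨P, hP⟩ : ∃ P, P = Cn v L := ⟨_, rfl⟩
  have hTr : lf μ ∈ T.asIdeal := by rw [hT]; exact lf_mem_Cn o μ L hLμ hμo
  have hPr : lf r ∈ P.asIdeal := by rw [hP]; exact lf_mem_Cn v r L hLr hrv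
  have hdT : dl K T = (i + 1) + 1 := by rw [hT, dl_Cn hLr hr1, hdL]
  have hdP : dl K P = (i + 1) + 1 := by rw [hP, dl_Cn hLμ hμ1, hdL]
  have hhP : HomP P := by rw [hP]; exact homP_Cn v hhL
  have hΩeq : Cn v T = Cn o P := by
    rw [hT, hP, hL, Cn_Lin o c hoc, Cn_Lin v c hcv, Cn_Lin v _ hvoc', Cn_Lin o _ hovc]
    apply Lin_congr
    simp only [Fin.range_cons]
    rw [Set.insert_comm]
  obtain ⟨Ω, hΩ⟩ : ∃ Ω, Ω = Cn o P := ⟨_, rfl⟩
  have hdΩ : dl K Ω = (i + 1) + 2 := by rw [hΩ, dl_Cn hPr hr1, hdP]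
  have hhΩ : HomP Ω := by rw [hΩ]; exact homP_Cn o hhP
  have hPsup : P.asIdeal = Ω.asIdeal ⊔ Ideal.span {lf r} := by rw [hΩ]; exact Cn_sup hPr hr1
  have hTsup : T.asIdeal = Ω.asIdeal ⊔ Ideal.span {lf μ} := by
    rw [hΩ, ← hΩeq]; exact Cn_sup hTr hμ1
  have hrΩ : lf r ∉ Ω.asIdeal := by rw [hΩ]; exact lf_not_mem_Cn hPr hr1
  have hμΩ : lf μ ∉ Ω.asIdeal := by rw [hΩ, ← hΩeq]; exact lf_not_mem_Cn hTr hμ1
  have hrT : lf r ∉ T.asIdeal := by rw [hT]; exact lf_not_mem_Cn hLr hr1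
  have hμP : lf μ ∉ P.asIdeal := by rw [hP]; exact lf_not_mem_Cn hLμ hμ1
  have hΩP : Ω ≤ P := by rw [hΩ]; exact Cn_le o P
  have hΩT : Ω ≤ T := by rw [hΩ, ← hΩeq]; exact Cn_le v T
  -- `F` on the linear spaces
  have hFP : F ∈ P.asIdeal := by
    rw [hP, hL, Cn_Lin v c hcv, mem_Lin_iff]
    exact hX
  have htop := tr_top hF o
  have hunit : IsUnit (C (eval o F) : MvPolynomial σ K) := (isUnit_iff_ne_zero.2 ho).map C
  have hnot : ∀ Q : PrimeSpectrum (MvPolynomial σ K), (tr o F).coeff d ∉ Q.asIdeal := by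
    intro Q h
    rw [htop] at h
    exact Q.2.ne_top (Ideal.eq_top_of_isUnit_mem _ h hunit)
  have hFT : F ∉ T.asIdeal := by
    rw [hT, mem_Cn]
    intro h
    exact hnot L (h d)
  -- the order of `F` along `P`
  obtain ⟨e, he1, he2⟩ : ∃ e, (tr o F).coeff e ∉ P.asIdeal ∧
      ∀ n, n < e → (tr o F).coeff n ∈ P.asIdeal := by
    have hex : ∃ e, (tr o F).coeff e ∉ P.asIdeal := ⟨d, hnot P⟩
    refine ⟨Nat.find hex, Nat.find_spec hex, fun n hn => ?_⟩
    have := Nat.find_min hex hn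
    exact not_not.1 this
  have hed : e ≤ d := by
    by_contra h
    exact hnot P (he2 d (not_le.1 h))
  have he0 : 0 < e := by
    rcases Nat.eq_zero_or_pos e with h | h
    · rw [h, tr_coeff_zero] at he1
      exact absurd hFP he1
    · exact h
  have hκP : ∀ f : MvPolynomial σ K, kp o r f ∈ P.asIdeal ↔ f ∈ P.asIdeal := by
    intro f
    have h1 : kp o r f - f ∈ P.asIdeal :=
      (Ideal.span_singleton_le_iff_mem _).2 hPr (kp_sub_mem o r f)
    constructor
    · intro h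
      have : f = kp o r f - (kp o r f - f) := by ring
      rw [this]; exact Ideal.sub_mem _ h h1
    · intro h
      have : kp o r f = (kp o r f - f) + f := by ring
      rw [this]; exact Ideal.add_mem _ h1 h
  have hκΩ : ∀ f : MvPolynomial σ K, f ∈ P.asIdeal → kp o r f ∈ Ω.asIdeal := by
    intro f hf
    rw [hΩ, mem_Cn, tr_kp hr1]
    intro n
    rw [Polynomial.coeff_C]
    split_ifs
    · exact (hκP f).2 hf
    · exact Ideal.zero_mem _
  set G : MvPolynomial σ K := ∑ k ∈ Finset.range (d + 1 - e),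
    kp o r ((tr o F).coeff (e + k)) * lf r ^ k with hG
  have hGhom : G.IsHomogeneous (d - e) := by
    apply IsHomogeneous.sum
    intro k hk
    rw [Finset.mem_range] at hk
    have h1 := (kp_gr o r).map_homog (tr_coeff_homog hF o (e + k) (d - (e + k)) (by omega))
    have h2 := h1.mul ((lf_homog r).pow k)
    have h3 : d - (e + k) + 1 * k = d - e := by omega
    rwa [h3] at h2
  have hFG : F - lf r ^ e * G ∈ Ω.asIdeal := by
    have h1 := taylor o r F d ((tr_degree o F).trans hF.totalDegree_le)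
    have h2 : d + 1 = e + (d + 1 - e) := by omega
    have h3 : F = (∑ n ∈ Finset.range e, kp o r ((tr o F).coeff n) * lf r ^ n) +
        lf r ^ e * G := by
      conv_lhs => rw [h1, h2, Finset.sum_range_add]
      congr 1
      rw [hG, Finset.mul_sum]
      apply Finset.sum_congr rfl
      intro k _
      rw [pow_add]; ring
    have h4 : F - lf r ^ e * G = ∑ n ∈ Finset.range e, kp o r ((tr o F).coeff n) * lf r ^ n := by
      rw [sub_eq_iff_eq_add]
      exact h3
    rw [h4]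
    apply Ideal.sum_mem
    intro n hn
    exact Ideal.mul_mem_right _ _ (hκΩ _ (he2 n (Finset.mem_range.1 hn)))
  have hGP : G ∉ P.asIdeal := by
    intro h
    have h1 : d + 1 - e = (d - e) + 1 := by omega
    rw [hG, h1, Finset.sum_range_succ', add_zero, pow_zero, mul_one] at h
    apply he1
    rw [← hκP]
    have h2 : ∑ k ∈ Finset.range (d - e), kp o r ((tr o F).coeff (e + (k + 1))) *
        lf r ^ (k + 1) ∈ P.asIdeal := by
      apply Ideal.sum_mem
      intro k _
      rw [pow_succ, ← mul_assoc]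
      exact Ideal.mul_mem_left _ _ hPr
    exact (Ideal.add_mem_iff_right _ h2).1 h
  have hGF : ∀ Q : PrimeSpectrum (MvPolynomial σ K), Ω ≤ Q → G ∈ Q.asIdeal → F ∈ Q.asIdeal := by
    intro Q h1 h2
    have : F = (F - lf r ^ e * G) + lf r ^ e * G := by ring
    rw [this]
    exact Ideal.add_mem _ (h1 hFG) (Ideal.mul_mem_left _ _ h2)
  have hGT : G ∉ T.asIdeal := fun h => hFT (hGF T hΩT h)
  have hGΩ : G ∉ Ω.asIdeal := fun h => hGP (hΩP h)
  -- the divisor of `G`
  have key1 := dcyc_divCyc K 𝕜 (i + 1) Ω T (lf μ) G hTsup hμΩ hGT hdΩ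
  have key2 := dcyc_divCyc K 𝕜 (i + 1) Ω P (lf r) G hPsup hrΩ hGP hdΩ
  have key3 : divCyc K 𝕜 (i + 1) T G - divCyc K 𝕜 (i + 1) P G ∈
      RH 𝕜 (i + 1) {Q | F ∈ Q.asIdeal} := by
    rw [← key1, ← key2]
    apply dcyc_sub_mem
    intro Q hQ
    have h1 := (divCyc_ne_zero_iff K 𝕜 hdΩ hGΩ Q).1 hQ
    have h2 := homP_div 𝕜 hhΩ hdΩ hGhom hGΩ hQ
    refine mem_RH 𝕜 (Z := {Q : PrimeSpectrum (MvPolynomial σ K) | F ∈ Q.asIdeal})
      (hGF Q h1.2.1 h1.2.2) h2 h1.1 (lf_homog μ) (lf_homog r) ?_ ?_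
    · intro h3
      have h4 : T ≤ Q := by
        change T.asIdeal ≤ Q.asIdeal
        rw [hTsup, sup_le_iff, Ideal.span_singleton_le_iff_mem]
        exact ⟨h1.2.1, h3⟩
      have h5 : T = Q := eq_of_le_of_dl K h4 (by rw [hdT, h1.1])
      exact hGT (by rw [h5]; exact h1.2.2)
    · intro h3
      have h4 : P ≤ Q := by
        change P.asIdeal ≤ Q.asIdeal
        rw [hPsup, sup_le_iff, Ideal.span_singleton_le_iff_mem]
        exact ⟨h1.2.1, h3⟩
      have h5 : P = Q := eq_of_le_of_dl K h4 (by rw [hdP, h1.1])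
      exact hGP (by rw [h5]; exact h1.2.2)
  have key4 : divCyc K 𝕜 (i + 1) T F = (e : 𝕜) • Finsupp.single L 1 +
      divCyc K 𝕜 (i + 1) T G := by
    rw [divCyc_congr K 𝕜 (i + 1) T F _ (hΩT hFG), divCyc_mul K 𝕜 (i + 1) T hdT _ _
      (fun h => hrT (T.2.mem_of_pow_mem e h)) hGT, divCyc_pow K 𝕜 (i + 1) T hdT _ hrT,
      divCyc_prime K 𝕜 (i + 1) T L _ (by rw [hT]; exact Cn_sup hLr hr1) hdL]
  have key5 : divCyc K 𝕜 (i + 1) P G - ((d - e : ℕ) : 𝕜) • Finsupp.single L 1 ∈
      RH 𝕜 (i + 1) {Q | F ∈ Q.asIdeal} := by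
    have h0 : (lf μ ^ (d - e)).IsHomogeneous (d - e) := by
      have := (lf_homog μ).pow (d - e)
      rwa [one_mul] at this
    have h2 : divCyc K 𝕜 (i + 1) P (lf μ ^ (d - e)) =
        ((d - e : ℕ) : 𝕜) • Finsupp.single L 1 := by
      rw [divCyc_pow K 𝕜 (i + 1) P hdP _ hμP,
        divCyc_prime K 𝕜 (i + 1) P L _ (by rw [hP]; exact Cn_sup hLμ hμ1) hdL]
    rw [← h2]
    exact mem_RH 𝕜 (Z := {Q : PrimeSpectrum (MvPolynomial σ K) | F ∈ Q.asIdeal})
      hFP hhP hdP hGhom h0 hGP (fun h => hμP (P.2.mem_of_pow_mem _ h))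
  have key6 : divCyc K 𝕜 (i + 1) T F ∈ M := by
    rw [hT]
    exact hM r hrc hr1
  have key7 : (d : 𝕜) • Finsupp.single L (1 : 𝕜) ∈ M := by
    have h1 : (d : 𝕜) • Finsupp.single L (1 : 𝕜) = divCyc K 𝕜 (i + 1) T F -
        (divCyc K 𝕜 (i + 1) T G - divCyc K 𝕜 (i + 1) P G) -
        (divCyc K 𝕜 (i + 1) P G - ((d - e : ℕ) : 𝕜) • Finsupp.single L 1) := by
      rw [key4, Nat.cast_sub hed, sub_smul]
      abel
    rw [h1]
    exact M.sub_mem (M.sub_mem key6 (hRM key3)) (hRM key5)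
  have hd : (d : 𝕜) ≠ 0 := Nat.cast_ne_zero.2 (by omega)
  have h5 := M.smul_mem ((d : 𝕜)⁻¹) key7
  rwa [smul_smul, inv_mul_cancel₀ hd, one_smul] at h5

end Pool.Agent.Bloch.Sep
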