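import Pool.Agent.H11.Sep.Fin1
import Pool.Agent.H11.Sep.LinMem

open MvPolynomial

namespace Pool.Agent.Bloch.Sep

theorem k1St (K : Type) [Field K] [CharZero K] (𝕜 : Type) [Field 𝕜] [CharZero 𝕜] :
    K1St K 𝕜 := by
  intro σ _ i d hd hPN F hF o ζ ho hζo W hW hdW hζ c hc hcζ
  exact K1 𝕜 hd hPN F hF o ζ ho hζo W hW hdW hζ c hc hcζ

theorem lmSt (K : Type) [Field K] [CharZero K] (𝕜 : Type) [Field 𝕜] [CharZero 𝕜] :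
    LMSt K 𝕜 := by
  intro σ _ i d F hF o ho c v hcv hX M hRM hM
  exact lin_mem 𝕜 F hF o ho c v hcv hX M hRM hM

/-- The main theorem. -/
theorem sep_main {σ : Type} [Fintype σ] {m i d : ℕ} (hd : 2 ≤ d) (hi : i < m)
    (F : MvPolynomial σ ℂ) (hF : F.IsHomogeneous d) (V : Fin m → Finset σ)
    (hV : ∀ l l', l ≠ l' → Disjoint (V l) (V l')) (hV2 : ∀ l, 2 ≤ (V l).card)
    (hsep : ∀ μ ∈ F.support, ∀ l l', l ≠ l' → ∀ s ∈ V l, ∀ s' ∈ V l', μ s = 0 ∨ μ s' = 0)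
    (hdeg : ∀ μ ∈ F.support, ∀ l, ∑ s ∈ V l, μ s ≤ (V l).card)
    (hcard : m * d < Fintype.card σ) :
    Module.rank ℚ ((VH {Q : PrimeSpectrum (MvPolynomial σ ℂ) |
      Ideal.span {F} ≤ Q.asIdeal} (i + 1) →₀ ℚ) ⧸
      Submodule.span ℚ (pdiv {Q : PrimeSpectrum (MvPolynomial σ ℂ) |
        Ideal.span {F} ≤ Q.asIdeal} (i + 1))) ≤ 1 :=
  sep_rank (k1St ℂ ℚ) (lmSt ℂ ℚ) hd hi F hF V hV hV2 hsep hdeg hcard

end Pool.Agent.Bloch.Sep
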