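import Pool.Agent.H11.Sep.LR

set_option linter.unusedSectionVars false
set_option linter.style.haveILetI false

open MvPolynomial

namespace Pool.Agent.Bloch.Sep

variable {K : Type} [Field K]

theorem In_top {σ : Type} [Fintype σ] (W : PrimeSpectrum (MvPolynomial σ K)) :
    In (⊤ : Submodule K (σ → K)) W := by
  classical
  intro w hw
  have : w = 0 := by
    funext s
    have := hw (Pi.single s 1) trivial
    rw [Finset.sum_eq_single s] at this
    · simpa using this
    · intro t _ ht
      rw [Pi.single_eq_of_ne ht, mul_zero]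
    · intro h; exact absurd (Finset.mem_univ _) h
  rw [this]
  unfold lf
  simp

/-- a linear subspace only depends on the span -/
theorem Lin_congr [Infinite K] {σ β β' : Type} [Fintype σ] [Fintype β] [Fintype β']
    {b : β → σ → K} {b' : β' → σ → K}
    (h : Submodule.span K (Set.range b) = Submodule.span K (Set.range b')) : Lin b = Lin b' := by
  apply PrimeSpectrum.ext
  ext f
  rw [mem_Lin_iff, mem_Lin_iff, h]

variable [CharZero K] (𝕜 : Type) [Field 𝕜] [CharZero 𝕜]

/-- cycles on projective space -/
theorem hPN {i : ℕ} (τ : Type) [Fintype τ] (V : PrimeSpectrum (MvPolynomial τ K)) (hV : HomP V)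
    (hdV : dl K V = i + 1) (c : Fin (i + 1) → τ → K) (hc : LinearIndependent K c) :
    Finsupp.single V (1 : 𝕜) ∈ RH 𝕜 (i + 1) (Set.univ : Set (PrimeSpectrum (MvPolynomial τ K))) ⊔
      Submodule.span 𝕜 {Finsupp.single (Lin c) 1} := by
  classical
  obtain ⟨U', hU'⟩ := Submodule.exists_isCompl (Submodule.span K (Set.range c))
  let b' := Module.finBasis K U'
  let T := Fin (Module.finrank K U')
  have hb' : LinearIndependent K (fun t : T => ((b' t : U') : τ → K)) :=
    b'.linearIndependent.map' U'.subtype (Submodule.ker_subtype U')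
  have hspan : Submodule.span K (Set.range (fun t : T => ((b' t : U') : τ → K))) = U' := by
    have h1 := congrArg (Submodule.map U'.subtype) b'.span_eq
    rw [Submodule.map_span, Submodule.map_subtype_top, ← Set.range_comp] at h1
    exact h1
  let c' : (Σ _ : Fin (i + 1), Unit) → τ → K := fun x => c x.1
  have hc' : LinearIndependent K c' := hc.comp (fun x : (Σ _ : Fin (i + 1), Unit) => x.1) (by
    rintro ⟨x, u⟩ ⟨y, v⟩ h
    simp only at h
    subst h
    rfl)
  have hrange : Set.range c' = Set.range c := by
    ext v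
    constructor
    · rintro ⟨x, rfl⟩; exact ⟨x.1, rfl⟩
    · rintro ⟨x, rfl⟩; exact ⟨⟨x, ()⟩, rfl⟩
  have hb : LinearIndependent K (Sum.elim c' (fun t : T => ((b' t : U') : τ → K))) := by
    apply LinearIndependent.sum_type hc' hb'
    rw [hspan, hrange]
    exact hU'.disjoint
  have hIn : In (Submodule.span K (Set.range
      (Sum.elim c' (fun t : T => ((b' t : U') : τ → K))))) V := by
    rw [Set.Sum.elim_range, Submodule.span_union, hspan, hrange, hU'.sup_eq_top]
    exact In_top V
  have key := lemRA 𝕜 (i := i) (d := 0) (s := i + 1) (ρ := fun _ => Unit) (T := T) rfl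
    (Sum.elim c' (fun t : T => ((b' t : U') : τ → K))) hb (0 : MvPolynomial τ K) 0 (fun _ => 0)
    (isHomogeneous_zero _ _ _) (by simp) (by
      intro l t ht
      simp at ht) (by
      intro t ht
      simp at ht) (by
      intro l
      refine Or.inr ⟨map_zero _, ⟨()⟩⟩) V hV (Ideal.zero_mem _) hdV hIn
  refine SetLike.le_def.1 (sup_le_sup (RH_mono 𝕜 (Set.subset_univ _)) (Submodule.span_mono ?_)) key
  rintro _ ⟨W, _, h2, h3, h4, rfl⟩
  have h5 : W = Lin c := by
    apply eq_Lin hc
    · simp only [Sum.elim_inl, hrange] at h4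
      exact h4
    · rw [h3, Fintype.card_fin]
  rw [h5]
  rfl

end Pool.Agent.Bloch.Sep
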