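import Pool.Agent.H11.Sep.Div

set_option linter.unusedSectionVars false

open MvPolynomial TensorProduct

namespace Pool.Agent.Bloch.Sep

variable (K : Type) [Field K] (𝕜 : Type) [Field 𝕜] [CharZero 𝕜]

section
variable {A : Type} [CommRing A] [Algebra K A] [Algebra.EssFiniteType K A] [IsNoetherianRing A]
variable (B : Type) [CommRing B] [Algebra K B] [Algebra.EssFiniteType K B] [IsNoetherianRing B]
variable [Algebra A B] [IsScalarTower K A B]

/-- The flat pull-back of a principal divisor is a principal divisor on the pull-back. -/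
theorem pull_divCyc_exact [Module.Flat A B] {k ρ : ℕ}
    (hρ : ∀ P : PrimeSpectrum B, dl K P ≤ dl K (ct K (A := A) P) + ρ)
    (q : PrimeSpectrum A) (hq : dl K q = k + 1) (a : A) (ha : a ∉ q.asIdeal) :
    pull K 𝕜 B ρ (divCyc K 𝕜 k q a) =
      dcyc K 𝕜 (k + ρ) (algebraMap A B a) (pull K 𝕜 B ρ (Finsupp.single q 1)) := by
  have hinj : Function.Injective (mul a (A ⧸ q.asIdeal)) := by
    rw [injective_iff_map_eq_zero]
    intro x hx
    obtain ⟨x, rfl⟩ := Ideal.Quotient.mk_surjective x
    have h3 : Ideal.Quotient.mk q.asIdeal (a * x) = 0 := hx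
    rw [Ideal.Quotient.eq_zero_iff_mem] at h3
    exact Ideal.Quotient.eq_zero_iff_mem.2 ((q.2.mem_or_mem h3).resolve_left ha)
  have hbd : Bd K (R := A) k (Ck a (A ⧸ q.asIdeal)) := by
    refine bd_ck K (Z := {p | q ≤ p}) inferInstance ?_ ?_ ?_
    · rw [support_quot]; exact fun p hp => hp
    · intro p hp; rw [← hq]; exact dl_le K hp
    · intro p hp hp2
      have : q = p := eq_of_le_of_dl K hp (by rw [hq, hp2])
      rw [← this]; exact ha
  have e1 : divCyc K 𝕜 k q a = cyc K 𝕜 (R := A) k (Ck a (A ⧸ q.asIdeal)) :=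
    (cyc_congr K 𝕜 (ckQuot q.asIdeal a)).symm
  rw [e1, ← cyc_tensor K 𝕜 B hρ hbd]
  have hm : (mul a (A ⧸ q.asIdeal)).baseChange B
      = mul (algebraMap A B a) (B ⊗[A] (A ⧸ q.asIdeal)) := by
    apply LinearMap.ext
    intro x
    induction x using TensorProduct.induction_on with
    | zero => rw [map_zero, map_zero]
    | tmul b m =>
      rw [LinearMap.baseChange_tmul, mul_apply, mul_apply, algebraMap_smul,
        ← TensorProduct.tmul_smul]
    | add x y hx hy => rw [map_add, map_add, hx, hy]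
  have e2 : cyc K 𝕜 (R := B) (k + ρ) (B ⊗[A] Ck a (A ⧸ q.asIdeal)) =
      cyc K 𝕜 (R := B) (k + ρ) (Ck (algebraMap A B a) (B ⊗[A] (A ⧸ q.asIdeal))) := by
    apply cyc_congr
    let g : (B ⊗[A] (A ⧸ q.asIdeal)) →ₗ[B] (B ⊗[A] Ck a (A ⧸ q.asIdeal)) :=
      (LinearMap.range (mul a (A ⧸ q.asIdeal))).mkQ.baseChange B
    have hg : Function.Surjective g := by
      change Function.Surjective (LinearMap.baseChange B _)
      rw [LinearMap.baseChange_eq_ltensor]
      exact LinearMap.lTensor_surjective B (Submodule.mkQ_surjective _)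
    have hk : LinearMap.ker g = LinearMap.range (mul (algebraMap A B a) (B ⊗[A] (A ⧸ q.asIdeal))) := by
      rw [← hm]
      apply Function.Exact.linearMap_ker_eq
      change Function.Exact (LinearMap.baseChange B _) (LinearMap.baseChange B _)
      rw [LinearMap.baseChange_eq_ltensor, LinearMap.baseChange_eq_ltensor]
      apply lTensor_exact B _ (Submodule.mkQ_surjective _)
      intro x
      rw [Submodule.mkQ_apply, Submodule.Quotient.mk_eq_zero]
      exact Iff.rfl
    exact ((Submodule.quotEquivOfEq _ _ hk.symm).trans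
      (g.quotKerEquivOfSurjective hg)).symm
  have e3 : cyc K 𝕜 (R := B) (k + ρ) (Kr (algebraMap A B a) (B ⊗[A] (A ⧸ q.asIdeal))) = 0 := by
    apply cyc_eq_zero
    intro p hp
    have : Subsingleton (Kr (algebraMap A B a) (B ⊗[A] (A ⧸ q.asIdeal))) := by
      rw [Submodule.subsingleton_iff_eq_bot, ← hm, LinearMap.ker_eq_bot,
        LinearMap.baseChange_eq_ltensor]
      exact Module.Flat.lTensor_preserves_injective_linearMap _ hinj
    rw [Module.support_eq_empty] at hp
    exact absurd hp (Set.notMem_empty _)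
  have e4 : pull K 𝕜 B ρ (Finsupp.single q (1 : 𝕜)) =
      cyc K 𝕜 (R := B) (k + ρ + 1) (B ⊗[A] (A ⧸ q.asIdeal)) := by
    rw [← cyc_quot_self K 𝕜 q hq, ← cyc_tensor K 𝕜 B hρ (bd_quot K q hq.le)]
    congr 1
    omega
  rw [e2, ← sub_zero (cyc K 𝕜 (k + ρ) (Ck _ _)), ← e3, e4]
  refine cyc_ck_kr_exact K 𝕜 (k + ρ) (algebraMap A B a)
    {Q : PrimeSpectrum B | q ≤ ct K Q} ?_ ?_ inferInstance ?_
  · intro Q hQ
    have h1 := hρ Q
    have h2 := dl_le K hQ
    omega
  · intro Q hQ hQ2
    have h1 := hρ Q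
    have h3 : q = ct K Q := eq_of_le_of_dl K hQ (by omega)
    intro h4
    apply ha
    rw [h3]
    exact h4
  · intro P hP
    have h1 := support_tensor_le K B inferInstance hP
    rw [support_quot] at h1
    exact h1

end

end Pool.Agent.Bloch.Sep
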