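import Pool.Agent.H11.Sep.Core

set_option linter.unusedSectionVars false
set_option linter.style.haveILetI false

open MvPolynomial

namespace Pool.Agent.Bloch.Sep

section graded
variable {K : Type} [Field K] {σ β : Type}

/-- graded homomorphisms -/
def Gr (θ : MvPolynomial σ K →ₐ[K] MvPolynomial β K) : Prop := ∀ s, (θ (X s)).IsHomogeneous 1

theorem Gr.map_homog {θ : MvPolynomial σ K →ₐ[K] MvPolynomial β K} (hθ : Gr θ)
    {f : MvPolynomial σ K} {n : ℕ} (hf : f.IsHomogeneous n) : (θ f).IsHomogeneous n := by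
  have h := hf.aeval (fun s => θ (X s)) (n := 1) hθ
  rw [one_mul] at h
  have h2 : aeval (fun s => θ (X s)) = θ := (MvPolynomial.aeval_unique θ).symm
  rwa [h2] at h

theorem Gr.component {θ : MvPolynomial σ K →ₐ[K] MvPolynomial β K} (hθ : Gr θ)
    (f : MvPolynomial σ K) (n : ℕ) :
    homogeneousComponent n (θ f) = θ (homogeneousComponent n f) := by
  conv_lhs => rw [← sum_homogeneousComponent f, map_sum, map_sum]
  have h : ∀ i, homogeneousComponent n (θ (homogeneousComponent i f)) =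
      if n = i then θ (homogeneousComponent i f) else 0 := fun i =>
    homogeneousComponent_of_mem (hθ.map_homog (homogeneousComponent_isHomogeneous i f))
  simp only [h]
  rw [Finset.sum_ite_eq]
  split_ifs with h1
  · rfl
  · rw [Finset.mem_range, not_lt] at h1
    rw [homogeneousComponent_eq_zero _ _ (by omega), map_zero]

theorem Gr.exists_homog {θ : MvPolynomial σ K →ₐ[K] MvPolynomial β K} (hθ : Gr θ)
    (hs : Function.Surjective θ) {g : MvPolynomial β K} {n : ℕ} (hg : g.IsHomogeneous n) :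
    ∃ f : MvPolynomial σ K, f.IsHomogeneous n ∧ θ f = g := by
  obtain ⟨f, rfl⟩ := hs g
  refine ⟨homogeneousComponent n f, homogeneousComponent_isHomogeneous n f, ?_⟩
  rw [← hθ.component, homogeneousComponent_eq_self hg]

theorem Gr.homP {θ : MvPolynomial σ K →ₐ[K] MvPolynomial β K} (hθ : Gr θ)
    {Q : PrimeSpectrum (MvPolynomial β K)} (hQ : HomP Q) : HomP (ctr K θ Q) := by
  intro f hf n
  rw [mem_ctr, ← hθ.component]
  exact hQ _ hf n

theorem Gr.homP_iff {θ : MvPolynomial σ K →ₐ[K] MvPolynomial β K} (hθ : Gr θ)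
    (hs : Function.Surjective θ)
    {Q : PrimeSpectrum (MvPolynomial β K)} (hQ : HomP (ctr K θ Q)) : HomP Q := by
  intro g hg n
  obtain ⟨f, rfl⟩ := hs g
  rw [hθ.component]
  exact hQ f hg n

end graded

section homog
variable {K : Type} [Field K] {σ : Type} [Finite σ]

/-- homogeneous ideals -/
def HomI (I : Ideal (MvPolynomial σ K)) : Prop := ∀ f ∈ I, ∀ n, homogeneousComponent n f ∈ I

theorem homI_sup {I J : Ideal (MvPolynomial σ K)} (hI : HomI I) (hJ : HomI J) :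
    HomI (I ⊔ J) := by
  intro f hf n
  obtain ⟨a, ha, b, hb, rfl⟩ := Submodule.mem_sup.1 hf
  rw [map_add]
  exact Submodule.add_mem_sup (hI a ha n) (hJ b hb n)

theorem homI_span {f : MvPolynomial σ K} {m : ℕ} (hf : f.IsHomogeneous m) :
    HomI (Ideal.span {f}) := by
  intro g hg n
  obtain ⟨a, rfl⟩ := Ideal.mem_span_singleton'.1 hg
  rw [← sum_homogeneousComponent a, Finset.sum_mul, map_sum]
  apply Ideal.sum_mem
  intro i _
  rw [homogeneousComponent_of_mem ((homogeneousComponent_isHomogeneous i a).mul hf)]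
  split_ifs
  · exact Ideal.mul_mem_left _ _ (Ideal.mem_span_singleton_self f)
  · exact Ideal.zero_mem _

/-- top-dimensional primes over a homogeneous ideal are homogeneous -/
theorem homog_min {I : Ideal (MvPolynomial σ K)} (hI : HomI I)
    (Q : PrimeSpectrum (MvPolynomial σ K)) (hQ : I ≤ Q.asIdeal)
    (hd : ∀ P : PrimeSpectrum (MvPolynomial σ K), I ≤ P.asIdeal → dl K P ≤ dl K Q) : HomP Q := by
  have h1 : ∀ f, f ∈ (cone (fun s => (X s : MvPolynomial σ K)) Q).asIdeal ↔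
      ∀ n, homogeneousComponent n f ∈ Q.asIdeal := by
    intro f
    rw [mem_cone]
    refine forall_congr' (fun n => ?_)
    rw [show (fun s => (X s : MvPolynomial σ K)) = X from rfl, aeval_X_left_apply]
  have hle : cone (fun s => (X s : MvPolynomial σ K)) Q ≤ Q := by
    intro f hf
    rw [h1] at hf
    rw [← sum_homogeneousComponent f]
    exact Ideal.sum_mem _ (fun n _ => hf n)
  have h2 : I ≤ (cone (fun s => (X s : MvPolynomial σ K)) Q).asIdeal := by
    intro f hf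
    rw [h1]
    exact fun n => hQ (hI f hf n)
  have h3 := eq_of_le_of_dl K hle (hd _ h2)
  rw [← h3]
  exact homP_cone _ Q

variable (𝕜 : Type) [Field 𝕜] [CharZero 𝕜]

theorem homP_div {k n : ℕ} {W Q : PrimeSpectrum (MvPolynomial σ K)} (hW : HomP W)
    (hd : dl K W = k + 1) {f : MvPolynomial σ K} (hf : f.IsHomogeneous n) (hfW : f ∉ W.asIdeal)
    (hQ : divCyc K 𝕜 k W f Q ≠ 0) : HomP Q := by
  have hQ' := (divCyc_ne_zero_iff K 𝕜 hd hfW Q).1 hQ
  apply homog_min (homI_sup (I := W.asIdeal) hW (homI_span hf)) Q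
  · rw [sup_le_iff, Ideal.span_singleton_le_iff_mem]
    exact hQ'.2
  · intro P hP
    rw [hQ'.1]
    apply (bd_div K hd hfW).2 P
    rw [support_quot]
    exact hP

/-- rational equivalence of homogeneous cycles -/
noncomputable def RH (k : ℕ) (Z : Set (PrimeSpectrum (MvPolynomial σ K))) :
    Submodule 𝕜 (PrimeSpectrum (MvPolynomial σ K) →₀ 𝕜) :=
  Submodule.span 𝕜 {z | ∃ W ∈ Z, HomP W ∧ dl K W = k + 1 ∧ ∃ (n : ℕ) (f g : MvPolynomial σ K),
    f.IsHomogeneous n ∧ g.IsHomogeneous n ∧ f ∉ W.asIdeal ∧ g ∉ W.asIdeal ∧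
    z = divCyc K 𝕜 k W f - divCyc K 𝕜 k W g}

theorem mem_RH {k : ℕ} {Z : Set (PrimeSpectrum (MvPolynomial σ K))}
    {W : PrimeSpectrum (MvPolynomial σ K)} (hWZ : W ∈ Z) (hW : HomP W) (hd : dl K W = k + 1)
    {n : ℕ} {f g : MvPolynomial σ K} (hf : f.IsHomogeneous n) (hg : g.IsHomogeneous n)
    (hfW : f ∉ W.asIdeal) (hgW : g ∉ W.asIdeal) :
    divCyc K 𝕜 k W f - divCyc K 𝕜 k W g ∈ RH 𝕜 k Z :=
  Submodule.subset_span ⟨W, hWZ, hW, hd, n, f, g, hf, hg, hfW, hgW, rfl⟩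

/-- the inclusion of the cycles on the projective scheme -/
noncomputable def inc (Z : Set (PrimeSpectrum (MvPolynomial σ K))) (k : ℕ) :
    (VH Z k →₀ 𝕜) →ₗ[𝕜] (PrimeSpectrum (MvPolynomial σ K) →₀ 𝕜) :=
  Finsupp.lmapDomain 𝕜 𝕜 Subtype.val

theorem inc_single {Z : Set (PrimeSpectrum (MvPolynomial σ K))} {k : ℕ} (V : VH Z k) (c : 𝕜) :
    inc 𝕜 Z k (Finsupp.single V c) = Finsupp.single V.1 c := by
  unfold inc
  rw [Finsupp.lmapDomain_apply, Finsupp.mapDomain_single]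

theorem inc_res {Z : Set (PrimeSpectrum (MvPolynomial σ K))} {k : ℕ}
    (z : PrimeSpectrum (MvPolynomial σ K) →₀ 𝕜)
    (hz : ∀ Q, z Q ≠ 0 → HomP Q ∧ Q ∈ Z ∧ dl K Q = k) :
    inc 𝕜 Z k (res 𝕜 Z k z) = z := by
  conv_rhs => rw [← Finsupp.sum_single z]
  conv_lhs => rw [← Finsupp.sum_single z]
  rw [Finsupp.sum, map_sum, map_sum]
  apply Finset.sum_congr rfl
  intro Q hQ
  rw [Finsupp.mem_support_iff] at hQ
  have h := res_single 𝕜 Z k ⟨Q, hz Q hQ⟩ (z Q)
  rw [h, inc_single]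

theorem inc_relH {Z : Set (PrimeSpectrum (MvPolynomial σ K))}
    (hZ : ∀ p ∈ Z, ∀ q, p ≤ q → q ∈ Z) {k : ℕ} {z : VH Z k →₀ 𝕜} (hz : z ∈ RelH 𝕜 Z k) :
    inc 𝕜 Z k z ∈ RH 𝕜 k Z := by
  unfold RelH at hz
  induction hz using Submodule.span_induction with
  | mem z hz =>
    obtain ⟨W, n, f, g, hf, hg, hfW, hgW, rfl⟩ := hz
    have h1 : ∀ (f : MvPolynomial σ K), f.IsHomogeneous n → f ∉ W.1.asIdeal →
        ∀ Q, divCyc K 𝕜 k W.1 f Q ≠ 0 → HomP Q ∧ Q ∈ Z ∧ dl K Q = k := by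
      intro f hf hfW Q hQ
      have h2 := (divCyc_ne_zero_iff K 𝕜 W.2.2.2 hfW Q).1 hQ
      exact ⟨homP_div 𝕜 W.2.1 W.2.2.2 hf hfW hQ, hZ _ W.2.2.1 _ h2.2.1, h2.1⟩
    rw [map_sub, map_sub, inc_res 𝕜 _ (h1 f hf hfW), inc_res 𝕜 _ (h1 g hg hgW)]
    exact mem_RH 𝕜 W.2.2.1 W.2.1 W.2.2.2 hf hg hfW hgW
  | zero => rw [map_zero]; exact Submodule.zero_mem _
  | add x y _ _ hx hy => rw [map_add]; exact Submodule.add_mem _ hx hy
  | smul c x _ hx => rw [map_smul]; exact Submodule.smul_mem _ _ hx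

theorem res_RH {Z : Set (PrimeSpectrum (MvPolynomial σ K))} {k : ℕ}
    {z : PrimeSpectrum (MvPolynomial σ K) →₀ 𝕜} (hz : z ∈ RH 𝕜 k Z) :
    res 𝕜 Z k z ∈ RelH 𝕜 Z k := by
  unfold RH at hz
  induction hz using Submodule.span_induction with
  | mem z hz =>
    obtain ⟨W, hWZ, hW, hd, n, f, g, hf, hg, hfW, hgW, rfl⟩ := hz
    exact Submodule.subset_span ⟨⟨W, hW, hWZ, hd⟩, n, f, g, hf, hg, hfW, hgW, rfl⟩
  | zero => rw [map_zero]; exact Submodule.zero_mem _
  | add x y _ _ hx hy => rw [map_add]; exact Submodule.add_mem _ hx hy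
  | smul c x _ hx => rw [map_smul]; exact Submodule.smul_mem _ _ hx

theorem RH_mono {k : ℕ} {Z Z' : Set (PrimeSpectrum (MvPolynomial σ K))} (h : Z ⊆ Z') :
    RH 𝕜 k Z ≤ RH 𝕜 k Z' := by
  apply Submodule.span_mono
  rintro z ⟨W, hWZ, hW, hd, n, f, g, hf, hg, hfW, hgW, rfl⟩
  exact ⟨W, h hWZ, hW, hd, n, f, g, hf, hg, hfW, hgW, rfl⟩

/-- Push-forward of homogeneous rational equivalence along linear sections. -/
theorem push0_RH {β : Type} [Finite β] (θ : MvPolynomial σ K →ₐ[K] MvPolynomial β K) (hθ : Gr θ)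
    (hs : Function.Surjective θ) {k : ℕ} {Z : Set (PrimeSpectrum (MvPolynomial σ K))}
    {Z' : Set (PrimeSpectrum (MvPolynomial β K))} (hZ : ∀ Q ∈ Z', ctr K θ Q ∈ Z)
    {z : PrimeSpectrum (MvPolynomial β K) →₀ 𝕜} (hz : z ∈ RH 𝕜 k Z') :
    push0 K 𝕜 θ z ∈ RH 𝕜 k Z := by
  unfold RH at hz
  induction hz using Submodule.span_induction with
  | mem z hz =>
    obtain ⟨W, hWZ, hW, hd, n, f', g', hf, hg, hfW, hgW, rfl⟩ := hz
    obtain ⟨f, hf', rfl⟩ := hθ.exists_homog hs hf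
    obtain ⟨g, hg', rfl⟩ := hθ.exists_homog hs hg
    rw [map_sub, push0_divCyc K 𝕜 θ hs W hd f hfW, push0_divCyc K 𝕜 θ hs W hd g hgW]
    exact mem_RH 𝕜 (hZ W hWZ) (hθ.homP hW) (by rw [dl_ctr_surj K θ hs, hd]) hf' hg' hfW hgW
  | zero => rw [map_zero]; exact Submodule.zero_mem _
  | add x y _ _ hx hy => rw [map_add]; exact Submodule.add_mem _ hx hy
  | smul c x _ hx => rw [map_smul]; exact Submodule.smul_mem _ _ hx

theorem push0_span {β : Type} [Finite β] (θ : MvPolynomial σ K →ₐ[K] MvPolynomial β K)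
    (B : Set (PrimeSpectrum (MvPolynomial β K)))
    {z : PrimeSpectrum (MvPolynomial β K) →₀ 𝕜}
    (hz : z ∈ Submodule.span 𝕜 {w | ∃ p ∈ B, w = Finsupp.single p 1}) :
    push0 K 𝕜 θ z ∈ Submodule.span 𝕜 {w | ∃ p ∈ (ctr K θ) '' B, w = Finsupp.single p 1} := by
  induction hz using Submodule.span_induction with
  | mem z hz =>
    obtain ⟨p, hp, rfl⟩ := hz
    rw [push0_single]
    exact Submodule.subset_span ⟨_, ⟨p, hp, rfl⟩, rfl⟩
  | zero => rw [map_zero]; exact Submodule.zero_mem _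
  | add x y _ _ hx hy => rw [map_add]; exact Submodule.add_mem _ hx hy
  | smul c x _ hx => rw [map_smul]; exact Submodule.smul_mem _ _ hx

end homog

end Pool.Agent.Bloch.Sep
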