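import Pool.Agent.H11.Sep.RH

set_option linter.unusedSectionVars false
set_option linter.style.haveILetI false

open MvPolynomial

namespace Pool.Agent.Bloch.Sep

variable {K : Type} [Field K]

section th
variable {σ β : Type} [Fintype σ] [Fintype β]

/-- linear forms -/
noncomputable def lf (w : σ → K) : MvPolynomial σ K := ∑ s, C (w s) * X s

theorem lf_homog (w : σ → K) : (lf w).IsHomogeneous 1 := by
  unfold lf
  apply IsHomogeneous.sum
  intro s _
  have := (isHomogeneous_C σ (w s)).mul (isHomogeneous_X K s)
  rwa [zero_add] at this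

theorem lf_add (w w' : σ → K) : lf (w + w') = lf w + lf w' := by
  unfold lf
  rw [← Finset.sum_add_distrib]
  apply Finset.sum_congr rfl
  intro s _
  rw [Pi.add_apply, C_add]; ring

theorem lf_smul (c : K) (w : σ → K) : lf (c • w) = C c * lf w := by
  unfold lf
  rw [Finset.mul_sum]
  apply Finset.sum_congr rfl
  intro s _
  rw [Pi.smul_apply, smul_eq_mul, C_mul]; ring

theorem lf_sub (w w' : σ → K) : lf (w - w') = lf w - lf w' := by
  have : w - w' = w + (-1 : K) • w' := by
    rw [neg_one_smul, sub_eq_add_neg]
  rw [this, lf_add, lf_smul, C_neg, C_1]; ring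

theorem eval_lf (w v : σ → K) : eval v (lf w) = ∑ s, w s * v s := by
  unfold lf
  simp

/-- restriction to the linear subspace parametrised by the family `b` -/
noncomputable def th (b : β → σ → K) : MvPolynomial σ K →ₐ[K] MvPolynomial β K :=
  aeval (fun s => lf (fun j => b j s))

theorem th_X (b : β → σ → K) (s : σ) : th b (X s) = lf (fun j => b j s) := aeval_X _ _

theorem th_gr (b : β → σ → K) : Gr (th b) := fun s => by
  rw [th_X]; exact lf_homog _

theorem eval_th (b : β → σ → K) (c : β → K) (f : MvPolynomial σ K) :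
    eval c (th b f) = eval (fun s => ∑ j, c j * b j s) f := by
  have h : ((eval c).comp (th b : MvPolynomial σ K →+* MvPolynomial β K)) =
      eval (fun s => ∑ j, c j * b j s) := by
    apply MvPolynomial.ringHom_ext
    · intro r
      simp [th]
    · intro s
      rw [RingHom.comp_apply]
      change eval c (th b (X s)) = _
      rw [th_X, eval_lf, eval_X]
      apply Finset.sum_congr rfl
      intro j _
      ring
  exact RingHom.congr_fun h f

theorem th_lf (b : β → σ → K) (w : σ → K) :
    th b (lf w) = lf (fun j => ∑ s, w s * b j s) := by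
  unfold lf
  rw [map_sum]
  simp only [map_mul, th_X, algHom_C, MvPolynomial.algebraMap_eq]
  unfold lf
  simp only [Finset.mul_sum, map_sum, C_mul, Finset.sum_mul]
  rw [Finset.sum_comm]
  apply Finset.sum_congr rfl
  intro j _
  apply Finset.sum_congr rfl
  intro s _
  ring

/-- dual linear forms of an independent family -/
theorem exists_dual {b : β → σ → K} (hb : LinearIndependent K b) [DecidableEq β] :
    ∃ w : β → σ → K, ∀ j k, ∑ s, w j s * b k s = if j = k then 1 else 0 := by
  classical
  let A : (β → K) →ₗ[K] (σ → K) := Fintype.linearCombination K b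
  have hA : LinearMap.ker A = ⊥ := by
    rw [LinearMap.ker_eq_bot]
    intro c c' h
    exact (linearIndependent_iff_injective_fintypeLinearCombination.1 hb) h
  obtain ⟨g, hg⟩ := LinearMap.exists_leftInverse_of_injective A hA
  refine ⟨fun j s => g (Pi.single s 1) j, fun j k => ?_⟩
  have h1 : g (b k) = Pi.single k 1 := by
    have h2 : A (Pi.single k 1) = b k := by
      simp [A, Fintype.linearCombination_apply_single]
    rw [← h2]
    exact DFunLike.congr_fun hg _
  have h3 : b k = ∑ s, b k s • (Pi.single s (1 : K) : σ → K) := by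
    funext s
    rw [Finset.sum_apply, Finset.sum_eq_single s]
    · simp
    · intro s' _ h; simp [Pi.single_eq_of_ne h.symm]
    · intro h; exact absurd (Finset.mem_univ _) h
  have h4 := congrArg (fun v => g v j) h3
  simp only [map_sum, map_smul, Finset.sum_apply, Pi.smul_apply, smul_eq_mul, h1] at h4
  rw [Pi.single_apply] at h4
  rw [h4]
  apply Finset.sum_congr rfl
  intro s _
  ring

theorem lf_single [DecidableEq β] (j : β) : lf (fun k => if j = k then (1 : K) else 0) = X j := by
  unfold lf
  rw [Finset.sum_eq_single j]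
  · simp
  · intro k _ h
    have h2 : ¬ (j = k) := fun h' => h h'.symm
    simp [h2]
  · intro h; exact absurd (Finset.mem_univ _) h

theorem th_surj {b : β → σ → K} (hb : LinearIndependent K b) : Function.Surjective (th b) := by
  classical
  obtain ⟨w, hw⟩ := exists_dual hb
  intro f
  induction f using MvPolynomial.induction_on with
  | C a => exact ⟨C a, by rw [algHom_C, MvPolynomial.algebraMap_eq]⟩
  | add f g hf hg =>
    obtain ⟨f', rfl⟩ := hf
    obtain ⟨g', rfl⟩ := hg
    exact ⟨f' + g', map_add _ _ _⟩
  | mul_X f j hf =>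
    obtain ⟨f', rfl⟩ := hf
    refine ⟨f' * lf (w j), ?_⟩
    rw [map_mul, th_lf]
    simp only [hw, lf_single]

/-- the prime ideal `W` contains the linear forms vanishing on `U` -/
def In (U : Submodule K (σ → K)) (W : PrimeSpectrum (MvPolynomial σ K)) : Prop :=
  ∀ w : σ → K, (∀ v ∈ U, ∑ s, w s * v s = 0) → lf w ∈ W.asIdeal

theorem In.mono {U U' : Submodule K (σ → K)} (h : U ≤ U') {W W' : PrimeSpectrum (MvPolynomial σ K)}
    (hW : W ≤ W') (hI : In U W) : In U' W' := fun w hw =>
  hW (hI w (fun v hv => hw v (h hv)))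

theorem ker_th_le {b : β → σ → K} (hb : LinearIndependent K b)
    {W : PrimeSpectrum (MvPolynomial σ K)} (hI : In (Submodule.span K (Set.range b)) W) :
    ∀ f, th b f = 0 → f ∈ W.asIdeal := by
  classical
  obtain ⟨w, hw⟩ := exists_dual hb
  let ι : MvPolynomial β K →ₐ[K] MvPolynomial σ K := aeval (fun j => lf (w j))
  have h1 : (Ideal.Quotient.mkₐ K W.asIdeal) =
      (Ideal.Quotient.mkₐ K W.asIdeal).comp (ι.comp (th b)) := by
    apply MvPolynomial.algHom_ext
    intro s
    change Ideal.Quotient.mk W.asIdeal (X s) = Ideal.Quotient.mk W.asIdeal (ι (th b (X s)))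
    rw [Ideal.Quotient.eq, th_X]
    have h2 : ι (lf (fun j => b j s)) = lf (fun s' => ∑ j, b j s * w j s') := by
      unfold lf
      simp only [map_sum, map_mul, ι, aeval_X, algHom_C, MvPolynomial.algebraMap_eq]
      unfold lf
      simp only [Finset.mul_sum, Finset.sum_mul]
      rw [Finset.sum_comm]
      apply Finset.sum_congr rfl
      intro s' _
      apply Finset.sum_congr rfl
      intro j _
      ring
    rw [h2]
    have h3 : (X s : MvPolynomial σ K) = lf (fun s' => if s = s' then 1 else 0) :=
      (lf_single s).symm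
    rw [h3, ← lf_sub]
    apply hI
    intro v hv
    induction hv using Submodule.span_induction with
    | mem v hv =>
      obtain ⟨k, rfl⟩ := hv
      simp only [Pi.sub_apply, sub_mul, Finset.sum_sub_distrib, ite_mul, one_mul, zero_mul,
        Finset.sum_ite_eq, Finset.mem_univ, if_true, Finset.sum_mul]
      rw [Finset.sum_comm]
      simp only [mul_assoc, ← Finset.mul_sum, hw]
      simp
    | zero => simp
    | add x y _ _ hx hy =>
      simp only [Pi.add_apply, mul_add, Finset.sum_add_distrib]
      rw [hx, hy, add_zero]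
    | smul c x _ hx =>
      have : ∀ s', ((fun s' => if s = s' then (1 : K) else 0) - fun s' => ∑ j, b j s * w j s') s' *
        (c • x) s' = c * (((fun s' => if s = s' then (1 : K) else 0) -
          fun s' => ∑ j, b j s * w j s') s' * x s') := by
        intro s'
        rw [Pi.smul_apply, smul_eq_mul]; ring
      simp only [this]
      rw [← Finset.mul_sum, hx, mul_zero]
  intro f hf
  have h4 : Ideal.Quotient.mk W.asIdeal f = Ideal.Quotient.mk W.asIdeal (ι (th b f)) :=
    DFunLike.congr_fun h1 f
  rw [hf, map_zero, map_zero] at h4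
  exact Ideal.Quotient.eq_zero_iff_mem.1 h4

theorem exists_lift {P T : Type} [CommRing P] [Algebra K P] [CommRing T] [Algebra K T]
    [Algebra.EssFiniteType K P] [IsNoetherianRing P] [Algebra.EssFiniteType K T]
    [IsNoetherianRing T]
    (θ : P →ₐ[K] T) (hθ : Function.Surjective θ) (W : PrimeSpectrum P)
    (h : ∀ f, θ f = 0 → f ∈ W.asIdeal) : ∃ W', ctr K θ W' = W := by
  obtain ⟨Q, _, hQ⟩ := exists_uset (frac_of_surj K θ hθ) W h (by
    intro u hu h1
    rw [Submonoid.mem_bot] at hu
    rw [hu] at h1
    exact W.2.ne_top ((Ideal.eq_top_iff_one _).2 h1))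
  exact ⟨Q, hQ⟩

/-- parametrisation of primes supported on a linear subspace -/
theorem In.exists_ctr {b : β → σ → K} (hb : LinearIndependent K b)
    {W : PrimeSpectrum (MvPolynomial σ K)} (hI : In (Submodule.span K (Set.range b)) W) :
    ∃ W' : PrimeSpectrum (MvPolynomial β K), ctr K (th b) W' = W :=
  exists_lift (th b) (th_surj hb) W (ker_th_le hb hI)

theorem In_ctr (b : β → σ → K) (W' : PrimeSpectrum (MvPolynomial β K)) :
    In (Submodule.span K (Set.range b)) (ctr K (th b) W') := by
  intro w hw
  rw [mem_ctr, th_lf]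
  have : (fun j => ∑ s, w s * b j s) = 0 := by
    funext j
    exact hw _ (Submodule.subset_span ⟨j, rfl⟩)
  rw [this]
  have : lf (0 : β → K) = 0 := by
    unfold lf
    simp
  rw [this]; exact Ideal.zero_mem _

/-- the prime ideal of a linear subspace -/
noncomputable def Lin (b : β → σ → K) : PrimeSpectrum (MvPolynomial σ K) :=
  ctr K (th b) ⟨⊥, Ideal.isPrime_bot⟩

theorem mem_Lin (b : β → σ → K) (f : MvPolynomial σ K) : f ∈ (Lin b).asIdeal ↔ th b f = 0 :=
  Iff.rfl

theorem homP_bot : HomP (⟨⊥, Ideal.isPrime_bot⟩ : PrimeSpectrum (MvPolynomial β K)) := by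
  intro f hf n
  rw [Ideal.mem_bot] at hf
  rw [hf, map_zero]
  exact Ideal.zero_mem _

theorem homP_Lin (b : β → σ → K) : HomP (Lin b) := (th_gr b).homP homP_bot

theorem dl_mv (β : Type) [Fintype β] :
    dl K (⟨⊥, Ideal.isPrime_bot⟩ : PrimeSpectrum (MvPolynomial β K)) = Fintype.card β := by
  unfold dl
  rw [td_congr K (AlgEquiv.quotientBot K (MvPolynomial β K))]
  unfold td
  rw [MvPolynomial.trdeg_of_isDomain]
  simp

theorem dl_Lin {b : β → σ → K} (hb : LinearIndependent K b) :
    dl K (Lin b) = Fintype.card β := by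
  unfold Lin
  rw [dl_ctr_surj K _ (th_surj hb), dl_mv]

theorem sum_fun (b : β → σ → K) (c : β → K) :
    (fun s => ∑ j, c j * b j s) = ∑ j, c j • b j := by
  funext s
  rw [Finset.sum_apply]
  rfl

theorem mem_Lin_iff [Infinite K] (b : β → σ → K) (f : MvPolynomial σ K) :
    f ∈ (Lin b).asIdeal ↔ ∀ v ∈ Submodule.span K (Set.range b), eval v f = 0 := by
  rw [mem_Lin]
  constructor
  · intro h v hv
    obtain ⟨c, rfl⟩ := (Submodule.mem_span_range_iff_exists_fun K).1 hv
    have := congrArg (eval c) h
    rw [eval_th, map_zero, sum_fun] at this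
    exact this
  · intro h
    apply MvPolynomial.funext
    intro c
    rw [eval_th, map_zero, sum_fun]
    exact h (∑ j, c j • b j) ((Submodule.mem_span_range_iff_exists_fun K).2 ⟨c, rfl⟩)

theorem In_Lin (b : β → σ → K) : In (Submodule.span K (Set.range b)) (Lin b) := In_ctr b _

/-- a prime of maximal dimension supported on a linear subspace -/
theorem eq_Lin {b : β → σ → K} (hb : LinearIndependent K b)
    {W : PrimeSpectrum (MvPolynomial σ K)} (hI : In (Submodule.span K (Set.range b)) W)
    (hd : dl K W = Fintype.card β) : W = Lin b := by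
  symm
  apply eq_of_le_of_dl K
  · exact ker_th_le hb hI
  · rw [dl_Lin hb, hd]

end th

end Pool.Agent.Bloch.Sep
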